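import Mathlib
import Pool.Agent.TH881.RQ.Defs2
import Pool.Agent.TH159.J1235

/-! Job 2923 (helper881, MP_7169d5_nt), RQ-D1: moments of the local factors over all integers of a
residue class. -/

set_option autoImplicit false

namespace Pool.Agent.TH365.J2923

open Finset Filter Topology Polynomial
open Pool.Agent.TH881
open Pool.Agent.TH881.RG
open Pool.Agent.TH881.RQ
open Pool.Agent.H373R2.T7

/-- the number of elements of a class -/
lemma class_card (M a X : ℕ) :
    ((Icc 1 X).filter (fun b' => b' ≡ a [MOD M])).card ≤ X / M + 1 := by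
  classical
  have h : ((Icc 1 X).filter (fun b' => b' ≡ a [MOD M])).card ≤ (range (X / M + 1)).card := by
    apply card_le_card_of_injOn (fun x => x / M)
    · intro x hx
      have hx' : x ∈ (Icc 1 X).filter (fun b' => b' ≡ a [MOD M]) := hx
      rw [mem_filter, mem_Icc] at hx'
      have : x / M < X / M + 1 := Nat.lt_succ_of_le (Nat.div_le_div_right hx'.1.2)
      simpa using this
    · intro x hx y hy hxy
      have hx' : x ∈ (Icc 1 X).filter (fun b' => b' ≡ a [MOD M]) := hx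
      have hy' : y ∈ (Icc 1 X).filter (fun b' => b' ≡ a [MOD M]) := hy
      rw [mem_filter] at hx' hy'
      have h1 : x % M = y % M := hx'.2.trans hy'.2.symm
      have h2 : x / M = y / M := hxy
      rw [← Nat.div_add_mod x M, ← Nat.div_add_mod y M, h1, h2]
  rwa [card_range] at h

/-- the roots modulo a prime -/
lemma roots_card (G : ℤ[X]) (p : ℕ) (hp : p.Prime) (hG : ¬ (p : ℤ) ∣ G.leadingCoeff) :
    ((range p).filter (fun r : ℕ => (p : ℤ) ∣ G.eval (r : ℤ))).card ≤ G.natDegree := by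
  classical
  have : Fact p.Prime := ⟨hp⟩
  set Gp := G.map (Int.castRingHom (ZMod p)) with hGp
  have hne : Gp ≠ 0 := by
    intro h
    have h1 : Gp.coeff G.natDegree = 0 := by rw [h, coeff_zero]
    rw [hGp, coeff_map, coeff_natDegree, eq_intCast, ZMod.intCast_zmod_eq_zero_iff_dvd] at h1
    exact hG h1
  calc ((range p).filter (fun r : ℕ => (p : ℤ) ∣ G.eval (r : ℤ))).card ≤ Gp.roots.toFinset.card := by
        apply card_le_card_of_injOn (fun r : ℕ => (r : ZMod p))
        · intro r hr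
          have hr' : r ∈ (range p).filter (fun r : ℕ => (p : ℤ) ∣ G.eval (r : ℤ)) := hr
          rw [mem_filter, mem_range] at hr'
          simp only [Multiset.mem_toFinset, mem_coe]
          rw [mem_roots hne, IsRoot.def, hGp, eval_map]
          have h2 := (ZMod.intCast_zmod_eq_zero_iff_dvd (G.eval (r : ℤ)) p).2 hr'.2
          have h3 : ((G.eval (r : ℤ) : ℤ) : ZMod p) = eval₂ (Int.castRingHom (ZMod p)) (r : ZMod p) G := by
            have h4 := Polynomial.hom_eval₂ G (RingHom.id ℤ) (Int.castRingHom (ZMod p)) (r : ℤ)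
            simp only [eq_intCast, Int.cast_natCast, RingHom.comp_id] at h4
            rw [← h4]
            rfl
          rw [← h3]
          exact h2
        · intro x hx y hy hxy
          have hx' : x ∈ (range p).filter (fun r : ℕ => (p : ℤ) ∣ G.eval (r : ℤ)) := hx
          have hy' : y ∈ (range p).filter (fun r : ℕ => (p : ℤ) ∣ G.eval (r : ℤ)) := hy
          rw [mem_filter, mem_range] at hx' hy'
          have h1 : (x : ZMod p) = (y : ZMod p) := hxy
          rw [ZMod.natCast_eq_natCast_iff] at h1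
          exact Nat.ModEq.eq_of_lt_of_lt h1 hx'.1 hy'.1
    _ ≤ Multiset.card Gp.roots := Multiset.toFinset_card_le _
    _ ≤ Gp.natDegree := card_roots' _
    _ ≤ G.natDegree := natDegree_map_le

/-- the elements of a class at which `G` is divisible by the primes of `S` -/
lemma class_roots (G : ℤ[X]) (X : ℕ) (S : Finset ℕ) (hS : ∀ p ∈ S, p.Prime)
    (hG : ∀ p ∈ S, ¬ (p : ℤ) ∣ G.leadingCoeff) :
    ∀ M : ℕ, 0 < M → (∀ p ∈ S, ¬ p ∣ M) → ∀ a : ℕ,
    ((Icc 1 X).filter (fun b' => b' ≡ a [MOD M] ∧ ∀ p ∈ S, (p : ℤ) ∣ G.eval (b' : ℤ))).card ≤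
      G.natDegree ^ S.card * (X / (M * ∏ p ∈ S, p) + 1) := by
  classical
  induction S using Finset.induction_on with
  | empty =>
    intro M hM _ a
    simpa using class_card M a X
  | insert q S hq ih =>
    intro M hM hcop a
    have hqp := hS q (mem_insert_self q S)
    have ih' := ih (fun p hp => hS p (mem_insert_of_mem hp)) (fun p hp => hG p (mem_insert_of_mem hp))
    have hqM : Nat.Coprime q M := (hqp.coprime_iff_not_dvd).2 (hcop q (mem_insert_self q S))
    set R := (range q).filter (fun r : ℕ => (q : ℤ) ∣ G.eval (r : ℤ)) with hR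
    have hRc : R.card ≤ G.natDegree := roots_card G q hqp (hG q (mem_insert_self q S))
    have hsub : (Icc 1 X).filter (fun b' => b' ≡ a [MOD M] ∧ ∀ p ∈ insert q S, (p : ℤ) ∣ G.eval (b' : ℤ)) ⊆
        R.biUnion (fun r => (Icc 1 X).filter (fun b' => b' ≡ (Nat.chineseRemainder hqM r a : ℕ) [MOD (q * M)] ∧
          ∀ p ∈ S, (p : ℤ) ∣ G.eval (b' : ℤ))) := by
      intro x hx
      rw [mem_filter] at hx
      rw [mem_biUnion]
      refine ⟨x % q, ?_, ?_⟩
      · rw [hR, mem_filter, mem_range]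
        refine ⟨Nat.mod_lt _ hqp.pos, ?_⟩
        have h1 : (q : ℤ) ∣ G.eval (x : ℤ) := hx.2.2 q (mem_insert_self q S)
        have h2 : (x : ℤ) - ((x % q : ℕ) : ℤ) ∣ G.eval (x : ℤ) - G.eval ((x % q : ℕ) : ℤ) :=
          Polynomial.sub_dvd_eval_sub _ _ _
        have h3 : (q : ℤ) ∣ (x : ℤ) - ((x % q : ℕ) : ℤ) := by
          refine ⟨((x / q : ℕ) : ℤ), ?_⟩
          have := Nat.div_add_mod x q
          have h4 : (x : ℤ) = (q : ℤ) * ((x / q : ℕ) : ℤ) + ((x % q : ℕ) : ℤ) := by exact_mod_cast this.symm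
          linarith
        have h5 := h3.trans h2
        have h6 := dvd_sub h1 h5
        simpa using h6
      · rw [mem_filter]
        refine ⟨hx.1, ?_, fun p hp => hx.2.2 p (mem_insert_of_mem hp)⟩
        have h7 := (Nat.chineseRemainder hqM (x % q) a).2
        apply (Nat.modEq_and_modEq_iff_modEq_mul hqM).1
        refine ⟨?_, ?_⟩
        · exact ((Nat.mod_modEq x q).symm).trans h7.1.symm
        · exact hx.2.1.trans h7.2.symm
    have hb : ∀ r ∈ R, ((Icc 1 X).filter (fun b' => b' ≡ (Nat.chineseRemainder hqM r a : ℕ) [MOD (q * M)] ∧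
          ∀ p ∈ S, (p : ℤ) ∣ G.eval (b' : ℤ))).card ≤ G.natDegree ^ S.card * (X / (M * ∏ p ∈ insert q S, p) + 1) := by
      intro r _
      have h8 := ih' (q * M) (Nat.mul_pos hqp.pos hM) (by
        intro p hp hdvd
        have hpp := hS p (mem_insert_of_mem hp)
        rcases (hpp.dvd_mul).1 hdvd with h | h
        · rw [Nat.prime_dvd_prime_iff_eq hpp hqp] at h
          rw [h] at hp
          exact hq hp
        · exact hcop p (mem_insert_of_mem hp) h) (Nat.chineseRemainder hqM r a : ℕ)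
      rw [prod_insert hq]
      have e : M * (q * ∏ p ∈ S, p) = q * M * ∏ p ∈ S, p := by ring
      rw [e]
      exact h8
    calc _ ≤ _ := card_le_card hsub
      _ ≤ ∑ r ∈ R, _ := card_biUnion_le
      _ ≤ ∑ _r ∈ R, G.natDegree ^ S.card * (X / (M * ∏ p ∈ insert q S, p) + 1) := sum_le_sum hb
      _ = R.card * (G.natDegree ^ S.card * (X / (M * ∏ p ∈ insert q S, p) + 1)) := by
        rw [sum_const, smul_eq_mul]
      _ ≤ G.natDegree * (G.natDegree ^ S.card * (X / (M * ∏ p ∈ insert q S, p) + 1)) :=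
        Nat.mul_le_mul_right _ hRc
      _ = _ := by
        rw [card_insert_of_notMem hq, pow_succ]
        ring

/-- eventual positivity -/
lemma ev_pos (P : ℝ[X]) (h : 0 < P.leadingCoeff) : ∃ x0 : ℝ, ∀ x : ℝ, x0 ≤ x → 0 < P.eval x := by
  have h1 : ∀ᶠ x in atTop, 0 < P.eval x := by
    rcases Nat.eq_zero_or_pos P.natDegree with h0 | h0
    · have h2 := Polynomial.eq_C_of_natDegree_eq_zero h0
      refine Eventually.of_forall fun x => ?_
      rw [h2, eval_C]
      rw [h2, leadingCoeff_C] at h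
      exact h
    · have h2 : Tendsto (fun x => eval x P) atTop atTop :=
        Polynomial.tendsto_atTop_of_leadingCoeff_nonneg P
          (Polynomial.natDegree_pos_iff_degree_pos.1 h0) h.le
      exact h2.eventually_gt_atTop 0
  exact eventually_atTop.1 h1

/-- `g` is injective on the large numbers -/
lemma ev_inj (g : ℤ[X]) (hd : 1 ≤ g.natDegree) (hl : 0 < g.leadingCoeff) :
    ∃ x0 : ℝ, ∀ a b : ℕ, x0 ≤ a → x0 ≤ b → a ≠ b → g.eval (a : ℤ) ≠ g.eval (b : ℤ) := by
  set P := g.map (Int.castRingHom ℝ) with hP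
  have hPl : P.leadingCoeff = (g.leadingCoeff : ℝ) := by
    rw [hP, leadingCoeff_map_of_injective (RingHom.injective_int (Int.castRingHom ℝ))]
    simp
  have hPd : P.natDegree = g.natDegree := by
    rw [hP, natDegree_map_eq_of_injective (RingHom.injective_int (Int.castRingHom ℝ))]
  have hPl0 : 0 < P.leadingCoeff := by
    rw [hPl]
    exact_mod_cast hl
  have hdl : (derivative P).leadingCoeff = P.leadingCoeff * P.natDegree := by
    have h1 : (derivative P).coeff (P.natDegree - 1) = P.leadingCoeff * P.natDegree := by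
      rw [coeff_derivative]
      have h2 : P.natDegree - 1 + 1 = P.natDegree := by omega
      rw [h2, coeff_natDegree]
      congr 1
      have h3 : 1 ≤ P.natDegree := by omega
      push_cast [Nat.cast_sub h3]
      ring
    have h4 : (derivative P).natDegree = P.natDegree - 1 := by
      apply le_antisymm (natDegree_derivative_le P)
      apply le_natDegree_of_ne_zero
      rw [h1]
      have : (0 : ℝ) < P.natDegree := by exact_mod_cast (by omega : 0 < P.natDegree)
      positivity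
    rw [leadingCoeff, h4, h1]
  obtain ⟨x0, hx0⟩ := ev_pos (derivative P) (by
    rw [hdl]
    have : (0 : ℝ) < P.natDegree := by exact_mod_cast (by omega : 0 < P.natDegree)
    positivity)
  have hmono : StrictMonoOn (fun x : ℝ => P.eval x) (Set.Ici x0) := by
    apply strictMonoOn_of_deriv_pos (convex_Ici x0) P.continuous.continuousOn
    intro x hx
    rw [interior_Ici] at hx
    rw [Polynomial.deriv]
    exact hx0 x (le_of_lt hx)
  have hev : ∀ n : ℕ, P.eval (n : ℝ) = ((g.eval (n : ℤ) : ℤ) : ℝ) := by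
    intro n
    rw [hP, Polynomial.eval_natCast_map, eq_intCast]
  refine ⟨x0, fun a b ha hb hab h => hab ?_⟩
  have h1 : P.eval (a : ℝ) = P.eval (b : ℝ) := by rw [hev, hev, h]
  have h2 := hmono.injOn (Set.mem_Ici.2 ha) (Set.mem_Ici.2 hb) h1
  exact_mod_cast h2

/-- `g` grows at most like a power -/
lemma ev_le (g : ℤ[X]) : ∃ x0 : ℕ, ∀ a b X : ℕ, x0 ≤ X → a ≤ X → b ≤ X →
    (g.eval (a : ℤ) - g.eval (b : ℤ)).natAbs ≤ X ^ (g.natDegree + 1) := by
  set C := ∑ i ∈ range (g.natDegree + 1), (g.coeff i).natAbs with hC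
  have h1 : ∀ a X : ℕ, 1 ≤ X → a ≤ X → (g.eval (a : ℤ)).natAbs ≤ C * X ^ g.natDegree := by
    intro a X hX ha
    rw [eval_eq_sum_range, hC, sum_mul]
    refine (Int.natAbs_sum_le _ _).trans (sum_le_sum ?_)
    intro i hi
    rw [Int.natAbs_mul, Int.natAbs_pow, Int.natAbs_natCast]
    apply Nat.mul_le_mul_left
    rw [mem_range] at hi
    exact (Nat.pow_le_pow_left ha i).trans (Nat.pow_le_pow_right hX (by omega))
  refine ⟨2 * C + 1, fun a b X hX ha hb => ?_⟩
  have h2 := h1 a X (by omega) ha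
  have h3 := h1 b X (by omega) hb
  calc (g.eval (a : ℤ) - g.eval (b : ℤ)).natAbs ≤ (g.eval (a : ℤ)).natAbs + (g.eval (b : ℤ)).natAbs :=
        Int.natAbs_sub_le _ _
    _ ≤ 2 * C * X ^ g.natDegree := by
        have : 2 * C * X ^ g.natDegree = C * X ^ g.natDegree + C * X ^ g.natDegree := by ring
        omega
    _ ≤ X * X ^ g.natDegree := Nat.mul_le_mul_right _ (by omega)
    _ = _ := by ring

/-- the Euler product -/
lemma euler (J d w L : ℕ) (hw : 4 * J * d ≤ w) (hwJ : 4 * J ≤ w) (hw1 : 1 ≤ w) :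
    ∏ p ∈ pT w L, (1 + ((1 - 1 / (p : ℝ))⁻¹ ^ J - 1) * (d / p)) ≤ Real.exp 1 := by
  have hw0 : (0 : ℝ) < w := by exact_mod_cast hw1
  have hwJ' : 4 * (J : ℝ) ≤ w := by exact_mod_cast hwJ
  have hwd : 4 * (J : ℝ) * d ≤ w := by exact_mod_cast hw
  have hd0 : (0 : ℝ) ≤ d := Nat.cast_nonneg d
  have h3 : ∀ p ∈ pT w L, 1 + ((1 - 1 / (p : ℝ))⁻¹ ^ J - 1) * (d / p) ≤
      Real.exp (4 * J * d * (1 / ((p : ℝ) * (p - 1)))) := by
    intro p hp
    have hp' := mem_pT.1 hp
    have hp2 : (2 : ℝ) ≤ p := by exact_mod_cast hp'.2.2.two_le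
    have hpy : (w : ℝ) + 1 ≤ p := by exact_mod_cast hp'.1
    have hp1 : (0 : ℝ) < p - 1 := by linarith
    have e3 : (1 - 1 / (p : ℝ))⁻¹ ^ J ≤ Real.exp (J / (p - 1)) := by
      calc (1 - 1 / (p : ℝ))⁻¹ ^ J ≤ Real.exp (1 / (p - 1)) ^ J :=
            pow_le_pow_left₀ (inv_nonneg.2 (fac_pos hp'.2.2).le)
              (Pool.Agent.TH159.J1235.fac_inv_le_exp hp'.2.2) J
        _ = _ := by
            rw [← Real.exp_nat_mul]
            congr 1
            ring
    have hJ0 : (0 : ℝ) ≤ J := Nat.cast_nonneg J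
    have e4 : (J : ℝ) / (p - 1) ≤ 1 := by
      rw [div_le_one hp1]
      linarith
    have e5 := exp_le_lin ((J : ℝ) / (p - 1)) (by positivity) e4
    have e7 : ((1 - 1 / (p : ℝ))⁻¹ ^ J - 1) * (d / p) ≤ (2 * (J / (p - 1))) * (d / p) := by
      apply mul_le_mul_of_nonneg_right _ (by positivity)
      linarith
    have e8 : (2 * ((J : ℝ) / (p - 1))) * (d / p) ≤ 4 * J * d * (1 / ((p : ℝ) * (p - 1))) := by
      have e9 : (2 * ((J : ℝ) / (p - 1))) * (d / p) = 2 * J * d * (1 / ((p : ℝ) * (p - 1))) := by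
        field_simp
      rw [e9]
      apply mul_le_mul_of_nonneg_right _ (by positivity)
      nlinarith [mul_nonneg hJ0 hd0]
    calc 1 + ((1 - 1 / (p : ℝ))⁻¹ ^ J - 1) * (d / p) ≤
          4 * J * d * (1 / ((p : ℝ) * (p - 1))) + 1 := by linarith
      _ ≤ _ := Real.add_one_le_exp _
  calc ∏ p ∈ pT w L, (1 + ((1 - 1 / (p : ℝ))⁻¹ ^ J - 1) * (d / p))
      ≤ ∏ p ∈ pT w L, Real.exp (4 * J * d * (1 / ((p : ℝ) * (p - 1)))) := by
        apply prod_le_prod _ h3
        intro p hp
        have hp' := mem_pT.1 hp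
        have hp2 : (2 : ℝ) ≤ p := by exact_mod_cast hp'.2.2.two_le
        have h4 := one_le_pow₀ (n := J) (one_le_fac_inv hp'.2.2)
        have h5 : 0 ≤ ((1 - 1 / (p : ℝ))⁻¹ ^ J - 1) * (d / p) :=
          mul_nonneg (by linarith) (by positivity)
        linarith
    _ = Real.exp (∑ p ∈ pT w L, 4 * J * d * (1 / ((p : ℝ) * (p - 1)))) := by rw [Real.exp_sum]
    _ ≤ Real.exp 1 := by
        apply Real.exp_le_exp.2
        rw [← mul_sum]
        calc 4 * (J : ℝ) * d * ∑ p ∈ pT w L, 1 / ((p : ℝ) * (p - 1)) ≤ 4 * J * d * (1 / w) :=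
              mul_le_mul_of_nonneg_left (sum_telescope w L hw1) (by positivity)
          _ ≤ 1 := by
            rw [mul_one_div, div_le_one hw0]
            exact hwd

lemma card_AA (w : ℕ) : (AA false w).card = Wp w := by
  unfold AA
  simp [ZMod.card]

theorem stPMq_all (g : ℤ[X]) (hd : 1 ≤ g.natDegree) (hl : 0 < g.leadingCoeff) : StPMq false g := by
  classical
  intro J E
  obtain ⟨xi, hxi⟩ := ev_inj g hd hl
  obtain ⟨xu, hxu⟩ := ev_le g
  obtain ⟨d, hdd⟩ : ∃ d : ℕ, d = g.natDegree := ⟨_, rfl⟩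
  refine ⟨4 * J * d + 4 * J + 1 + g.leadingCoeff.natAbs, fun w hw => ?_⟩
  set W := Wp w with hWdef
  have hW : 0 < W := Wp_pos w
  have hWr : (0 : ℝ) < W := by exact_mod_cast hW
  have hW1 : (1 : ℝ) ≤ W := by exact_mod_cast hW
  have hlW : 0 ≤ Real.log W := Real.log_nonneg hW1
  have hxim : xi ≤ max xi 1 := le_max_left _ _
  have hxi1 : (1 : ℝ) ≤ max xi 1 := le_max_right _ _
  have hlxi : 0 ≤ Real.log (max xi 1) := Real.log_nonneg hxi1
  refine ⟨⌈Real.exp (32 * Real.exp (32 * (J * (d + 1) + 1)) + 64 + 14 * Real.log W +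
    4 * Real.log (max xi 1))⌉₊ + xu, ?_⟩
  intro X hX z _ a b hb hbX
  have hN' := Nat.ceil_le.1 (le_trans (Nat.le_add_right _ _) hX)
  have hXu : xu ≤ X := le_trans (Nat.le_add_left _ _) hX
  have hN0 : (0 : ℝ) < X := lt_of_lt_of_le (Real.exp_pos _) hN'
  have hJ0 : (0 : ℝ) ≤ J := Nat.cast_nonneg J
  have hd0 : (0 : ℝ) ≤ d := Nat.cast_nonneg d
  have hJd0 : (0 : ℝ) ≤ J * (d + 1) := by positivity
  obtain ⟨x, hx⟩ : ∃ x : ℝ, x = Real.log X := ⟨_, rfl⟩
  have hxA : 32 * Real.exp (32 * (J * (d + 1) + 1)) + 64 + 14 * Real.log W +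
      4 * Real.log (max xi 1) ≤ x := by
    rw [hx, Real.le_log_iff_exp_le hN0]
    exact hN'
  have hexp0 := Real.exp_pos (32 * ((J : ℝ) * (d + 1) + 1))
  have hx64 : 64 ≤ x := by linarith
  have hXsq : max xi 1 ≤ √(X : ℝ) := by
    rw [← Real.log_le_log_iff (by linarith) (Real.sqrt_pos.2 hN0), Real.log_sqrt hN0.le, ← hx]
    linarith
  -- the level
  obtain ⟨L, hL⟩ : ∃ L : ℕ, L = ⌊x / 16⌋₊ := ⟨_, rfl⟩
  have hL2 : (L : ℝ) ≤ x / 16 := by
    rw [hL]
    exact Nat.floor_le (by linarith)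
  have hL1 : x / 32 ≤ L := by
    have := Nat.lt_floor_add_one (x / 16)
    rw [← hL] at this
    linarith
  have hL0 : (0 : ℝ) < L := by linarith
  have hLlog : 32 * ((J : ℝ) * (d + 1) + 1) ≤ Real.log L := by
    rw [Real.le_log_iff_exp_le hL0]
    linarith
  have hLlog0 : 0 < Real.log L := by linarith
  have hL22 : 2 ≤ L := by
    have : (2 : ℝ) ≤ L := by linarith
    exact_mod_cast this
  -- the tail
  have htail : ∀ h : ℕ, 0 < h → h ≤ X ^ (d + 1) → gw L z h ^ J ≤ Real.exp 1 := by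
    intro h h0 hhN
    have h1 := Pool.Agent.TH159.J1235.gw_tail L z h (X ^ (d + 1)) hL22 h0 hhN
    calc gw L z h ^ J ≤ Real.exp (Real.log ((X ^ (d + 1) : ℕ) : ℝ) / Real.log L / L) ^ J :=
          pow_le_pow_left₀ (zero_le_one.trans (one_le_gw L z h)) h1 J
      _ = Real.exp (J * (Real.log ((X ^ (d + 1) : ℕ) : ℝ) / Real.log L / L)) := by
        rw [← Real.exp_nat_mul]
      _ ≤ Real.exp 1 := by
        apply Real.exp_le_exp.2
        rw [Nat.cast_pow, Real.log_pow, ← hx, div_div, ← mul_div_assoc, div_le_one (by positivity)]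
        push_cast
        calc (J : ℝ) * (((d : ℝ) + 1) * x) ≤ (32 * (J * (d + 1) + 1)) * (x / 32) := by nlinarith
          _ ≤ Real.log L * L := mul_le_mul hLlog hL1 (by linarith) hLlog0.le
  -- the classes
  set F0 := (Icc 1 X).filter (fun b' => b' ≡ a [MOD W]) with hF0
  obtain ⟨G, hG⟩ : ∃ G : ℤ[X], G = g - C (g.eval (b : ℤ)) := ⟨_, rfl⟩
  have hGd : G.natDegree = d := by rw [hG, natDegree_sub_C, hdd]
  have hGl : G.leadingCoeff = g.leadingCoeff := by
    rw [leadingCoeff, hGd, hG, coeff_sub, coeff_C, if_neg (by omega), sub_zero, hdd, leadingCoeff]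
  have hGe : ∀ b' : ℕ, G.eval (b' : ℤ) = g.eval (b' : ℤ) - g.eval (b : ℤ) := by
    intro b'
    rw [hG, eval_sub, eval_C]
  have hcount : ∀ S ∈ (pT w L).powerset,
      ((F0.filter (fun b' : ℕ => (∏ p ∈ S, p) ∣ (g.eval (b' : ℤ) - g.eval (b : ℤ)).natAbs)).card : ℝ) ≤
      2 * (X / W) * ∏ p ∈ S, ((d : ℝ) / p) := by
    intro S hS
    rw [mem_powerset] at hS
    have hSp : ∀ p ∈ S, p.Prime := fun p hp => (mem_pT.1 (hS hp)).2.2
    have hd0 : 0 < ∏ p ∈ S, p := prod_pos fun p hp => (hSp p hp).pos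
    have hcop := Pool.Agent.TH159.J1235.coprime_W w L S hS
    rw [← hWdef] at hcop
    have hd4 := Pool.Agent.TH159.J1235.prod_le_four_pow w L S hS
    have hroots := class_roots G X S hSp (by
      intro p hp hdvd
      rw [hGl] at hdvd
      have h1 := Int.le_of_dvd hl hdvd
      have h2 := (mem_pT.1 (hS hp)).1
      have h3 : (g.leadingCoeff.natAbs : ℤ) = g.leadingCoeff := Int.natAbs_of_nonneg hl.le
      omega) W hW (by
      intro p hp hdvd
      have h2 := (mem_pT.1 (hS hp)).1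
      have h3 := (prime_dvd_Wp (hSp p hp)).1 hdvd
      omega) a
    rw [hGd] at hroots
    have hsub : F0.filter (fun b' : ℕ => (∏ p ∈ S, p) ∣ (g.eval (b' : ℤ) - g.eval (b : ℤ)).natAbs) ⊆
        (Icc 1 X).filter (fun b' : ℕ => b' ≡ a [MOD W] ∧ ∀ p ∈ S, (p : ℤ) ∣ G.eval (b' : ℤ)) := by
      intro y hy
      rw [hF0, mem_filter, mem_filter] at hy
      rw [mem_filter]
      refine ⟨hy.1.1, hy.1.2, fun p hp => ?_⟩
      rw [hGe]
      exact Int.natCast_dvd.2 ((Finset.dvd_prod_of_mem (fun p => p) hp).trans hy.2)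
    have hle := (card_le_card hsub).trans hroots
    have hdr : (0 : ℝ) < ((∏ p ∈ S, p : ℕ) : ℝ) := by exact_mod_cast hd0
    have hdr' : (0 : ℝ) < ∏ p ∈ S, (p : ℝ) := by
      have := hdr
      push_cast at this
      exact this
    have hq1 : W * ∏ p ∈ S, p ≤ X := by
      have h1 : Real.log ((W * ∏ p ∈ S, p : ℕ) : ℝ) ≤ Real.log X := by
        push_cast
        rw [Real.log_mul hWr.ne' hdr'.ne', ← hx]
        have h1 : Real.log ((∏ p ∈ S, p : ℕ) : ℝ) ≤ Real.log ((4 : ℝ) ^ L) := by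
          apply Real.log_le_log hdr
          exact_mod_cast hd4
        rw [Real.log_pow] at h1
        have h2 : Real.log 4 ≤ 2 := by
          have h3 : (4 : ℝ) = 2 ^ 2 := by norm_num
          rw [h3, Real.log_pow]
          have := Real.log_two_lt_d9
          push_cast
          linarith
        have h3 : (L : ℝ) * Real.log 4 ≤ L * 2 := mul_le_mul_of_nonneg_left h2 hL0.le
        push_cast at h1
        linarith
      have h2 := (Real.log_le_log_iff (by
        have : 0 < W * ∏ p ∈ S, p := Nat.mul_pos hW hd0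
        exact_mod_cast this) hN0).1 h1
      exact_mod_cast h2
    have hpos : 0 < W * ∏ p ∈ S, p := Nat.mul_pos hW hd0
    have hposr : (0 : ℝ) < ((W * ∏ p ∈ S, p : ℕ) : ℝ) := by exact_mod_cast hpos
    have h5 : ((X / (W * ∏ p ∈ S, p) + 1 : ℕ) : ℝ) ≤ 2 * (X / ((W * ∏ p ∈ S, p : ℕ) : ℝ)) := by
      push_cast
      have h6 : ((X / (W * ∏ p ∈ S, p) : ℕ) : ℝ) ≤ (X : ℝ) / ((W * ∏ p ∈ S, p : ℕ) : ℝ) := Nat.cast_div_le
      have h7 : 1 ≤ (X : ℝ) / ((W * ∏ p ∈ S, p : ℕ) : ℝ) := by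
        rw [le_div_iff₀ hposr, one_mul]
        exact_mod_cast hq1
      push_cast at h6 h7
      linarith
    have hle' : ((F0.filter (fun b' : ℕ => (∏ p ∈ S, p) ∣ (g.eval (b' : ℤ) - g.eval (b : ℤ)).natAbs)).card : ℝ) ≤
        (d : ℝ) ^ S.card * ((X / (W * ∏ p ∈ S, p) + 1 : ℕ) : ℝ) := by exact_mod_cast hle
    refine hle'.trans ((mul_le_mul_of_nonneg_left h5 (by positivity)).trans (le_of_eq ?_))
    rw [prod_div_distrib, prod_const]
    push_cast
    field_simp
  -- the sum over the classes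
  obtain ⟨c, hc⟩ : ∃ c : ℕ → ℝ, c = fun p : ℕ => (1 - 1 / (p : ℝ))⁻¹ ^ J - 1 := ⟨_, rfl⟩
  have hc0 : ∀ p ∈ pT w L, 0 ≤ c p := by
    intro p hp
    have := one_le_pow₀ (n := J) (one_le_fac_inv (mem_pT.1 hp).2.2)
    rw [hc]
    simp only
    linarith
  have hgwJ : ∀ h, gw w L h ^ J = ∏ p ∈ (pT w L).filter (fun p => p ∣ h), (1 + c p) := by
    intro h
    unfold gw
    rw [← prod_pow]
    apply prod_congr rfl
    intro p _
    rw [hc]
    ring
  have hmain : ∑ b' ∈ F0, gw w L (g.eval (b' : ℤ) - g.eval (b : ℤ)).natAbs ^ J ≤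
      2 * (X / W) * Real.exp 1 := by
    have hK : 0 ≤ 2 * ((X : ℝ) / W) := by positivity
    calc ∑ b' ∈ F0, gw w L (g.eval (b' : ℤ) - g.eval (b : ℤ)).natAbs ^ J
        = ∑ b' ∈ F0, ∑ S ∈ (pT w L).powerset,
          if (∏ p ∈ S, p) ∣ (g.eval (b' : ℤ) - g.eval (b : ℤ)).natAbs then ∏ p ∈ S, c p else 0 :=
          sum_congr rfl fun b' _ => by
            rw [hgwJ, Pool.Agent.TH159.J1235.expand _ (fun p hp => (mem_pT.1 hp).2.2)]
      _ = ∑ S ∈ (pT w L).powerset, ∑ b' ∈ F0,
          if (∏ p ∈ S, p) ∣ (g.eval (b' : ℤ) - g.eval (b : ℤ)).natAbs then ∏ p ∈ S, c p else 0 := sum_comm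
      _ = ∑ S ∈ (pT w L).powerset, (∏ p ∈ S, c p) *
          ((F0.filter (fun b' : ℕ => (∏ p ∈ S, p) ∣ (g.eval (b' : ℤ) - g.eval (b : ℤ)).natAbs)).card : ℝ) := by
          apply sum_congr rfl
          intro S _
          rw [← sum_filter, sum_const, nsmul_eq_mul, mul_comm]
      _ ≤ ∑ S ∈ (pT w L).powerset, (∏ p ∈ S, c p) *
          (2 * (X / W) * ∏ p ∈ S, ((d : ℝ) / p)) := by
          apply sum_le_sum
          intro S hS
          apply mul_le_mul_of_nonneg_left (hcount S hS)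
          exact prod_nonneg fun p hp => hc0 p (mem_powerset.1 hS hp)
      _ = 2 * (X / W) *
          ∑ S ∈ (pT w L).powerset, ∏ p ∈ S, (c p * ((d : ℝ) / p)) := by
          rw [mul_sum]
          apply sum_congr rfl
          intro S _
          rw [prod_mul_distrib]
          ring
      _ = 2 * (X / W) *
          ∏ p ∈ pT w L, (1 + c p * ((d : ℝ) / p)) := by rw [prod_one_add]
      _ ≤ _ := by
          apply mul_le_mul_of_nonneg_left _ hK
          rw [hc]
          exact euler J d w L (by omega) (by omega) (by omega)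
  have hpp : ppq false w X = X / W := by
    unfold ppq
    rw [card_AA, ← hWdef]
    simp
  rw [hpp]
  -- conclusion
  calc ∑ b' ∈ (Icc 1 X).filter (fun b' => isArg false b' ∧ √(X : ℝ) < b' ∧ b' ≡ a [MOD W] ∧ b' ≠ b),
        gw w z (g.eval (b' : ℤ) - g.eval (b : ℤ)).natAbs ^ J
      ≤ ∑ b' ∈ (Icc 1 X).filter (fun b' => isArg false b' ∧ √(X : ℝ) < b' ∧ b' ≡ a [MOD W] ∧ b' ≠ b),
        gw w L (g.eval (b' : ℤ) - g.eval (b : ℤ)).natAbs ^ J * Real.exp 1 := by
        apply sum_le_sum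
        intro b' hb'
        rw [mem_filter, mem_Icc] at hb'
        have hne := hb'.2.2.2.2
        have h0 : 0 < (g.eval (b' : ℤ) - g.eval (b : ℤ)).natAbs := by
          rw [Int.natAbs_pos, sub_ne_zero]
          exact hxi b' b (hxim.trans (hXsq.trans hb'.2.2.1.le)) (hxim.trans (hXsq.trans hb.le)) hne
        have hle : (g.eval (b' : ℤ) - g.eval (b : ℤ)).natAbs ≤ X ^ (d + 1) := by
          rw [hdd]
          exact hxu b' b X hXu hb'.1.2 hbX
        calc gw w z (g.eval (b' : ℤ) - g.eval (b : ℤ)).natAbs ^ J ≤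
              (gw w L (g.eval (b' : ℤ) - g.eval (b : ℤ)).natAbs *
                gw L z (g.eval (b' : ℤ) - g.eval (b : ℤ)).natAbs) ^ J :=
              pow_le_pow_left₀ (zero_le_one.trans (one_le_gw _ _ _))
                (Pool.Agent.TH159.J1235.gw_le_mul _ _ _ _) J
          _ = gw w L (g.eval (b' : ℤ) - g.eval (b : ℤ)).natAbs ^ J *
                gw L z (g.eval (b' : ℤ) - g.eval (b : ℤ)).natAbs ^ J := mul_pow _ _ _
          _ ≤ _ := mul_le_mul_of_nonneg_left (htail _ h0 hle)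
              (pow_nonneg (zero_le_one.trans (one_le_gw _ _ _)) J)
    _ ≤ ∑ b' ∈ F0, gw w L (g.eval (b' : ℤ) - g.eval (b : ℤ)).natAbs ^ J * Real.exp 1 := by
        apply sum_le_sum_of_subset_of_nonneg
        · intro b' hb'
          rw [mem_filter] at hb' ⊢
          exact ⟨hb'.1, hb'.2.2.2.1⟩
        · intro b' _ _
          exact mul_nonneg (pow_nonneg (zero_le_one.trans (one_le_gw _ _ _)) J)
            (Real.exp_pos 1).le
    _ = (∑ b' ∈ F0, gw w L (g.eval (b' : ℤ) - g.eval (b : ℤ)).natAbs ^ J) * Real.exp 1 := by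
        rw [sum_mul]
    _ ≤ (2 * (X / W) * Real.exp 1) * Real.exp 1 :=
        mul_le_mul_of_nonneg_right hmain (Real.exp_pos 1).le
    _ = (2 * (Real.exp 1 * Real.exp 1)) * (X / W) := by ring
    _ ≤ 100 * (X / W) := by
        apply mul_le_mul_of_nonneg_right _ (by positivity)
        have h1 := Real.exp_one_lt_d9
        have h2 := Real.exp_pos 1
        nlinarith

end Pool.Agent.TH365.J2923
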