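import Mathlib

set_option autoImplicit false

namespace Pool.Agent.TH458.VCC

private theorem two_pow_ge (d : ℕ) (hd : 10 ≤ d) : (d + 1) * (d + 1) ≤ 2 ^ d := by
  induction d, hd using Nat.le_induction with
  | base => norm_num
  | succ n hn ih =>
    rw [pow_succ]
    nlinarith

theorem numeric (d k q : ℕ) (hd : 10 ≤ d) (hq : 256 ≤ q) (hk : d * q ^ 2 ≤ k) :
    ((q ^ (d / 4)).choose k : ℝ) * (1 / (q : ℝ)) ^ (k.choose 2)
      + ((q ^ (d / 4)).choose k : ℝ) * (1 - 1 / (q : ℝ)) ^ (k.choose 2)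
      + ((q ^ (d / 4)).choose (d + 1) : ℝ) * ((q ^ (d / 4)).choose (2 ^ d - (d + 1)) : ℝ) *
          (2 ^ (d + 1) * (1 / (q : ℝ)) ^ ((d + 2) / 2)) ^ (2 ^ d - (d + 1)) < 1 := by
  have hq0 : (0 : ℝ) < q := by
    have : 0 < q := by omega
    exact_mod_cast this
  have hq1 : (1 : ℝ) ≤ q := by
    have : 1 ≤ q := by omega
    exact_mod_cast this
  have hq256 : (256 : ℝ) ≤ q := by exact_mod_cast hq
  have hinv : 1 / (q : ℝ) ≤ 1 / 256 := one_div_le_one_div_of_le (by norm_num) hq256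
  have hinv0 : 0 < 1 / (q : ℝ) := by positivity
  have hinv1 : 1 / (q : ℝ) ≤ 1 := by linarith
  obtain ⟨e, he4, he⟩ : ∃ e : ℕ, 4 * e ≤ d ∧ e = d / 4 := ⟨d / 4, by omega, rfl⟩
  have hchoose : ∀ j : ℕ, ((q ^ (d / 4)).choose j : ℝ) ≤ (q : ℝ) ^ (e * j) := by
    intro j
    have h1 : (q ^ (d / 4)).choose j ≤ (q ^ (d / 4)) ^ j := Nat.choose_le_pow _ _
    have h2 : (((q ^ (d / 4)).choose j : ℕ) : ℝ) ≤ (((q ^ (d / 4)) ^ j : ℕ) : ℝ) := by
      exact_mod_cast h1
    rw [← he] at h2 ⊢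
    rw [pow_mul]
    exact_mod_cast h2
  -- size of k
  have hk1 : 10 * 256 * q ≤ k := by
    calc 10 * 256 * q ≤ d * q * q := by
          apply Nat.mul_le_mul_right
          exact Nat.mul_le_mul hd hq
      _ = d * q ^ 2 := by ring
      _ ≤ k := hk
  have hkc : 2 * k.choose 2 + k = k * k := by
    have h1 : k.choose 2 * 2 = k * (k - 1) := by
      rw [Nat.choose_two_right, Nat.div_mul_cancel]
      exact (Nat.even_mul_pred_self k).two_dvd
    have h2 : k * (k - 1) + k = k * k := by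
      obtain ⟨m, rfl⟩ : ∃ m, k = m + 1 := ⟨k - 1, by omega⟩
      simp only [Nat.add_sub_cancel]
      ring
    omega
  -- term 1
  have t1 : ((q ^ (d / 4)).choose k : ℝ) * (1 / (q : ℝ)) ^ (k.choose 2) ≤ 1 / 256 := by
    have hexp : e * k + 1 ≤ k.choose 2 := by
      have h0 : 2 * d ≤ k := by
        have h2 : 2 ≤ q ^ 2 := by nlinarith
        have h3 := Nat.mul_le_mul_left d h2
        omega
      have h1 : 4 * e + 4 ≤ k := by omega
      nlinarith
    calc ((q ^ (d / 4)).choose k : ℝ) * (1 / (q : ℝ)) ^ (k.choose 2)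
        ≤ (q : ℝ) ^ (e * k) * (1 / (q : ℝ)) ^ (e * k + 1) := by
          apply mul_le_mul (hchoose k) _ (by positivity) (by positivity)
          exact pow_le_pow_of_le_one hinv0.le hinv1 hexp
      _ = 1 / (q : ℝ) := by
          rw [pow_succ, ← mul_assoc, ← mul_pow, mul_one_div_cancel hq0.ne', one_pow, one_mul]
      _ ≤ 1 / 256 := hinv
  -- term 2
  have t2 : ((q ^ (d / 4)).choose k : ℝ) * (1 - 1 / (q : ℝ)) ^ (k.choose 2) ≤ 1 / 4 := by
    have hexp : q * (q * (e * k) + 2) ≤ k.choose 2 := by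
      have h1 : 4 * (q * (q * (e * k))) ≤ k * k := by
        calc 4 * (q * (q * (e * k))) = (4 * e) * q ^ 2 * k := by ring
          _ ≤ d * q ^ 2 * k := by gcongr
          _ ≤ k * k := Nat.mul_le_mul_right _ hk
      have h2 : 4 * (q * 2) + 2 * k ≤ k * k := by
        have : 10 ≤ k := by omega
        nlinarith
      have h3 : q * (q * (e * k) + 2) = q * (q * (e * k)) + q * 2 := by ring
      rw [h3]
      omega
    have hb0 : 0 ≤ 1 - 1 / (q : ℝ) := by linarith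
    have hb1 : 1 - 1 / (q : ℝ) ≤ 1 := by linarith
    have hhalf : (1 - 1 / (q : ℝ)) ^ q ≤ 1 / 2 := by
      have h1 : 1 - 1 / (q : ℝ) ≤ Real.exp (-(1 / (q : ℝ))) := by
        have := Real.add_one_le_exp (-(1 / (q : ℝ)))
        linarith
      have h2 : (1 - 1 / (q : ℝ)) ^ q ≤ Real.exp (-(1 / (q : ℝ))) ^ q :=
        pow_le_pow_left₀ hb0 h1 q
      have h3 : Real.exp (-(1 / (q : ℝ))) ^ q = Real.exp (-1) := by
        rw [← Real.exp_nat_mul]
        congr 1
        field_simp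
      have h4 : Real.exp (-1) ≤ 1 / 2 := by
        rw [Real.exp_neg, one_div]
        apply inv_anti₀ (by norm_num)
        have := Real.add_one_le_exp (1 : ℝ)
        linarith
      linarith
    have hq2 : (q : ℝ) ≤ 2 ^ q := by
      have : q < 2 ^ q := Nat.lt_two_pow_self
      exact_mod_cast this.le
    calc ((q ^ (d / 4)).choose k : ℝ) * (1 - 1 / (q : ℝ)) ^ (k.choose 2)
        ≤ (q : ℝ) ^ (e * k) * (1 - 1 / (q : ℝ)) ^ (q * (q * (e * k) + 2)) := by
          apply mul_le_mul (hchoose k) _ (by positivity) (by positivity)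
          exact pow_le_pow_of_le_one hb0 hb1 hexp
      _ ≤ (2 ^ q) ^ (e * k) * (1 / 2) ^ (q * (e * k) + 2) := by
          rw [pow_mul (1 - 1 / (q : ℝ))]
          apply mul_le_mul _ _ (by positivity) (by positivity)
          · exact pow_le_pow_left₀ hq0.le hq2 _
          · exact pow_le_pow_left₀ (by positivity) hhalf _
      _ = 1 / 4 := by
          rw [← pow_mul, pow_add, ← mul_assoc, ← mul_pow]
          norm_num
  -- term 3
  have t3 : ((q ^ (d / 4)).choose (d + 1) : ℝ) * ((q ^ (d / 4)).choose (2 ^ d - (d + 1)) : ℝ) *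
          (2 ^ (d + 1) * (1 / (q : ℝ)) ^ ((d + 2) / 2)) ^ (2 ^ d - (d + 1)) ≤ 1 / 256 := by
    have h2d := two_pow_ge d hd
    obtain ⟨N, hN⟩ : ∃ N : ℕ, N = 2 ^ d - (d + 1) := ⟨_, rfl⟩
    rw [← hN]
    have hN1 : e * (d + 1) + 1 ≤ N := by
      have h1 : e * (d + 1) + 1 + (d + 1) ≤ (d + 1) * (d + 1) := by nlinarith
      omega
    obtain ⟨f, hf⟩ : ∃ f : ℕ, e + f + 1 = (d + 2) / 2 := ⟨(d + 2) / 2 - e - 1, by omega⟩
    have hf8 : d + 1 ≤ 8 * f := by omega
    have h2f : (2 : ℝ) ^ (d + 1) ≤ (q : ℝ) ^ f := by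
      calc (2 : ℝ) ^ (d + 1) ≤ 2 ^ (8 * f) := pow_le_pow_right₀ (by norm_num) hf8
        _ = 256 ^ f := by rw [pow_mul]; norm_num
        _ ≤ (q : ℝ) ^ f := pow_le_pow_left₀ (by norm_num) hq256 _
    have hx : (q : ℝ) ^ e * (2 ^ (d + 1) * (1 / (q : ℝ)) ^ ((d + 2) / 2)) ≤ 1 / q := by
      rw [← hf]
      calc (q : ℝ) ^ e * (2 ^ (d + 1) * (1 / (q : ℝ)) ^ (e + f + 1))
          ≤ (q : ℝ) ^ e * ((q : ℝ) ^ f * (1 / (q : ℝ)) ^ (e + f + 1)) := by gcongr
        _ = ((q : ℝ) * (1 / q)) ^ (e + f) * (1 / q) := by rw [mul_pow]; ring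
        _ = 1 / q := by rw [mul_one_div_cancel hq0.ne', one_pow, one_mul]
    calc ((q ^ (d / 4)).choose (d + 1) : ℝ) * ((q ^ (d / 4)).choose N : ℝ) *
          (2 ^ (d + 1) * (1 / (q : ℝ)) ^ ((d + 2) / 2)) ^ N
        ≤ ((q : ℝ) ^ (e * (d + 1)) * (q : ℝ) ^ (e * N)) *
          (2 ^ (d + 1) * (1 / (q : ℝ)) ^ ((d + 2) / 2)) ^ N := by
          apply mul_le_mul_of_nonneg_right _ (by positivity)
          exact mul_le_mul (hchoose _) (hchoose _) (by positivity) (by positivity)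
      _ = (q : ℝ) ^ (e * (d + 1)) *
          ((q : ℝ) ^ e * (2 ^ (d + 1) * (1 / (q : ℝ)) ^ ((d + 2) / 2))) ^ N := by
          rw [mul_pow ((q : ℝ) ^ e), ← pow_mul]; ring
      _ ≤ (q : ℝ) ^ (e * (d + 1)) * (1 / q) ^ N := by
          apply mul_le_mul_of_nonneg_left _ (by positivity)
          exact pow_le_pow_left₀ (by positivity) hx N
      _ ≤ (q : ℝ) ^ (e * (d + 1)) * (1 / q) ^ (e * (d + 1) + 1) := by
          apply mul_le_mul_of_nonneg_left _ (by positivity)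
          exact pow_le_pow_of_le_one hinv0.le hinv1 hN1
      _ = 1 / q := by
          rw [pow_succ, ← mul_assoc, ← mul_pow, mul_one_div_cancel hq0.ne', one_pow, one_mul]
      _ ≤ 1 / 256 := hinv
  linarith

end Pool.Agent.TH458.VCC
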