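import Mathlib
import Pool.Agent.TH881.RK.Defs
import Pool.Agent.TH761.J2920

/-! Job 3806 (RK-E): pointwise lower bound for the local proportions. -/

set_option autoImplicit false

namespace Pool.Agent.TH365.J3806

open Finset Filter Topology
open Pool.Agent.TH881
open Pool.Agent.TH881.RG
open Pool.Agent.TH881.RQ
open Pool.Agent.TH881.RK
open Pool.Agent.H373R2.T7
open Pool.Agent.TH761.J2920

lemma prod_ge {ι : Type} (s : Finset ι) (x : ι → ℝ) (h0 : ∀ i ∈ s, 0 ≤ x i)
    (h1 : ∀ i ∈ s, x i ≤ 1) : 1 - ∑ i ∈ s, x i ≤ ∏ i ∈ s, (1 - x i) := by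
  classical
  induction s using Finset.induction_on with
  | empty => simp
  | insert a s ha ih =>
    rw [sum_insert ha, prod_insert ha]
    have hi := ih (fun i hi => h0 i (mem_insert_of_mem hi)) (fun i hi => h1 i (mem_insert_of_mem hi))
    have ha0 := h0 a (mem_insert_self _ _)
    have ha1 := h1 a (mem_insert_self _ _)
    have hs : 0 ≤ ∑ i ∈ s, x i := sum_nonneg fun i hi => h0 i (mem_insert_of_mem hi)
    calc 1 - (x a + ∑ i ∈ s, x i) ≤ (1 - x a) * (1 - ∑ i ∈ s, x i) := by nlinarith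
      _ ≤ _ := mul_le_mul_of_nonneg_left hi (by linarith)

/-- the local factor -/
noncomputable def fac (pr : Bool) (m p : ℕ) : ℝ := (1 - uk pr m p) / (1 - 1 / (p : ℝ)) ^ m

lemma uk_lt (pr : Bool) (m p : ℕ) (hp : p.Prime) : uk pr m p < 1 := by
  have : Fact p.Prime := ⟨hp⟩
  have h := Aq_pos pr p
  unfold uk
  have h' : (0 : ℝ) < Aq pr p := by exact_mod_cast h
  rw [div_lt_one h']
  have : min m (Aq pr p - 1) < Aq pr p := by omega
  exact_mod_cast this

lemma fac_pos (pr : Bool) (m p : ℕ) (hp : p.Prime) : 0 < fac pr m p := by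
  unfold fac
  have h2 : (2 : ℝ) ≤ p := by exact_mod_cast hp.two_le
  have h3 : 1 / (p : ℝ) ≤ 1 / 2 := one_div_le_one_div_of_le (by norm_num) h2
  apply div_pos
  · linarith [uk_lt pr m p hp]
  · apply pow_pos
    linarith

lemma fac_large (pr : Bool) (m p : ℕ) (hp : p.Prime) (hm : m + 2 ≤ p) :
    1 - 2 * ((m : ℝ) ^ 2 + m) * ((p : ℝ) ^ 2)⁻¹ ≤ fac pr m p := by
  have h2 : (2 : ℝ) ≤ p := by exact_mod_cast hp.two_le
  have h3 : 1 / (p : ℝ) ≤ 1 / 2 := one_div_le_one_div_of_le (by norm_num) h2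
  have hm' : (m : ℝ) + 2 ≤ p := by exact_mod_cast hm
  have hm0 : (0 : ℝ) ≤ m := Nat.cast_nonneg m
  have hp1 : (0 : ℝ) < (p : ℝ) - 1 := by linarith
  have hu : uk pr m p ≤ m / ((p : ℝ) - 1) := by
    unfold uk
    have hA : (p : ℝ) - 1 ≤ Aq pr p := by
      unfold Aq
      split_ifs
      · rw [Nat.cast_sub hp.one_le]
        push_cast
        exact le_rfl
      · linarith
    have h5 : ((min m (Aq pr p - 1) : ℕ) : ℝ) ≤ m := by exact_mod_cast min_le_left _ _
    calc ((min m (Aq pr p - 1) : ℕ) : ℝ) / Aq pr p ≤ m / Aq pr p :=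
          div_le_div_of_nonneg_right h5 (by linarith)
      _ ≤ m / ((p : ℝ) - 1) := div_le_div_of_nonneg_left hm0 hp1 hA
  have hpow0 : 0 < (1 - 1 / (p : ℝ)) ^ m := by
    apply pow_pos
    linarith
  have hpow : (1 - 1 / (p : ℝ)) ^ m * (1 + m / p) ≤ 1 := by
    have h6 : 1 + (m : ℝ) * (1 / p) ≤ (1 + 1 / p) ^ m :=
      one_add_mul_le_pow (by have : (0 : ℝ) ≤ 1 / p := by positivity
                             linarith) m
    have h7 : (1 - 1 / (p : ℝ)) ^ m * (1 + 1 / p) ^ m ≤ 1 := by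
      rw [← mul_pow]
      apply pow_le_one₀
      · apply mul_nonneg
        · linarith
        · positivity
      · have : (0 : ℝ) ≤ (1 / p) ^ 2 := by positivity
        nlinarith
    calc (1 - 1 / (p : ℝ)) ^ m * (1 + m / p) = (1 - 1 / (p : ℝ)) ^ m * (1 + m * (1 / p)) := by ring
      _ ≤ (1 - 1 / (p : ℝ)) ^ m * (1 + 1 / p) ^ m := mul_le_mul_of_nonneg_left h6 hpow0.le
      _ ≤ 1 := h7
  have h8 : 0 ≤ 1 - m / ((p : ℝ) - 1) := by
    rw [sub_nonneg, div_le_one hp1]
    linarith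
  have h9 : (1 - m / ((p : ℝ) - 1)) * (1 + m / p) ≤ fac pr m p := by
    unfold fac
    rw [le_div_iff₀ hpow0]
    calc (1 - m / ((p : ℝ) - 1)) * (1 + m / p) * (1 - 1 / (p : ℝ)) ^ m
        = (1 - m / ((p : ℝ) - 1)) * ((1 - 1 / (p : ℝ)) ^ m * (1 + m / p)) := by ring
      _ ≤ (1 - m / ((p : ℝ) - 1)) * 1 := mul_le_mul_of_nonneg_left hpow h8
      _ ≤ 1 - uk pr m p := by linarith
  refine le_trans ?_ h9
  have hp0 : (0 : ℝ) < p := by linarith
  have h10 : (1 - m / ((p : ℝ) - 1)) * (1 + m / p) =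
      1 - ((m : ℝ) ^ 2 + m) * (1 / (p * (p - 1))) := by
    field_simp
    ring
  rw [h10]
  have h11 : 1 / ((p : ℝ) * (p - 1)) ≤ 2 * ((p : ℝ) ^ 2)⁻¹ := by
    rw [← div_eq_mul_inv, div_le_div_iff₀ (by positivity) (by positivity)]
    nlinarith
  have h12 : (0 : ℝ) ≤ (m : ℝ) ^ 2 + m := by positivity
  nlinarith [mul_le_mul_of_nonneg_left h11 h12]

lemma prod_fac (pr : Bool) (m : ℕ) : ∃ c : ℝ, 0 < c ∧ ∀ w : ℕ, c ≤ ∏ p ∈ pz w, fac pr m p := by
  classical
  set C : ℝ := 2 * ((m : ℝ) ^ 2 + m) with hC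
  have hC0 : 0 ≤ C := by positivity
  obtain ⟨P, hP⟩ := exists_nat_ge (2 * C + m + 2)
  have hm0 : (0 : ℝ) ≤ m := Nat.cast_nonneg m
  have hPm : m + 2 ≤ P := by
    have : ((m + 2 : ℕ) : ℝ) ≤ P := by push_cast; linarith
    exact_mod_cast this
  have hP0 : (0 : ℝ) < P := by linarith
  have hPC : C * (P : ℝ)⁻¹ ≤ 1 / 2 := by
    rw [← div_eq_mul_inv, div_le_iff₀ hP0]
    linarith
  set g : ℕ → ℝ := fun p => min (fac pr m p) 1 with hg
  have hgp : ∀ w, ∀ p ∈ pz w, 0 < g p := fun w p hp =>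
    lt_min (fac_pos pr m p (mem_pz.1 hp).2) one_pos
  have hg1 : ∀ p, g p ≤ 1 := fun p => min_le_right _ _
  refine ⟨(∏ p ∈ pz P, g p) * (1 / 2), ?_, fun w => ?_⟩
  · exact mul_pos (prod_pos (hgp P)) (by norm_num)
  · set N := max w P with hN
    have hsub : pz w ⊆ pz N := by
      intro p hp
      rw [mem_pz] at hp ⊢
      exact ⟨hp.1.trans (le_max_left _ _), hp.2⟩
    have hsub2 : pz P ⊆ pz N := by
      intro p hp
      rw [mem_pz] at hp ⊢
      exact ⟨hp.1.trans (le_max_right _ _), hp.2⟩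
    have h1 : ∏ p ∈ pz N, g p ≤ ∏ p ∈ pz w, g p := by
      rw [← prod_sdiff hsub]
      have h2 : ∏ p ∈ pz N \ pz w, g p ≤ 1 :=
        prod_le_one (fun p hp => (hgp N p (Finset.mem_sdiff.1 hp).1).le) (fun p _ => hg1 p)
      have h3 : 0 < ∏ p ∈ pz w, g p := prod_pos (hgp w)
      nlinarith
    have h4 : ∏ p ∈ pz w, g p ≤ ∏ p ∈ pz w, fac pr m p :=
      Finset.prod_le_prod (fun p hp => (hgp w p hp).le) (fun p _ => min_le_left _ _)
    refine le_trans ?_ (h1.trans h4)
    rw [← prod_sdiff hsub2, mul_comm]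
    apply mul_le_mul_of_nonneg_right _ (prod_pos (hgp P)).le
    have hx : ∀ p ∈ pz N \ pz P, P < p ∧ p ≤ N ∧ p.Prime := by
      intro p hp
      rw [Finset.mem_sdiff, mem_pz, mem_pz] at hp
      obtain ⟨⟨h5, h6⟩, h7⟩ := hp
      exact ⟨by by_contra h; exact h7 ⟨by omega, h6⟩, h5, h6⟩
    have hxs : ∑ p ∈ pz N \ pz P, C * ((p : ℝ) ^ 2)⁻¹ ≤ 1 / 2 := by
      rw [← mul_sum]
      have h8 : ∑ p ∈ pz N \ pz P, ((p : ℝ) ^ 2)⁻¹ ≤ ∑ p ∈ Ioc P N, ((p : ℝ) ^ 2)⁻¹ := by
        apply sum_le_sum_of_subset_of_nonneg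
        · intro p hp
          have := hx p hp
          rw [mem_Ioc]
          exact ⟨this.1, this.2.1⟩
        · intro p _ _
          positivity
      have h9 : ∑ p ∈ Ioc P N, ((p : ℝ) ^ 2)⁻¹ ≤ (P : ℝ)⁻¹ - (N : ℝ)⁻¹ :=
        sum_Ioc_inv_sq_le_sub (by omega) (le_max_right _ _)
      have h10 : (0 : ℝ) ≤ (N : ℝ)⁻¹ := by positivity
      calc C * ∑ p ∈ pz N \ pz P, ((p : ℝ) ^ 2)⁻¹ ≤ C * (P : ℝ)⁻¹ :=
            mul_le_mul_of_nonneg_left (by linarith) hC0
        _ ≤ 1 / 2 := hPC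
    have hterm : ∀ p ∈ pz N \ pz P, C * ((p : ℝ) ^ 2)⁻¹ ≤ 1 := by
      intro p hp
      have h11 : C * ((p : ℝ) ^ 2)⁻¹ ≤ ∑ p ∈ pz N \ pz P, C * ((p : ℝ) ^ 2)⁻¹ :=
        single_le_sum (f := fun p : ℕ => C * ((p : ℝ) ^ 2)⁻¹) (fun q _ => by positivity) hp
      linarith
    have h12 := prod_ge (pz N \ pz P) (fun p => C * ((p : ℝ) ^ 2)⁻¹) (fun p _ => by positivity) hterm
    refine le_trans (by linarith) (h12.trans ?_)
    apply Finset.prod_le_prod
    · intro p hp
      have := hterm p hp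
      linarith
    · intro p hp
      have h13 := hx p hp
      have h14 := fac_large pr m p h13.2.2 (by omega)
      have h15 : 0 ≤ C * ((p : ℝ) ^ 2)⁻¹ := by positivity
      exact le_min h14 (by linarith)

/-- the bad arguments of a tuple -/
def bt {pr : Bool} {m p : ℕ} (x : Fin m → ZMod p) (y : LA pr p) : Prop := ∃ j, x j + y.1 = 0

lemma card_bt (pr : Bool) (m p : ℕ) [Fact p.Prime] (x : Fin m → ZMod p)
    [DecidablePred fun y : LA pr p => bt x y] :
    (univ.filter fun y : LA pr p => bt x y).card ≤ m := by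
  classical
  have h : (univ.filter fun y : LA pr p => bt x y) ⊆
      (univ : Finset (Fin m)).biUnion (fun j => univ.filter fun y : LA pr p => y.1 = - x j) := by
    intro y hy
    rw [mem_filter] at hy
    obtain ⟨j, hj⟩ := hy.2
    rw [mem_biUnion]
    exact ⟨j, mem_univ _, mem_filter.2 ⟨mem_univ _, by rw [← add_eq_zero_iff_eq_neg, add_comm]; exact hj⟩⟩
  refine (card_le_card h).trans (card_biUnion_le.trans ?_)
  calc ∑ j : Fin m, (univ.filter fun y : LA pr p => y.1 = - x j).card ≤ ∑ _j : Fin m, 1 := by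
        apply sum_le_sum
        intro j _
        rw [card_le_one]
        intro a ha b hb
        rw [mem_filter] at ha hb
        exact Subtype.ext (ha.2.trans hb.2.symm)
    _ = m := by simp

lemma wk_ge (pr : Bool) (m w : ℕ) (t : Fin m → ZMod (Wp w)) (h : wk pr m w t ≠ 0) :
    Phq (uk pr m) w ≤ wk pr m w t := by
  classical
  obtain ⟨φ⟩ := exists_equiv w
  have hgk : ∀ a : ZMod (Wp w), gk t a ↔ ∀ i : I w, ∀ j, φ (t j) i + φ a i ≠ 0 := by
    intro a
    unfold gk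
    constructor
    · intro h i j
      have := (unit_iff φ _).1 (h j) i
      rwa [map_add, Pi.add_apply] at this
    · intro h j
      rw [unit_iff φ]
      intro i
      rw [map_add, Pi.add_apply]
      exact h i j
  have hAq : ∀ i : I w, (0 : ℝ) < Fintype.card (LA pr i.1) := fun i => by
    exact_mod_cast Fintype.card_pos
  have hwk : wk pr m w t = ∏ i : I w, (((univ.filter
      (fun y : LA pr i.1 => ¬ bt (fun j => φ (t j) i) y)).card : ℝ) / Fintype.card (LA pr i.1)) := by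
    unfold wk
    rw [card_AA, Fintype.card_pi, Nat.cast_prod, prod_div_distrib]
    congr 1
    have h2 := sum_AA pr φ (fun a => if gk t a then (1 : ℝ) else 0)
    rw [← sum_filter, sum_const, nsmul_eq_mul, mul_one] at h2
    rw [h2, ← sum_filter, sum_const, nsmul_eq_mul, mul_one, ← Nat.cast_prod,
      ← Fintype.card_piFinset]
    congr 2
    ext y
    simp only [mem_filter, mem_univ, true_and, Fintype.mem_piFinset]
    rw [hgk, φ.apply_symm_apply]
    apply forall_congr'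
    intro i
    unfold bt
    push Not
    rfl
  have hPh : Phq (uk pr m) w = ∏ i : I w, (1 - uk pr m i.1) := by
    unfold Phq
    rw [← prod_coe_sort (pz w)]
  rw [hPh, hwk]
  apply Finset.prod_le_prod
  · intro i _
    have := uk_lt pr m i.1 (mem_pz.1 i.2).2
    linarith
  · intro i _
    have hne : (univ.filter (fun y : LA pr i.1 => ¬ bt (fun j => φ (t j) i) y)).card ≠ 0 := by
      intro h0
      apply h
      rw [hwk]
      apply prod_eq_zero (mem_univ i)
      rw [h0]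
      simp
    have h3 := card_filter_add_card_filter_not (s := (univ : Finset (LA pr i.1)))
      (fun y : LA pr i.1 => bt (fun j => φ (t j) i) y)
    rw [card_univ] at h3
    have h4 := card_bt pr m i.1 (fun j => φ (t j) i)
    have hA := card_LA pr i.1
    rw [hA] at h3
    have hA' := hAq i
    rw [hA] at hA' ⊢
    have h5 : (univ.filter (fun y : LA pr i.1 => bt (fun j => φ (t j) i) y)).card ≤
        min m (Aq pr i.1 - 1) := le_min h4 (by omega)
    unfold uk
    rw [le_div_iff₀ hA', sub_mul, one_mul, div_mul_cancel₀ _ hA'.ne', sub_le_iff_le_add]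
    have h6 : Aq pr i.1 ≤ (univ.filter (fun y : LA pr i.1 => ¬ bt (fun j => φ (t j) i) y)).card +
        min m (Aq pr i.1 - 1) := by omega
    exact_mod_cast h6

theorem stLBk_in (pr : Bool) (m : ℕ) : StLBk pr m := by
  obtain ⟨c, hc, hw⟩ := prod_fac pr m
  refine ⟨c, hc, fun w t ht => ?_⟩
  refine le_trans ?_ (wk_ge pr m w t ht)
  have hV : 0 < Vz w := by
    unfold Vz
    apply prod_pos
    intro p hp
    have h2 : (2 : ℝ) ≤ p := by exact_mod_cast (mem_pz.1 hp).2.two_le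
    have h3 : 1 / (p : ℝ) ≤ 1 / 2 := one_div_le_one_div_of_le (by norm_num) h2
    linarith
  have h1 : ∏ p ∈ pz w, fac pr m p = Phq (uk pr m) w / Vz w ^ m := by
    unfold fac Phq Vz
    rw [prod_div_distrib, prod_pow]
  have h2 := hw w
  rw [h1, le_div_iff₀ (pow_pos hV m)] at h2
  exact h2

end Pool.Agent.TH365.J3806
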