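import Pool.Agent.TH968.UST.Defs

/-!
# Monotone coupling of uniform spanning trees and the symmetric difference bound

Module 3 of the proof for `MP_688e31_pr`.
-/

namespace Pool.Agent.TH365.J75
open Finset Pool.Agent.TH968.UST
variable {V : Type*} [DecidableEq V]

/-- Monotone coupling of the uniform spanning trees of `E' ⊆ E`, from stochastic domination
by Hall's marriage theorem. -/
theorem coupling
    (dom : ∀ E E' : Finset (Sym2 V), E' ⊆ E →
      ∀ g : Finset (Sym2 V) → ℝ, (∀ S T, S ⊆ T → g S ≤ g T) →
      (∑ T ∈ trees ⊥ E, g (T ∩ E')) * ((trees ⊥ E').card : ℝ) ≤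
        (∑ T ∈ trees ⊥ E', g T) * ((trees ⊥ E).card : ℝ))
    (E' E : Finset (Sym2 V)) (hE : E' ⊆ E) :
    ∃ K : Finset (Sym2 V) → ℕ → Finset (Sym2 V),
      (∀ F ∈ trees ⊥ E', ∀ j < (trees ⊥ E).card, K F j ∈ trees ⊥ E ∧ K F j ∩ E' ⊆ F) ∧
      ∀ T ∈ trees ⊥ E,
        ∑ F ∈ trees ⊥ E', ((range (trees ⊥ E).card).filter (fun j => K F j = T)).card =
          (trees ⊥ E').card := by
  classical
  set X := trees ⊥ E with hX
  set Y := trees ⊥ E' with hY
  set N := X.card with hN
  set M := Y.card with hM
  set P : Finset (Finset (Sym2 V) × ℕ) := X ×ˢ range M with hP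
  set Q : Finset (Finset (Sym2 V) × ℕ) := Y ×ˢ range N with hQ
  let t : {p // p ∈ P} → Finset (Finset (Sym2 V) × ℕ) :=
    fun p => (Y.filter (fun F => p.1.1 ∩ E' ⊆ F)) ×ˢ range N
  have hall : ∀ s : Finset {p // p ∈ P}, s.card ≤ (s.biUnion t).card := by
    intro s
    set X0 : Finset (Finset (Sym2 V)) := s.image (fun p => p.1.1) with hX0
    have hX0X : X0 ⊆ X := by
      intro T hT
      rw [hX0, Finset.mem_image] at hT
      obtain ⟨p, _, rfl⟩ := hT
      exact (Finset.mem_product.1 p.2).1
    have h1 : s.card ≤ X0.card * M := by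
      calc s.card = (s.image (fun p => p.1)).card := by
            rw [Finset.card_image_of_injective _ Subtype.val_injective]
        _ ≤ (X0 ×ˢ range M).card := by
            apply Finset.card_le_card
            intro q hq
            rw [Finset.mem_image] at hq
            obtain ⟨p, hp, rfl⟩ := hq
            rw [Finset.mem_product]
            exact ⟨Finset.mem_image.2 ⟨p, hp, rfl⟩, (Finset.mem_product.1 p.2).2⟩
        _ = X0.card * M := by rw [Finset.card_product, Finset.card_range]
    set U : Finset (Sym2 V) → Prop := fun S => ∃ T ∈ X0, T ∩ E' ⊆ S with hU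
    have h2 := dom E E' hE (fun S => if U S then 1 else 0) (by
      intro S T hST
      by_cases hS : U S
      · have hT : U T := by
          obtain ⟨T', hT', h⟩ := hS
          exact ⟨T', hT', h.trans hST⟩
        simp [hS, hT]
      · simp only [hS, if_false]
        split_ifs <;> norm_num)
    rw [← hX, ← hY, ← hN, ← hM] at h2
    have h3 : (X0.card : ℝ) ≤ ∑ T ∈ X, (if U (T ∩ E') then (1 : ℝ) else 0) := by
      rw [Finset.sum_boole]
      have : X0 ⊆ X.filter (fun T => U (T ∩ E')) := by
        intro T hT
        rw [Finset.mem_filter]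
        exact ⟨hX0X hT, T, hT, subset_rfl⟩
      exact_mod_cast Finset.card_le_card this
    have h4 : ∑ T ∈ Y, (if U T then (1 : ℝ) else 0) = ((Y.filter U).card : ℝ) := by
      rw [Finset.sum_boole]
    have h5 : (X0.card * M : ℕ) ≤ (Y.filter U).card * N := by
      have : (X0.card : ℝ) * M ≤ ((Y.filter U).card : ℝ) * N := by
        calc (X0.card : ℝ) * M ≤ (∑ T ∈ X, (if U (T ∩ E') then (1 : ℝ) else 0)) * M := by
              gcongr
          _ ≤ _ := h2
          _ = _ := by rw [h4]
      exact_mod_cast this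
    have h6 : (Y.filter U).card * N ≤ (s.biUnion t).card := by
      rw [← Finset.card_range N, ← Finset.card_product]
      apply Finset.card_le_card
      intro q hq
      rw [Finset.mem_product, Finset.mem_filter] at hq
      obtain ⟨⟨hq1, T, hT, hTq⟩, hq2⟩ := hq
      rw [hX0, Finset.mem_image] at hT
      obtain ⟨p, hp, rfl⟩ := hT
      rw [Finset.mem_biUnion]
      refine ⟨p, hp, ?_⟩
      exact Finset.mem_product.2 ⟨Finset.mem_filter.2 ⟨hq1, hTq⟩, hq2⟩
    exact h1.trans (h5.trans h6)
  obtain ⟨f, hfinj, hft⟩ := (Finset.all_card_le_biUnion_card_iff_exists_injective t).1 hall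
  have hfQ : ∀ x, f x ∈ Q := by
    intro x
    have := hft x
    simp only [t, Finset.mem_product, Finset.mem_filter] at this
    exact Finset.mem_product.2 ⟨this.1.1, this.2⟩
  have hcardPQ : P.card = Q.card := by
    rw [hP, hQ, Finset.card_product, Finset.card_product, Finset.card_range, Finset.card_range,
      Nat.mul_comm]
  have himg : (Finset.univ : Finset {p // p ∈ P}).image f = Q := by
    apply Finset.eq_of_subset_of_card_le
    · intro q hq
      obtain ⟨x, _, rfl⟩ := Finset.mem_image.1 hq
      exact hfQ x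
    · rw [Finset.card_image_of_injective _ hfinj, Finset.card_univ, Fintype.card_coe, hcardPQ]
  let K : Finset (Sym2 V) → ℕ → Finset (Sym2 V) := fun F j =>
    if h : ∃ x : {p // p ∈ P}, f x = (F, j) then (h.choose).1.1 else ∅
  have hK : ∀ x : {p // p ∈ P}, K (f x).1 (f x).2 = x.1.1 := by
    intro x
    have h : ∃ x' : {p // p ∈ P}, f x' = ((f x).1, (f x).2) := ⟨x, rfl⟩
    have h1 : f h.choose = f x := h.choose_spec
    simp only [K, dif_pos h]
    rw [hfinj h1]
  refine ⟨K, ?_, ?_⟩
  · intro F hF j hj
    have hq : (F, j) ∈ Q := Finset.mem_product.2 ⟨hF, Finset.mem_range.2 hj⟩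
    rw [← himg, Finset.mem_image] at hq
    obtain ⟨x, _, hx⟩ := hq
    have h1 := hK x
    rw [hx] at h1
    simp only at h1
    rw [h1]
    refine ⟨(Finset.mem_product.1 x.2).1, ?_⟩
    have := hft x
    simp only [t, Finset.mem_product, Finset.mem_filter] at this
    rw [hx] at this
    exact this.1.2
  · intro T hT
    have h1 : ∑ F ∈ Y, ((range N).filter (fun j => K F j = T)).card =
        (Q.filter (fun q => K q.1 q.2 = T)).card := by
      rw [Finset.card_filter, hQ, Finset.sum_product]
      apply Finset.sum_congr rfl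
      intro F _
      rw [Finset.card_filter]
    rw [h1, ← himg]
    have h2 : ((Finset.univ : Finset {p // p ∈ P}).image f).filter (fun q => K q.1 q.2 = T) =
        ((Finset.univ : Finset {p // p ∈ P}).filter (fun x => x.1.1 = T)).image f := by
      ext q
      simp only [Finset.mem_filter, Finset.mem_image, Finset.mem_univ, true_and]
      constructor
      · rintro ⟨⟨x, rfl⟩, h⟩
        rw [hK x] at h
        exact ⟨x, h, rfl⟩
      · rintro ⟨x, h, rfl⟩
        refine ⟨⟨x, rfl⟩, ?_⟩
        rw [hK x, h]
    rw [h2, Finset.card_image_of_injective _ hfinj]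
    have h3 : ((Finset.univ : Finset {p // p ∈ P}).filter (fun x => x.1.1 = T)).card =
        (({T} : Finset (Finset (Sym2 V))) ×ˢ range M).card := by
      apply Finset.card_bij (fun x _ => x.1)
      · intro x hx
        rw [Finset.mem_filter] at hx
        rw [Finset.mem_product, Finset.mem_singleton]
        exact ⟨hx.2, (Finset.mem_product.1 x.2).2⟩
      · intro x _ y _ h
        exact Subtype.ext h
      · intro q hq
        rw [Finset.mem_product, Finset.mem_singleton] at hq
        refine ⟨⟨q, Finset.mem_product.2 ⟨by rw [hq.1]; exact hT, hq.2⟩⟩, ?_, rfl⟩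
        rw [Finset.mem_filter]
        exact ⟨Finset.mem_univ _, hq.1⟩
    rw [h3, Finset.card_product, Finset.card_singleton, Finset.card_range, one_mul]

/-- Edge vector (with an arbitrary orientation). -/
noncomputable def ev (e : Sym2 V) : V →₀ ℚ :=
  Finsupp.single (Quot.out e).1 1 - Finsupp.single (Quot.out e).2 1

omit [DecidableEq V] in
lemma out_eq (e : Sym2 V) : s((Quot.out e).1, (Quot.out e).2) = e := Quot.out_eq e

omit [DecidableEq V] in
/-- A forest has linearly independent edge vectors. -/
lemma forest_card_le (F : Finset (Sym2 V))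
    (hF : ∀ a b, s(a, b) ∈ F → ¬ Conn ⊥ ((F : Set (Sym2 V)) \ {s(a, b)}) a b)
    (w : Finset (V →₀ ℚ)) (hw : ∀ e ∈ F, ev e ∈ Submodule.span ℚ (w : Set (V →₀ ℚ))) :
    F.card ≤ w.card := by
  classical
  have hli : LinearIndependent ℚ (fun e : {e // e ∈ F} => ev e.1) := by
    rw [linearIndependent_iff']
    intro s g hg e0 he0
    set a := (Quot.out e0.1).1 with ha
    set b := (Quot.out e0.1).2 with hb
    have hab : s(a, b) = e0.1 := out_eq e0.1
    set φ : V → ℚ := fun v => if Conn ⊥ ((F : Set (Sym2 V)) \ {s(a, b)}) a v then 1 else 0 with hφ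
    have h1 := congrArg (Finsupp.linearCombination ℚ φ) hg
    rw [map_sum, map_zero] at h1
    have hval : ∀ e : {e // e ∈ F}, Finsupp.linearCombination ℚ φ (ev e.1) =
        φ (Quot.out e.1).1 - φ (Quot.out e.1).2 := by
      intro e
      simp [ev, Finsupp.linearCombination_single]
    rw [Finset.sum_eq_single e0] at h1
    · rw [map_smul, hval, ← ha, ← hb] at h1
      have ha1 : φ a = 1 := by
        simp only [hφ]
        rw [if_pos]
        exact Relation.EqvGen.refl a
      have hb1 : φ b = 0 := by
        simp only [hφ]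
        rw [if_neg]
        exact hF a b (by rw [hab]; exact e0.2)
      rw [ha1, hb1] at h1
      simpa using h1
    · intro e _ hne
      rw [map_smul, hval]
      set c := (Quot.out e.1).1 with hc
      set d := (Quot.out e.1).2 with hd
      have hcd : s(c, d) = e.1 := out_eq e.1
      have hmem : s(c, d) ∈ ((F : Set (Sym2 V)) \ {s(a, b)}) := by
        refine ⟨?_, ?_⟩
        · rw [hcd]; exact Finset.mem_coe.2 e.2
        · intro h
          apply hne
          apply Subtype.ext
          rw [← hcd, ← hab]
          exact h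
      have hiff : Conn ⊥ ((F : Set (Sym2 V)) \ {s(a, b)}) a c ↔
          Conn ⊥ ((F : Set (Sym2 V)) \ {s(a, b)}) a d := by
        constructor
        · intro h
          exact Relation.EqvGen.trans _ _ _ h (Relation.EqvGen.rel _ _ (Or.inr hmem))
        · intro h
          exact Relation.EqvGen.trans _ _ _ h
            (Relation.EqvGen.symm _ _ (Relation.EqvGen.rel _ _ (Or.inr hmem)))
      have : φ c = φ d := by
        simp only [hφ, hiff]
      rw [this]
      simp
    · intro h
      exact absurd he0 h
  set W := Submodule.span ℚ (w : Set (V →₀ ℚ)) with hW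
  have hfin : Module.Finite ℚ W := FiniteDimensional.span_finset ℚ w
  have hli2 : LinearIndependent ℚ (fun e : {e // e ∈ F} => (⟨ev e.1, hw e.1 e.2⟩ : W)) := by
    apply LinearIndependent.of_comp W.subtype
    exact hli
  have h1 := hli2.fintype_card_le_finrank
  rw [Fintype.card_coe] at h1
  exact h1.trans (finrank_span_finset_le_card w)

omit [DecidableEq V] in
lemma ev_mk (a b : V) : ev s(a, b) = Finsupp.single a 1 - Finsupp.single b 1 ∨
    ev s(a, b) = Finsupp.single b 1 - Finsupp.single a 1 := by
  have h := out_eq s(a, b)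
  rw [Sym2.eq_iff] at h
  rcases h with ⟨h1, h2⟩ | ⟨h1, h2⟩
  · left; rw [ev, h1, h2]
  · right; rw [ev, h1, h2]

omit [DecidableEq V] in
lemma conn_span (T : Set (Sym2 V)) (a b : V) (h : Conn ⊥ T a b) :
    (Finsupp.single a 1 - Finsupp.single b 1 : V →₀ ℚ) ∈ Submodule.span ℚ (ev '' T) := by
  induction h with
  | rel a b h =>
    rcases h with h | h
    · have : a = b := h
      rw [this, sub_self]
      exact Submodule.zero_mem _
    · have hm : ev s(a, b) ∈ Submodule.span ℚ (ev '' T) :=
        Submodule.subset_span ⟨_, h, rfl⟩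
      rcases ev_mk a b with h1 | h1
      · rwa [h1] at hm
      · rw [h1] at hm
        rw [← neg_sub]
        exact Submodule.neg_mem _ hm
  | refl a => rw [sub_self]; exact Submodule.zero_mem _
  | symm a b _ ih => rw [← neg_sub]; exact Submodule.neg_mem _ ih
  | trans a b c _ _ ih1 ih2 =>
    have := Submodule.add_mem _ ih1 ih2
    rwa [sub_add_sub_cancel] at this

omit [DecidableEq V] in
lemma mem_trees {r : Setoid V} {E T : Finset (Sym2 V)} :
    T ∈ trees r E ↔ IsSpan r (E : Set (Sym2 V)) (T : Set (Sym2 V)) := by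
  classical
  unfold trees
  rw [Finset.mem_filter, Finset.mem_powerset]
  constructor
  · exact fun h => h.2
  · exact fun h => ⟨by exact_mod_cast h.1, h⟩

omit [DecidableEq V] in
/-- A forest inside `E` has at most as many edges as a spanning tree of `E`. -/
lemma forest_le_tree (E F T : Finset (Sym2 V)) (hT : T ∈ trees ⊥ E) (hFE : F ⊆ E)
    (hF : ∀ a b, s(a, b) ∈ F → ¬ Conn ⊥ ((F : Set (Sym2 V)) \ {s(a, b)}) a b) :
    F.card ≤ T.card := by
  classical
  rw [mem_trees] at hT
  refine (forest_card_le F hF (T.image ev) ?_).trans Finset.card_image_le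
  intro e he
  have h := conn_span (T : Set (Sym2 V)) (Quot.out e).1 (Quot.out e).2
    (hT.2.1 _ _ (by rw [out_eq]; exact_mod_cast hFE he))
  rw [Finset.coe_image]
  exact h

omit [DecidableEq V] in
/-- A forest with all endpoints in `X` has at most `|X|` edges. -/
lemma forest_le_verts (F : Finset (Sym2 V)) (X : Finset V) (hX : ∀ e ∈ F, ∀ v ∈ e, v ∈ X)
    (hF : ∀ a b, s(a, b) ∈ F → ¬ Conn ⊥ ((F : Set (Sym2 V)) \ {s(a, b)}) a b) :
    F.card ≤ X.card := by
  classical
  refine (forest_card_le F hF (X.image (fun v => Finsupp.single v 1)) ?_).trans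
    Finset.card_image_le
  intro e he
  have h1 : (Quot.out e).1 ∈ X := hX e he _ (by
    have := Sym2.mem_mk_left (Quot.out e).1 (Quot.out e).2
    rwa [out_eq e] at this)
  have h2 : (Quot.out e).2 ∈ X := hX e he _ (by
    have := Sym2.mem_mk_right (Quot.out e).1 (Quot.out e).2
    rwa [out_eq e] at this)
  rw [Finset.coe_image]
  exact Submodule.sub_mem _ (Submodule.subset_span ⟨_, h1, rfl⟩)
    (Submodule.subset_span ⟨_, h2, rfl⟩)

omit [DecidableEq V] in
lemma conn_mono {r : Setoid V} {S T : Set (Sym2 V)} (hST : S ⊆ T) {a b : V}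
    (h : Conn r S a b) : Conn r T a b := by
  unfold Conn at *
  exact Relation.EqvGen.mono (fun a b (h : r a b ∨ s(a, b) ∈ S) => h.imp id fun h => hST h) _ _ h

/-- Under the monotone coupling few vertices see a difference: if `X` contains all endpoints of
`E \ E'` then at most `4 |X|` vertices are incident to `symmDiff T F`. -/
theorem symmDiff_bound (E' E : Finset (Sym2 V)) (hE : E' ⊆ E) (T F : Finset (Sym2 V))
    (hT : T ∈ trees ⊥ E) (hF : F ∈ trees ⊥ E') (hTF : T ∩ E' ⊆ F)
    (X : Finset V) (hX : ∀ e ∈ E, e ∉ E' → ∀ v ∈ e, v ∈ X)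
    (Y : Finset V) (hY : ∀ v ∈ Y, ∃ e ∈ symmDiff T F, v ∈ e) :
    Y.card ≤ 4 * X.card := by
  classical
  have hT' := mem_trees.1 hT
  have hF' := mem_trees.1 hF
  have hTE : T ⊆ E := by exact_mod_cast hT'.1
  have hFE' : F ⊆ E' := by exact_mod_cast hF'.1
  have h1 : F.card ≤ T.card := forest_le_tree E F T hT (hFE'.trans hE) hF'.2.2
  have h2 : (T \ E').card ≤ X.card := by
    apply forest_le_verts (T \ E') X
    · intro e he v hv
      rw [Finset.mem_sdiff] at he
      exact hX e (hTE he.1) he.2 v hv
    · intro a b hab hcon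
      rw [Finset.mem_sdiff] at hab
      apply hT'.2.2 a b (by exact_mod_cast hab.1)
      apply conn_mono _ hcon
      intro e he
      refine ⟨?_, he.2⟩
      have := he.1
      rw [Finset.coe_sdiff] at this
      exact this.1
  have h3 : (T \ F).card ≤ (T \ E').card := by
    apply Finset.card_le_card
    intro e he
    rw [Finset.mem_sdiff] at he ⊢
    refine ⟨he.1, fun h => he.2 (hTF (Finset.mem_inter.2 ⟨he.1, h⟩))⟩
  have h4 : (F \ T).card ≤ (T \ E').card := by
    have e1 : F ∩ T = T ∩ E' := by
      ext e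
      rw [Finset.mem_inter, Finset.mem_inter]
      constructor
      · exact fun h => ⟨h.2, hFE' h.1⟩
      · exact fun h => ⟨hTF (Finset.mem_inter.2 h), h.1⟩
    have e2 := Finset.card_sdiff_add_card_inter F T
    have e3 := Finset.card_sdiff_add_card_inter T E'
    rw [e1] at e2
    omega
  have h5 : (symmDiff T F).card ≤ 2 * X.card := by
    have : (symmDiff T F).card ≤ (T \ F).card + (F \ T).card := by
      unfold symmDiff
      exact Finset.card_union_le _ _
    omega
  have h6 : Y ⊆ (symmDiff T F).biUnion (fun e => {(Quot.out e).1, (Quot.out e).2}) := by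
    intro v hv
    obtain ⟨e, he, hve⟩ := hY v hv
    rw [Finset.mem_biUnion]
    refine ⟨e, he, ?_⟩
    rw [← out_eq e, Sym2.mem_iff] at hve
    simpa using hve
  calc Y.card ≤ _ := Finset.card_le_card h6
    _ ≤ (symmDiff T F).card * 2 := Finset.card_biUnion_le_card_mul _ _ _ fun e _ =>
        Finset.card_le_two
    _ ≤ 4 * X.card := by omega

end Pool.Agent.TH365.J75
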