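import Pool.Agent.TH968.UST.Defs

/-!
# Recurrent graphs: hitting probabilities and cutoff functions

Module 4 of the proof for `MP_688e31_pr`.
-/

namespace Pool.Agent.TH365.J76
open Finset Pool.Agent.TH968.UST
open scoped ENNReal
variable {V : Type*}

lemma avg_eq (G : SimpleGraph V) (hf : ∀ v, (G.neighborSet v).Finite) (f : V → ℝ≥0∞) (v : V) :
    avg G f v = (∑ w ∈ (hf v).toFinset, f w) / ((hf v).toFinset.card : ℝ≥0∞) := by
  classical
  unfold avg
  have h : ∀ g : V → ℝ≥0∞,
      (∑' w, if G.Adj v w then g w else 0) = ∑ w ∈ (hf v).toFinset, g w := by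
    intro g
    rw [tsum_eq_sum (s := (hf v).toFinset)]
    · apply Finset.sum_congr rfl
      intro w hw
      have : G.Adj v w := by simpa using hw
      simp [this]
    · intro w hw
      have : ¬ G.Adj v w := by simpa using hw
      simp [this]
  rw [h f, h (fun _ => 1)]
  simp

lemma avg_mono (G : SimpleGraph V) (hf : ∀ v, (G.neighborSet v).Finite) {f g : V → ℝ≥0∞}
    (h : ∀ v, f v ≤ g v) (v : V) : avg G f v ≤ avg G g v := by
  rw [avg_eq G hf, avg_eq G hf]
  exact ENNReal.div_le_div_right (Finset.sum_le_sum fun w _ => h w) _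

lemma avg_le_one (G : SimpleGraph V) (hf : ∀ v, (G.neighborSet v).Finite) {f : V → ℝ≥0∞}
    (h : ∀ v, f v ≤ 1) (v : V) : avg G f v ≤ 1 := by
  rw [avg_eq G hf]
  apply ENNReal.div_le_of_le_mul
  calc ∑ w ∈ (hf v).toFinset, f w ≤ ∑ w ∈ (hf v).toFinset, 1 := Finset.sum_le_sum fun w _ => h w
    _ = 1 * ((hf v).toFinset.card : ℝ≥0∞) := by simp

lemma hit_le_one (G : SimpleGraph V) (hf : ∀ v, (G.neighborSet v).Finite) (o : V) (n : ℕ) :
    ∀ v, hit G o n v ≤ 1 := by
  induction n with
  | zero => intro v; unfold hit; split_ifs <;> simp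
  | succ n ih =>
    intro v
    unfold hit
    split_ifs
    · exact le_rfl
    · exact avg_le_one G hf ih v

lemma hit_mono_succ (G : SimpleGraph V) (hf : ∀ v, (G.neighborSet v).Finite) (o : V) (n : ℕ) :
    ∀ v, hit G o n v ≤ hit G o (n + 1) v := by
  induction n with
  | zero =>
    intro v
    rw [hit, hit]
    split_ifs <;> simp
  | succ n ih =>
    intro v
    rw [hit, hit]
    split_ifs
    · exact le_rfl
    · exact avg_mono G hf ih v

lemma hit_mono (G : SimpleGraph V) (hf : ∀ v, (G.neighborSet v).Finite) (o v : V) :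
    Monotone (fun n => hit G o n v) :=
  monotone_nat_of_le_succ fun n => hit_mono_succ G hf o n v

lemma hit_self (G : SimpleGraph V) (o : V) (n : ℕ) : hit G o n o = 1 := by
  cases n <;> simp [hit]

lemma avg_iSup (G : SimpleGraph V) (hf : ∀ v, (G.neighborSet v).Finite) (o v : V) :
    avg G (fun w => ⨆ n, hit G o n w) v = ⨆ n, avg G (hit G o n) v := by
  simp_rw [avg_eq G hf]
  rw [ENNReal.finsetSum_iSup_of_monotone (fun w => hit_mono G hf o w), ENNReal.iSup_div]

lemma eq_one_of_avg (G : SimpleGraph V) (hf : ∀ v, (G.neighborSet v).Finite) {f : V → ℝ≥0∞}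
    (h : ∀ v, f v ≤ 1) (v w : V) (hvw : G.Adj v w) (ha : avg G f v = 1) : f w = 1 := by
  classical
  rw [avg_eq G hf] at ha
  have hw : w ∈ (hf v).toFinset := by simpa using hvw
  have hcard : ((hf v).toFinset.card : ℝ≥0∞) ≠ 0 := by
    simp only [ne_eq, Nat.cast_eq_zero, Finset.card_eq_zero]
    rintro h0
    rw [h0] at hw
    simp at hw
  rw [ENNReal.div_eq_one_iff hcard (by simp)] at ha
  rw [← Finset.add_sum_erase _ _ hw, ← Finset.card_erase_add_one hw] at ha
  apply le_antisymm (h w)
  have h1 : ∑ x ∈ (hf v).toFinset.erase w, f x ≤ (((hf v).toFinset.erase w).card : ℝ≥0∞) := by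
    calc ∑ x ∈ (hf v).toFinset.erase w, f x ≤ ∑ x ∈ (hf v).toFinset.erase w, 1 :=
          Finset.sum_le_sum fun w _ => h w
      _ = _ := by simp
  have h2 : (1 : ℝ≥0∞) + (((hf v).toFinset.erase w).card : ℝ≥0∞) ≤
      f w + (((hf v).toFinset.erase w).card : ℝ≥0∞) := by
    push_cast at ha
    rw [add_comm (1 : ℝ≥0∞), ← ha]
    gcongr
  exact (ENNReal.add_le_add_iff_right (by simp)).1 h2

/-- In a connected recurrent graph every vertex is hit with probability one. -/
theorem iSup_hit (G : SimpleGraph V) (hc : G.Connected) (hf : ∀ v, (G.neighborSet v).Finite)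
    (hr : Recurrent G) (o v : V) : ⨆ n, hit G o n v = 1 := by
  classical
  have hle : ∀ u, (⨆ n, hit G o n u) ≤ 1 := fun u => iSup_le fun n => hit_le_one G hf o n u
  have key : ∀ u v : V, ∀ p : G.Walk u v, (⨆ n, hit G o n u) = 1 → (⨆ n, hit G o n v) = 1 := by
    intro u v p
    induction p with
    | nil => exact fun h => h
    | @cons u w v huw p ih =>
      intro hu
      apply ih
      apply eq_one_of_avg G hf hle u w huw
      by_cases huo : u = o
      · subst huo
        rw [avg_iSup G hf]
        exact hr u ⟨w, huw⟩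
      · rw [avg_iSup G hf, ← hu]
        have h1 : ∀ n, hit G o (n + 1) u = avg G (hit G o n) u := by
          intro n
          rw [hit, if_neg huo]
        simp_rw [← h1]
        exact (hit_mono G hf o u).iSup_nat_add 1
  obtain ⟨p⟩ := hc.preconnected o v
  exact key o v p (by simp [hit_self])

lemma finite_supp (G : SimpleGraph V) (hf : ∀ v, (G.neighborSet v).Finite) (o : V) (n : ℕ) :
    {v | hit G o n v ≠ 0}.Finite := by
  classical
  induction n with
  | zero =>
    apply (Set.finite_singleton o).subset
    intro v hv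
    by_contra h
    apply hv
    have h' : v ≠ o := h
    simp [hit, h']
  | succ n ih =>
    apply ((Set.finite_singleton o).union (ih.biUnion fun w _ => hf w)).subset
    intro v hv
    by_cases h : v = o
    · left; exact h
    · right
      have h1 : hit G o (n + 1) v = avg G (hit G o n) v := by
        rw [hit, if_neg h]
      have hv' : avg G (hit G o n) v ≠ 0 := by rw [← h1]; exact hv
      rw [avg_eq G hf] at hv'
      have h2 : ∑ w ∈ (hf v).toFinset, hit G o n w ≠ 0 := by
        intro h0
        apply hv'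
        rw [h0]
        simp
      obtain ⟨w, hw, hw2⟩ := Finset.exists_ne_zero_of_sum_ne_zero h2
      have hvw : G.Adj v w := by simpa using hw
      simp only [Set.mem_iUnion]
      exact ⟨w, hw2, hvw.symm⟩

/-- The energy of a finitely supported function on finitely many edges is at most the sum of
`k a * Δ k a` over its support. -/
lemma energy_le (G : SimpleGraph V) (hf : ∀ v, (G.neighborSet v).Finite) (k : V → ℝ)
    (S : Finset V) (hS : ∀ v, v ∉ S → k v = 0) (E : Finset (Sym2 V))
    (hE : (E : Set (Sym2 V)) ⊆ G.edgeSet) :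
    energy E k ≤ ∑ a ∈ S, k a * ∑ b ∈ (hf a).toFinset, (k a - k b) := by
  classical
  set W : Finset V := S ∪ S.biUnion (fun a => (hf a).toFinset) with hW
  set P : Finset (V × V) := (W ×ˢ W).filter (fun p => G.Adj p.1 p.2) with hP
  set f : V × V → ℝ := fun p => (k p.1 - k p.2) ^ 2 with hfdef
  set E' : Finset (Sym2 V) := E.filter (fun e => dsq k e ≠ 0) with hE'
  have h0 : energy E k = ∑ e ∈ E', dsq k e := by
    unfold energy
    rw [hE', Finset.sum_filter_ne_zero]
  have hout : ∀ e : Sym2 V, s((Quot.out e).1, (Quot.out e).2) = e := by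
    intro e
    exact Quot.out_eq e
  have hdsq : ∀ e : Sym2 V, dsq k e = f (Quot.out e) := by
    intro e
    conv_lhs => rw [← hout e]
    rfl
  have hmemW : ∀ a b, G.Adj a b → f (a, b) ≠ 0 → a ∈ W ∧ b ∈ W := by
    intro a b hab hne
    have : a ∈ S ∨ b ∈ S := by
      by_contra hcon
      push Not at hcon
      apply hne
      simp [hfdef, hS a hcon.1, hS b hcon.2]
    rcases this with h | h
    · refine ⟨Finset.mem_union_left _ h, Finset.mem_union_right _ ?_⟩
      rw [Finset.mem_biUnion]
      exact ⟨a, h, by simpa using hab⟩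
    · refine ⟨Finset.mem_union_right _ ?_, Finset.mem_union_left _ h⟩
      rw [Finset.mem_biUnion]
      exact ⟨b, h, by simpa using hab.symm⟩
  have hadj : ∀ e ∈ E', G.Adj (Quot.out e).1 (Quot.out e).2 := by
    intro e he
    have he' : e ∈ G.edgeSet := hE (Finset.mem_coe.2 (Finset.mem_filter.1 he).1)
    rw [← hout e, SimpleGraph.mem_edgeSet] at he'
    exact he'
  set I1 : Finset (V × V) := E'.image (fun e => Quot.out e) with hI1
  set I2 : Finset (V × V) := E'.image (fun e => (Quot.out e).swap) with hI2
  have hs1 : ∑ p ∈ I1, f p = ∑ e ∈ E', dsq k e := by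
    rw [hI1, Finset.sum_image]
    · exact Finset.sum_congr rfl fun e _ => (hdsq e).symm
    · intro e _ e' _ h
      have h' : Quot.out e = Quot.out e' := h
      rw [← hout e, ← hout e', h']
  have hs2 : ∑ p ∈ I2, f p = ∑ e ∈ E', dsq k e := by
    rw [hI2, Finset.sum_image]
    · refine Finset.sum_congr rfl fun e _ => ?_
      rw [hdsq e]
      simp only [hfdef, Prod.fst_swap, Prod.snd_swap]
      ring
    · intro e _ e' _ h
      have h' : (Quot.out e).swap = (Quot.out e').swap := h
      have h'' : Quot.out e = Quot.out e' := Prod.swap_injective h'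
      rw [← hout e, ← hout e', h'']
  have hdisj : Disjoint I1 I2 := by
    rw [Finset.disjoint_left]
    intro p hp1 hp2
    rw [hI1, Finset.mem_image] at hp1
    rw [hI2, Finset.mem_image] at hp2
    obtain ⟨e, he, rfl⟩ := hp1
    obtain ⟨e', he', h⟩ := hp2
    have hee : e = e' := by
      rw [← hout e, ← hout e', ← h]
      simp only [Prod.fst_swap, Prod.snd_swap]
      exact Sym2.eq_swap
    subst hee
    have h1 : (Quot.out e).1 = (Quot.out e).2 := by
      have := congrArg Prod.snd h
      simpa using this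
    exact (hadj e he).ne h1
  have hsub : I1 ∪ I2 ⊆ P := by
    intro p hp
    rw [Finset.mem_union] at hp
    rcases hp with hp | hp
    · rw [hI1, Finset.mem_image] at hp
      obtain ⟨e, he, rfl⟩ := hp
      have ha := hadj e he
      have hne : f (Quot.out e) ≠ 0 := by
        rw [← hdsq e]
        exact (Finset.mem_filter.1 he).2
      have := hmemW _ _ ha hne
      simp only [hP, Finset.mem_filter, Finset.mem_product]
      exact ⟨this, ha⟩
    · rw [hI2, Finset.mem_image] at hp
      obtain ⟨e, he, rfl⟩ := hp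
      have ha := hadj e he
      have hne : f (Quot.out e) ≠ 0 := by
        rw [← hdsq e]
        exact (Finset.mem_filter.1 he).2
      have := hmemW _ _ ha hne
      simp only [hP, Finset.mem_filter, Finset.mem_product, Prod.fst_swap, Prod.snd_swap]
      exact ⟨this.symm, ha.symm⟩
  have hmain : 2 * energy E k ≤ ∑ p ∈ P, f p := by
    calc 2 * energy E k = ∑ p ∈ I1 ∪ I2, f p := by
          rw [Finset.sum_union hdisj, hs1, hs2, h0]; ring
      _ ≤ ∑ p ∈ P, f p :=
          Finset.sum_le_sum_of_subset_of_nonneg hsub fun p _ _ => sq_nonneg _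
  -- summation by parts
  have hswap : ∑ p ∈ P, k p.2 * (k p.2 - k p.1) = ∑ p ∈ P, k p.1 * (k p.1 - k p.2) := by
    apply Finset.sum_nbij' (fun p => p.swap) (fun p => p.swap)
    · intro p hp
      simp only [hP, Finset.mem_filter, Finset.mem_product, Prod.fst_swap, Prod.snd_swap] at hp ⊢
      exact ⟨hp.1.symm, hp.2.symm⟩
    · intro p hp
      simp only [hP, Finset.mem_filter, Finset.mem_product, Prod.fst_swap, Prod.snd_swap] at hp ⊢
      exact ⟨hp.1.symm, hp.2.symm⟩
    · intro p _; simp
    · intro p _; simp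
    · intro p _; simp
  have hparts : ∑ p ∈ P, f p = 2 * ∑ p ∈ P, k p.1 * (k p.1 - k p.2) := by
    rw [two_mul]
    nth_rewrite 2 [← hswap]
    rw [← Finset.sum_add_distrib]
    apply Finset.sum_congr rfl
    intro p _
    simp only [hfdef]
    ring
  have hfin : ∑ p ∈ P, k p.1 * (k p.1 - k p.2) =
      ∑ a ∈ S, k a * ∑ b ∈ (hf a).toFinset, (k a - k b) := by
    rw [hP, Finset.sum_filter, Finset.sum_product]
    rw [← Finset.sum_subset (Finset.subset_union_left : S ⊆ W)]
    · apply Finset.sum_congr rfl
      intro a ha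
      rw [Finset.mul_sum, ← Finset.sum_filter]
      apply Finset.sum_congr
      · ext b
        simp only [Finset.mem_filter, Set.Finite.mem_toFinset, SimpleGraph.mem_neighborSet]
        constructor
        · exact fun h => h.2
        · intro h
          refine ⟨Finset.mem_union_right _ ?_, h⟩
          rw [Finset.mem_biUnion]
          exact ⟨a, ha, by simpa using h⟩
      · intro b _
        rfl
    · intro a _ ha
      apply Finset.sum_eq_zero
      intro b _
      simp [hS a ha]
  linarith [hmain, hparts, hfin]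

/-- Recurrent graphs have cutoff functions of small energy. -/
theorem cutoff (G : SimpleGraph V) (hc : G.Connected) (hf : ∀ v, (G.neighborSet v).Finite)
    (hr : Recurrent G) (x y : V) (δ : ℝ) (hδ : 0 < δ) :
    ∃ χ : V → ℝ, (∀ v, 0 ≤ χ v ∧ χ v ≤ 1) ∧ χ x = 1 ∧ χ y = 1 ∧ {v | χ v ≠ 0}.Finite ∧
      ∀ E : Finset (Sym2 V), (E : Set (Sym2 V)) ⊆ G.edgeSet → energy E χ ≤ δ := by
  classical
  set k : ℕ → V → ℝ := fun n v => (hit G x n v).toReal with hk
  have hne : ∀ n v, hit G x n v ≠ ⊤ := fun n v =>
    ne_top_of_le_ne_top ENNReal.one_ne_top (hit_le_one G hf x n v)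
  have hk0 : ∀ n v, 0 ≤ k n v := fun n v => ENNReal.toReal_nonneg
  have hk1 : ∀ n v, k n v ≤ 1 := fun n v => by
    have := ENNReal.toReal_mono ENNReal.one_ne_top (hit_le_one G hf x n v)
    simpa using this
  have hkx : ∀ n, k n x = 1 := fun n => by simp [hk, hit_self]
  have hlim : ∀ v, Filter.Tendsto (fun n => k n v) Filter.atTop (nhds 1) := by
    intro v
    have h1 : Filter.Tendsto (fun n => hit G x n v) Filter.atTop (nhds 1) := by
      rw [← iSup_hit G hc hf hr x v]
      exact tendsto_atTop_iSup (hit_mono G hf x v)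
    have h2 := (ENNReal.tendsto_toReal ENNReal.one_ne_top).comp h1
    rw [ENNReal.toReal_one] at h2
    exact h2
  -- the energy bound
  have hen : ∀ n, ∀ E : Finset (Sym2 V), (E : Set (Sym2 V)) ⊆ G.edgeSet →
      energy E (k n) ≤ ∑ b ∈ (hf x).toFinset, (1 - k n b) := by
    intro n E hE
    have hb := energy_le G hf (k n) (insert x (finite_supp G hf x n).toFinset) (by
      intro v hv
      have : hit G x n v = 0 := by
        by_contra h
        apply hv
        apply Finset.mem_insert_of_mem
        simpa using h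
      simp [hk, this]) E hE
    refine hb.trans ?_
    rw [← Finset.add_sum_erase _ _ (Finset.mem_insert_self x _), hkx, one_mul]
    have : ∑ a ∈ (insert x (finite_supp G hf x n).toFinset).erase x,
        k n a * ∑ b ∈ (hf a).toFinset, (k n a - k n b) ≤ 0 := by
      apply Finset.sum_nonpos
      intro a ha
      have hax : a ≠ x := (Finset.mem_erase.1 ha).1
      apply mul_nonpos_of_nonneg_of_nonpos (hk0 n a)
      -- k n a ≤ k (n+1) a = avg
      have h1 : hit G x n a ≤ avg G (hit G x n) a := by
        have h2 := hit_mono_succ G hf x n a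
        have h3 : hit G x (n + 1) a = avg G (hit G x n) a := by
          rw [hit, if_neg hax]
        rwa [h3] at h2
      rw [avg_eq G hf] at h1
      rw [Finset.sum_sub_distrib, Finset.sum_const, nsmul_eq_mul, sub_nonpos]
      have h4 : hit G x n a * ((hf a).toFinset.card : ℝ≥0∞) ≤ ∑ w ∈ (hf a).toFinset, hit G x n w :=
        ENNReal.mul_le_of_le_div h1
      have h5 := ENNReal.toReal_mono (ENNReal.sum_ne_top.2 fun w _ => hne n w) h4
      rw [ENNReal.toReal_mul, ENNReal.toReal_natCast,
        ENNReal.toReal_sum (fun w _ => hne n w)] at h5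
      rw [mul_comm]
      exact h5
    linarith
  have hlim2 : Filter.Tendsto (fun n => ∑ b ∈ (hf x).toFinset, (1 - k n b)) Filter.atTop
      (nhds 0) := by
    have : Filter.Tendsto (fun n => ∑ b ∈ (hf x).toFinset, (1 - k n b)) Filter.atTop
        (nhds (∑ b ∈ (hf x).toFinset, (1 - 1 : ℝ))) :=
      tendsto_finsetSum _ fun b _ => (hlim b).const_sub 1
    simpa using this
  have hev1 : ∀ᶠ n in Filter.atTop, ∑ b ∈ (hf x).toFinset, (1 - k n b) < δ / 4 :=
    hlim2.eventually_lt_const (by positivity)
  have hev2 : ∀ᶠ n in Filter.atTop, (1 / 2 : ℝ) < k n y :=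
    (hlim y).eventually_const_lt (by norm_num)
  obtain ⟨n, hn1, hn2⟩ := (hev1.and hev2).exists
  refine ⟨fun v => min 1 (2 * k n v), ?_, ?_, ?_, ?_, ?_⟩
  · intro v
    exact ⟨le_min zero_le_one (by linarith [hk0 n v]), min_le_left _ _⟩
  · simp [hkx]
  · exact min_eq_left (by linarith)
  · apply (finite_supp G hf x n).subset
    intro v hv
    intro h0
    apply hv
    have : k n v = 0 := by simp [hk, h0]
    simp [this]
  · intro E hE
    have hle : energy E (fun v => min 1 (2 * k n v)) ≤ 4 * energy E (k n) := by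
      unfold energy
      rw [Finset.mul_sum]
      apply Finset.sum_le_sum
      intro e _
      induction e using Sym2.ind with
      | _ a b =>
        change (min 1 (2 * k n a) - min 1 (2 * k n b)) ^ 2 ≤ 4 * (k n a - k n b) ^ 2
        have : |min 1 (2 * k n a) - min 1 (2 * k n b)| ≤ |2 * (k n a - k n b)| := by
          have h := abs_min_sub_min_le_max 1 (2 * k n a) 1 (2 * k n b)
          simp only [sub_self, abs_zero] at h
          rw [max_eq_right (abs_nonneg _)] at h
          rw [mul_sub]
          exact h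
        calc (min 1 (2 * k n a) - min 1 (2 * k n b)) ^ 2 ≤ (2 * (k n a - k n b)) ^ 2 :=
              sq_le_sq.2 this
          _ = _ := by ring
    have := hen n E hE
    linarith

end Pool.Agent.TH365.J76
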