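import Pool.Agent.TH968.UST.Defs

/-!
# Free = wired convergence for uniform spanning trees on recurrent graphs

Module 5 of the proof for `MP_688e31_pr`.
-/

namespace Pool.Agent.TH365.J77
open Finset Pool.Agent.TH968.UST Filter Topology
variable {V : Type*} [DecidableEq V]

omit [DecidableEq V] in
lemma mem_trees {r : Setoid V} {E T : Finset (Sym2 V)} :
    T ∈ trees r E ↔ IsSpan r (E : Set (Sym2 V)) (T : Set (Sym2 V)) := by
  classical
  unfold trees
  rw [Finset.mem_filter, Finset.mem_powerset]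
  constructor
  · exact fun h => h.2
  · exact fun h => ⟨by exact_mod_cast h.1, h⟩

omit [DecidableEq V] in
lemma sub_of_mem_trees {r : Setoid V} {E T : Finset (Sym2 V)} (h : T ∈ trees r E) : T ⊆ E := by
  have := (mem_trees.1 h).1
  exact_mod_cast this

/-- Expectation for the uniform spanning tree. -/
noncomputable def Ex (r : Setoid V) (E : Finset (Sym2 V)) (h : Finset (Sym2 V) → ℝ) : ℝ :=
  (∑ T ∈ trees r E, h T) / ((trees r E).card : ℝ)

lemma ustProb_eq (r : Setoid V) (E F A : Finset (Sym2 V)) :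
    ustProb r (E : Set (Sym2 V)) (F : Set (Sym2 V)) (A : Set (Sym2 V)) =
      Ex r E (fun T => if T ∩ F = A then 1 else 0) := by
  have hinj : Function.Injective (fun T : Finset (Sym2 V) => (T : Set (Sym2 V))) :=
    Finset.coe_injective
  have h1 : {T : Set (Sym2 V) | IsSpan r (E : Set (Sym2 V)) T} =
      (fun T : Finset (Sym2 V) => (T : Set (Sym2 V))) '' ((trees r E : Finset _) : Set _) := by
    ext T
    simp only [Set.mem_ofPred_eq, Set.mem_image, Finset.mem_coe]
    constructor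
    · intro h
      have hfin : T.Finite := E.finite_toSet.subset h.1
      refine ⟨hfin.toFinset, ?_, by simp⟩
      rw [mem_trees]
      simpa using h
    · rintro ⟨T', hT', rfl⟩
      exact mem_trees.1 hT'
  have h2 : {T : Set (Sym2 V) | IsSpan r (E : Set (Sym2 V)) T ∧
      T ∩ (F : Set (Sym2 V)) = (A : Set (Sym2 V))} =
      (fun T : Finset (Sym2 V) => (T : Set (Sym2 V))) ''
        (((trees r E).filter (fun T => T ∩ F = A) : Finset _) : Set _) := by
    ext T
    simp only [Set.mem_ofPred_eq, Set.mem_image, Finset.mem_coe, Finset.mem_filter]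
    constructor
    · intro h
      have hfin : T.Finite := E.finite_toSet.subset h.1.1
      refine ⟨hfin.toFinset, ⟨?_, ?_⟩, by simp⟩
      · rw [mem_trees]
        simpa using h.1
      · rw [← Finset.coe_inj, Finset.coe_inter]
        simpa using h.2
    · rintro ⟨T', hT', rfl⟩
      refine ⟨mem_trees.1 hT'.1, ?_⟩
      rw [← hT'.2, Finset.coe_inter]
  unfold ustProb Ex
  rw [h1, h2, Set.ncard_image_of_injective _ hinj, Set.ncard_image_of_injective _ hinj,
    Set.ncard_coe_finset, Set.ncard_coe_finset, Finset.sum_boole]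

omit [DecidableEq V] in
lemma touch_finite (G : SimpleGraph V) (hf : ∀ v, (G.neighborSet v).Finite) (B : Finset V) :
    (touch G B).Finite := by
  have : touch G B ⊆ ⋃ v ∈ B, (fun w => s(v, w)) '' G.neighborSet v := by
    rintro e ⟨he, v, hv, hve⟩
    obtain ⟨w, rfl⟩ := hve
    simp only [Set.mem_iUnion]
    exact ⟨v, hv, w, he, rfl⟩
  exact (Set.Finite.biUnion (Finset.finite_toSet B) fun v _ => (hf v).image _).subset this

section
variable (trees_nonempty : ∀ (r : Setoid V) (E : Finset (Sym2 V)), (trees r E).Nonempty)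
include trees_nonempty

lemma card_pos' (r : Setoid V) (E : Finset (Sym2 V)) : (0 : ℝ) < ((trees r E).card : ℝ) := by
  exact_mod_cast Finset.card_pos.2 (trees_nonempty r E)

lemma Ex_nonneg (r : Setoid V) (E : Finset (Sym2 V)) (h : Finset (Sym2 V) → ℝ)
    (hh : ∀ T, 0 ≤ h T) : 0 ≤ Ex r E h :=
  div_nonneg (Finset.sum_nonneg fun T _ => hh T) (card_pos' trees_nonempty r E).le

lemma Ex_le_one (r : Setoid V) (E : Finset (Sym2 V)) (h : Finset (Sym2 V) → ℝ)
    (hh : ∀ T, h T ≤ 1) : Ex r E h ≤ 1 := by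
  unfold Ex
  rw [div_le_one (card_pos' trees_nonempty r E)]
  calc ∑ T ∈ trees r E, h T ≤ ∑ T ∈ trees r E, 1 := Finset.sum_le_sum fun T _ => hh T
    _ = _ := by simp

omit trees_nonempty in
lemma Ex_sub (r : Setoid V) (E : Finset (Sym2 V)) (h g : Finset (Sym2 V) → ℝ) :
    Ex r E (fun T => h T - g T) = Ex r E h - Ex r E g := by
  unfold Ex
  rw [Finset.sum_sub_distrib, sub_div]

omit trees_nonempty in
lemma Ex_sum (r : Setoid V) (E F : Finset (Sym2 V)) (h : Sym2 V → Finset (Sym2 V) → ℝ) :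
    Ex r E (fun T => ∑ e ∈ F, h e T) = ∑ e ∈ F, Ex r E (h e) := by
  unfold Ex
  rw [Finset.sum_comm, Finset.sum_div]

omit trees_nonempty in
lemma Ex_congr (r : Setoid V) (E : Finset (Sym2 V)) (h g : Finset (Sym2 V) → ℝ)
    (hh : ∀ T, T ⊆ E → h T = g T) : Ex r E h = Ex r E g := by
  unfold Ex
  congr 1
  exact Finset.sum_congr rfl fun T hT => hh T (sub_of_mem_trees hT)

variable (dom : ∀ (r r' : Setoid V), r' ≤ r → ∀ E E' : Finset (Sym2 V), E' ⊆ E →
      ∀ g : Finset (Sym2 V) → ℝ, (∀ S T, S ⊆ T → g S ≤ g T) →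
      (∑ T ∈ trees r E, g (T ∩ E')) * ((trees r' E').card : ℝ) ≤
        (∑ T ∈ trees r' E', g T) * ((trees r E).card : ℝ))
include dom

lemma Ex_dom (r r' : Setoid V) (hr : r' ≤ r) (E E' F : Finset (Sym2 V)) (hE : E' ⊆ E)
    (hF : F ⊆ E') (g : Finset (Sym2 V) → ℝ) (hg : ∀ S T, S ⊆ T → g S ≤ g T)
    (hgF : ∀ S, g S = g (S ∩ F)) : Ex r E g ≤ Ex r' E' g := by
  have h := dom r r' hr E E' hE g hg
  have h1 : ∑ T ∈ trees r E, g (T ∩ E') = ∑ T ∈ trees r E, g T := by
    apply Finset.sum_congr rfl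
    intro T _
    rw [hgF (T ∩ E'), hgF T, Finset.inter_assoc, Finset.inter_eq_right.2 hF]
  rw [h1] at h
  unfold Ex
  rw [div_le_div_iff₀ (card_pos' trees_nonempty r E) (card_pos' trees_nonempty r' E')]
  exact h

end

omit [DecidableEq V] in
lemma energy_nonneg (E : Finset (Sym2 V)) (φ : V → ℝ) : 0 ≤ energy E φ := by
  unfold energy
  apply Finset.sum_nonneg
  intro e _
  induction e using Sym2.ind with
  | _ a b => exact sq_nonneg (φ a - φ b)

/-- One-edge estimate. -/
lemma one_edge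
    (K1 : ∀ (r : Setoid V) (E : Finset (Sym2 V)) (x y : V), s(x, y) ∈ E → ∀ φ : V → ℝ,
      (∀ a b, r a b → φ a = φ b) →
      (φ x - φ y) ^ 2 * ((trees r E).card : ℝ) ≤
        (((trees r E).filter (fun T => s(x, y) ∈ T)).card : ℝ) * energy E φ)
    (K2 : ∀ (r : Setoid V) (E : Finset (Sym2 V)) (x y : V), s(x, y) ∈ E → ¬ r x y →
      ∃ φ : V → ℝ, (∀ a b, r a b → φ a = φ b) ∧ (∀ a, 0 ≤ φ a ∧ φ a ≤ 1) ∧ φ x = 1 ∧ φ y = 0 ∧
        (((trees r E).filter (fun T => s(x, y) ∈ T)).card : ℝ) * energy E φ =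
          ((trees r E).card : ℝ))
    (trees_nonempty : ∀ (r : Setoid V) (E : Finset (Sym2 V)), (trees r E).Nonempty)
    (G : SimpleGraph V) (hf : ∀ v, (G.neighborSet v).Finite)
    (cutoff : ∀ (x y : V) (δ : ℝ), 0 < δ →
      ∃ χ : V → ℝ, (∀ v, 0 ≤ χ v ∧ χ v ≤ 1) ∧ χ x = 1 ∧ χ y = 1 ∧ {v | χ v ≠ 0}.Finite ∧
        ∀ E : Finset (Sym2 V), (E : Set (Sym2 V)) ⊆ G.edgeSet → energy E χ ≤ δ)
    (e : Sym2 V) (he : e ∈ G.edgeSet) (t : ℝ) (ht : 0 < t) (ht1 : t ≤ 1) :
    ∃ H₀ : Finset (Sym2 V), (H₀ : Set (Sym2 V)) ⊆ G.edgeSet ∧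
      ∀ H : Finset (Sym2 V), H₀ ⊆ H → (H : Set (Sym2 V)) ⊆ G.edgeSet →
        ∃ B₀ : Finset V, ∀ B : Finset V, B₀ ⊆ B →
          Ex ⊥ H (fun T => if e ∈ T then 1 else 0) -
            Ex (wired B) (touch_finite G hf B).toFinset (fun T => if e ∈ T then 1 else 0) ≤
              3 * t := by
  classical
  induction e using Sym2.ind with
  | _ x y =>
  have hxy : G.Adj x y := he
  obtain ⟨χ, hχ01, hχx, hχy, hχfin, hχE⟩ := cutoff x y (t ^ 2) (by positivity)
  refine ⟨insert s(x, y) (touch_finite G hf hχfin.toFinset).toFinset, ?_, ?_⟩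
  · intro e he'
    rw [Finset.mem_coe, Finset.mem_insert] at he'
    rcases he' with rfl | he'
    · exact he
    · rw [Set.Finite.mem_toFinset] at he'
      exact he'.1
  intro H hH hHG
  refine ⟨hχfin.toFinset ∪ H.biUnion (fun e => {(Quot.out e).1, (Quot.out e).2}), ?_⟩
  intro B hB
  set EB := (touch_finite G hf B).toFinset with hEB
  have hxyH : s(x, y) ∈ H := hH (Finset.mem_insert_self _ _)
  have hHEB : H ⊆ EB := by
    intro e he'
    rw [hEB, Set.Finite.mem_toFinset]
    refine ⟨hHG (Finset.mem_coe.2 he'), (Quot.out e).1, ?_, ?_⟩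
    · apply hB
      apply Finset.mem_union_right
      rw [Finset.mem_biUnion]
      exact ⟨e, he', by simp⟩
    · have h1 : s((Quot.out e).1, (Quot.out e).2) = e := Quot.out_eq e
      have := Sym2.mem_mk_left (Quot.out e).1 (Quot.out e).2
      rwa [h1] at this
  obtain ⟨φ, -, hφ01, hφx, hφy, hφE⟩ := K2 ⊥ H x y hxyH (by
    intro h
    exact hxy.ne h)
  set ψ : V → ℝ := fun v => χ v * φ v with hψ
  have hψr : ∀ a b, (wired B) a b → ψ a = ψ b := by
    intro a b hab
    have hab' : a = b ∨ (a ∉ B ∧ b ∉ B) := hab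
    rcases hab' with rfl | ⟨ha, hb⟩
    · rfl
    · have h1 : ∀ c, c ∉ B → χ c = 0 := by
        intro c hc
        by_contra h
        apply hc
        apply hB
        apply Finset.mem_union_left
        simpa using h
      simp [hψ, h1 a ha, h1 b hb]
  have hK1 := K1 (wired B) EB x y (hHEB hxyH) ψ hψr
  have hψxy : ψ x - ψ y = 1 := by simp [hψ, hχx, hχy, hφx, hφy]
  rw [hψxy, one_pow, one_mul] at hK1
  -- energies
  have hEψ : energy EB ψ = energy H ψ := by
    unfold energy
    symm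
    apply Finset.sum_subset hHEB
    intro e heB heH
    induction e using Sym2.ind with
    | _ a b =>
      have heG : s(a, b) ∈ G.edgeSet := by
        rw [hEB, Set.Finite.mem_toFinset] at heB
        exact heB.1
      have h1 : ∀ c, c ∈ s(a, b) → χ c = 0 := by
        intro c hc
        by_contra h
        apply heH
        apply hH
        apply Finset.mem_insert_of_mem
        rw [Set.Finite.mem_toFinset]
        exact ⟨heG, c, by simpa using h, hc⟩
      change (ψ a - ψ b) ^ 2 = 0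
      simp [hψ, h1 a (Sym2.mem_mk_left _ _), h1 b (Sym2.mem_mk_right _ _)]
  have hEle : energy H ψ ≤ (1 + t) * energy H φ + (1 + 1 / t) * energy H χ := by
    unfold energy
    rw [Finset.mul_sum, Finset.mul_sum, ← Finset.sum_add_distrib]
    apply Finset.sum_le_sum
    intro e _
    induction e using Sym2.ind with
    | _ a b =>
      change (ψ a - ψ b) ^ 2 ≤ (1 + t) * (φ a - φ b) ^ 2 + (1 + 1 / t) * (χ a - χ b) ^ 2
      set u := χ a * (φ a - φ b) with hu
      set v := φ b * (χ a - χ b) with hv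
      have huv : ψ a - ψ b = u + v := by simp only [hψ, hu, hv]; ring
      have h1 : (u + v) ^ 2 ≤ (1 + t) * u ^ 2 + (1 + 1 / t) * v ^ 2 := by
        have h2 : 2 * (u * v) ≤ t * u ^ 2 + 1 / t * v ^ 2 := by
          have h3 : 0 ≤ (t * u - v) ^ 2 / t := by positivity
          have h4 : (t * u - v) ^ 2 / t = t * u ^ 2 + 1 / t * v ^ 2 - 2 * (u * v) := by
            field_simp
            ring
          linarith
        nlinarith
      have h5 : u ^ 2 ≤ (φ a - φ b) ^ 2 := by
        rw [hu, mul_pow]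
        have : χ a ^ 2 ≤ 1 := by
          have := hχ01 a
          nlinarith
        nlinarith [sq_nonneg (φ a - φ b)]
      have h6 : v ^ 2 ≤ (χ a - χ b) ^ 2 := by
        rw [hv, mul_pow]
        have : φ b ^ 2 ≤ 1 := by
          have := hφ01 b
          nlinarith
        nlinarith [sq_nonneg (χ a - χ b)]
      rw [huv]
      have h7 : 0 < 1 / t := by positivity
      nlinarith
  have hEχ : energy H χ ≤ t ^ 2 := hχE H hHG
  -- probabilities
  set n := ((trees ⊥ H).card : ℝ) with hn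
  set m := (((trees ⊥ H).filter (fun T => s(x, y) ∈ T)).card : ℝ) with hm
  set n' := ((trees (wired B) EB).card : ℝ) with hn'
  set m' := (((trees (wired B) EB).filter (fun T => s(x, y) ∈ T)).card : ℝ) with hm'
  have hnpos : 0 < n := card_pos' trees_nonempty ⊥ H
  have hn'pos : 0 < n' := card_pos' trees_nonempty (wired B) EB
  have hm0 : 0 ≤ m := Nat.cast_nonneg _
  have hm'0 : 0 ≤ m' := Nat.cast_nonneg _
  have hmn : m ≤ n := Nat.cast_le.2 (Finset.card_filter_le _ _)
  have hmn' : m' ≤ n' := Nat.cast_le.2 (Finset.card_filter_le _ _)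
  have hP : Ex ⊥ H (fun T => if s(x, y) ∈ T then (1 : ℝ) else 0) = m / n := by
    unfold Ex
    rw [Finset.sum_boole]
  have hP' : Ex (wired B) EB (fun T => if s(x, y) ∈ T then (1 : ℝ) else 0) = m' / n' := by
    unfold Ex
    rw [Finset.sum_boole]
  rw [hP, hP']
  -- `p * energy φ = 1`
  rw [hEψ] at hK1
  have hχn : 0 ≤ energy H χ := energy_nonneg H χ
  have ht' : 0 ≤ 1 + 1 / t := by positivity
  have hmE : m * energy H ψ ≤ (1 + t) ^ 2 * n := by
    calc m * energy H ψ ≤ m * ((1 + t) * energy H φ + (1 + 1 / t) * energy H χ) :=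
          mul_le_mul_of_nonneg_left hEle hm0
      _ = (1 + t) * (m * energy H φ) + (1 + 1 / t) * (m * energy H χ) := by ring
      _ ≤ (1 + t) * n + (1 + 1 / t) * (n * t ^ 2) := by
          rw [hφE]
          have h1 : m * energy H χ ≤ n * t ^ 2 := mul_le_mul hmn hEχ hχn hnpos.le
          have h2 := mul_le_mul_of_nonneg_left h1 ht'
          linarith
      _ = (1 + t) ^ 2 * n := by field_simp; ring
  have hkey : m * n' ≤ m' * ((1 + t) ^ 2 * n) := by
    calc m * n' ≤ m * (m' * energy H ψ) := mul_le_mul_of_nonneg_left hK1 hm0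
      _ = m' * (m * energy H ψ) := by ring
      _ ≤ _ := mul_le_mul_of_nonneg_left hmE hm'0
  have hkey2 : m / n ≤ (1 + t) ^ 2 * (m' / n') := by
    rw [div_le_iff₀ hnpos]
    have : (1 + t) ^ 2 * (m' / n') * n = m' * ((1 + t) ^ 2 * n) / n' := by ring
    rw [this, le_div_iff₀ hn'pos]
    exact hkey
  have hq1 : m' / n' ≤ 1 := (div_le_one hn'pos).2 hmn'
  have hq0 : 0 ≤ m' / n' := div_nonneg hm'0 hn'pos.le
  have h8 : ((1 + t) ^ 2 - 1) * (m' / n') ≤ ((1 + t) ^ 2 - 1) * 1 :=
    mul_le_mul_of_nonneg_left hq1 (by nlinarith)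
  have h9 : t ^ 2 ≤ t := by nlinarith
  linarith

/-- Convergence for an increasing event depending on finitely many edges. -/
lemma mono_conv
    (K1 : ∀ (r : Setoid V) (E : Finset (Sym2 V)) (x y : V), s(x, y) ∈ E → ∀ φ : V → ℝ,
      (∀ a b, r a b → φ a = φ b) →
      (φ x - φ y) ^ 2 * ((trees r E).card : ℝ) ≤
        (((trees r E).filter (fun T => s(x, y) ∈ T)).card : ℝ) * energy E φ)
    (K2 : ∀ (r : Setoid V) (E : Finset (Sym2 V)) (x y : V), s(x, y) ∈ E → ¬ r x y →
      ∃ φ : V → ℝ, (∀ a b, r a b → φ a = φ b) ∧ (∀ a, 0 ≤ φ a ∧ φ a ≤ 1) ∧ φ x = 1 ∧ φ y = 0 ∧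
        (((trees r E).filter (fun T => s(x, y) ∈ T)).card : ℝ) * energy E φ =
          ((trees r E).card : ℝ))
    (trees_nonempty : ∀ (r : Setoid V) (E : Finset (Sym2 V)), (trees r E).Nonempty)
    (dom : ∀ (r r' : Setoid V), r' ≤ r → ∀ E E' : Finset (Sym2 V), E' ⊆ E →
      ∀ g : Finset (Sym2 V) → ℝ, (∀ S T, S ⊆ T → g S ≤ g T) →
      (∑ T ∈ trees r E, g (T ∩ E')) * ((trees r' E').card : ℝ) ≤
        (∑ T ∈ trees r' E', g T) * ((trees r E).card : ℝ))
    (G : SimpleGraph V) (hf : ∀ v, (G.neighborSet v).Finite)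
    (cutoff : ∀ (x y : V) (δ : ℝ), 0 < δ →
      ∃ χ : V → ℝ, (∀ v, 0 ≤ χ v ∧ χ v ≤ 1) ∧ χ x = 1 ∧ χ y = 1 ∧ {v | χ v ≠ 0}.Finite ∧
        ∀ E : Finset (Sym2 V), (E : Set (Sym2 V)) ⊆ G.edgeSet → energy E χ ≤ δ)
    (F : Finset (Sym2 V)) (hFG : (F : Set (Sym2 V)) ⊆ G.edgeSet)
    (u : Finset (Sym2 V) → Prop) [DecidablePred u] (hu : ∀ S T, S ⊆ T → u S → u T)
    (huF : ∀ S, u S ↔ u (S ∩ F)) :
    ∃ L : ℝ, (∀ δ > 0, ∃ B₀ : Finset V, ∀ B, B₀ ⊆ B →
        |Ex (wired B) (touch_finite G hf B).toFinset (fun T => if u T then 1 else 0) - L| ≤ δ) ∧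
      ∀ δ > 0, ∃ H₀ : Finset (Sym2 V), (H₀ : Set (Sym2 V)) ⊆ G.edgeSet ∧
        ∀ H : Finset (Sym2 V), H₀ ⊆ H → (H : Set (Sym2 V)) ⊆ G.edgeSet →
          |Ex ⊥ H (fun T => if u T then 1 else 0) - L| ≤ δ := by
  classical
  set g : Finset (Sym2 V) → ℝ := fun T => if u T then 1 else 0 with hg
  have hgmono : ∀ S T, S ⊆ T → g S ≤ g T := by
    intro S T hST
    simp only [hg]
    by_cases hS : u S
    · simp [hS, hu S T hST hS]
    · simp only [hS, if_false]
      split_ifs <;> norm_num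
  have hgF : ∀ S, g S = g (S ∩ F) := by
    intro S
    simp only [hg]
    have := huF S
    by_cases h : u S
    · simp [h, this.1 h]
    · have h' : ¬ u (S ∩ F) := fun h' => h (this.2 h')
      simp [h, h']
  -- the second monotone function
  set c : Finset (Sym2 V) → ℝ := fun T => ∑ e ∈ F, if e ∈ T then 1 else 0 with hc
  have hcc : ∀ T, c T = ((T ∩ F).card : ℝ) := by
    intro T
    simp only [hc]
    rw [Finset.sum_boole]
    congr 2
    ext e
    simp [and_comm]
  set g2 : Finset (Sym2 V) → ℝ := fun T => c T - g T with hg2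
  have hg2mono : ∀ S T, S ⊆ T → g2 S ≤ g2 T := by
    intro S T hST
    simp only [hg2, hcc]
    have hsub : S ∩ F ⊆ T ∩ F := Finset.inter_subset_inter_right hST
    by_cases hEq : S ∩ F = T ∩ F
    · rw [hgF S, hgF T, hEq]
    · have hlt : (S ∩ F).card < (T ∩ F).card :=
        Finset.card_lt_card (Finset.ssubset_iff_subset_ne.2 ⟨hsub, hEq⟩)
      have h1 : ((S ∩ F).card : ℝ) + 1 ≤ ((T ∩ F).card : ℝ) := by exact_mod_cast hlt
      have h2 : g T ≤ 1 := by simp only [hg]; split_ifs <;> norm_num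
      have h3 : 0 ≤ g S := by simp only [hg]; split_ifs <;> norm_num
      linarith
  have hg2F : ∀ S, g2 S = g2 (S ∩ F) := by
    intro S
    simp only [hg2, hcc]
    rw [← hgF S, Finset.inter_assoc, Finset.inter_self]
  set EB : Finset V → Finset (Sym2 V) := fun B => (touch_finite G hf B).toFinset with hEB
  set S0 : Set (Finset (Sym2 V)) := {H | F ⊆ H ∧ (H : Set (Sym2 V)) ⊆ G.edgeSet} with hS0
  have hFS0 : F ∈ S0 := ⟨subset_rfl, hFG⟩
  set f : Finset (Sym2 V) → ℝ := fun H => Ex ⊥ H g with hfdef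
  set w : Finset V → ℝ := fun B => Ex (wired B) (EB B) g with hwdef
  have hg0 : ∀ T, 0 ≤ g T := fun T => by simp only [hg]; split_ifs <;> norm_num
  have hf0 : ∀ H, 0 ≤ f H := fun H => Ex_nonneg trees_nonempty ⊥ H g hg0
  have hbdd : BddBelow (f '' S0) := ⟨0, by rintro _ ⟨H, _, rfl⟩; exact hf0 H⟩
  set L := sInf (f '' S0) with hL
  have hLle : ∀ H ∈ S0, L ≤ f H := fun H hH => csInf_le hbdd ⟨H, hH, rfl⟩
  have hanti : ∀ H ∈ S0, ∀ H', H ⊆ H' → f H' ≤ f H := fun H hH H' hHH' =>
    Ex_dom trees_nonempty dom ⊥ ⊥ le_rfl H' H F hHH' hH.1 g hgmono hgF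
  have hwf : ∀ H ∈ S0, ∀ B, H ⊆ EB B → w B ≤ f H := fun H hH B hHB =>
    Ex_dom trees_nonempty dom (wired B) ⊥ bot_le (EB B) H F hHB hH.1 g hgmono hgF
  have happ : ∀ δ > 0, ∃ H1 ∈ S0, f H1 < L + δ := by
    intro δ hδ
    obtain ⟨_, ⟨H1, hH1, rfl⟩, h⟩ := exists_lt_of_csInf_lt (⟨f F, F, hFS0, rfl⟩ : (f '' S0).Nonempty)
      (lt_add_of_pos_right L hδ)
    exact ⟨H1, hH1, h⟩
  refine ⟨L, ?_, ?_⟩
  · intro δ hδ
    obtain ⟨H1, hH1, hH1L⟩ := happ δ hδ
    -- one-edge estimates
    set t : ℝ := min 1 (δ / (3 * ((F.card : ℝ) + 1))) with ht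
    have hF0' : (0 : ℝ) ≤ (F.card : ℝ) := Nat.cast_nonneg _
    have hFp : (0 : ℝ) < 3 * ((F.card : ℝ) + 1) := by linarith
    have ht0 : 0 < t := lt_min one_pos (div_pos hδ hFp)
    have ht1 : t ≤ 1 := min_le_left _ _
    have htδ : (F.card : ℝ) * (3 * t) ≤ δ := by
      have h1 : t ≤ δ / (3 * ((F.card : ℝ) + 1)) := min_le_right _ _
      rw [le_div_iff₀ hFp] at h1
      linarith
    have hone : ∀ e : Sym2 V, e ∈ F → _ := fun e he =>
      one_edge K1 K2 trees_nonempty G hf cutoff e (hFG (Finset.mem_coe.2 he)) t ht0 ht1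
    choose! HH hHHG hHH using hone
    set H : Finset (Sym2 V) := H1 ∪ F.biUnion HH with hH
    have hHG : (H : Set (Sym2 V)) ⊆ G.edgeSet := by
      intro e he
      rw [Finset.mem_coe, hH, Finset.mem_union, Finset.mem_biUnion] at he
      rcases he with he | ⟨e', he', he⟩
      · exact hH1.2 (Finset.mem_coe.2 he)
      · exact hHHG e' he' (Finset.mem_coe.2 he)
    have hHS0 : H ∈ S0 := ⟨hH1.1.trans Finset.subset_union_left, hHG⟩
    have hHHsub : ∀ e ∈ F, HH e ⊆ H := by
      intro e he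
      exact (Finset.subset_biUnion_of_mem HH he).trans Finset.subset_union_right
    have hB : ∀ e : Sym2 V, e ∈ F → _ := fun e he => hHH e he H (hHHsub e he) hHG
    choose! BB hBB using hB
    refine ⟨F.biUnion BB ∪ H.biUnion (fun e => {(Quot.out e).1, (Quot.out e).2}), ?_⟩
    intro B hBsub
    have hHEB : H ⊆ EB B := by
      intro e he'
      simp only [hEB]
      rw [Set.Finite.mem_toFinset]
      refine ⟨hHG (Finset.mem_coe.2 he'), (Quot.out e).1, ?_, ?_⟩
      · apply hBsub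
        apply Finset.mem_union_right
        rw [Finset.mem_biUnion]
        exact ⟨e, he', by simp⟩
      · have h1 : s((Quot.out e).1, (Quot.out e).2) = e := Quot.out_eq e
        have := Sym2.mem_mk_left (Quot.out e).1 (Quot.out e).2
        rwa [h1] at this
    have h1 : w B ≤ f H := hwf H hHS0 B hHEB
    have h2 : f H ≤ f H1 := hanti H1 hH1 H Finset.subset_union_left
    have h3 : L ≤ f H := hLle H hHS0
    -- lower bound
    have h4 : Ex (wired B) (EB B) g2 ≤ Ex ⊥ H g2 :=
      Ex_dom trees_nonempty dom (wired B) ⊥ bot_le (EB B) H F hHEB hHS0.1 g2 hg2mono hg2F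
    simp only [hg2] at h4
    rw [Ex_sub, Ex_sub] at h4
    have h5 : Ex ⊥ H c - Ex (wired B) (EB B) c ≤ δ := by
      simp only [hc]
      rw [Ex_sum, Ex_sum, ← Finset.sum_sub_distrib]
      calc ∑ e ∈ F, (Ex ⊥ H (fun T => if e ∈ T then (1 : ℝ) else 0) -
            Ex (wired B) (EB B) (fun T => if e ∈ T then (1 : ℝ) else 0)) ≤ ∑ e ∈ F, 3 * t := by
            apply Finset.sum_le_sum
            intro e he
            apply hBB e he B
            exact (Finset.subset_biUnion_of_mem BB he).trans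
              (Finset.subset_union_left.trans hBsub)
        _ = (F.card : ℝ) * (3 * t) := by rw [Finset.sum_const, nsmul_eq_mul]
        _ ≤ δ := htδ
    have h6 : f H - w B ≤ δ := by
      simp only [hfdef, hwdef]
      linarith
    change |w B - L| ≤ δ
    rw [abs_le]
    constructor <;> linarith
  · intro δ hδ
    obtain ⟨H1, hH1, hH1L⟩ := happ δ hδ
    refine ⟨H1, hH1.2, ?_⟩
    intro H hHsub hHG
    have hHS0 : H ∈ S0 := ⟨hH1.1.trans hHsub, hHG⟩
    have h2 : f H ≤ f H1 := hanti H1 hH1 H hHsub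
    have h3 : L ≤ f H := hLle H hHS0
    change |f H - L| ≤ δ
    rw [abs_le]
    constructor <;> linarith

/-- Free and wired uniform spanning trees on finite pieces of a recurrent graph converge to the
same limit. -/
theorem conv
    (K1 : ∀ (r : Setoid V) (E : Finset (Sym2 V)) (x y : V), s(x, y) ∈ E → ∀ φ : V → ℝ,
      (∀ a b, r a b → φ a = φ b) →
      (φ x - φ y) ^ 2 * ((trees r E).card : ℝ) ≤
        (((trees r E).filter (fun T => s(x, y) ∈ T)).card : ℝ) * energy E φ)
    (K2 : ∀ (r : Setoid V) (E : Finset (Sym2 V)) (x y : V), s(x, y) ∈ E → ¬ r x y →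
      ∃ φ : V → ℝ, (∀ a b, r a b → φ a = φ b) ∧ (∀ a, 0 ≤ φ a ∧ φ a ≤ 1) ∧ φ x = 1 ∧ φ y = 0 ∧
        (((trees r E).filter (fun T => s(x, y) ∈ T)).card : ℝ) * energy E φ =
          ((trees r E).card : ℝ))
    (trees_nonempty : ∀ (r : Setoid V) (E : Finset (Sym2 V)), (trees r E).Nonempty)
    (dom : ∀ (r r' : Setoid V), r' ≤ r → ∀ E E' : Finset (Sym2 V), E' ⊆ E →
      ∀ g : Finset (Sym2 V) → ℝ, (∀ S T, S ⊆ T → g S ≤ g T) →
      (∑ T ∈ trees r E, g (T ∩ E')) * ((trees r' E').card : ℝ) ≤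
        (∑ T ∈ trees r' E', g T) * ((trees r E).card : ℝ))
    (G : SimpleGraph V) (hf : ∀ v, (G.neighborSet v).Finite)
    (cutoff : ∀ (x y : V) (δ : ℝ), 0 < δ →
      ∃ χ : V → ℝ, (∀ v, 0 ≤ χ v ∧ χ v ≤ 1) ∧ χ x = 1 ∧ χ y = 1 ∧ {v | χ v ≠ 0}.Finite ∧
        ∀ E : Finset (Sym2 V), (E : Set (Sym2 V)) ⊆ G.edgeSet → energy E χ ≤ δ)
    (F A : Finset (Sym2 V)) :
    ∃ L : ℝ,
      Tendsto (fun B : Finset V => ustProb (wired B) (touch G B) (F : Set (Sym2 V)) A) atTop
        (𝓝 L) ∧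
      ∀ δ > 0, ∃ H₀ : Finset (Sym2 V), (H₀ : Set (Sym2 V)) ⊆ G.edgeSet ∧
        ∀ H : Finset (Sym2 V), H₀ ⊆ H → (H : Set (Sym2 V)) ⊆ G.edgeSet →
          |ustProb ⊥ (H : Set (Sym2 V)) (F : Set (Sym2 V)) A - L| ≤ δ := by
  classical
  set F0 : Finset (Sym2 V) := F.filter (fun e => e ∈ G.edgeSet) with hF0
  have hF0G : (F0 : Set (Sym2 V)) ⊆ G.edgeSet := by
    intro e he
    rw [Finset.mem_coe, hF0, Finset.mem_filter] at he
    exact he.2
  have hTF : ∀ T : Finset (Sym2 V), (T : Set (Sym2 V)) ⊆ G.edgeSet → T ∩ F = T ∩ F0 := by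
    intro T hT
    ext e
    rw [hF0, Finset.mem_inter, Finset.mem_inter, Finset.mem_filter]
    constructor
    · exact fun h => ⟨h.1, h.2, hT (Finset.mem_coe.2 h.1)⟩
    · exact fun h => ⟨h.1, h.2.1⟩
  set EB : Finset V → Finset (Sym2 V) := fun B => (touch_finite G hf B).toFinset with hEB
  have hEBG : ∀ B, (EB B : Set (Sym2 V)) ⊆ G.edgeSet := by
    intro B e he
    simp only [hEB, Set.Finite.coe_toFinset] at he
    exact he.1
  have htouch : ∀ B, touch G B = (EB B : Set (Sym2 V)) := by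
    intro B
    simp only [hEB, Set.Finite.coe_toFinset]
  have hev : ∀ (r : Setoid V) (E : Finset (Sym2 V)), (E : Set (Sym2 V)) ⊆ G.edgeSet →
      ustProb r (E : Set (Sym2 V)) (F : Set (Sym2 V)) (A : Set (Sym2 V)) =
        Ex r E (fun T => if T ∩ F0 = A then 1 else 0) := by
    intro r E hE
    rw [ustProb_eq]
    apply Ex_congr
    intro T hT
    rw [hTF T ((Finset.coe_subset.2 hT).trans hE)]
  by_cases hA : A ⊆ F0
  · -- difference of two increasing events
    obtain ⟨L1, hw1, hf1⟩ := mono_conv K1 K2 trees_nonempty dom G hf cutoff F0 hF0G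
      (fun S => A ⊆ S) (fun S T hST h => h.trans hST) (by
        intro S
        constructor
        · exact fun h => Finset.subset_inter h hA
        · exact fun h => h.trans Finset.inter_subset_left)
    obtain ⟨L2, hw2, hf2⟩ := mono_conv K1 K2 trees_nonempty dom G hf cutoff F0 hF0G
      (fun S => A ⊆ S ∧ S ∩ F0 ≠ A) (by
        rintro S T hST ⟨h1, h2⟩
        refine ⟨h1.trans hST, ?_⟩
        intro h3
        apply h2
        apply Finset.Subset.antisymm
        · rw [← h3]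
          exact Finset.inter_subset_inter_right hST
        · exact Finset.subset_inter h1 hA) (by
        intro S
        rw [Finset.inter_assoc, Finset.inter_self]
        constructor
        · exact fun h => ⟨Finset.subset_inter h.1 hA, h.2⟩
        · exact fun h => ⟨h.1.trans Finset.inter_subset_left, h.2⟩)
    have hdiff : ∀ (r : Setoid V) (E : Finset (Sym2 V)),
        Ex r E (fun T => if T ∩ F0 = A then (1 : ℝ) else 0) =
          Ex r E (fun T => if A ⊆ T then 1 else 0) -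
            Ex r E (fun T => if A ⊆ T ∧ T ∩ F0 ≠ A then 1 else 0) := by
      intro r E
      rw [← Ex_sub]
      apply Ex_congr
      intro T _
      by_cases h1 : T ∩ F0 = A
      · have h2 : A ⊆ T := by rw [← h1]; exact Finset.inter_subset_left
        simp [h1, h2]
      · by_cases h2 : A ⊆ T
        · simp [h1, h2]
        · simp [h1, h2]
    refine ⟨L1 - L2, ?_, ?_⟩
    · rw [Metric.tendsto_atTop]
      intro ε hε
      obtain ⟨B1, hB1⟩ := hw1 (ε / 4) (by positivity)
      obtain ⟨B2, hB2⟩ := hw2 (ε / 4) (by positivity)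
      refine ⟨B1 ∪ B2, fun B hB => ?_⟩
      have h1 := hB1 B (Finset.subset_union_left.trans hB)
      have h2 := hB2 B (Finset.subset_union_right.trans hB)
      rw [htouch B, hev _ _ (hEBG B), hdiff, Real.dist_eq]
      rw [abs_le] at h1 h2
      rw [abs_lt]
      change -ε < Ex (wired B) (touch_finite G hf B).toFinset _ -
        Ex (wired B) (touch_finite G hf B).toFinset _ - (L1 - L2) ∧
        Ex (wired B) (touch_finite G hf B).toFinset _ -
        Ex (wired B) (touch_finite G hf B).toFinset _ - (L1 - L2) < ε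
      constructor <;> linarith [h1.1, h1.2, h2.1, h2.2]
    · intro δ hδ
      obtain ⟨H1, hH1G, hH1⟩ := hf1 (δ / 2) (by positivity)
      obtain ⟨H2, hH2G, hH2⟩ := hf2 (δ / 2) (by positivity)
      refine ⟨H1 ∪ H2, ?_, ?_⟩
      · rw [Finset.coe_union]
        exact Set.union_subset hH1G hH2G
      · intro H hH hHG
        have h1 := hH1 H (Finset.subset_union_left.trans hH) hHG
        have h2 := hH2 H (Finset.subset_union_right.trans hH) hHG
        rw [hev _ _ hHG, hdiff]
        rw [abs_le] at h1 h2 ⊢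
        constructor <;> linarith [h1.1, h1.2, h2.1, h2.2]
  · have hzero : ∀ (r : Setoid V) (E : Finset (Sym2 V)), (E : Set (Sym2 V)) ⊆ G.edgeSet →
        ustProb r (E : Set (Sym2 V)) (F : Set (Sym2 V)) (A : Set (Sym2 V)) = 0 := by
      intro r E hE
      rw [hev r E hE]
      have : Ex r E (fun T => if T ∩ F0 = A then (1 : ℝ) else 0) = Ex r E (fun _ => 0) := by
        apply Ex_congr
        intro T _
        rw [if_neg]
        intro h
        apply hA
        rw [← h]
        exact Finset.inter_subset_right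
      rw [this]
      simp [Ex]
    refine ⟨0, ?_, ?_⟩
    · have : (fun B : Finset V => ustProb (wired B) (touch G B) (F : Set (Sym2 V)) A) =
          fun _ => 0 := by
        funext B
        rw [htouch B, hzero _ _ (hEBG B)]
      rw [this]
      exact tendsto_const_nhds
    · intro δ hδ
      refine ⟨∅, by simp, fun H _ hHG => ?_⟩
      rw [hzero _ _ hHG]
      simpa using hδ.le

end Pool.Agent.TH365.J77
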