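import Mathlib
import Pool.Agent.TH109.Main0

set_option autoImplicit false

namespace Pool.Agent.TH365.J789
open scoped Classical ENNReal
open Pool.Agent.TH109

theorem Vt_ncard {G : Type} [Group G] (T : TreeX G) (m : ℕ) :
    ∀ q : T.V, (T.Vt m q).ncard ≤ T.d ^ m := by
  induction m with
  | zero => intro q; rw [TreeX.Vt_zero]; simp
  | succ m ih =>
    intro q
    have h : T.Vt (m + 1) q = ⋃ b ∈ (T.ch_fin q).toFinset, T.Vt m b := by
      ext u
      simp only [Set.mem_iUnion, exists_prop, Set.Finite.mem_toFinset]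
      exact Iff.rfl
    rw [h]
    refine (Finset.set_ncard_biUnion_le _ _).trans ?_
    refine (Finset.sum_le_sum fun b _ => ih b).trans ?_
    rw [Finset.sum_const, smul_eq_mul, ← Set.ncard_eq_toFinset_card _ (T.ch_fin q), T.ch_card,
      pow_succ, mul_comm]

theorem fibre_bound {G : Type} [Group G] (T : TX G) (m : ℕ) : ∃ K : ℕ, ∀ (n : ℕ) (h : G),
    {g | (∃ m' ≤ m, T.vx g ∈ T.Vt m' (T.rt n).2) ∧ T.loc g = h}.Finite ∧
    {g | (∃ m' ≤ m, T.vx g ∈ T.Vt m' (T.rt n).2) ∧ T.loc g = h}.ncard ≤ K := by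
  obtain ⟨Q0, hQ0, hQ⟩ := T.loc_fin 0
  have hv : ∀ (v : T.V) (h : G), {g | T.vx g = v ∧ T.loc g = h}.Finite ∧
      {g | T.vx g = v ∧ T.loc g = h}.ncard ≤ Q0.ncard := by
    intro v h
    rcases Set.eq_empty_or_nonempty {g | T.vx g = v ∧ T.loc g = h} with he | ⟨g0, hg0⟩
    · rw [he]; simp
    · have hsub : ∀ g ∈ {g | T.vx g = v ∧ T.loc g = h}, g0⁻¹ * g ∈ Q0 := by
        intro g hg
        apply hQ
        · rw [hg0.2, hg.2]
        · have e1 : T.act g0 T.o = v := hg0.1
          have e2 : T.act g T.o = v := hg.1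
          rw [e1, e2, T.dT_self]
      have hinj : Set.InjOn (fun g => g0⁻¹ * g) {g | T.vx g = v ∧ T.loc g = h} := by
        intro a _ b _ hab
        exact mul_left_cancel hab
      have hfin : {g | T.vx g = v ∧ T.loc g = h}.Finite :=
        Set.Finite.of_finite_image (hQ0.subset (by rintro _ ⟨g, hg, rfl⟩; exact hsub g hg)) hinj
      exact ⟨hfin, Set.ncard_le_ncard_of_injOn _ hsub hinj hQ0⟩
  refine ⟨∑ m' ∈ Finset.range (m + 1), T.d ^ m' * Q0.ncard, fun n h => ?_⟩
  have hset : {g | (∃ m' ≤ m, T.vx g ∈ T.Vt m' (T.rt n).2) ∧ T.loc g = h} =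
      ⋃ m' ∈ Finset.range (m + 1), ⋃ v ∈ (TreeX.Vt_finite m' (T.rt n).2).toFinset,
        {g | T.vx g = v ∧ T.loc g = h} := by
    ext g
    simp only [Set.mem_iUnion, exists_prop, Set.Finite.mem_toFinset, Set.mem_ofPred_eq,
      Finset.mem_range]
    constructor
    · rintro ⟨⟨m', hm', hg⟩, hl⟩
      exact ⟨m', by omega, T.vx g, hg, rfl, hl⟩
    · rintro ⟨m', hm', v, hv, rfl, hl⟩
      exact ⟨⟨m', by omega, hv⟩, hl⟩
  rw [hset]
  constructor
  · refine Set.Finite.biUnion (Finset.finite_toSet _) fun m' _ => ?_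
    exact Set.Finite.biUnion (Finset.finite_toSet _) fun v _ => (hv v h).1
  · refine (Finset.set_ncard_biUnion_le _ _).trans (Finset.sum_le_sum fun m' _ => ?_)
    refine (Finset.set_ncard_biUnion_le _ _).trans ?_
    refine (Finset.sum_le_sum fun v _ => (hv v h).2).trans ?_
    rw [Finset.sum_const, smul_eq_mul, ← Set.ncard_eq_toFinset_card _ (TreeX.Vt_finite m' _)]
    exact Nat.mul_le_mul_right _ (Vt_ncard T.toTreeX m' _)

/-- averaging over the roots: bad tops are negligible over some root `n ≤ J` -/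
theorem bad_avg {G : Type} [Group G] (T : TX G) (U : Pool.Agent.Helper943.LM.UA G) (m : ℕ)
    (η : ℝ) (hη : 0 < η) :
    ∃ J T0 C : ℕ, ∀ x θ : ℝ, 0 < θ → θ ≤ x → x < 1 → ∃ n ≤ J,
      ENNReal.ofReal (θ ^ C) * mE T U x θ (BG T U n m T0) ≤
        ENNReal.ofReal η * mE T U x θ (flat T.toTreeX T.o) := by
  obtain ⟨K, hK⟩ := fibre_bound T m
  obtain ⟨J, T0, hJ⟩ := badS' T U m (η / (K + 1)) (by positivity)
  obtain ⟨Q, hQ, hQl⟩ := T.loc_fin (J + 1 + m)
  obtain ⟨C, hC⟩ := Wt_lip T U Q hQ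
  refine ⟨J, T0, C, fun x θ hθ hθx hx => ?_⟩
  -- distance
  have hdist : ∀ n ≤ J, ∀ g, (∃ m' ≤ m, T.vx g ∈ T.Vt m' (T.rt n).2) →
      T.dT (T.vx g) T.o ≤ J + 1 + m := by
    rintro n hn g ⟨m', hm', hg⟩
    have h1 := TreeX.Vt_le hg
    have h2 := T.E_one _ _ (T.side_E n)
    have h3 := TreeX.trunk_dist (T := T.toTreeX) n 0
    rw [T.trunk_zero] at h3
    have h4 := T.dT_tri (T.vx g) (T.side n) T.o
    have h5 := T.dT_tri (T.side n) (T.trunk n) T.o
    rw [T.dT_comm (T.vx g) (T.side n)] at h4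
    rw [T.dT_comm (T.side n) (T.trunk n)] at h5
    have e1 : T.dT (T.rt n).2 (T.vx g) = T.dT (T.side n) (T.vx g) := rfl
    omega
  -- the weight at `loc g`
  have hwt : ∀ n ≤ J, ∀ g ∈ BG T U n m T0,
      ENNReal.ofReal (θ ^ C) * ENNReal.ofReal (Wt T U x θ g) ≤
        ENNReal.ofReal (Wt T U x θ (T.loc g)) := by
    intro n hn g hg
    have h1 := hdist n hn g hg.1
    have h2 : g⁻¹ * T.loc g ∈ Q := by
      apply hQl
      · rw [T.loc_loc]
      · rw [T.loc_o]
        exact h1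
    have h3 := hC x θ hθ hθx hx.le g _ h2
    rw [mul_inv_cancel_left] at h3
    rw [← ENNReal.ofReal_mul (by positivity)]
    exact ENNReal.ofReal_le_ofReal h3
  -- bad roots of `h`
  let B : G → Set ℕ := fun h => {n : ℕ | n ≤ J ∧ ∃ w t, BadW T U m T0 h n w t}
  have hone : ∀ n ≤ J, ENNReal.ofReal (θ ^ C) * mE T U x θ (BG T U n m T0) ≤
      ∑' h : flat T.toTreeX T.o, (if n ∈ B h.1 then (K : ℝ≥0∞) else 0) *
        ENNReal.ofReal (Wt T U x θ h.1) := by
    intro n hn
    have e1 : ENNReal.ofReal (θ ^ C) * mE T U x θ (BG T U n m T0) ≤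
        ∑' g : BG T U n m T0, ENNReal.ofReal (Wt T U x θ (T.loc g.1)) := by
      unfold mE
      rw [← ENNReal.tsum_mul_left]
      exact ENNReal.tsum_le_tsum fun g => hwt n hn g.1 g.2
    refine e1.trans ?_
    have e2 : ∀ g : BG T U n m T0, ENNReal.ofReal (Wt T U x θ (T.loc g.1)) =
        ∑' h : flat T.toTreeX T.o, if T.loc g.1 = h.1 then ENNReal.ofReal (Wt T U x θ h.1) else 0 := by
      intro g
      rw [tsum_eq_single (⟨T.loc g.1, T.loc_o g.1⟩ : flat T.toTreeX T.o)]
      · simp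
      · intro h hne
        rw [if_neg]
        intro he
        exact hne (Subtype.ext he.symm)
    rw [tsum_congr e2, ENNReal.tsum_comm]
    refine ENNReal.tsum_le_tsum fun h => ?_
    have e3 : ∑' g : BG T U n m T0, (if T.loc g.1 = h.1 then ENNReal.ofReal (Wt T U x θ h.1) else 0) =
        ∑' _ : {g : BG T U n m T0 | T.loc g.1 = h.1}, ENNReal.ofReal (Wt T U x θ h.1) := by
      rw [tsum_subtype ({g : BG T U n m T0 | T.loc g.1 = h.1}) (fun _ => ENNReal.ofReal (Wt T U x θ h.1))]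
      refine tsum_congr fun g => ?_
      rw [Set.indicator_apply]
      rfl
    rw [e3, ENNReal.tsum_set_const]
    refine mul_le_mul_left ?_ _
    -- number of elements
    have hinj : Set.InjOn (Subtype.val : BG T U n m T0 → G) {g | T.loc g.1 = h.1} :=
      Subtype.val_injective.injOn
    have e4 : ({g : BG T U n m T0 | T.loc g.1 = h.1} : Set (BG T U n m T0)).encard =
        ((Subtype.val : BG T U n m T0 → G) '' {g | T.loc g.1 = h.1}).encard :=
      (hinj.encard_image).symm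
    rw [e4]
    have e5 : ((Subtype.val : BG T U n m T0 → G) '' {g | T.loc g.1 = h.1}) ⊆
        {g | (∃ m' ≤ m, T.vx g ∈ T.Vt m' (T.rt n).2) ∧ T.loc g = h.1} := by
      rintro _ ⟨g, hg, rfl⟩
      exact ⟨g.2.1, hg⟩
    by_cases hb : n ∈ B h.1
    · rw [if_pos hb]
      have e6 := Set.encard_le_encard e5
      rw [(hK n h.1).1.cast_ncard_eq.symm] at e6
      have e7 : ((({g | (∃ m' ≤ m, T.vx g ∈ T.Vt m' (T.rt n).2) ∧ T.loc g = h.1}.ncard : ℕ) : ℕ∞)) ≤
          ((K : ℕ) : ℕ∞) := by exact_mod_cast (hK n h.1).2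
      have e8 := e6.trans e7
      calc (((((Subtype.val : BG T U n m T0 → G) '' {g | T.loc g.1 = h.1}).encard : ℕ∞)) : ℝ≥0∞) ≤
          (((K : ℕ) : ℕ∞) : ℝ≥0∞) := by exact_mod_cast e8
        _ = (K : ℝ≥0∞) := by simp
    · rw [if_neg hb]
      have e6 : ((Subtype.val : BG T U n m T0 → G) '' {g | T.loc g.1 = h.1}) = ∅ := by
        rw [Set.image_eq_empty, Set.eq_empty_iff_forall_notMem]
        intro g hg
        apply hb
        obtain ⟨t, ht⟩ := g.2.2
        refine ⟨hn, nf U g.1, t, ?_⟩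
        have : T.loc g.1 = h.1 := hg
        rw [← this]
        exact ht
      rw [e6]
      simp
  by_contra hcon
  push Not at hcon
  have hsum : ∑ n ∈ Finset.range (J + 1), ENNReal.ofReal η * mE T U x θ (flat T.toTreeX T.o) <
      ∑ n ∈ Finset.range (J + 1), ENNReal.ofReal (θ ^ C) * mE T U x θ (BG T U n m T0) :=
    ENNReal.sum_lt_sum_of_nonempty ⟨0, by simp⟩
      (fun n hn => hcon n (by rw [Finset.mem_range] at hn; omega))
  have hle : ∑ n ∈ Finset.range (J + 1), ENNReal.ofReal (θ ^ C) * mE T U x θ (BG T U n m T0) ≤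
      ∑ n ∈ Finset.range (J + 1), ENNReal.ofReal η * mE T U x θ (flat T.toTreeX T.o) := by
    refine (Finset.sum_le_sum fun n hn => hone n (by rw [Finset.mem_range] at hn; omega)).trans ?_
    rw [← Summable.tsum_finsetSum (fun _ _ => ENNReal.summable), Finset.sum_const, Finset.card_range,
      nsmul_eq_mul]
    unfold mE
    rw [← ENNReal.tsum_mul_left, ← ENNReal.tsum_mul_left]
    refine ENNReal.tsum_le_tsum fun h => ?_
    rw [← Finset.sum_mul, ← mul_assoc]
    refine mul_le_mul_left ?_ _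
    rw [← Finset.sum_filter, Finset.sum_const, nsmul_eq_mul]
    have h1 := hJ h.1
    have h2 : (B h.1).ncard = ((Finset.range (J + 1)).filter (fun n => n ∈ B h.1)).card := by
      rw [← Set.ncard_coe_finset]
      congr 1
      ext n
      simp only [Finset.coe_filter, Finset.mem_range, Set.mem_ofPred_eq, B]
      constructor
      · intro hn; exact ⟨by omega, hn⟩
      · intro hn; exact hn.2
    have h3 : (((Finset.range (J + 1)).filter (fun n => n ∈ B h.1)).card : ℝ) * K ≤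
        ((J + 1 : ℕ) : ℝ) * η := by
      rw [← h2]
      have h4 : (K : ℝ) / (K + 1) ≤ 1 := by
        rw [div_le_one (by positivity)]; linarith
      calc ((B h.1).ncard : ℝ) * K ≤ (η / (K + 1) * (J + 1)) * K :=
            mul_le_mul_of_nonneg_right h1 (Nat.cast_nonneg K)
        _ = (K / (K + 1)) * (η * (J + 1)) := by ring
        _ ≤ 1 * (η * (J + 1)) := mul_le_mul_of_nonneg_right h4 (by positivity)
        _ = ((J + 1 : ℕ) : ℝ) * η := by push_cast; ring
    have h5 := ENNReal.ofReal_le_ofReal h3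
    rw [ENNReal.ofReal_mul (Nat.cast_nonneg _), ENNReal.ofReal_mul (Nat.cast_nonneg _),
      ENNReal.ofReal_natCast, ENNReal.ofReal_natCast, ENNReal.ofReal_natCast] at h5
    exact h5
  exact absurd (hsum.trans_le hle) (lt_irrefl _)

end Pool.Agent.TH365.J789
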