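import Mathlib
import Pool.Agent.TH557.J615

set_option autoImplicit false

namespace Pool.Agent.TH365.J791
open scoped ENNReal

theorem pf_ennreal (Z : Type) [Fintype Z] (F d : ℝ) (om κ : ℂ) (hF : 0 ≤ F) (hd : 0 < d)
    (hom : ‖om‖ = 1) (hroot : ∀ n : ℕ, 0 < n → om ^ n ≠ 1) (hκ : κ ≠ 0) :
    ∃ (M0 : ℕ) (ε : ℝ), 0 < ε ∧
      ∀ (M : Z → Z → ℝ≥0∞) (K : ℕ → Z → ℝ≥0∞) (L L1 L2 : Z → ℝ≥0∞) (u : ℂ),
        (∀ m z, K (m + 1) z = ∑ z', M z z' * K m z') →
        (∀ z, L1 z ≤ ENNReal.ofReal (2 * F) * L z) → (∀ z, L2 z ≤ ENNReal.ofReal (2 * F) * L z) →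
        ‖u‖ = 1 → (∀ m, ∑ z, L z * K m z ≠ ∞) → (0 < ∑ z, L z * K 0 z) →
        (∀ m, m < M0 → |(∑ z, L z * K (m + 1) z).toReal - d * (∑ z, L z * K m z).toReal| ≤
          ε * (∑ z, L z * K m z).toReal) →
        (∀ m, m ≤ M0 →
          ‖((((∑ z, L1 z * K m z).toReal - F * (∑ z, L z * K m z).toReal : ℝ) : ℂ) +
            (((∑ z, L2 z * K m z).toReal - F * (∑ z, L z * K m z).toReal : ℝ) : ℂ) * Complex.I) -
            u * om ^ m * κ * (((∑ z, L z * K m z).toReal : ℝ) : ℂ)‖
            ≤ ε * (∑ z, L z * K m z).toReal) → False := by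
  classical
  obtain ⟨M0, ε, hε, H⟩ := Pool.Agent.TH557.J615.pf_lemma Z (2 * F) d om κ hd hom hroot hκ
  refine ⟨M0, ε, hε, ?_⟩
  intro M K L L1 L2 u hrec hL1 hL2 hu hfin hpos h1 h2
  let kf : Z → Prop := fun z => ∀ m, K m z ≠ ∞
  let good : Z → Prop := fun z => L z ≠ ∞ ∧ kf z
  let K' : ℕ → Z → ℝ := fun m z => if kf z then (K m z).toReal else 0
  let M' : Z → Z → ℝ := fun z z' => if kf z then (M z z').toReal else 0
  let L' : Z → ℝ := fun z => if good z then (L z).toReal else 0
  let a : Z → ℝ := fun z => if good z then (L1 z).toReal - F * (L z).toReal else 0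
  let b : Z → ℝ := fun z => if good z then (L2 z).toReal - F * (L z).toReal else 0
  have hterm : ∀ m z, L z * K m z ≠ ∞ := fun m z => by
    have := ENNReal.sum_ne_top.1 (hfin m) z (Finset.mem_univ z)
    exact this
  have hbad : ∀ z, ¬ good z → (∀ m, K m z = 0) ∨ L z = 0 := by
    intro z hz
    by_cases hL : L z = ∞
    · left
      intro m
      by_contra hK
      apply hterm m z
      rw [hL, ENNReal.top_mul hK]
    · right
      have : ¬ kf z := fun hk => hz ⟨hL, hk⟩
      simp only [kf] at this
      push Not at this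
      obtain ⟨m, hm⟩ := this
      by_contra hL0
      apply hterm m z
      rw [hm, ENNReal.mul_top hL0]
  have hLi : ∀ (Li : Z → ℝ≥0∞), (∀ z, Li z ≤ ENNReal.ofReal (2 * F) * L z) →
      (∀ m z, Li z * K m z ≠ ∞) ∧ (∀ z, good z → (Li z).toReal ≤ 2 * F * (L z).toReal) ∧
      ∀ m, (∑ z, Li z * K m z).toReal = ∑ z, (if good z then (Li z).toReal else 0) * K' m z := by
    intro Li hLi
    have ht : ∀ m z, Li z * K m z ≠ ∞ := by
      intro m z
      have h3 : Li z * K m z ≤ ENNReal.ofReal (2 * F) * (L z * K m z) := by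
        rw [← mul_assoc]
        exact mul_le_mul_left (hLi z) _
      exact ne_top_of_le_ne_top (ENNReal.mul_ne_top ENNReal.ofReal_ne_top (hterm m z)) h3
    refine ⟨ht, ?_, ?_⟩
    · intro z hz
      have h3 := ENNReal.toReal_mono (ENNReal.mul_ne_top ENNReal.ofReal_ne_top hz.1) (hLi z)
      rwa [ENNReal.toReal_mul, ENNReal.toReal_ofReal (by positivity)] at h3
    · intro m
      rw [ENNReal.toReal_sum (fun z _ => ht m z)]
      refine Finset.sum_congr rfl fun z _ => ?_
      by_cases hz : good z
      · rw [ENNReal.toReal_mul, if_pos hz]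
        simp only [K']
        rw [if_pos hz.2]
      · rw [if_neg hz, zero_mul]
        rcases hbad z hz with h | h
        · rw [h m, mul_zero, ENNReal.toReal_zero]
        · have h3 : Li z = 0 := by
            have := hLi z
            rw [h, mul_zero] at this
            exact le_antisymm this (zero_le)
          rw [h3, zero_mul, ENNReal.toReal_zero]
  have hL' : ∀ m, (∑ z, L z * K m z).toReal = ∑ z, L' z * K' m z := by
    intro m
    rw [ENNReal.toReal_sum (fun z _ => hterm m z)]
    refine Finset.sum_congr rfl fun z _ => ?_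
    by_cases hz : good z
    · rw [ENNReal.toReal_mul]
      simp only [K', L']
      rw [if_pos hz, if_pos hz.2]
    · simp only [L']
      rw [if_neg hz, zero_mul]
      rcases hbad z hz with h | h
      · rw [h m, mul_zero, ENNReal.toReal_zero]
      · rw [h, zero_mul, ENNReal.toReal_zero]
  obtain ⟨-, g1, g2⟩ := hLi L1 hL1
  obtain ⟨-, g3, g4⟩ := hLi L2 hL2
  have ha : ∀ m, (∑ z, L1 z * K m z).toReal - F * (∑ z, L z * K m z).toReal = ∑ z, a z * K' m z := by
    intro m
    rw [g2, hL', Finset.mul_sum, ← Finset.sum_sub_distrib]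
    refine Finset.sum_congr rfl fun z _ => ?_
    simp only [a, L']
    split_ifs <;> ring
  have hb : ∀ m, (∑ z, L2 z * K m z).toReal - F * (∑ z, L z * K m z).toReal = ∑ z, b z * K' m z := by
    intro m
    rw [g4, hL', Finset.mul_sum, ← Finset.sum_sub_distrib]
    refine Finset.sum_congr rfl fun z _ => ?_
    simp only [b, L']
    split_ifs <;> ring
  refine H M' K' L' (fun z => (a z : ℂ) + (b z : ℂ) * Complex.I) u ?_ ?_ ?_ ?_ ?_ hu ?_ ?_ ?_
  · intro z z'
    simp only [M']
    split_ifs
    · exact ENNReal.toReal_nonneg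
    · exact le_rfl
  · intro m z
    simp only [K']
    split_ifs
    · exact ENNReal.toReal_nonneg
    · exact le_rfl
  · intro z
    simp only [L']
    split_ifs
    · exact ENNReal.toReal_nonneg
    · exact le_rfl
  · intro m z
    simp only [K', M']
    by_cases hz : kf z
    · simp only [if_pos hz]
      have ht : ∀ z', M z z' * K m z' ≠ ∞ := fun z' => by
        have h3 := hz (m + 1)
        rw [hrec] at h3
        exact ENNReal.sum_ne_top.1 h3 z' (Finset.mem_univ _)
      rw [hrec, ENNReal.toReal_sum (fun z' _ => ht z')]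
      refine Finset.sum_congr rfl fun z' _ => ?_
      by_cases hz' : kf z'
      · rw [if_pos hz', ENNReal.toReal_mul]
      · rw [if_neg hz', mul_zero]
        simp only [kf] at hz'
        push Not at hz'
        obtain ⟨m', hm'⟩ := hz'
        have h3 := hz (m' + 1)
        rw [hrec] at h3
        have h4 : M z z' * K m' z' ≠ ∞ := ENNReal.sum_ne_top.1 h3 z' (Finset.mem_univ _)
        have h5 : M z z' = 0 := by
          by_contra h0
          apply h4
          rw [hm', ENNReal.mul_top h0]
        rw [h5, zero_mul, ENNReal.toReal_zero]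
    · simp only [if_neg hz, zero_mul, Finset.sum_const_zero]
  · intro z
    simp only [a, b, L']
    by_cases hz : good z
    · simp only [if_pos hz]
      have h3 : |(L1 z).toReal - F * (L z).toReal| ≤ F * (L z).toReal := by
        rw [abs_le]
        have := g1 z hz
        have h0 : 0 ≤ (L1 z).toReal := ENNReal.toReal_nonneg
        constructor <;> linarith
      have h4 : |(L2 z).toReal - F * (L z).toReal| ≤ F * (L z).toReal := by
        rw [abs_le]
        have := g3 z hz
        have h0 : 0 ≤ (L2 z).toReal := ENNReal.toReal_nonneg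
        constructor <;> linarith
      refine (norm_add_le _ _).trans ?_
      rw [norm_mul, Complex.norm_I, mul_one, Complex.norm_real, Complex.norm_real,
        Real.norm_eq_abs, Real.norm_eq_abs]
      linarith
    · simp only [if_neg hz]
      simp
  · rw [← hL']
    exact ENNReal.toReal_pos hpos.ne' (hfin 0)
  · intro m hm
    rw [← hL', ← hL']
    exact h1 m hm
  · intro m hm
    have h3 := h2 m hm
    rw [ha, hb, hL'] at h3
    have h4 : ∑ z, ((a z : ℂ) + (b z : ℂ) * Complex.I) * (K' m z : ℂ) =
        ((∑ z, a z * K' m z : ℝ) : ℂ) + ((∑ z, b z * K' m z : ℝ) : ℂ) * Complex.I := by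
      push_cast
      rw [Finset.sum_mul, ← Finset.sum_add_distrib]
      refine Finset.sum_congr rfl fun z _ => ?_
      ring
    rw [h4]
    exact h3

end Pool.Agent.TH365.J791
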