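import Mathlib
import Pool.Agent.TH109.Defs

set_option autoImplicit false

namespace Pool.Agent.TH365.J626
open Pool.Agent.TH109

/-- a linear functional as an additive map on the lattice -/
noncomputable def LL {n : ℕ} (l : (Fin n → ℚ) →ₗ[ℚ] ℂ) (x : Multiplicative (Fin n → ℤ)) : ℂ :=
  l (fun i => ((Multiplicative.toAdd x i : ℤ) : ℚ))

theorem LL_mul {n : ℕ} (l : (Fin n → ℚ) →ₗ[ℚ] ℂ) (x y : Multiplicative (Fin n → ℤ)) :
    LL l (x * y) = LL l x + LL l y := by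
  unfold LL
  rw [← map_add]
  congr 1
  funext i
  simp

theorem LL_one {n : ℕ} (l : (Fin n → ℚ) →ₗ[ℚ] ℂ) : LL l 1 = 0 := by
  have := LL_mul l 1 1
  rw [one_mul] at this
  exact left_eq_add.1 this

theorem LL_inv {n : ℕ} (l : (Fin n → ℚ) →ₗ[ℚ] ℂ) (x : Multiplicative (Fin n → ℤ)) :
    LL l x⁻¹ = - LL l x := by
  have := LL_mul l x⁻¹ x
  rw [inv_mul_cancel, LL_one] at this
  exact eq_neg_of_add_eq_zero_left this.symm

theorem LL_pow {n : ℕ} (l : (Fin n → ℚ) →ₗ[ℚ] ℂ) (x : Multiplicative (Fin n → ℤ)) (m : ℕ) :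
    LL l (x ^ m) = (m : ℂ) * LL l x := by
  induction m with
  | zero => simp [LL_one]
  | succ m ih =>
    rw [pow_succ, LL_mul, ih]
    push_cast
    ring

theorem exists_LL_ne {n : ℕ} (l : (Fin n → ℚ) →ₗ[ℚ] ℂ) (hl : l ≠ 0) :
    ∃ x, LL l x ≠ 0 := by
  by_contra hcon
  push Not at hcon
  apply hl
  refine LinearMap.pi_ext' fun i => ?_
  ext
  have := hcon (Multiplicative.ofAdd (Pi.single i 1))
  unfold LL at this
  simp only [LinearMap.comp_apply, LinearMap.zero_comp, LinearMap.zero_apply,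
    LinearMap.single_apply]
  rw [← this]
  congr 1
  funext j
  by_cases hj : j = i
  · subst hj; simp
  · simp [hj]

/-- an element of `A` with a large value -/
theorem exists_large {n : ℕ} (l : (Fin n → ℚ) →ₗ[ℚ] ℂ) (hl : l ≠ 0)
    (A : Subgroup (Multiplicative (Fin n → ℤ))) (hA : A.index ≠ 0) (T : ℝ) :
    ∃ z ∈ A, T < ‖LL l z‖ := by
  obtain ⟨x, hx⟩ := exists_LL_ne l hl
  have h1 : 0 < ‖LL l x‖ := norm_pos_iff.2 hx
  obtain ⟨m, hm⟩ := exists_nat_gt (T / ‖LL l x‖)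
  refine ⟨(x ^ A.index) ^ m, A.pow_mem (Subgroup.pow_index_mem A x) m, ?_⟩
  rw [LL_pow, LL_pow, norm_mul, norm_mul, Complex.norm_natCast, Complex.norm_natCast]
  rw [div_lt_iff₀ h1] at hm
  have h2 : (1 : ℝ) ≤ (A.index : ℝ) := by exact_mod_cast Nat.one_le_iff_ne_zero.2 hA
  have h3 : (0 : ℝ) ≤ m := Nat.cast_nonneg m
  calc T < m * ‖LL l x‖ := hm
    _ ≤ m * (A.index * ‖LL l x‖) := by
      refine mul_le_mul_of_nonneg_left ?_ h3
      nlinarith

/-- representatives -/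
theorem exists_reps {H : Type} [Group H] (A : Subgroup H) (hA : A.index ≠ 0) :
    ∃ (F0 : Set H) (D : H → H), F0.Finite ∧ (∀ h, D h ∈ F0) ∧ ∀ h, D h * h ∈ A := by
  have : Finite (H ⧸ A) := Nat.finite_of_card_ne_zero hA
  refine ⟨Set.range (fun q : H ⧸ A => (Quotient.out q)⁻¹),
    fun h => (Quotient.out (QuotientGroup.mk (s := A) h))⁻¹, Set.finite_range _,
    fun h => ⟨_, rfl⟩, fun h => ?_⟩
  exact QuotientGroup.eq.1 (QuotientGroup.out_eq' (QuotientGroup.mk (s := A) h))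

/-- the upward sequence -/
def rr {H : Type} [Group H] {A B : Subgroup H} (φ : A ≃* B) (D : H → H)
    (hD : ∀ h, D h * h ∈ A) (z : A) : ℕ → A
  | 0 => z
  | j + 1 => ⟨D (φ (rr φ D hD z j)) * (φ (rr φ D hD z j) : H), hD _⟩

/-- consequence of `UpS` -/
theorem up_rr {H : Type} [Group H] {A B : Subgroup H} (φ : A ≃* B) (N : H → ℝ)
    (hup : UpS φ N) (F0 : Set H) (hF0 : F0.Finite) (D : H → H) (hDF : ∀ h, D h ∈ F0)
    (hD : ∀ h, D h * h ∈ A) (x : H) (hx : ∀ q : ℕ, x ^ q ∈ A) :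
    ∃ C : ℝ, ∀ k q : ℕ, ∑ j ∈ Finset.range k, N (φ (rr φ D hD ⟨x ^ q, hx q⟩ j)) ≤
      C * ((k : ℝ) + q + 1) ^ 2 := by
  obtain ⟨C, hC⟩ := hup (F0 ∪ {x}) (hF0.union (Set.finite_singleton _))
  refine ⟨C, fun k q => ?_⟩
  set r := rr φ D hD ⟨x ^ q, hx q⟩ with hr
  have h1 := hC k (fun i => r (k - i)) (fun i => D (φ (r (k - i - 1)))) (List.replicate q x)
    (fun i _ => Or.inl (hDF _)) (fun y hy => Or.inr (List.eq_of_mem_replicate hy)) ?_ ?_
  · rw [List.length_replicate] at h1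
    refine le_trans (le_of_eq ?_) h1
    rw [← Finset.sum_range_reflect]
    refine Finset.sum_congr rfl fun i hi => ?_
    rw [Finset.mem_range] at hi
    have e1 : k - 1 - i = k - i - 1 := by omega
    have e2 : k - i = (k - i - 1) + 1 := by omega
    rw [e1]
    congr 1
    have e3 : ((r (k - i) : A) : H) = D (φ (r (k - i - 1))) * (φ (r (k - i - 1)) : H) := by
      conv_lhs => rw [e2]
      rfl
    beta_reduce
    rw [e3, inv_mul_cancel_left]
  · rw [List.prod_replicate]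
    beta_reduce
    rw [Nat.sub_self]
    rfl
  · intro i hi
    have e1 : k - (i + 1) = k - i - 1 := by omega
    have e2 : k - i = (k - i - 1) + 1 := by omega
    refine ⟨(r (k - (i + 1))).2, ?_⟩
    have e3 : ((r (k - i) : A) : H) = D (φ (r (k - i - 1))) * (φ (r (k - i - 1)) : H) := by
      conv_lhs => rw [e2]
      rfl
    beta_reduce
    rw [e3]
    congr 3

theorem up_exp {n : ℕ} (A B : Subgroup (Multiplicative (Fin n → ℤ))) (φ : A ≃* B)
    (hA : A.index ≠ 0) (M : (Fin n → ℚ) ≃ₗ[ℚ] (Fin n → ℚ))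
    (hφ : ∀ x : A, (fun i => ((Multiplicative.toAdd (φ x : Multiplicative (Fin n → ℤ)) i : ℤ) : ℚ)) =
      M (fun i => ((Multiplicative.toAdd (x : Multiplicative (Fin n → ℤ)) i : ℤ) : ℚ)))
    (lam : ℂ) (l : (Fin n → ℚ) →ₗ[ℚ] ℂ) (hl : l ≠ 0) (hlam : 1 < ‖lam‖)
    (hlM : ∀ x, l (M x) = lam * l x)
    (hup : UpS φ (fun x => ‖l (fun i => ((Multiplicative.toAdd x i : ℤ) : ℚ))‖)) : False := by
  obtain ⟨F0, D, hF0, hDF, hD⟩ := exists_reps A hA
  have hLφ : ∀ x : A, LL l (φ x) = lam * LL l x := by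
    intro x
    unfold LL
    rw [hφ, hlM]
  obtain ⟨R, hR⟩ := (hF0.image (fun x => ‖LL l x‖)).bddAbove
  have hR' : ∀ h, ‖LL l (D h)‖ ≤ R := fun h => hR ⟨D h, hDF h, rfl⟩
  have hR0 : 0 ≤ R := le_trans (norm_nonneg _) (hR' 1)
  obtain ⟨z, hzA, hz⟩ := exists_large l hl A hA ((2 * R + 1) / (‖lam‖ - 1))
  rw [div_lt_iff₀ (by linarith)] at hz
  obtain ⟨C, hC⟩ := up_rr φ _ hup F0 hF0 D hDF hD z (fun q => A.pow_mem hzA q)
  set r := rr φ D hD ⟨z ^ 1, A.pow_mem hzA 1⟩ with hr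
  have hr0 : LL l (r 0) = LL l z := by
    have : ((r 0 : A) : Multiplicative (Fin n → ℤ)) = z ^ 1 := rfl
    rw [this, pow_one]
  have hzpos : 0 < ‖LL l z‖ := by
    by_contra hcon
    have : ‖LL l z‖ = 0 := le_antisymm (not_lt.1 hcon) (norm_nonneg _)
    rw [this] at hz
    linarith
  have hrs : ∀ j, ‖lam‖ * ‖LL l (r j)‖ - R ≤ ‖LL l (r (j + 1))‖ := by
    intro j
    have e : ((r (j + 1) : A) : Multiplicative (Fin n → ℤ)) = D (φ (r j)) * φ (r j) := rfl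
    rw [e, LL_mul, hLφ]
    have h1 := norm_sub_norm_le (lam * LL l (r j)) (-(LL l (D (φ (r j)))))
    rw [norm_neg, norm_mul, sub_neg_eq_add, add_comm (lam * _)] at h1
    have h2 := hR' (φ (r j))
    linarith
  set ρ := (‖lam‖ + 1) / 2 with hρ
  have hρ1 : 1 < ρ := by rw [hρ]; linarith
  have hgrow : ∀ j, ρ ^ j * ‖LL l z‖ ≤ ‖LL l (r j)‖ := by
    intro j
    induction j with
    | zero => rw [hr0]; simp
    | succ j ih =>
      have h1 := hrs j
      have h2 : (1 : ℝ) ≤ ρ ^ j := one_le_pow₀ hρ1.le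
      have h3 : ‖LL l z‖ ≤ ‖LL l (r j)‖ := by nlinarith
      have h4 : ρ * ‖LL l (r j)‖ ≤ ‖lam‖ * ‖LL l (r j)‖ - R := by
        rw [hρ]
        nlinarith
      calc ρ ^ (j + 1) * ‖LL l z‖ = ρ * (ρ ^ j * ‖LL l z‖) := by rw [pow_succ]; ring
        _ ≤ ρ * ‖LL l (r j)‖ := mul_le_mul_of_nonneg_left ih (by linarith)
        _ ≤ _ := h4.trans h1
  have hmain : ∀ k : ℕ, ρ ^ k * ‖LL l z‖ ≤ C * ((k : ℝ) + 3) ^ 2 := by
    intro k
    have h1 := hC (k + 1) 1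
    have h2 : ‖LL l (φ (r k))‖ ≤ ∑ j ∈ Finset.range (k + 1), ‖LL l (φ (r j))‖ :=
      Finset.single_le_sum (f := fun j => ‖LL l (φ (r j))‖) (fun _ _ => norm_nonneg _)
        (Finset.self_mem_range_succ k)
    have h3 : ‖LL l (φ (r k))‖ = ‖lam‖ * ‖LL l (r k)‖ := by rw [hLφ, norm_mul]
    have h4 := hgrow k
    have h5 : ‖LL l (r k)‖ ≤ ‖lam‖ * ‖LL l (r k)‖ := by
      have := norm_nonneg (LL l (r k))
      nlinarith
    have h6 : ∑ j ∈ Finset.range (k + 1), ‖LL l (φ (r j))‖ ≤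
        C * (((k + 1 : ℕ) : ℝ) + ((1 : ℕ) : ℝ) + 1) ^ 2 := h1
    have h7 : ((k + 1 : ℕ) : ℝ) + ((1 : ℕ) : ℝ) + 1 = (k : ℝ) + 3 := by push_cast; ring
    rw [h7] at h6
    linarith
  -- exponential against polynomial
  have hlim := tendsto_pow_const_div_const_pow_of_one_lt 2 hρ1
  have hC0 : 0 < C := by
    have := hmain 0
    simp only [pow_zero, one_mul, Nat.cast_zero] at this
    nlinarith
  have hev := hlim.eventually (gt_mem_nhds (show (0 : ℝ) < ‖LL l z‖ / (16 * C) by positivity))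
  obtain ⟨k, hk, hk1⟩ := (hev.and (Filter.eventually_ge_atTop 1)).exists
  have h1 := hmain k
  rw [div_lt_div_iff₀ (by positivity) (by positivity)] at hk
  have hk' : (1 : ℝ) ≤ k := by exact_mod_cast hk1
  have h2 : ((k : ℝ) + 3) ^ 2 ≤ 16 * (k : ℝ) ^ 2 := by nlinarith
  have h3 : C * ((k : ℝ) + 3) ^ 2 ≤ C * (16 * (k : ℝ) ^ 2) := mul_le_mul_of_nonneg_left h2 hC0.le
  nlinarith

theorem up_jordan {n : ℕ} (A B : Subgroup (Multiplicative (Fin n → ℤ))) (φ : A ≃* B)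
    (hA : A.index ≠ 0) (M : (Fin n → ℚ) ≃ₗ[ℚ] (Fin n → ℚ))
    (hφ : ∀ x : A, (fun i => ((Multiplicative.toAdd (φ x : Multiplicative (Fin n → ℤ)) i : ℤ) : ℚ)) =
      M (fun i => ((Multiplicative.toAdd (x : Multiplicative (Fin n → ℤ)) i : ℤ) : ℚ)))
    (lam : ℂ) (l1 l2 : (Fin n → ℚ) →ₗ[ℚ] ℂ) (hl : l1 ≠ 0) (hlam : ‖lam‖ = 1)
    (hl1 : ∀ x, l1 (M x) = lam * l1 x) (hl2 : ∀ x, l2 (M x) = lam * l2 x + l1 x)
    (hup : UpS φ (fun x => ‖l2 (fun i => ((Multiplicative.toAdd x i : ℤ) : ℚ))‖)) : False := by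
  obtain ⟨F0, D, hF0, hDF, hD⟩ := exists_reps A hA
  have hL1 : ∀ x : A, LL l1 (φ x) = lam * LL l1 x := by
    intro x
    unfold LL
    rw [hφ, hl1]
  have hL2 : ∀ x : A, LL l2 (φ x) = lam * LL l2 x + LL l1 x := by
    intro x
    unfold LL
    rw [hφ, hl2]
  obtain ⟨R, hR⟩ := (hF0.image (fun x => ‖LL l1 x‖ + ‖LL l2 x‖)).bddAbove
  have hR' : ∀ h, ‖LL l1 (D h)‖ + ‖LL l2 (D h)‖ ≤ R := fun h => hR ⟨D h, hDF h, rfl⟩
  have hR1 : ∀ h, ‖LL l1 (D h)‖ ≤ R := fun h => by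
    have := norm_nonneg (LL l2 (D h))
    linarith [hR' h]
  have hR2 : ∀ h, ‖LL l2 (D h)‖ ≤ R := fun h => by
    have := norm_nonneg (LL l1 (D h))
    linarith [hR' h]
  have hR0 : 0 ≤ R := le_trans (norm_nonneg _) (hR1 1)
  obtain ⟨z, hzA, hz⟩ := exists_large l1 hl A hA 0
  set a := ‖LL l1 z‖ with ha
  set b := ‖LL l2 z‖ with hb
  have hb0 : 0 ≤ b := norm_nonneg _
  obtain ⟨m, hm⟩ := exists_nat_gt ((2 * R + 1) / a)
  rw [div_lt_iff₀ hz] at hm
  obtain ⟨C, hC⟩ := up_rr φ _ hup F0 hF0 D hDF hD z (fun q => A.pow_mem hzA q)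
  have key : ∀ k : ℕ, ∀ j < k, ((j : ℝ) + 1) * k - m * k * b - R ≤
      ‖LL l2 (φ (rr φ D hD ⟨z ^ (m * k), A.pow_mem hzA (m * k)⟩ j))‖ := by
    intro k
    set r := rr φ D hD ⟨z ^ (m * k), A.pow_mem hzA (m * k)⟩ with hr
    have hr0 : ((r 0 : A) : Multiplicative (Fin n → ℤ)) = z ^ (m * k) := rfl
    have hrs : ∀ j, ((r (j + 1) : A) : Multiplicative (Fin n → ℤ)) = D (φ (r j)) * φ (r j) :=
      fun j => rfl
    have e1 : ∀ j, ‖LL l1 (r j) - lam ^ j * LL l1 (r 0)‖ ≤ j * R := by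
      intro j
      induction j with
      | zero => simp
      | succ j ih =>
        rw [hrs, LL_mul, hL1]
        have h1 : LL l1 (D (φ (r j))) + lam * LL l1 (r j) - lam ^ (j + 1) * LL l1 (r 0) =
            LL l1 (D (φ (r j))) + lam * (LL l1 (r j) - lam ^ j * LL l1 (r 0)) := by
          rw [pow_succ]; ring
        rw [h1]
        refine (norm_add_le _ _).trans ?_
        rw [norm_mul, hlam, one_mul]
        push_cast
        linarith [hR1 (φ (r j))]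
    have e2 : ∀ j, ‖lam * LL l2 (r j) - (lam ^ (j + 1) * LL l2 (r 0) + j * (lam ^ j * LL l1 (r 0)))‖ ≤
        R * (j + j ^ 2) := by
      intro j
      induction j with
      | zero => simp
      | succ j ih =>
        rw [hrs, LL_mul, hL2]
        have h1 : lam * (LL l2 (D (φ (r j))) + (lam * LL l2 (r j) + LL l1 (r j))) -
            (lam ^ (j + 1 + 1) * LL l2 (r 0) + ((j + 1 : ℕ) : ℂ) * (lam ^ (j + 1) * LL l1 (r 0))) =
            lam * (LL l2 (D (φ (r j))) + (lam * LL l2 (r j) -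
              (lam ^ (j + 1) * LL l2 (r 0) + j * (lam ^ j * LL l1 (r 0)))) +
              (LL l1 (r j) - lam ^ j * LL l1 (r 0))) := by
          push_cast
          rw [pow_succ lam (j + 1), pow_succ lam j]; ring
        rw [h1, norm_mul, hlam, one_mul]
        refine (norm_add_le _ _).trans ?_
        refine (add_le_add_left (norm_add_le _ _) _).trans ?_
        have := e1 j
        push_cast
        nlinarith [hR2 (φ (r j))]
    have e3 : ∀ j : ℕ, (j : ℝ) * ‖LL l1 (r 0)‖ - ‖LL l2 (r 0)‖ - R * (j + j ^ 2) ≤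
        ‖LL l2 (r j)‖ := by
      intro j
      have h1 := e2 j
      have h2 : ‖lam * LL l2 (r j)‖ = ‖LL l2 (r j)‖ := by rw [norm_mul, hlam, one_mul]
      have h3 : ‖(j : ℂ) * (lam ^ j * LL l1 (r 0))‖ = j * ‖LL l1 (r 0)‖ := by
        rw [norm_mul, norm_mul, norm_pow, hlam, one_pow, one_mul, Complex.norm_natCast]
      have h4 : ‖lam ^ (j + 1) * LL l2 (r 0)‖ = ‖LL l2 (r 0)‖ := by
        rw [norm_mul, norm_pow, hlam, one_pow, one_mul]
      have h5 : (j : ℂ) * (lam ^ j * LL l1 (r 0)) = lam * LL l2 (r j) -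
          (lam * LL l2 (r j) - (lam ^ (j + 1) * LL l2 (r 0) + j * (lam ^ j * LL l1 (r 0)))) -
          lam ^ (j + 1) * LL l2 (r 0) := by ring
      have h6 : ‖(j : ℂ) * (lam ^ j * LL l1 (r 0))‖ ≤ ‖LL l2 (r j)‖ + R * (j + j ^ 2) +
          ‖LL l2 (r 0)‖ := by
        rw [h5]
        refine (norm_sub_le _ _).trans ?_
        rw [h4]
        refine add_le_add_left ((norm_sub_le _ _).trans ?_) _
        rw [h2]
        linarith
      rw [h3] at h6
      linarith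
    intro j hj
    have h1 := e3 (j + 1)
    have h2 : ‖LL l2 (r (j + 1))‖ - R ≤ ‖LL l2 (φ (r j))‖ := by
      rw [hrs, LL_mul]
      have := norm_add_le (LL l2 (D (φ (r j)))) (LL l2 (φ (r j)))
      linarith [hR2 (φ (r j))]
    have h3 : ‖LL l1 (r 0)‖ = m * k * a := by
      rw [hr0, LL_pow, norm_mul, Complex.norm_natCast]
      push_cast
      ring
    have h4 : ‖LL l2 (r 0)‖ = m * k * b := by
      rw [hr0, LL_pow, norm_mul, Complex.norm_natCast]
      push_cast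
      ring
    rw [h3, h4] at h1
    push_cast at h1
    have hk1 : ((j : ℝ) + 1) ≤ k := by exact_mod_cast hj
    have hj0 : (0 : ℝ) ≤ j := Nat.cast_nonneg j
    have h5 : R * (((j : ℝ) + 1) + ((j : ℝ) + 1) ^ 2) ≤ 2 * R * (((j : ℝ) + 1) * k) := by
      have : ((j : ℝ) + 1) + ((j : ℝ) + 1) ^ 2 ≤ 2 * (((j : ℝ) + 1) * k) := by nlinarith
      nlinarith
    have h6 : ((j : ℝ) + 1) * k * (2 * R + 1) ≤ ((j : ℝ) + 1) * (m * k * a) := by
      have h7 : 0 ≤ ((j : ℝ) + 1) * k := by positivity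
      nlinarith
    linarith
  have hsum : ∀ k : ℕ, 1 ≤ k → (k : ℝ) / 2 ≤ m * b + R + |C| * (m + 2) ^ 2 := by
    intro k hk
    have h1 := hC k (m * k)
    have h2 : ∑ j ∈ Finset.range k, (((j : ℝ) + 1) * k - m * k * b - R) ≤
        C * ((k : ℝ) + ((m * k : ℕ) : ℝ) + 1) ^ 2 :=
      le_trans (Finset.sum_le_sum fun j hj => key k j (Finset.mem_range.1 hj)) h1
    have h3 : ∀ q : ℕ, ∑ j ∈ Finset.range q, (((j : ℝ) + 1) * k - m * k * b - R) =
        k * (q * (q + 1) / 2) - q * (m * k * b + R) := by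
      intro q
      induction q with
      | zero => simp
      | succ q ih =>
        rw [Finset.sum_range_succ, ih]
        push_cast
        ring
    rw [h3] at h2
    have hk' : (1 : ℝ) ≤ k := by exact_mod_cast hk
    have h4 : C * ((k : ℝ) + ((m * k : ℕ) : ℝ) + 1) ^ 2 ≤ |C| * ((m + 2) * k) ^ 2 := by
      have h5 : ((k : ℝ) + ((m * k : ℕ) : ℝ) + 1) ^ 2 ≤ ((m + 2) * (k : ℝ)) ^ 2 := by
        refine pow_le_pow_left₀ (by positivity) ?_ 2
        push_cast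
        nlinarith
      calc C * ((k : ℝ) + ((m * k : ℕ) : ℝ) + 1) ^ 2 ≤
          |C| * ((k : ℝ) + ((m * k : ℕ) : ℝ) + 1) ^ 2 :=
            mul_le_mul_of_nonneg_right (le_abs_self C) (by positivity)
        _ ≤ _ := mul_le_mul_of_nonneg_left h5 (abs_nonneg C)
    have h6 := h2.trans h4
    have h7 : (k : ℝ) ^ 2 * ((k : ℝ) / 2) ≤ (k : ℝ) ^ 2 * (m * b + R + |C| * (m + 2) ^ 2) := by
      have h8 : R * k ≤ R * (k : ℝ) ^ 2 := mul_le_mul_of_nonneg_left (by nlinarith) hR0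
      nlinarith
    exact le_of_mul_le_mul_left h7 (by positivity)
  obtain ⟨k, hk⟩ := exists_nat_gt (2 * (m * b + R + |C| * (m + 2) ^ 2) + 1)
  have hpos : 0 ≤ m * b + R + |C| * ((m : ℝ) + 2) ^ 2 := by positivity
  have hk1 : 1 ≤ k := by
    have : (0 : ℝ) < k := by linarith
    exact_mod_cast this
  have := hsum k hk1
  linarith

end Pool.Agent.TH365.J626
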