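import Pool.Agent.TH843.PY.Stm

/-!
# The sieve step

Job PYTH-A1 for `MP_4e97f5_nt`: for infinitely many primes `q` there is an odd `t`, exactly
divisible by `q`, with `|t| ≤ 2 ^ q` and `2 ^ (q + 1) ± t` squarefree.
-/

set_option autoImplicit false
open Polynomial NumberField

namespace Pool.Agent.TH365.J204
open Pool.Agent.TH843.PY

lemma card_le_of_congr (A : Finset ℕ) (S m : ℕ) (hA : ∀ s ∈ A, s < S)
    (h : ∀ s ∈ A, ∀ s' ∈ A, s % m = s' % m) : A.card ≤ S / m + 1 := by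
  rw [← Finset.card_range (S / m + 1)]
  apply Finset.card_le_card_of_injOn (fun s => s / m)
  · intro s hs
    have := hA s hs
    simp only [Finset.coe_range, Set.mem_Iio]
    have : s / m ≤ S / m := Nat.div_le_div_right this.le
    omega
  · intro s hs s' hs' heq
    have h1 := h s hs s' hs'
    have h2 : s / m = s' / m := heq
    rw [← Nat.div_add_mod s m, ← Nat.div_add_mod s' m, h1, h2]

lemma sum_inv_sq (K : ℕ) (hK : 4 ≤ K) :
    ∑ k ∈ Finset.Icc 5 K, (1 : ℝ) / (k : ℝ) ^ 2 ≤ 1 / 4 - 1 / K := by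
  induction K, hK using Nat.le_induction with
  | base => simp
  | succ K hK ih =>
    rw [Finset.sum_Icc_succ_top (by omega)]
    have hKpos : (0 : ℝ) < K := by
      have : 0 < K := by omega
      exact_mod_cast this
    have h1 : (1 : ℝ) / ((K + 1 : ℕ) : ℝ) ^ 2 ≤ 1 / K - 1 / ((K + 1 : ℕ) : ℝ) := by
      push_cast
      rw [div_sub_div _ _ hKpos.ne' (by positivity), div_le_div_iff₀ (by positivity)
        (by positivity)]
      nlinarith
    linarith

lemma pow_big (q : ℕ) (hq : 100 ≤ q) : q ^ 2 * 2 ^ 23 ≤ 2 ^ q := by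
  induction q, hq using Nat.le_induction with
  | base => norm_num
  | succ q hq ih =>
    have h1 : (q + 1) ^ 2 ≤ 2 * q ^ 2 := by nlinarith
    calc (q + 1) ^ 2 * 2 ^ 23 ≤ (2 * q ^ 2) * 2 ^ 23 := Nat.mul_le_mul_right _ h1
      _ = 2 * (q ^ 2 * 2 ^ 23) := by ring
      _ ≤ 2 * 2 ^ q := Nat.mul_le_mul_left _ ih
      _ = 2 ^ (q + 1) := by ring

/-- the congruence for one prime -/
lemma congr_of_dvd {p q : ℕ} (hp : p.Prime) (hq : q.Prime) (hp5 : 5 ≤ p) (hpq : p ≠ q) (a : ℤ)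
    {s s' : ℕ} (h : (p : ℤ) ^ 2 ∣ a + 3 * q * (1 + 2 * s))
    (h' : (p : ℤ) ^ 2 ∣ a + 3 * q * (1 + 2 * s')) : s % p ^ 2 = s' % p ^ 2 := by
  have h1 : (p : ℤ) ^ 2 ∣ (6 * q : ℤ) * ((s : ℤ) - s') := by
    have := dvd_sub h h'
    have e : a + 3 * (q : ℤ) * (1 + 2 * s) - (a + 3 * q * (1 + 2 * s')) =
        (6 * q : ℤ) * ((s : ℤ) - s') := by ring
    rwa [e] at this
  have hcop : Nat.Coprime (p ^ 2) (6 * q) := by
    apply Nat.Coprime.pow_left
    rw [show 6 * q = 2 * (3 * q) by ring]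
    apply Nat.Coprime.mul_right
    · rw [Nat.coprime_primes hp Nat.prime_two]; omega
    · apply Nat.Coprime.mul_right
      · rw [Nat.coprime_primes hp Nat.prime_three]; omega
      · rw [Nat.coprime_primes hp hq]; exact hpq
  have hcop' : IsCoprime ((p : ℤ) ^ 2) (6 * q : ℤ) := by
    have := Nat.isCoprime_iff_coprime.2 hcop
    push_cast at this
    exact this
  have h2 : (p : ℤ) ^ 2 ∣ (s : ℤ) - s' := hcop'.dvd_of_dvd_mul_left h1
  have h3 : (s' : ℤ) ≡ s [ZMOD ((p ^ 2 : ℕ) : ℤ)] := by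
    rw [Int.modEq_iff_dvd]
    push_cast
    exact h2
  exact (Int.natCast_modEq_iff.1 h3).symm

theorem stmA1 : StmA1 := by
  intro N
  obtain ⟨q, hqN, hq⟩ := Nat.exists_infinite_primes (N + 101)
  have hq100 : 100 ≤ q := by omega
  refine ⟨q, by omega, ?_⟩
  set S := 2 ^ q / (6 * q) with hS
  set K := Nat.sqrt (3 * 2 ^ q) with hK
  have h6q : 0 < 6 * q := by omega
  have hS6 : 6 * q * S ≤ 2 ^ q := Nat.mul_div_le _ _
  have hbig := pow_big q hq100
  -- `S` is large
  have hSlow : 2 ^ q < 6 * q * (S + 1) := Nat.lt_mul_div_succ _ h6q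
  have hK2 : K ^ 2 ≤ 3 * 2 ^ q := by rw [sq]; exact Nat.sqrt_le _
  have hS1 : 2 ^ q ≤ 12 * q * S := by
    have h1 : 6 * q * 2 ≤ 2 ^ q := by nlinarith
    have h2 : 1 ≤ S := by
      rw [hS, Nat.one_le_div_iff h6q]
      nlinarith
    nlinarith
  have hKS : 100 * K ≤ S := by
    by_contra hcon
    push Not at hcon
    have h1 : S ^ 2 ≤ 10000 * K ^ 2 := by nlinarith
    have h2 : S ^ 2 ≤ 30000 * 2 ^ q := by nlinarith
    -- `(2 ^ q) ^ 2 ≤ 144 q ^ 2 S ^ 2 ≤ 144 * 30000 * q ^ 2 * 2 ^ q`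
    have h3 : (2 ^ q) ^ 2 ≤ 144 * q ^ 2 * S ^ 2 := by
      calc (2 ^ q) ^ 2 ≤ (12 * q * S) ^ 2 := Nat.pow_le_pow_left hS1 2
        _ = 144 * q ^ 2 * S ^ 2 := by ring
    have h4 : (2 ^ q) ^ 2 ≤ 144 * q ^ 2 * (30000 * 2 ^ q) :=
      h3.trans (Nat.mul_le_mul_left _ h2)
    have h5 : 2 ^ q * 2 ^ q ≤ (144 * 30000 * q ^ 2) * 2 ^ q := by
      calc 2 ^ q * 2 ^ q = (2 ^ q) ^ 2 := by ring
        _ ≤ _ := h4
        _ = _ := by ring
    have h6 : 2 ^ q ≤ 144 * 30000 * q ^ 2 :=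
      Nat.le_of_mul_le_mul_right h5 (by positivity)
    have h7 : 0 < q ^ 2 := by positivity
    nlinarith
  have hK100 : 100 ≤ K := by
    rw [hK, Nat.le_sqrt]
    nlinarith
  -- bad sets
  set Aq : Finset ℕ := (Finset.range S).filter (fun s => q ∣ 1 + 2 * s) with hAq
  set Am : ℕ → Finset ℕ := fun k => (Finset.range S).filter
    (fun s => k.Prime ∧ k ≠ q ∧ (k : ℤ) ^ 2 ∣ -2 ^ (q + 1) + 3 * q * (1 + 2 * s)) with hAm
  set Ap : ℕ → Finset ℕ := fun k => (Finset.range S).filter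
    (fun s => k.Prime ∧ k ≠ q ∧ (k : ℤ) ^ 2 ∣ 2 ^ (q + 1) + 3 * q * (1 + 2 * s)) with hAp
  have hAqc : Aq.card ≤ S / q + 1 := by
    apply card_le_of_congr
    · intro s hs
      exact Finset.mem_range.1 (Finset.mem_filter.1 hs).1
    · intro s hs s' hs'
      have h1 := (Finset.mem_filter.1 hs).2
      have h2 := (Finset.mem_filter.1 hs').2
      have h1' : (q : ℤ) ∣ 1 + 2 * (s : ℤ) := by exact_mod_cast h1
      have h2' : (q : ℤ) ∣ 1 + 2 * (s' : ℤ) := by exact_mod_cast h2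
      have h3 : (q : ℤ) ∣ 2 * ((s : ℤ) - s') := by
        have := dvd_sub h1' h2'
        have e : 1 + 2 * (s : ℤ) - (1 + 2 * s') = 2 * ((s : ℤ) - s') := by ring
        rwa [e] at this
      have hcop : IsCoprime (q : ℤ) 2 := by
        have : Nat.Coprime q 2 := by
          rw [Nat.coprime_primes hq Nat.prime_two]; omega
        have := Nat.isCoprime_iff_coprime.2 this
        exact_mod_cast this
      have h4 : (q : ℤ) ∣ (s : ℤ) - s' := hcop.dvd_of_dvd_mul_left h3
      have h5 : (s' : ℤ) ≡ s [ZMOD (q : ℤ)] := by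
        rw [Int.modEq_iff_dvd]
        exact h4
      exact (Int.natCast_modEq_iff.1 h5).symm
  have hAmc : ∀ k ∈ Finset.Icc 5 K, (Am k).card ≤ S / k ^ 2 + 1 := by
    intro k hk
    rw [Finset.mem_Icc] at hk
    apply card_le_of_congr
    · intro s hs
      exact Finset.mem_range.1 (Finset.mem_filter.1 hs).1
    · intro s hs s' hs'
      obtain ⟨hp, hpq, h1⟩ := (Finset.mem_filter.1 hs).2
      obtain ⟨_, _, h2⟩ := (Finset.mem_filter.1 hs').2
      exact congr_of_dvd hp hq hk.1 hpq _ h1 h2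
  have hApc : ∀ k ∈ Finset.Icc 5 K, (Ap k).card ≤ S / k ^ 2 + 1 := by
    intro k hk
    rw [Finset.mem_Icc] at hk
    apply card_le_of_congr
    · intro s hs
      exact Finset.mem_range.1 (Finset.mem_filter.1 hs).1
    · intro s hs s' hs'
      obtain ⟨hp, hpq, h1⟩ := (Finset.mem_filter.1 hs).2
      obtain ⟨_, _, h2⟩ := (Finset.mem_filter.1 hs').2
      exact congr_of_dvd hp hq hk.1 hpq _ h1 h2
  -- there is a good `s`
  have hex : ∃ s ∈ Finset.range S,
      s ∉ Aq ∪ (Finset.Icc 5 K).biUnion (fun k => Am k ∪ Ap k) := by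
    by_contra hcon
    push Not at hcon
    have hsub : Finset.range S ⊆ Aq ∪ (Finset.Icc 5 K).biUnion (fun k => Am k ∪ Ap k) := hcon
    have h1 := Finset.card_le_card hsub
    rw [Finset.card_range] at h1
    have h2 : ((Finset.Icc 5 K).biUnion (fun k => Am k ∪ Ap k)).card ≤
        ∑ k ∈ Finset.Icc 5 K, 2 * (S / k ^ 2 + 1) := by
      refine Finset.card_biUnion_le.trans (Finset.sum_le_sum fun k hk => ?_)
      have := Finset.card_union_le (Am k) (Ap k)
      have h3 := hAmc k hk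
      have h4 := hApc k hk
      omega
    have h3 : S ≤ S / q + 1 + ∑ k ∈ Finset.Icc 5 K, 2 * (S / k ^ 2 + 1) := by
      refine h1.trans ((Finset.card_union_le _ _).trans ?_)
      omega
    have h4 : (S : ℝ) ≤ ((S / q : ℕ) : ℝ) + 1 +
        ∑ k ∈ Finset.Icc 5 K, 2 * (((S / k ^ 2 : ℕ) : ℝ) + 1) := by
      exact_mod_cast h3
    have hSpos : (0 : ℝ) ≤ S := Nat.cast_nonneg _
    have h5 : ∑ k ∈ Finset.Icc 5 K, 2 * (((S / k ^ 2 : ℕ) : ℝ) + 1) ≤
        2 * (S : ℝ) * (1 / 4) + 2 * K := by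
      have h6 : ∀ k ∈ Finset.Icc 5 K, 2 * (((S / k ^ 2 : ℕ) : ℝ) + 1) ≤
          2 * (S : ℝ) * (1 / (k : ℝ) ^ 2) + 2 := by
        intro k _
        have h7 : ((S / k ^ 2 : ℕ) : ℝ) ≤ (S : ℝ) / ((k ^ 2 : ℕ) : ℝ) := Nat.cast_div_le
        push_cast at h7
        have : (S : ℝ) / (k : ℝ) ^ 2 = S * (1 / (k : ℝ) ^ 2) := by ring
        linarith
      refine (Finset.sum_le_sum h6).trans ?_
      rw [Finset.sum_add_distrib, ← Finset.mul_sum, Finset.sum_const, nsmul_eq_mul,
        Nat.card_Icc]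
      have h8 := sum_inv_sq K (by omega)
      have h9 : (0 : ℝ) ≤ 1 / K := by positivity
      have h10 : ∑ k ∈ Finset.Icc 5 K, (1 : ℝ) / (k : ℝ) ^ 2 ≤ 1 / 4 := by linarith
      have h11 : ((K + 1 - 5 : ℕ) : ℝ) ≤ K := by
        have : K + 1 - 5 ≤ K := by omega
        exact_mod_cast this
      have h12 : 2 * (S : ℝ) * ∑ k ∈ Finset.Icc 5 K, (1 : ℝ) / (k : ℝ) ^ 2 ≤
          2 * S * (1 / 4) := by gcongr
      linarith
    have h6 : ((S / q : ℕ) : ℝ) ≤ S / 100 := by
      have h7 : ((S / q : ℕ) : ℝ) ≤ (S : ℝ) / q := Nat.cast_div_le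
      have h8 : (S : ℝ) / q ≤ S / 100 := by
        have : (100 : ℝ) ≤ q := by exact_mod_cast hq100
        gcongr
      exact h7.trans h8
    have h7 : (100 : ℝ) * K ≤ S := by exact_mod_cast hKS
    have h8 : (100 : ℝ) ≤ K := by exact_mod_cast hK100
    linarith
  obtain ⟨s, hsS, hs⟩ := hex
  rw [Finset.mem_range] at hsS
  rw [Finset.mem_union, not_or] at hs
  obtain ⟨hsq, hsk⟩ := hs
  have hsq' : ¬ q ∣ 1 + 2 * s := by
    intro h
    exact hsq (Finset.mem_filter.2 ⟨Finset.mem_range.2 hsS, h⟩)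
  set t : ℤ := 3 * q * (1 + 2 * s) with ht
  have ht0 : 0 < t := by
    have : 0 < q := hq.pos
    positivity
  have ht1 : t ≤ 2 ^ q := by
    have h1 : 3 * q * (1 + 2 * s) ≤ 2 ^ q := by
      calc 3 * q * (1 + 2 * s) ≤ 3 * q * (2 * S) := by
            apply Nat.mul_le_mul_left
            omega
        _ = 6 * q * S := by ring
        _ ≤ 2 ^ q := hS6
    rw [ht]
    exact_mod_cast h1
  have hqt : (q : ℤ) ∣ t := ⟨3 * (1 + 2 * s), by rw [ht]; ring⟩
  have h3t : (3 : ℤ) ∣ t := ⟨q * (1 + 2 * s), by rw [ht]; ring⟩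
  have hqodd : Odd q := hq.odd_of_ne_two (by omega)
  have htodd : Odd t := by
    rw [ht]
    apply Odd.mul
    · apply Odd.mul (by decide)
      exact_mod_cast hqodd
    · exact ⟨s, by ring⟩
  -- general facts on primes
  have hkey : ∀ p : ℕ, p.Prime → ∀ z : ℤ, (z = -2 ^ (q + 1) + t ∨ z = 2 ^ (q + 1) + t) →
      ¬ ((p : ℤ) ^ 2 ∣ z) := by
    intro p hp z hz hdvd
    have hpz : (p : ℤ) ∣ z := (dvd_pow_self _ two_ne_zero).trans hdvd
    have hp_t : (p : ℤ) ∣ t → (p : ℤ) ∣ 2 := by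
      intro h
      have h1 : (p : ℤ) ∣ 2 ^ (q + 1) := by
        rcases hz with rfl | rfl
        · have := dvd_sub h hpz
          have e : t - (-2 ^ (q + 1) + t) = 2 ^ (q + 1) := by ring
          rwa [e] at this
        · have := dvd_sub hpz h
          have e : 2 ^ (q + 1) + t - t = 2 ^ (q + 1) := by ring
          rwa [e] at this
      exact Prime.dvd_of_dvd_pow (Nat.prime_iff_prime_int.1 hp) h1
    have hp2le : (p : ℤ) ∣ 2 → p = 2 := by
      intro h
      have h1 : p ∣ 2 := by exact_mod_cast h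
      exact (Nat.prime_dvd_prime_iff_eq hp Nat.prime_two).1 h1
    by_cases hp2 : p = 2
    · subst hp2
      have hzodd : Odd z := by
        rcases hz with rfl | rfl
        · apply Even.add_odd _ htodd
          rw [even_neg, Int.even_pow]
          exact ⟨by decide, by omega⟩
        · apply Even.add_odd _ htodd
          rw [Int.even_pow]
          exact ⟨by decide, by omega⟩
      have : Even z := by
        rw [even_iff_two_dvd]
        exact_mod_cast hpz
      exact (Int.not_even_iff_odd.2 hzodd) this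
    by_cases hp3 : p = 3
    · subst hp3
      have := hp2le (hp_t (by exact_mod_cast h3t))
      omega
    by_cases hpq : p = q
    · subst hpq
      have := hp2le (hp_t hqt)
      omega
    have hp5 : 5 ≤ p := by
      have h2 := hp.two_le
      by_contra h
      have : p = 4 := by omega
      subst this
      exact absurd hp (by decide)
    by_cases hpK : p ≤ K
    · apply hsk
      rw [Finset.mem_biUnion]
      refine ⟨p, Finset.mem_Icc.2 ⟨hp5, hpK⟩, ?_⟩
      rw [Finset.mem_union]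
      rcases hz with rfl | rfl
      · left
        exact Finset.mem_filter.2 ⟨Finset.mem_range.2 hsS, hp, hpq, hdvd⟩
      · right
        exact Finset.mem_filter.2 ⟨Finset.mem_range.2 hsS, hp, hpq, hdvd⟩
    · push Not at hpK
      have h1 : 3 * 2 ^ q < p ^ 2 := by
        rw [hK] at hpK
        rw [sq]
        exact Nat.sqrt_lt.1 hpK
      have h1' : (3 * 2 ^ q : ℤ) < (p : ℤ) ^ 2 := by exact_mod_cast h1
      have h2pos : (0 : ℤ) < 2 ^ q := by positivity
      have e2 : (2 : ℤ) ^ (q + 1) = 2 * 2 ^ q := by ring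
      rcases hz with rfl | rfl
      · have hdvd' : (p : ℤ) ^ 2 ∣ 2 ^ (q + 1) - t := by
          have := (dvd_neg (a := (p : ℤ) ^ 2)).2 hdvd
          have e : -(-2 ^ (q + 1) + t) = 2 ^ (q + 1) - t := by ring
          rwa [e] at this
        have := Int.le_of_dvd (by rw [e2]; linarith) hdvd'
        rw [e2] at this
        linarith
      · have := Int.le_of_dvd (by rw [e2]; linarith) hdvd
        rw [e2] at this
        linarith
  refine ⟨t, hq, by omega, htodd, ?_, hqt, ?_, ?_⟩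
  · rw [abs_of_pos ht0]
    exact ht1
  · intro h
    apply hsq'
    have h1 : (q : ℤ) * q ∣ q * (3 * (1 + 2 * s)) := by
      have e : (q : ℤ) * (3 * (1 + 2 * s)) = t := by rw [ht]; ring
      rw [e, ← sq]
      exact h
    have hq0 : (q : ℤ) ≠ 0 := by
      have := hq.pos
      positivity
    have h2 : (q : ℤ) ∣ 3 * (1 + 2 * s) := (mul_dvd_mul_iff_left hq0).1 h1
    have h3 : q ∣ 3 * (1 + 2 * s) := by exact_mod_cast h2
    rcases (Nat.Prime.dvd_mul hq).1 h3 with h4 | h4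
    · have := (Nat.prime_dvd_prime_iff_eq hq Nat.prime_three).1 h4
      omega
    · exact h4
  · intro p hp
    constructor
    · intro h
      apply hkey p hp (-2 ^ (q + 1) + t) (Or.inl rfl)
      have := (dvd_neg (a := (p : ℤ) ^ 2)).2 h
      have e : -(2 ^ (q + 1) - t) = -2 ^ (q + 1) + t := by ring
      rwa [e] at this
    · exact hkey p hp _ (Or.inr rfl)

end Pool.Agent.TH365.J204
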