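import Pool.Agent.TH168.Mil.Geo

/-!
# MIL-G2 (job 1810): principal curvatures of the surface with a given support function
-/

set_option autoImplicit false

namespace Pool.Agent.TH365.Mil2

open Pool.Agent.TH168.Mil
open Set Filter Topology MeasureTheory
open scoped ContDiff RealInnerProductSpace

theorem cd_fderiv {G : ℝ × ℝ → ℝ} (hG : ContDiff ℝ ∞ G) : ContDiff ℝ ∞ (fderiv ℝ G) :=
  hG.fderiv_right (m := ∞) (by simp)

theorem cd_fderiv_apply {G : ℝ × ℝ → ℝ} (hG : ContDiff ℝ ∞ G) (v : ℝ × ℝ) :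
    ContDiff ℝ ∞ (fun Q => fderiv ℝ G Q v) :=
  (cd_fderiv hG).clm_apply contDiff_const

theorem hess_eq {G : ℝ × ℝ → ℝ} (hG : ContDiff ℝ ∞ G) (P v w : ℝ × ℝ) :
    hess G P v w = fderiv ℝ (fderiv ℝ G) P w v := by
  unfold hess
  have h1 : DifferentiableAt ℝ (fderiv ℝ G) P := (cd_fderiv hG).differentiable (by simp) P
  rw [fderiv_clm_apply h1 (differentiableAt_const v)]
  simp

theorem hess_symm {G : ℝ × ℝ → ℝ} (hG : ContDiff ℝ ∞ G) (P v w : ℝ × ℝ) :
    hess G P v w = hess G P w v := by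
  rw [hess_eq hG, hess_eq hG]
  have h1 : IsSymmSndFDerivAt ℝ G P := by
    apply (hG.contDiffAt (x := P)).isSymmSndFDerivAt
    rw [minSmoothness_of_isRCLikeNormedField]
    exact WithTop.coe_le_coe.mpr le_top
  exact h1.eq w v

theorem hess_add_left {G : ℝ × ℝ → ℝ} (hG : ContDiff ℝ ∞ G) (P v w z : ℝ × ℝ) :
    hess G P (v + w) z = hess G P v z + hess G P w z := by
  rw [hess_eq hG, hess_eq hG, hess_eq hG, map_add]

theorem hess_smul_left {G : ℝ × ℝ → ℝ} (hG : ContDiff ℝ ∞ G) (P v z : ℝ × ℝ) (c : ℝ) :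
    hess G P (c • v) z = c * hess G P v z := by
  rw [hess_eq hG, hess_eq hG, map_smul, smul_eq_mul]

theorem hess_add_right {G : ℝ × ℝ → ℝ} (hG : ContDiff ℝ ∞ G) (P v w z : ℝ × ℝ) :
    hess G P z (v + w) = hess G P z v + hess G P z w := by
  rw [hess_symm hG, hess_add_left hG, hess_symm hG P v, hess_symm hG P w]

theorem hess_smul_right {G : ℝ × ℝ → ℝ} (hG : ContDiff ℝ ∞ G) (P v z : ℝ × ℝ) (c : ℝ) :
    hess G P z (c • v) = c * hess G P z v := by
  rw [hess_symm hG, hess_smul_left hG, hess_symm hG P v]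

theorem fderiv_coord {F : ℝ × ℝ → E3} {P : ℝ × ℝ} (hF : DifferentiableAt ℝ F P) (v : ℝ × ℝ)
    (i : Fin 3) : (fderiv ℝ F P v) i = fderiv ℝ (fun Q => F Q i) P v := by
  have h := ((EuclideanSpace.proj i : E3 →L[ℝ] ℝ).hasFDerivAt (x := F P)).comp P hF.hasFDerivAt
  have h2 : fderiv ℝ (fun Q => F Q i) P = (EuclideanSpace.proj i : E3 →L[ℝ] ℝ).comp (fderiv ℝ F P) :=
    h.fderiv
  rw [h2]
  rfl

theorem contDiff_surf {G : ℝ × ℝ → ℝ} (hG : ContDiff ℝ ∞ G) : ContDiff ℝ ∞ (surf G) := by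
  rw [contDiff_euclidean]
  intro i
  fin_cases i
  · show ContDiff ℝ ∞ (fun P => fderiv ℝ G P (1, 0))
    exact cd_fderiv_apply hG _
  · show ContDiff ℝ ∞ (fun P => fderiv ℝ G P (0, 1))
    exact cd_fderiv_apply hG _
  · show ContDiff ℝ ∞ (fun P => fderiv ℝ G P P - G P)
    exact ((cd_fderiv hG).clm_apply contDiff_id).sub hG

theorem pos1 (P : ℝ × ℝ) : 0 < 1 + P.1 ^ 2 + P.2 ^ 2 := by positivity

theorem contDiff_rt : ContDiff ℝ ∞ (fun P : ℝ × ℝ => Real.sqrt (1 + P.1 ^ 2 + P.2 ^ 2)) := by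
  apply ContDiff.sqrt
  · fun_prop
  · intro P
    exact (pos1 P).ne'

theorem contDiff_rti :
    ContDiff ℝ ∞ (fun P : ℝ × ℝ => (Real.sqrt (1 + P.1 ^ 2 + P.2 ^ 2))⁻¹) := by
  apply contDiff_rt.inv
  intro P
  exact (Real.sqrt_pos.mpr (pos1 P)).ne'

theorem contDiff_nrm : ContDiff ℝ ∞ nrm := by
  rw [contDiff_euclidean]
  intro i
  fin_cases i
  · show ContDiff ℝ ∞ (fun P : ℝ × ℝ => (Real.sqrt (1 + P.1 ^ 2 + P.2 ^ 2))⁻¹ * (-P.1))
    exact contDiff_rti.mul contDiff_fst.neg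
  · show ContDiff ℝ ∞ (fun P : ℝ × ℝ => (Real.sqrt (1 + P.1 ^ 2 + P.2 ^ 2))⁻¹ * (-P.2))
    exact contDiff_rti.mul contDiff_snd.neg
  · show ContDiff ℝ ∞ (fun P : ℝ × ℝ => (Real.sqrt (1 + P.1 ^ 2 + P.2 ^ 2))⁻¹ * 1)
    exact contDiff_rti.mul contDiff_const

theorem norm_nrm (P : ℝ × ℝ) : ‖nrm P‖ = 1 := by
  have h := pos1 P
  have h1 : 0 < Real.sqrt (1 + P.1 ^ 2 + P.2 ^ 2) := Real.sqrt_pos.mpr h
  unfold nrm
  rw [norm_smul, norm_inv, Real.norm_of_nonneg h1.le, EuclideanSpace.norm_eq]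
  simp only [Fin.sum_univ_three]
  have h2 : ‖(!₂[-P.1, -P.2, 1] : E3) 0‖ ^ 2 + ‖(!₂[-P.1, -P.2, 1] : E3) 1‖ ^ 2 +
      ‖(!₂[-P.1, -P.2, 1] : E3) 2‖ ^ 2 = 1 + P.1 ^ 2 + P.2 ^ 2 := by
    simp
    ring
  rw [h2]
  exact inv_mul_cancel₀ h1.ne'

theorem fderiv_surf {G : ℝ × ℝ → ℝ} (hG : ContDiff ℝ ∞ G) (P v : ℝ × ℝ) :
    fderiv ℝ (surf G) P v = !₂[hess G P v (1, 0), hess G P v (0, 1), hess G P v P] := by
  have hd : DifferentiableAt ℝ (surf G) P := (contDiff_surf hG).differentiable (by simp) P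
  ext i
  rw [fderiv_coord hd]
  fin_cases i
  · show fderiv ℝ (fun Q => fderiv ℝ G Q (1, 0)) P v = hess G P v (1, 0)
    rw [hess_symm hG]
    rfl
  · show fderiv ℝ (fun Q => fderiv ℝ G Q (0, 1)) P v = hess G P v (0, 1)
    rw [hess_symm hG]
    rfl
  · show fderiv ℝ (fun Q => fderiv ℝ G Q Q - G Q) P v = hess G P v P
    have h1 : DifferentiableAt ℝ (fderiv ℝ G) P := (cd_fderiv hG).differentiable (by simp) P
    have h2 : DifferentiableAt ℝ G P := hG.differentiable (by simp) P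
    have h3 : HasFDerivAt (fun Q => fderiv ℝ G Q Q - G Q)
        ((fderiv ℝ G P).comp (ContinuousLinearMap.id ℝ (ℝ × ℝ)) +
          (fderiv ℝ (fderiv ℝ G) P).flip P - fderiv ℝ G P) P :=
      (h1.hasFDerivAt.clm_apply (hasFDerivAt_id P)).sub h2.hasFDerivAt
    rw [h3.fderiv, hess_symm hG, hess_eq hG]
    simp

theorem fderiv_rti (P v : ℝ × ℝ) :
    HasFDerivAt (fun P : ℝ × ℝ => (Real.sqrt (1 + P.1 ^ 2 + P.2 ^ 2))⁻¹)
      (fderiv ℝ (fun P : ℝ × ℝ => (Real.sqrt (1 + P.1 ^ 2 + P.2 ^ 2))⁻¹) P) P ∧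
    fderiv ℝ (fun P : ℝ × ℝ => (Real.sqrt (1 + P.1 ^ 2 + P.2 ^ 2))⁻¹) P v =
      -((Real.sqrt (1 + P.1 ^ 2 + P.2 ^ 2))⁻¹ * ((P.1 * v.1 + P.2 * v.2) /
        (1 + P.1 ^ 2 + P.2 ^ 2))) := by
  refine ⟨(contDiff_rti.differentiable (by simp) P).hasFDerivAt, ?_⟩
  have h := pos1 P
  have hs : 0 < Real.sqrt (1 + P.1 ^ 2 + P.2 ^ 2) := Real.sqrt_pos.mpr h
  have h0 : HasFDerivAt (fun P : ℝ × ℝ => 1 + P.1 ^ 2 + P.2 ^ 2)
      ((2 * P.1) • ContinuousLinearMap.fst ℝ ℝ ℝ + (2 * P.2) • ContinuousLinearMap.snd ℝ ℝ ℝ) P := by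
    have e1 := ((hasFDerivAt_fst (𝕜 := ℝ) (p := P)).pow 2).const_add 1
    have e2 := e1.add ((hasFDerivAt_snd (𝕜 := ℝ) (p := P)).pow 2)
    refine e2.congr_fderiv ?_
    simp
  have h1 := (h0.sqrt h.ne')
  have h2 : HasFDerivAt (fun P : ℝ × ℝ => (Real.sqrt (1 + P.1 ^ 2 + P.2 ^ 2))⁻¹)
      ((-(Real.sqrt (1 + P.1 ^ 2 + P.2 ^ 2) ^ 2)⁻¹) •
        ((1 / (2 * Real.sqrt (1 + P.1 ^ 2 + P.2 ^ 2))) •
          ((2 * P.1) • ContinuousLinearMap.fst ℝ ℝ ℝ +
            (2 * P.2) • ContinuousLinearMap.snd ℝ ℝ ℝ))) P :=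
    (hasDerivAt_inv hs.ne').comp_hasFDerivAt P h1
  rw [h2.fderiv]
  simp only [smul_apply, add_apply,
    ContinuousLinearMap.coe_fst', ContinuousLinearMap.coe_snd', smul_eq_mul]
  rw [Real.sq_sqrt h.le]
  field_simp

theorem fderiv_nrm (P v : ℝ × ℝ) :
    fderiv ℝ nrm P v = (Real.sqrt (1 + P.1 ^ 2 + P.2 ^ 2))⁻¹ •
      !₂[-(v.1 - (P.1 * v.1 + P.2 * v.2) / (1 + P.1 ^ 2 + P.2 ^ 2) * P.1),
         -(v.2 - (P.1 * v.1 + P.2 * v.2) / (1 + P.1 ^ 2 + P.2 ^ 2) * P.2),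
         -((P.1 * v.1 + P.2 * v.2) / (1 + P.1 ^ 2 + P.2 ^ 2))] := by
  have hd : DifferentiableAt ℝ nrm P := contDiff_nrm.differentiable (by simp) P
  obtain ⟨hr, hv⟩ := fderiv_rti P v
  ext i
  rw [fderiv_coord hd]
  fin_cases i
  · show fderiv ℝ (fun P : ℝ × ℝ => (Real.sqrt (1 + P.1 ^ 2 + P.2 ^ 2))⁻¹ * (-P.1)) P v =
      (Real.sqrt (1 + P.1 ^ 2 + P.2 ^ 2))⁻¹ *
        -(v.1 - (P.1 * v.1 + P.2 * v.2) / (1 + P.1 ^ 2 + P.2 ^ 2) * P.1)
    have h3 := (hr.mul (hasFDerivAt_fst (𝕜 := ℝ) (p := P)).neg).fderiv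
    have h4 := congrArg (fun L : (ℝ × ℝ) →L[ℝ] ℝ => L v) h3
    refine h4.trans ?_
    simp only [add_apply, smul_apply, smul_eq_mul, hv,
      neg_apply, Pi.neg_apply, ContinuousLinearMap.coe_fst']
    ring
  · show fderiv ℝ (fun P : ℝ × ℝ => (Real.sqrt (1 + P.1 ^ 2 + P.2 ^ 2))⁻¹ * (-P.2)) P v =
      (Real.sqrt (1 + P.1 ^ 2 + P.2 ^ 2))⁻¹ *
        -(v.2 - (P.1 * v.1 + P.2 * v.2) / (1 + P.1 ^ 2 + P.2 ^ 2) * P.2)
    have h3 := (hr.mul (hasFDerivAt_snd (𝕜 := ℝ) (p := P)).neg).fderiv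
    have h4 := congrArg (fun L : (ℝ × ℝ) →L[ℝ] ℝ => L v) h3
    refine h4.trans ?_
    simp only [add_apply, smul_apply, smul_eq_mul, hv,
      neg_apply, Pi.neg_apply, ContinuousLinearMap.coe_snd']
    ring
  · show fderiv ℝ (fun P : ℝ × ℝ => (Real.sqrt (1 + P.1 ^ 2 + P.2 ^ 2))⁻¹ * 1) P v =
      (Real.sqrt (1 + P.1 ^ 2 + P.2 ^ 2))⁻¹ *
        -((P.1 * v.1 + P.2 * v.2) / (1 + P.1 ^ 2 + P.2 ^ 2))
    simp only [mul_one]
    rw [hv]
    ring

theorem hess_dec {G : ℝ × ℝ → ℝ} (hG : ContDiff ℝ ∞ G) (P v w : ℝ × ℝ) :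
    hess G P v w = w.1 * hess G P v (1, 0) + w.2 * hess G P v (0, 1) := by
  have hdec : w = w.1 • ((1, 0) : ℝ × ℝ) + w.2 • ((0, 1) : ℝ × ℝ) := by
    ext <;> simp
  conv_lhs => rw [hdec]
  rw [hess_add_right hG, hess_smul_right hG, hess_smul_right hG]

theorem inner_nrm {G : ℝ × ℝ → ℝ} (hG : ContDiff ℝ ∞ G) (P v : ℝ × ℝ) :
    ⟪nrm P, fderiv ℝ (surf G) P v⟫ = 0 := by
  rw [fderiv_surf hG]
  unfold nrm
  rw [real_inner_smul_left, PiLp.inner_apply, Fin.sum_univ_three]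
  have h1 := hess_dec hG P v P
  simp only [RCLike.inner_apply, conj_trivial, Matrix.cons_val_zero, Matrix.cons_val_one,
    Matrix.cons_val, PiLp.toLp_apply]
  rw [h1]
  ring

/-- the radial unit vector -/
noncomputable def er (θ : ℝ) : ℝ × ℝ := (Real.cos θ, Real.sin θ)

/-- the tangential unit vector -/
noncomputable def et (θ : ℝ) : ℝ × ℝ := (-Real.sin θ, Real.cos θ)

theorem e1_dec (θ : ℝ) : ((1, 0) : ℝ × ℝ) = Real.cos θ • er θ + (-Real.sin θ) • et θ := by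
  have h := Real.sin_sq_add_cos_sq θ
  ext
  · simp [er, et]
    nlinarith
  · simp [er, et]
    ring

theorem e2_dec (θ : ℝ) : ((0, 1) : ℝ × ℝ) = Real.sin θ • er θ + Real.cos θ • et θ := by
  have h := Real.sin_sq_add_cos_sq θ
  ext
  · simp [er, et]
    ring
  · simp [er, et]
    nlinarith

theorem frame_dec (θ : ℝ) (v : ℝ × ℝ) :
    v = (v.1 * Real.cos θ + v.2 * Real.sin θ) • er θ +
      (-(v.1 * Real.sin θ) + v.2 * Real.cos θ) • et θ := by
  have h := Real.sin_sq_add_cos_sq θ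
  ext
  · simp [er, et]
    linear_combination -v.1 * h
  · simp [er, et]
    linear_combination -v.2 * h

theorem hess_frame {G : ℝ × ℝ → ℝ} (hG : ContDiff ℝ ∞ G) (P : ℝ × ℝ) (θ R T U α β : ℝ)
    (h1 : hess G P (er θ) (er θ) = R) (h2 : hess G P (er θ) (et θ) = T)
    (h3 : hess G P (et θ) (et θ) = U) :
    hess G P (α • er θ + β • et θ) (er θ) = α * R + β * T ∧
    hess G P (α • er θ + β • et θ) (et θ) = α * T + β * U := by
  have h2' : hess G P (et θ) (er θ) = T := by rw [hess_symm hG]; exact h2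
  constructor
  · rw [hess_add_left hG, hess_smul_left hG, hess_smul_left hG, h1, h2']
  · rw [hess_add_left hG, hess_smul_left hG, hess_smul_left hG, h2, h3]

theorem hess_e12 {G : ℝ × ℝ → ℝ} (hG : ContDiff ℝ ∞ G) (P v : ℝ × ℝ) (θ : ℝ) :
    hess G P v (1, 0) = Real.cos θ * hess G P v (er θ) - Real.sin θ * hess G P v (et θ) ∧
    hess G P v (0, 1) = Real.sin θ * hess G P v (er θ) + Real.cos θ * hess G P v (et θ) := by
  constructor
  · rw [e1_dec θ, hess_add_right hG, hess_smul_right hG, hess_smul_right hG]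
    ring
  · rw [e2_dec θ, hess_add_right hG, hess_smul_right hG, hess_smul_right hG]

theorem isPC_of_eig {G : ℝ × ℝ → ℝ} (hG : ContDiff ℝ ∞ G) {θ y a b d : ℝ} (hy : 0 < y)
    (h1 : hess G (pt θ y) (er θ) (er θ) = (Real.sinh y / Real.cosh y) ^ 3 * a)
    (h2 : hess G (pt θ y) (er θ) (et θ) = -(Real.sinh y / Real.cosh y) ^ 2 * b)
    (h3 : hess G (pt θ y) (et θ) (et θ) = Real.sinh y / Real.cosh y * d)
    (l : ℝ) (hl : 0 < l) (w z : ℝ) (hwz : w ≠ 0 ∨ z ≠ 0) (e1 : a * w - b * z = l * w)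
    (e2 : d * z - b * w = l * z) : IsPC (surf G) nrm (pt θ y) (1 / l) := by
  have hs : 0 < Real.sinh y := Real.sinh_pos_iff.mpr hy
  have hc : 0 < Real.cosh y := Real.cosh_pos y
  have hcs : Real.cosh y ^ 2 = Real.sinh y ^ 2 + 1 := Real.cosh_sq y
  have htr := Real.sin_sq_add_cos_sq θ
  set s := Real.sinh y with hsdef
  set c := Real.cosh y with hcdef
  set S := Real.sin θ with hSdef
  set C := Real.cos θ with hCdef
  have hpt : pt θ y = (C / s, S / s) := rfl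
  obtain ⟨f1, f2⟩ := hess_frame hG (pt θ y) θ _ _ _ (w * (c / s)) z h1 h2 h3
  set v : ℝ × ℝ := (w * (c / s)) • er θ + z • et θ with hv
  have g1 : hess G (pt θ y) v (er θ) = (s / c) ^ 2 * (l * w) := by
    rw [f1, ← e1]
    field_simp
    ring
  have g2 : hess G (pt θ y) v (et θ) = (s / c) * (l * z) := by
    rw [f2, ← e2]
    field_simp
    ring
  obtain ⟨k1, k2⟩ := hess_e12 hG (pt θ y) v θ
  have k3 := hess_dec hG (pt θ y) v (pt θ y)
  rw [← hSdef, ← hCdef, g1, g2] at k1 k2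
  rw [k1, k2, hpt] at k3
  have hv1 : v.1 = w * (c / s) * C - z * S := by
    simp [hv, er, et, ← hSdef, ← hCdef]
    ring
  have hv2 : v.2 = w * (c / s) * S + z * C := by
    simp [hv, er, et, ← hSdef, ← hCdef]
  have hW : 1 + (C / s) ^ 2 + (S / s) ^ 2 = (c / s) ^ 2 := by
    field_simp
    rw [hcs]
    linear_combination htr
  have hsq : Real.sqrt (1 + (C / s) ^ 2 + (S / s) ^ 2) = c / s := by
    rw [hW]
    exact Real.sqrt_sq (by positivity)
  have hPv : C / s * v.1 + S / s * v.2 = w * c / s ^ 2 := by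
    rw [hv1, hv2]
    field_simp
    linear_combination (w * c) * htr
  refine ⟨v, ?_, ?_⟩
  · intro h0
    have q1 : v.1 = 0 := by rw [h0]; rfl
    have q2 : v.2 = 0 := by rw [h0]; rfl
    rw [hv1] at q1
    rw [hv2] at q2
    have q3 : w * (c / s) = 0 := by
      linear_combination C * q1 + S * q2 - (w * (c / s)) * htr
    have q4 : z = 0 := by
      linear_combination -S * q1 + C * q2 - z * htr
    have q5 : w = 0 := by
      rcases mul_eq_zero.mp q3 with h | h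
      · exact h
      · exact absurd h (by positivity)
    rcases hwz with h | h
    · exact h q5
    · exact h q4
  · rw [fderiv_nrm, fderiv_surf hG, hpt] at *
    simp only at *
    rw [k1, k2, k3, hW, hPv, Real.sqrt_sq (by positivity)]
    have hl' := hl.ne'
    have hcs' : s ^ 2 = c ^ 2 - 1 := by linarith
    ext i
    fin_cases i
    · show (c / s)⁻¹ * -(v.1 - w * c / s ^ 2 / (c / s) ^ 2 * (C / s)) =
        -(1 / l) * (C * ((s / c) ^ 2 * (l * w)) - S * (s / c * (l * z)))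
      rw [hv1]
      field_simp
      linear_combination -(w * C) * hcs
    · show (c / s)⁻¹ * -(v.2 - w * c / s ^ 2 / (c / s) ^ 2 * (S / s)) =
        -(1 / l) * (S * ((s / c) ^ 2 * (l * w)) + C * (s / c * (l * z)))
      rw [hv2]
      field_simp
      linear_combination -(w * S) * hcs
    · show (c / s)⁻¹ * -(w * c / s ^ 2 / (c / s) ^ 2) =
        -(1 / l) * (C / s * (C * ((s / c) ^ 2 * (l * w)) - S * (s / c * (l * z))) +
          S / s * (S * ((s / c) ^ 2 * (l * w)) + C * (s / c * (l * z))))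
      field_simp
      linear_combination (s * w) * htr

/-- an eigenvector of the symmetric matrix `(a, -b; -b, d)` -/
theorem exists_eig {a b d l : ℝ} (h : (a - l) * (d - l) = b ^ 2) :
    ∃ w z : ℝ, (w ≠ 0 ∨ z ≠ 0) ∧ a * w - b * z = l * w ∧ d * z - b * w = l * z := by
  by_cases h0 : b = 0 ∧ a = l
  · refine ⟨1, 0, Or.inl one_ne_zero, ?_, ?_⟩
    · rw [h0.1, h0.2]; ring
    · rw [h0.1]; ring
  · refine ⟨b, a - l, ?_, ?_, ?_⟩
    · by_contra h1
      push Not at h1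
      exact h0 ⟨h1.1, sub_eq_zero.mp h1.2⟩
    · ring
    · linear_combination h

/-- If the polar entries of the Hessian at `pt θ y` are given by a symmetric matrix
`(a, -b; -b, d)` with `0 < a`, `0 < a d - b²`, `0 < d ≤ 2`, not a multiple of the identity, then the
surface is immersed there and has two different positive principal curvatures
(the eigenvalues of the inverse matrix). -/
theorem pc_polar {G : ℝ × ℝ → ℝ} (hG : ContDiff ℝ ∞ G) {θ y a b d : ℝ} (hy : 0 < y)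
    (ha : 0 < a) (hd : 0 < d) (hd2 : d ≤ 2) (hdet : 0 < a * d - b ^ 2) (hne : a ≠ d ∨ b ≠ 0)
    (h1 : hess G (pt θ y) (Real.cos θ, Real.sin θ) (Real.cos θ, Real.sin θ) =
      (Real.sinh y / Real.cosh y) ^ 3 * a)
    (h2 : hess G (pt θ y) (Real.cos θ, Real.sin θ) (-Real.sin θ, Real.cos θ) =
      -(Real.sinh y / Real.cosh y) ^ 2 * b)
    (h3 : hess G (pt θ y) (-Real.sin θ, Real.cos θ) (-Real.sin θ, Real.cos θ) =
      Real.sinh y / Real.cosh y * d) :
    Function.Injective (fderiv ℝ (surf G) (pt θ y)) ∧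
    ∃ k₁ k₂ : ℝ, 0 < k₁ ∧ k₁ < k₂ ∧ 1 / 4 ≤ k₁ ^ 2 + k₂ ^ 2 ∧
      IsPC (surf G) nrm (pt θ y) k₁ ∧ IsPC (surf G) nrm (pt θ y) k₂ := by
  constructor
  · rw [injective_iff_map_eq_zero]
    intro v hv
    rw [fderiv_surf hG] at hv
    have q1 : hess G (pt θ y) v (1, 0) = 0 := by
      have := congrArg (fun x : E3 => x 0) hv
      simpa using this
    have q2 : hess G (pt θ y) v (0, 1) = 0 := by
      have := congrArg (fun x : E3 => x 1) hv
      simpa using this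
    have r1 : hess G (pt θ y) v (er θ) = 0 := by
      rw [hess_dec hG, q1, q2]; ring
    have r2 : hess G (pt θ y) v (et θ) = 0 := by
      rw [hess_dec hG, q1, q2]; ring
    have hvd := frame_dec θ v
    obtain ⟨f1, f2⟩ := hess_frame hG (pt θ y) θ _ _ _ (v.1 * Real.cos θ + v.2 * Real.sin θ)
      (-(v.1 * Real.sin θ) + v.2 * Real.cos θ) h1 h2 h3
    rw [← hvd] at f1 f2
    rw [r1] at f1
    rw [r2] at f2
    set α := v.1 * Real.cos θ + v.2 * Real.sin θ
    set β := -(v.1 * Real.sin θ) + v.2 * Real.cos θ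
    have hs : 0 < Real.sinh y := Real.sinh_pos_iff.mpr hy
    have hc : 0 < Real.cosh y := Real.cosh_pos y
    set m := Real.sinh y / Real.cosh y with hm
    have hm0 : 0 < m := div_pos hs hc
    have hα : α = 0 := by
      have e : α * (m ^ 4 * (a * d - b ^ 2)) = 0 := by
        linear_combination (-(m * d)) * f1 + (-(m ^ 2 * b)) * f2
      rcases mul_eq_zero.mp e with h | h
      · exact h
      · exact absurd h (by positivity)
    have hβ : β = 0 := by
      have e : β * (m ^ 4 * (a * d - b ^ 2)) = 0 := by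
        linear_combination (-(m ^ 2 * b)) * f1 + (-(m ^ 3 * a)) * f2
      rcases mul_eq_zero.mp e with h | h
      · exact h
      · exact absurd h (by positivity)
    rw [hvd, hα, hβ, zero_smul, zero_smul, add_zero]
  · set D := Real.sqrt ((a - d) ^ 2 + 4 * b ^ 2) with hD
    have hrad : 0 < (a - d) ^ 2 + 4 * b ^ 2 := by
      rcases hne with h | h
      · have : 0 < (a - d) ^ 2 := by
          have := sub_ne_zero.mpr h
          positivity
        positivity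
      · positivity
    have hD0 : 0 < D := Real.sqrt_pos.mpr hrad
    have hDsq : D ^ 2 = (a - d) ^ 2 + 4 * b ^ 2 := Real.sq_sqrt hrad.le
    have hDlt : D < a + d := by
      apply lt_of_pow_lt_pow_left₀ 2 (by positivity)
      rw [hDsq]
      nlinarith
    have hDge : a - d ≤ D := by
      apply le_trans (le_abs_self _)
      rw [← Real.sqrt_sq_eq_abs]
      apply Real.sqrt_le_sqrt
      nlinarith [sq_nonneg b]
    have hl1 : 0 < (a + d + D) / 2 := by positivity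
    have hl2 : 0 < (a + d - D) / 2 := by linarith
    have hl3 : (a + d - D) / 2 ≤ d := by linarith
    have hq1 : (a - (a + d + D) / 2) * (d - (a + d + D) / 2) = b ^ 2 := by
      linear_combination (1 / 4 : ℝ) * hDsq
    have hq2 : (a - (a + d - D) / 2) * (d - (a + d - D) / 2) = b ^ 2 := by
      linear_combination (1 / 4 : ℝ) * hDsq
    obtain ⟨w1, z1, hw1, e1, e1'⟩ := exists_eig hq1
    obtain ⟨w2, z2, hw2, e2, e2'⟩ := exists_eig hq2
    refine ⟨1 / ((a + d + D) / 2), 1 / ((a + d - D) / 2), by positivity, ?_, ?_, ?_, ?_⟩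
    · apply one_div_lt_one_div_of_lt hl2
      linarith
    · have h4 : 1 / 2 ≤ 1 / ((a + d - D) / 2) := by
        apply one_div_le_one_div_of_le hl2
        linarith
      have h5 : 0 ≤ (1 / ((a + d + D) / 2)) ^ 2 := sq_nonneg _
      nlinarith
    · exact isPC_of_eig hG hy h1 h2 h3 _ hl1 w1 z1 hw1 e1 e1'
    · exact isPC_of_eig hG hy h1 h2 h3 _ hl2 w2 z2 hw2 e2 e2'

/-- the point `0` -/
theorem pc_pole {G : ℝ × ℝ → ℝ} (hG : ContDiff ℝ ∞ G) {e : ℝ} (he : 0 < e) (he1 : e < 1)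
    (h1 : hess G 0 (1, 0) (1, 0) = 1) (h2 : hess G 0 (1, 0) (0, 1) = -e)
    (h3 : hess G 0 (0, 1) (0, 1) = 1) :
    Function.Injective (fderiv ℝ (surf G) 0) ∧
    ∃ k₁ k₂ : ℝ, 0 < k₁ ∧ k₁ < k₂ ∧ 1 / 4 ≤ k₁ ^ 2 + k₂ ^ 2 ∧
      IsPC (surf G) nrm 0 k₁ ∧ IsPC (surf G) nrm 0 k₂ := by
  have h2' : hess G 0 (0, 1) (1, 0) = -e := by rw [hess_symm hG]; exact h2
  have g1 : ∀ v : ℝ × ℝ, hess G 0 v (1, 0) = v.1 - v.2 * e := by
    intro v
    rw [hess_symm hG, hess_dec hG, h1, h2]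
    ring
  have g2 : ∀ v : ℝ × ℝ, hess G 0 v (0, 1) = -(v.1 * e) + v.2 := by
    intro v
    rw [hess_symm hG, hess_dec hG, h2', h3]
    ring
  have g3 : ∀ v : ℝ × ℝ, hess G 0 v 0 = 0 := by
    intro v
    rw [hess_dec hG]
    simp
  constructor
  · rw [injective_iff_map_eq_zero]
    intro v hv
    rw [fderiv_surf hG] at hv
    have q1 : hess G 0 v (1, 0) = 0 := by
      have := congrArg (fun x : E3 => x 0) hv
      simpa using this
    have q2 : hess G 0 v (0, 1) = 0 := by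
      have := congrArg (fun x : E3 => x 1) hv
      simpa using this
    rw [g1] at q1
    rw [g2] at q2
    have hpos : 0 < 1 - e ^ 2 := by nlinarith
    have v2 : v.2 = 0 := by
      have : v.2 * (1 - e ^ 2) = 0 := by linear_combination e * q1 + q2
      rcases mul_eq_zero.mp this with h | h
      · exact h
      · exact absurd h hpos.ne'
    have v1 : v.1 = 0 := by
      rw [v2] at q1
      linarith
    exact Prod.ext v1 v2
  · have hpc : ∀ (v : ℝ × ℝ) (k : ℝ), v ≠ 0 → v.1 = k * (v.1 - v.2 * e) →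
        v.2 = k * (-(v.1 * e) + v.2) → IsPC (surf G) nrm 0 k := by
      intro v k hv e1 e2
      refine ⟨v, hv, ?_⟩
      rw [fderiv_nrm, fderiv_surf hG, g1, g2, g3]
      ext i
      fin_cases i
      · simp
        linarith
      · simp
        linarith
      · simp
    refine ⟨1 / (1 + e), 1 / (1 - e), by positivity, ?_, ?_, ?_, ?_⟩
    · apply one_div_lt_one_div_of_lt
      · linarith
      · linarith
    · have h4 : 1 ≤ 1 / (1 - e) := by
        rw [le_div_iff₀ (by linarith)]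
        linarith
      have h5 : 0 ≤ (1 / (1 + e)) ^ 2 := sq_nonneg _
      nlinarith
    · refine hpc (1, -1) _ (by simp) ?_ ?_
      · have : 1 + e ≠ 0 := by positivity
        simp only
        field_simp
        ring
      · have : 1 + e ≠ 0 := by positivity
        simp only
        field_simp
        ring
    · have hne : 1 - e ≠ 0 := by
        have : 0 < 1 - e := by linarith
        exact this.ne'
      refine hpc (1, 1) _ (by simp) ?_ ?_
      · simp only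
        field_simp
      · simp only
        field_simp
        ring

end Pool.Agent.TH365.Mil2
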