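import Pool.Agent.TH168.Mil.Geo

/-!
# MIL-G3 (job 1811): completeness, injectivity and properness
-/

set_option autoImplicit false

namespace Pool.Agent.TH365.Mil

open Pool.Agent.TH168.Mil
open Set Filter Topology MeasureTheory
open scoped ContDiff

theorem cont_speed {X : ℝ × ℝ → E3} (hX : ContDiff ℝ ∞ X) {γ : ℝ → ℝ × ℝ} (hγ : ContDiff ℝ 1 γ) :
    Continuous fun t => fderiv ℝ X (γ t) (deriv γ t) := by
  have h1 : Continuous (fderiv ℝ X) := hX.continuous_fderiv (by simp)
  have h2 : Continuous (deriv γ) := hγ.continuous_deriv (le_refl _)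
  exact (h1.comp hγ.continuous).clm_apply h2

theorem le_pathLen {X : ℝ × ℝ → E3} (hX : ContDiff ℝ ∞ X) {γ : ℝ → ℝ × ℝ} (hγ : ContDiff ℝ 1 γ)
    {a b : ℝ} (hab : a ≤ b) : ‖X (γ b) - X (γ a)‖ ≤ pathLen X γ a b := by
  have hc := cont_speed hX hγ
  have h1 : ∀ t, HasDerivAt (fun t => X (γ t)) (fderiv ℝ X (γ t) (deriv γ t)) t := by
    intro t
    have hd : DifferentiableAt ℝ γ t := hγ.differentiable (by simp) t
    have hXd : DifferentiableAt ℝ X (γ t) := hX.differentiable (by simp) _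
    exact hXd.hasFDerivAt.comp_hasDerivAt t hd.hasDerivAt
  have h2 : ∫ t in a..b, fderiv ℝ X (γ t) (deriv γ t) = X (γ b) - X (γ a) :=
    intervalIntegral.integral_eq_sub_of_hasDerivAt (fun t _ => h1 t)
      (hc.intervalIntegrable a b)
  rw [← h2]
  exact intervalIntegral.norm_integral_le_integral_norm hab

/-- proper smooth maps are complete in the sense of divergent paths -/
theorem divPaths_of_proper {X : ℝ × ℝ → E3} (hX : ContDiff ℝ ∞ X)
    (hp : Tendsto X (cocompact (ℝ × ℝ)) (cocompact E3)) : DivPathsInf X := by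
  intro γ hγ hdiv
  have h1 : Tendsto (fun T => ‖X (γ T)‖) atTop atTop :=
    tendsto_norm_cocompact_atTop.comp (hp.comp hdiv)
  have h2 : Tendsto (fun T => ‖X (γ T)‖ - ‖X (γ 0)‖) atTop atTop :=
    tendsto_atTop_add_const_right _ _ h1
  refine tendsto_atTop_mono' atTop ?_ h2
  filter_upwards [eventually_ge_atTop (0 : ℝ)] with T hT
  exact (norm_sub_norm_le _ _).trans (le_pathLen hX hγ hT)

theorem segment_contDiff (p q : ℝ × ℝ) : ContDiff ℝ 1 (fun t : ℝ => p + t • (q - p)) := by
  fun_prop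

theorem deriv_segment (p q : ℝ × ℝ) (t : ℝ) : deriv (fun t : ℝ => p + t • (q - p)) t = q - p := by
  have h : HasDerivAt (fun t : ℝ => p + t • (q - p)) ((1 : ℝ) • (q - p)) t :=
    ((hasDerivAt_id t).smul_const (q - p)).const_add p
  rw [h.deriv, one_smul]

theorem lens_nonempty (X : ℝ × ℝ → E3) (p q : ℝ × ℝ) : (lens X p q).Nonempty :=
  ⟨_, fun t : ℝ => p + t • (q - p), segment_contDiff p q, by simp, by simp, rfl⟩

theorem lens_lb {X : ℝ × ℝ → E3} (hX : ContDiff ℝ ∞ X) (p q : ℝ × ℝ) :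
    ∀ ℓ ∈ lens X p q, ‖X q - X p‖ ≤ ℓ := by
  rintro ℓ ⟨γ, hγ, h0, h1, rfl⟩
  have := le_pathLen hX hγ (zero_le_one' ℝ)
  rwa [h0, h1] at this

theorem le_idist {X : ℝ × ℝ → E3} (hX : ContDiff ℝ ∞ X) (p q : ℝ × ℝ) :
    ‖X q - X p‖ ≤ idist X p q :=
  le_csInf (lens_nonempty X p q) (lens_lb hX p q)

theorem idist_le_segment {X : ℝ × ℝ → E3} (hX : ContDiff ℝ ∞ X) (p q : ℝ × ℝ) (M : ℝ)
    (hM : ∀ t ∈ Icc (0 : ℝ) 1, ‖fderiv ℝ X (p + t • (q - p))‖ ≤ M) :
    idist X p q ≤ M * ‖q - p‖ := by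
  have hmem : pathLen X (fun t : ℝ => p + t • (q - p)) 0 1 ∈ lens X p q :=
    ⟨fun t : ℝ => p + t • (q - p), segment_contDiff p q, by simp, by simp, rfl⟩
  have hbdd : BddBelow (lens X p q) := ⟨‖X q - X p‖, fun ℓ hℓ => lens_lb hX p q ℓ hℓ⟩
  refine (csInf_le hbdd hmem).trans ?_
  unfold pathLen
  have hc := (cont_speed hX (segment_contDiff p q)).norm
  calc ∫ t in (0 : ℝ)..1, ‖fderiv ℝ X (p + t • (q - p)) (deriv (fun t : ℝ => p + t • (q - p)) t)‖
      ≤ ∫ _t in (0 : ℝ)..1, M * ‖q - p‖ := by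
        apply intervalIntegral.integral_mono_on (zero_le_one' ℝ) (hc.intervalIntegrable 0 1)
          (by simp)
        intro t ht
        rw [deriv_segment]
        exact (ContinuousLinearMap.le_opNorm _ _).trans
          (mul_le_mul_of_nonneg_right (hM t ht) (norm_nonneg _))
    _ = M * ‖q - p‖ := by simp

/-- proper injective smooth maps induce a complete metric -/
theorem complete_of_proper {X : ℝ × ℝ → E3} (hX : ContDiff ℝ ∞ X)
    (hp : Tendsto X (cocompact (ℝ × ℝ)) (cocompact E3)) (hinj : Function.Injective X) :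
    IsCompleteSurf X := by
  intro u hu
  have hcau : CauchySeq (fun n => X (u n)) := by
    rw [Metric.cauchySeq_iff]
    intro ε hε
    obtain ⟨N, hN⟩ := hu ε hε
    refine ⟨N, fun m hm n hn => ?_⟩
    rw [dist_eq_norm]
    exact (le_idist hX (u n) (u m)).trans_lt (hN n m hn hm)
  obtain ⟨z, hz⟩ := cauchySeq_tendsto_of_complete hcau
  have hK : ∃ K : Set (ℝ × ℝ), IsCompact K ∧ ∀ᶠ n in atTop, u n ∈ K := by
    have h1 : (Metric.closedBall z 1)ᶜ ∈ cocompact E3 :=
      (isCompact_closedBall z 1).compl_mem_cocompact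
    have h2 := hp h1
    rw [mem_map, mem_cocompact] at h2
    obtain ⟨K, hKc, hK⟩ := h2
    refine ⟨K, hKc, ?_⟩
    have h3 : ∀ᶠ n in atTop, X (u n) ∈ Metric.closedBall z 1 :=
      hz (Metric.closedBall_mem_nhds z one_pos)
    filter_upwards [h3] with n hn
    by_contra hnK
    exact hK hnK hn
  obtain ⟨K, hKc, hKu⟩ := hK
  have hclu : ∀ x', MapClusterPt x' atTop u → X x' = z := by
    intro x' hx'
    have h1 : MapClusterPt (X x') atTop (X ∘ u) :=
      hx'.continuousAt_comp hX.continuous.continuousAt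
    have h2 : map (X ∘ u) atTop ≤ 𝓝 z := hz
    have h4 : ClusterPt (X x') (map (X ∘ u) atTop) := h1
    have h3 : (𝓝 (X x') ⊓ 𝓝 z).NeBot := ClusterPt.mono h4 h2
    exact eq_of_nhds_neBot h3
  obtain ⟨p, hpK, hpc⟩ := hKc.exists_mapClusterPt (le_principal_iff.mpr hKu : map u atTop ≤ 𝓟 K)
  have hXp := hclu p hpc
  have hlim : Tendsto u atTop (𝓝 p) := by
    refine hKc.tendsto_nhds_of_unique_mapClusterPt hKu ?_
    intro x' _ hx'
    exact hinj ((hclu x' hx').trans hXp.symm)
  refine ⟨p, ?_⟩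
  -- a bound for the derivative near `p`
  have hcf : Continuous (fderiv ℝ X) := hX.continuous_fderiv (by simp)
  obtain ⟨M, hM⟩ := (isCompact_closedBall p 1).exists_bound_of_continuousOn hcf.continuousOn
  have h1 : ∀ᶠ n in atTop, u n ∈ Metric.closedBall p 1 :=
    hlim (Metric.closedBall_mem_nhds p one_pos)
  have h2 : Tendsto (fun n => M * ‖p - u n‖) atTop (𝓝 0) := by
    have h3 : Tendsto (fun n => M * ‖p - u n‖) atTop (𝓝 (M * ‖p - p‖)) :=
      ((tendsto_const_nhds.sub hlim).norm).const_mul M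
    simpa using h3
  refine tendsto_of_tendsto_of_tendsto_of_le_of_le' tendsto_const_nhds h2 ?_ ?_
  · exact Eventually.of_forall fun n => (norm_nonneg _).trans (le_idist hX (u n) p)
  · filter_upwards [h1] with n hn
    apply idist_le_segment hX
    intro t ht
    apply hM
    have hconv : Convex ℝ (Metric.closedBall p (1 : ℝ)) := convex_closedBall p 1
    have := hconv.add_smul_sub_mem hn (Metric.mem_closedBall_self zero_le_one) ht
    exact this

/-- strict convexity makes the gradient, hence `surf G`, injective -/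
theorem surf_injective {G : ℝ × ℝ → ℝ} (hG : ContDiff ℝ ∞ G)
    (hpos : ∀ P v : ℝ × ℝ, v ≠ 0 → 0 < hess G P v v) : Function.Injective (surf G) := by
  intro P Q hPQ
  by_contra hne
  have h0 : fderiv ℝ G P (1, 0) = fderiv ℝ G Q (1, 0) := by
    have := congrArg (fun x : E3 => x 0) hPQ
    simpa [surf] using this
  have h1 : fderiv ℝ G P (0, 1) = fderiv ℝ G Q (0, 1) := by
    have := congrArg (fun x : E3 => x 1) hPQ
    simpa [surf] using this
  let v : ℝ × ℝ := Q - P
  have hv : v ≠ 0 := sub_ne_zero.mpr (Ne.symm hne)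
  have hdec : v = v.1 • ((1, 0) : ℝ × ℝ) + v.2 • ((0, 1) : ℝ × ℝ) := by
    ext <;> simp
  have h2 : fderiv ℝ G P v = fderiv ℝ G Q v := by
    rw [hdec]
    simp only [map_add, map_smul, h0, h1]
  have hd : Differentiable ℝ (fun Q => fderiv ℝ G Q v) := by
    have : ContDiff ℝ ∞ (fun Q => fderiv ℝ G Q v) := by
      exact (hG.fderiv_right (m := ∞) (by simp)).clm_apply contDiff_const
    exact this.differentiable (by simp)
  have hder : ∀ t : ℝ, HasDerivAt (fun t : ℝ => fderiv ℝ G (P + t • v) v)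
      (hess G (P + t • v) v v) t := by
    intro t
    have e1 : HasDerivAt (fun t : ℝ => P + t • v) v t := by
      have h : HasDerivAt (fun t : ℝ => P + t • v) ((1 : ℝ) • v) t :=
        ((hasDerivAt_id t).smul_const v).const_add P
      rwa [one_smul] at h
    exact (hd (P + t • v)).hasFDerivAt.comp_hasDerivAt t e1
  have hmono : StrictMono (fun t : ℝ => fderiv ℝ G (P + t • v) v) := by
    apply strictMono_of_deriv_pos
    intro t
    rw [(hder t).deriv]
    exact hpos _ _ hv
  have h3 := hmono (zero_lt_one' ℝ)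
  simp only [zero_smul, add_zero, one_smul] at h3
  have h4 : P + v = Q := by simp [v]
  rw [h4, h2] at h3
  exact lt_irrefl _ h3

/-- if the third coordinate tends to infinity then `surf G` is proper -/
theorem proper_of_height {X : ℝ × ℝ → E3}
    (h : Tendsto (fun P => X P 2) (cocompact (ℝ × ℝ)) atTop) :
    Tendsto X (cocompact (ℝ × ℝ)) (cocompact E3) := by
  rw [← Metric.cobounded_eq_cocompact (α := E3), ← tendsto_norm_atTop_iff_cobounded]
  refine tendsto_atTop_mono ?_ h
  intro P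
  exact (Real.le_norm_self _).trans (PiLp.norm_apply_le (X P) 2)

end Pool.Agent.TH365.Mil
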