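import Pool.Agent.TH179.SD.Geo

set_option autoImplicit false

open scoped ContDiff Topology
open Set

noncomputable section

namespace Pool.Agent.TH365.J1649
open Pool.Agent.TH179.SD

/-! ## maps which are smooth with positive Jacobian at a point -/

def Nice (f : V → V) (q : V) : Prop := ContDiffAt ℝ ∞ f q ∧ 0 < (fderiv ℝ f q).det

theorem Nice.comp {f g : V → V} {q : V} (hg : Nice g (f q)) (hf : Nice f q) :
    Nice (fun x => g (f x)) q := by
  refine ⟨hg.1.comp q hf.1, ?_⟩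
  have h1 : DifferentiableAt ℝ f q := hf.1.differentiableAt (by simp)
  have h2 : DifferentiableAt ℝ g (f q) := hg.1.differentiableAt (by simp)
  have h3 : fderiv ℝ (fun x => g (f x)) q = (fderiv ℝ g (f q)).comp (fderiv ℝ f q) :=
    fderiv_fun_comp q h2 h1
  rw [h3]
  have h4 : ((fderiv ℝ g (f q)).comp (fderiv ℝ f q)).det =
      (fderiv ℝ g (f q)).det * (fderiv ℝ f q).det := by
    unfold ContinuousLinearMap.det
    rw [← LinearMap.det_comp]
    rfl
  rw [h4]
  exact mul_pos hg.2 hf.2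

theorem nice_id (q : V) : Nice (fun x => x) q := by
  refine ⟨contDiffAt_id, ?_⟩
  have : fderiv ℝ (fun x : V => x) q = ContinuousLinearMap.id ℝ V := fderiv_fun_id
  rw [this]
  have : (ContinuousLinearMap.id ℝ V).det = 1 := LinearMap.det_id
  rw [this]
  exact one_pos

theorem nice_hol {f g : V → V} {q : V} (hf : ContDiffAt ℂ ∞ f q)
    (hg : DifferentiableAt ℂ g (f q)) (hgf : ∀ᶠ x in 𝓝 q, g (f x) = x) : Nice f q := by
  refine ⟨hf.restrict_scalars ℝ, ?_⟩
  have h1 : DifferentiableAt ℂ f q := hf.differentiableAt (by simp)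
  have h2 : HasFDerivAt f ((fderiv ℂ f q).restrictScalars ℝ) q :=
    h1.hasFDerivAt.restrictScalars ℝ
  rw [h2.fderiv]
  have h3 : (fderiv ℂ g (f q)).comp (fderiv ℂ f q) = ContinuousLinearMap.id ℂ V := by
    have h4 : HasFDerivAt (fun x => g (f x)) ((fderiv ℂ g (f q)).comp (fderiv ℂ f q)) q :=
      hg.hasFDerivAt.comp q h1.hasFDerivAt
    have h5 : HasFDerivAt (fun x => g (f x)) (ContinuousLinearMap.id ℂ V) q :=
      (hasFDerivAt_id q).congr_of_eventuallyEq hgf
    exact h4.unique h5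
  have h4 : (fderiv ℂ g (f q)).det * (fderiv ℂ f q).det = 1 := by
    have h5 : ((fderiv ℂ g (f q)).comp (fderiv ℂ f q)).det =
        (fderiv ℂ g (f q)).det * (fderiv ℂ f q).det := by
      unfold ContinuousLinearMap.det
      rw [← LinearMap.det_comp]
      rfl
    rw [← h5, h3]
    exact LinearMap.det_id
  have h5 : (fderiv ℂ f q).det ≠ 0 := right_ne_zero_of_mul (by rw [h4]; exact one_ne_zero)
  have h6 : ((fderiv ℂ f q).restrictScalars ℝ).det = Complex.normSq (fderiv ℂ f q).det := by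
    unfold ContinuousLinearMap.det
    have h7 := LinearMap.det_restrictScalars (R := ℝ) (S := ℂ) (f := ((fderiv ℂ f q) : V →ₗ[ℂ] V))
    rw [Algebra.norm_complex_apply] at h7
    exact h7
  rw [h6]
  exact Complex.normSq_pos.2 h5

/-! ## holomorphic charts -/

theorem bu_bd (j : Fin 4) {v : V} (h : v j ≠ 0) : bu j (bd j v) = v := by
  funext i
  unfold bu bd
  by_cases hi : i = j
  · simp [hi]
  · simp [hi, h]

theorem bd_bu (j : Fin 4) {w : V} (h : w j ≠ 0) : bd j (bu j w) = w := by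
  funext i
  unfold bu bd
  by_cases hi : i = j
  · simp [hi]
  · simp only [hi, if_false, if_true]
    field_simp

theorem bd_apply (j : Fin 4) (v : V) : bd j v j = v j := by simp [bd]

theorem bu_apply (j : Fin 4) (v : V) : bu j v j = v j := by simp [bu]

theorem contDiff_bd (j : Fin 4) : ContDiff ℂ ∞ (bd j) := by
  rw [contDiff_pi]
  intro i
  unfold bd
  by_cases hi : i = j
  · simp only [hi, if_true]; fun_prop
  · simp only [hi, if_false]; fun_prop

theorem contDiffAt_bu (j : Fin 4) {w : V} (h : w j ≠ 0) : ContDiffAt ℂ ∞ (bu j) w := by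
  rw [contDiffAt_pi]
  intro i
  unfold bu
  by_cases hi : i = j
  · simp only [hi, if_true]; fun_prop
  · simp only [hi, if_false]
    exact ContDiffAt.div (by fun_prop) (by fun_prop) h

theorem ev_ne (j : Fin 4) {w : V} (h : w j ≠ 0) : ∀ᶠ x : V in 𝓝 w, x j ≠ 0 :=
  (continuous_apply j).continuousAt.eventually_ne h

theorem nice_bd (j : Fin 4) {v : V} (h : v j ≠ 0) : Nice (bd j) v := by
  refine nice_hol (g := bu j) (contDiff_bd j).contDiffAt ?_ ?_
  · exact (contDiffAt_bu j (by rwa [bd_apply])).differentiableAt (by simp)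
  · filter_upwards [ev_ne j h] with x hx
    exact bu_bd j hx

theorem nice_bu (j : Fin 4) {w : V} (h : w j ≠ 0) : Nice (bu j) w := by
  refine nice_hol (g := bd j) (contDiffAt_bu j h) ?_ ?_
  · exact (contDiff_bd j).contDiffAt.differentiableAt (by simp)
  · filter_upwards [ev_ne j h] with x hx
    exact bd_bu j hx

/-- transition between charts of the blow-up -/
def bb (j k : Fin 4) (v : V) : V :=
  fun i => if i = k then v j * v k else if i = j then (v k)⁻¹ else v i / v k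

theorem bb_apply (j k : Fin 4) (hjk : j ≠ k) (v : V) : bb j k v j = (v k)⁻¹ := by
  simp [bb, hjk]

theorem bb_bb (j k : Fin 4) (hjk : j ≠ k) {v : V} (h : v k ≠ 0) : bb k j (bb j k v) = v := by
  funext i
  unfold bb
  by_cases hi : i = j
  · subst hi
    simp only [if_true, hjk, if_false]
    field_simp
  · by_cases hk : i = k
    · subst hk
      simp [hi, hjk]
    · simp only [hi, hk, hjk, if_false, if_true]
      field_simp

theorem contDiffAt_bb (j k : Fin 4) {w : V} (h : w k ≠ 0) : ContDiffAt ℂ ∞ (bb j k) w := by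
  rw [contDiffAt_pi]
  intro i
  unfold bb
  by_cases hi : i = k
  · simp only [hi, if_true]; fun_prop
  · by_cases hj : i = j
    · simp only [hi, hj, if_false, if_true]
      split_ifs
      · fun_prop
      · exact ContDiffAt.inv (by fun_prop) h
    · simp only [hi, hj, if_false]
      exact ContDiffAt.div (by fun_prop) (by fun_prop) h

theorem nice_bb (j k : Fin 4) (hjk : j ≠ k) {v : V} (h : v k ≠ 0) : Nice (bb j k) v := by
  refine nice_hol (g := bb k j) (contDiffAt_bb j k h) ?_ ?_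
  · refine (contDiffAt_bb k j ?_).differentiableAt (by simp)
    rw [bb_apply j k hjk]
    exact inv_ne_zero h
  · filter_upwards [ev_ne k h] with x hx
    exact bb_bb j k hjk hx

/-! ## the inversions -/

def cre (i : Fin 4) : V →L[ℝ] ℝ :=
  Complex.reCLM.comp (ContinuousLinearMap.proj (R := ℝ) (φ := fun _ : Fin 4 => ℂ) i)

def cim (i : Fin 4) : V →L[ℝ] ℝ :=
  Complex.imCLM.comp (ContinuousLinearMap.proj (R := ℝ) (φ := fun _ : Fin 4 => ℂ) i)

@[simp] theorem cre_apply (i : Fin 4) (v : V) : cre i v = (v i).re := rfl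
@[simp] theorem cim_apply (i : Fin 4) (v : V) : cim i v = (v i).im := rfl

def eR (i : Fin 4) : V := Pi.single i 1
def eI (i : Fin 4) : V := Pi.single i Complex.I

/-- the linear parts -/
def RA : V →L[ℝ] V :=
  (cre 0).smulRight (-eR 0) + (cim 0).smulRight (eI 0) + (cre 1).smulRight (eR 1)

def PB : V →L[ℝ] V :=
  (cim 1).smulRight (eI 1) + (cre 2).smulRight (eR 2) + (cim 2).smulRight (eI 2) +
    (cre 3).smulRight (eR 3) + (cim 3).smulRight (eI 3)

def PA : V →L[ℝ] V :=
  (cre 0).smulRight (eR 0) + (cim 0).smulRight (eI 0) + (cre 1).smulRight (eR 1)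

def RB : V →L[ℝ] V :=
  (cim 1).smulRight (eI 1) + (cre 2).smulRight (-eR 2) + (cim 2).smulRight (eI 2) +
    (cre 3).smulRight (eR 3) + (cim 3).smulRight (eI 3)

theorem invA_eq (w : V) : invA w = PB w + (na w)⁻¹ • RA w := by
  unfold invA
  simp only [div_eq_mul_inv]
  generalize (na w)⁻¹ = r
  funext i
  fin_cases i <;> apply Complex.ext <;>
    simp [PB, RA, eR, eI, mul_comm]

theorem invB_eq (w : V) : invB w = PA w + (nb w)⁻¹ • RB w := by
  unfold invB
  simp only [div_eq_mul_inv]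
  generalize (nb w)⁻¹ = r
  funext i
  fin_cases i <;> apply Complex.ext <;>
    simp [PA, RB, eR, eI, mul_comm]

def dna (w : V) : V →L[ℝ] ℝ :=
  (2 * (w 0).re) • cre 0 + (2 * (w 0).im) • cim 0 + (2 * (w 1).re) • cre 1

def dnb (w : V) : V →L[ℝ] ℝ :=
  (2 * (w 1).im) • cim 1 + (2 * (w 2).re) • cre 2 + (2 * (w 2).im) • cim 2 +
    (2 * (w 3).re) • cre 3 + (2 * (w 3).im) • cim 3

theorem hasFDerivAt_sq (f : V →L[ℝ] ℝ) (w : V) :
    HasFDerivAt (fun w => f w ^ 2) ((2 * f w) • f) w := by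
  have h := f.hasFDerivAt (x := w) |>.pow 2
  simpa using h

theorem hasFDerivAt_na (w : V) : HasFDerivAt na (dna w) w := by
  have h := ((hasFDerivAt_sq (cre 0) w).add (hasFDerivAt_sq (cim 0) w)).add
    (hasFDerivAt_sq (cre 1) w)
  exact h

theorem hasFDerivAt_nb (w : V) : HasFDerivAt nb (dnb w) w := by
  have h := ((((hasFDerivAt_sq (cim 1) w).add (hasFDerivAt_sq (cre 2) w)).add
    (hasFDerivAt_sq (cim 2) w)).add (hasFDerivAt_sq (cre 3) w)).add (hasFDerivAt_sq (cim 3) w)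
  exact h

theorem contDiff_na : ContDiff ℝ ∞ na := by
  have h : ContDiff ℝ ∞ (fun w : V => cre 0 w ^ 2 + cim 0 w ^ 2 + cre 1 w ^ 2) := by fun_prop
  exact h

theorem contDiff_nb : ContDiff ℝ ∞ nb := by
  have h : ContDiff ℝ ∞ (fun w : V => cim 1 w ^ 2 + cre 2 w ^ 2 + cim 2 w ^ 2 + cre 3 w ^ 2 +
    cim 3 w ^ 2) := by fun_prop
  exact h

theorem contDiffAt_invA {w : V} (h : na w ≠ 0) : ContDiffAt ℝ ∞ invA w := by
  have e : invA = fun w => PB w + (na w)⁻¹ • RA w := funext invA_eq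
  rw [e]
  exact PB.contDiff.contDiffAt.add ((contDiff_na.contDiffAt.inv h).smul RA.contDiff.contDiffAt)

theorem contDiffAt_invB {w : V} (h : nb w ≠ 0) : ContDiffAt ℝ ∞ invB w := by
  have e : invB = fun w => PA w + (nb w)⁻¹ • RB w := funext invB_eq
  rw [e]
  exact PA.contDiff.contDiffAt.add ((contDiff_nb.contDiffAt.inv h).smul RB.contDiff.contDiffAt)

theorem hasFDerivAt_invA {w : V} (h : na w ≠ 0) : HasFDerivAt invA
    (PB + ((na w)⁻¹ • RA + ((-(na w ^ 2)⁻¹) • dna w).smulRight (RA w))) w := by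
  have e : invA = fun w => PB w + (na w)⁻¹ • RA w := funext invA_eq
  rw [e]
  have h1 : HasFDerivAt (fun w => (na w)⁻¹) ((-(na w ^ 2)⁻¹) • dna w) w :=
    (hasDerivAt_inv h).comp_hasFDerivAt w (hasFDerivAt_na w)
  exact PB.hasFDerivAt.add (h1.smul RA.hasFDerivAt)

theorem hasFDerivAt_invB {w : V} (h : nb w ≠ 0) : HasFDerivAt invB
    (PA + ((nb w)⁻¹ • RB + ((-(nb w ^ 2)⁻¹) • dnb w).smulRight (RB w))) w := by
  have e : invB = fun w => PA w + (nb w)⁻¹ • RB w := funext invB_eq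
  rw [e]
  have h1 : HasFDerivAt (fun w => (nb w)⁻¹) ((-(nb w ^ 2)⁻¹) • dnb w) w :=
    (hasDerivAt_inv h).comp_hasFDerivAt w (hasFDerivAt_nb w)
  exact PA.hasFDerivAt.add (h1.smul RB.hasFDerivAt)

/-- scaling of one real coordinate -/
def sc (f : V →L[ℝ] ℝ) (e : V) (c : ℝ) : V →ₗ[ℝ] V :=
  LinearMap.transvection (f : V →ₗ[ℝ] ℝ) ((c - 1) • e)

theorem det_sc (f : V →L[ℝ] ℝ) (e : V) (c : ℝ) (h : f e = 1) : LinearMap.det (sc f e c) = c := by
  unfold sc
  rw [LinearMap.transvection.det]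
  simp [h]

theorem sc_apply (f : V →L[ℝ] ℝ) (e : V) (c : ℝ) (v : V) : sc f e c v = v + f v • (c - 1) • e := by
  unfold sc
  rw [LinearMap.transvection.apply]
  rfl

def tvA (w : V) : V →ₗ[ℝ] V :=
  LinearMap.transvection ((-(na w)⁻¹) • (dna w : V →ₗ[ℝ] ℝ)) (PA w)

def tvB (w : V) : V →ₗ[ℝ] V :=
  LinearMap.transvection ((-(nb w)⁻¹) • (dnb w : V →ₗ[ℝ] ℝ)) (PB w)

theorem det_tvA {w : V} (h : na w ≠ 0) : LinearMap.det (tvA w) = -1 := by
  unfold tvA
  rw [LinearMap.transvection.det]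
  have : dna w (PA w) = 2 * na w := by
    simp [dna, PA, na, eR, eI]
    ring
  simp only [LinearMap.smul_apply, ContinuousLinearMap.coe_coe, this, smul_eq_mul]
  field_simp
  norm_num

theorem det_tvB {w : V} (h : nb w ≠ 0) : LinearMap.det (tvB w) = -1 := by
  unfold tvB
  rw [LinearMap.transvection.det]
  have : dnb w (PB w) = 2 * nb w := by
    simp [dnb, PB, nb, eR, eI]
    ring
  simp only [LinearMap.smul_apply, ContinuousLinearMap.coe_coe, this, smul_eq_mul]
  field_simp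
  norm_num

theorem na_pos {w : V} (h : na w ≠ 0) : 0 < na w := by
  have : 0 ≤ na w := by unfold na; positivity
  exact lt_of_le_of_ne this (Ne.symm h)

theorem nb_pos {w : V} (h : nb w ≠ 0) : 0 < nb w := by
  have : 0 ≤ nb w := by unfold nb; positivity
  exact lt_of_le_of_ne this (Ne.symm h)

theorem nice_invA {w : V} (h : na w ≠ 0) : Nice invA w := by
  refine ⟨contDiffAt_invA h, ?_⟩
  rw [(hasFDerivAt_invA h).fderiv]
  have hpos := na_pos h
  have e : ((PB + ((na w)⁻¹ • RA + ((-(na w ^ 2)⁻¹) • dna w).smulRight (RA w)) : V →L[ℝ] V) :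
      V →ₗ[ℝ] V) =
      (sc (cre 0) (eR 0) (-(na w)⁻¹)) ∘ₗ (sc (cim 0) (eI 0) ((na w)⁻¹)) ∘ₗ
        (sc (cre 1) (eR 1) ((na w)⁻¹)) ∘ₗ tvA w := by
    apply LinearMap.ext
    intro v
    simp only [LinearMap.comp_apply, sc_apply]
    have ht : tvA w v = v + (-(na w)⁻¹ * dna w v) • PA w := by
      unfold tvA
      rw [LinearMap.transvection.apply]
      rfl
    rw [ht]
    have hl : ((PB + ((na w)⁻¹ • RA + ((-(na w ^ 2)⁻¹) • dna w).smulRight (RA w)) : V →L[ℝ] V) :
      V →ₗ[ℝ] V) v = PB v + ((na w)⁻¹ • RA v + (-(na w ^ 2)⁻¹ * dna w v) • RA w) := rfl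
    rw [hl]
    generalize dna w v = t
    rw [← inv_pow, pow_two]
    generalize (na w)⁻¹ = r
    funext i
    fin_cases i <;> apply Complex.ext <;>
      simp [PB, RA, PA, eR, eI] <;> ring
  unfold ContinuousLinearMap.det
  rw [e, LinearMap.det_comp, LinearMap.det_comp, LinearMap.det_comp, det_tvA h,
    det_sc _ _ _ (by simp [eR]), det_sc _ _ _ (by simp [eI]), det_sc _ _ _ (by simp [eR])]
  have : -(na w)⁻¹ * ((na w)⁻¹ * ((na w)⁻¹ * -1)) = (na w)⁻¹ ^ 3 := by ring
  rw [this]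
  positivity

theorem nice_invB {w : V} (h : nb w ≠ 0) : Nice invB w := by
  refine ⟨contDiffAt_invB h, ?_⟩
  rw [(hasFDerivAt_invB h).fderiv]
  have hpos := nb_pos h
  have e : ((PA + ((nb w)⁻¹ • RB + ((-(nb w ^ 2)⁻¹) • dnb w).smulRight (RB w)) : V →L[ℝ] V) :
      V →ₗ[ℝ] V) =
      (sc (cim 1) (eI 1) ((nb w)⁻¹)) ∘ₗ (sc (cre 2) (eR 2) (-(nb w)⁻¹)) ∘ₗ
        (sc (cim 2) (eI 2) ((nb w)⁻¹)) ∘ₗ (sc (cre 3) (eR 3) ((nb w)⁻¹)) ∘ₗ
        (sc (cim 3) (eI 3) ((nb w)⁻¹)) ∘ₗ tvB w := by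
    apply LinearMap.ext
    intro v
    simp only [LinearMap.comp_apply, sc_apply]
    have ht : tvB w v = v + (-(nb w)⁻¹ * dnb w v) • PB w := by
      unfold tvB
      rw [LinearMap.transvection.apply]
      rfl
    rw [ht]
    have hl : ((PA + ((nb w)⁻¹ • RB + ((-(nb w ^ 2)⁻¹) • dnb w).smulRight (RB w)) : V →L[ℝ] V) :
      V →ₗ[ℝ] V) v = PA v + ((nb w)⁻¹ • RB v + (-(nb w ^ 2)⁻¹ * dnb w v) • RB w) := rfl
    rw [hl]
    generalize dnb w v = t
    rw [← inv_pow, pow_two]
    generalize (nb w)⁻¹ = r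
    funext i
    fin_cases i <;> apply Complex.ext <;>
      simp [PB, RB, PA, eR, eI] <;> ring
  unfold ContinuousLinearMap.det
  rw [e, LinearMap.det_comp, LinearMap.det_comp, LinearMap.det_comp, LinearMap.det_comp,
    LinearMap.det_comp, det_tvB h,
    det_sc _ _ _ (by simp [eI]), det_sc _ _ _ (by simp [eR]), det_sc _ _ _ (by simp [eI]),
    det_sc _ _ _ (by simp [eR]), det_sc _ _ _ (by simp [eI])]
  have : (nb w)⁻¹ * (-(nb w)⁻¹ * ((nb w)⁻¹ * ((nb w)⁻¹ * ((nb w)⁻¹ * -1)))) = (nb w)⁻¹ ^ 5 := by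
    ring
  rw [this]
  positivity

theorem na_invA {w : V} (h : na w ≠ 0) : na (invA w) = (na w)⁻¹ := by
  have e : (w 0).re ^ 2 + (w 0).im ^ 2 + (w 1).re ^ 2 = na w := rfl
  change (-(w 0).re / na w) ^ 2 + ((w 0).im / na w) ^ 2 + ((w 1).re / na w) ^ 2 = _
  have e2 : (-(w 0).re / na w) ^ 2 + ((w 0).im / na w) ^ 2 + ((w 1).re / na w) ^ 2 =
      ((w 0).re ^ 2 + (w 0).im ^ 2 + (w 1).re ^ 2) * ((na w)⁻¹) ^ 2 := by
    generalize na w = n
    ring
  rw [e2, e]
  field_simp

theorem nb_invB {w : V} (h : nb w ≠ 0) : nb (invB w) = (nb w)⁻¹ := by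
  have e : (w 1).im ^ 2 + (w 2).re ^ 2 + (w 2).im ^ 2 + (w 3).re ^ 2 + (w 3).im ^ 2 = nb w := rfl
  change ((w 1).im / nb w) ^ 2 + (-(w 2).re / nb w) ^ 2 + ((w 2).im / nb w) ^ 2 +
    ((w 3).re / nb w) ^ 2 + ((w 3).im / nb w) ^ 2 = _
  have e2 : ((w 1).im / nb w) ^ 2 + (-(w 2).re / nb w) ^ 2 + ((w 2).im / nb w) ^ 2 +
      ((w 3).re / nb w) ^ 2 + ((w 3).im / nb w) ^ 2 =
      ((w 1).im ^ 2 + (w 2).re ^ 2 + (w 2).im ^ 2 + (w 3).re ^ 2 + (w 3).im ^ 2) *
        ((nb w)⁻¹) ^ 2 := by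
    generalize nb w = n
    ring
  rw [e2, e]
  field_simp

theorem nb_invA (w : V) : nb (invA w) = nb w := by
  simp [nb, invA]

theorem na_invB (w : V) : na (invB w) = na w := by
  simp [na, invB]

theorem invA_invA {w : V} (h : na w ≠ 0) : invA (invA w) = w := by
  have h1 := na_invA h
  unfold invA at h1 ⊢
  funext i
  fin_cases i <;> apply Complex.ext <;> simp [h1] <;> field_simp

theorem invB_invB {w : V} (h : nb w ≠ 0) : invB (invB w) = w := by
  have h1 := nb_invB h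
  unfold invB at h1 ⊢
  funext i
  fin_cases i <;> apply Complex.ext <;> simp [h1] <;> field_simp

theorem invA_invB (w : V) : invA (invB w) = invB (invA w) := by
  have h1 := nb_invA w
  have h2 := na_invB w
  unfold invA at h1 ⊢
  unfold invB at h2 ⊢
  funext i
  fin_cases i <;> apply Complex.ext <;> simp_all

/-! ## the passage to the `w` coordinates -/

theorem continuous_na : Continuous na := contDiff_na.continuous
theorem continuous_nb : Continuous nb := contDiff_nb.continuous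

theorem isOpen_na : IsOpen {q : V | na q ≠ 0} := isOpen_ne_fun continuous_na continuous_const
theorem isOpen_nb : IsOpen {q : V | nb q ≠ 0} := isOpen_ne_fun continuous_nb continuous_const
theorem isOpen_cd (j : Fin 4) : IsOpen {q : V | q j ≠ 0} :=
  isOpen_ne_fun (continuous_apply j) continuous_const

theorem isOpen_domW (c : Idx) : IsOpen (domW c) := by
  rcases c with j | c
  · exact isOpen_cd j
  · fin_cases c
    · exact isOpen_na
    · exact isOpen_nb
    · exact isOpen_na.inter isOpen_nb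

theorem isOpen_rngW (c : Idx) : IsOpen (rngW c) := by
  rcases c with j | c
  · exact isOpen_cd j
  · fin_cases c
    · exact isOpen_na
    · exact isOpen_nb
    · exact isOpen_na.inter isOpen_nb

theorem nice_AB {q : V} (h1 : na q ≠ 0) (h2 : nb q ≠ 0) : Nice (fun q => invA (invB q)) q :=
  Nice.comp (nice_invA (by rwa [na_invB])) (nice_invB h2)

theorem AB_AB {q : V} (h1 : na q ≠ 0) (h2 : nb q ≠ 0) : invA (invB (invA (invB q))) = q := by
  rw [← invA_invB (invB q), invB_invB h2, invA_invA h1]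

theorem na_AB {q : V} (h1 : na q ≠ 0) : na (invA (invB q)) ≠ 0 := by
  rw [na_invA (by rwa [na_invB]), na_invB]
  exact inv_ne_zero h1

theorem nb_AB {q : V} (h2 : nb q ≠ 0) : nb (invA (invB q)) ≠ 0 := by
  rw [nb_invA, nb_invB h2]
  exact inv_ne_zero h2

theorem toW_prop (c : Idx) {q : V} (h : q ∈ domW c) :
    Nice (toW c) q ∧ toW c q ∈ rngW c ∧ fromW c (toW c q) = q := by
  rcases c with j | c
  · refine ⟨nice_bd j h, ?_, bu_bd j h⟩
    change bd j q j ≠ 0
    rw [bd_apply]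
    exact h
  · fin_cases c
    · refine ⟨nice_invA h, ?_, invA_invA h⟩
      change na (invA q) ≠ 0
      rw [na_invA h]
      exact inv_ne_zero h
    · refine ⟨nice_invB h, ?_, invB_invB h⟩
      change nb (invB q) ≠ 0
      rw [nb_invB h]
      exact inv_ne_zero h
    · exact ⟨nice_AB h.1 h.2, ⟨na_AB h.1, nb_AB h.2⟩, AB_AB h.1 h.2⟩

theorem fromW_prop (c : Idx) {w : V} (h : w ∈ rngW c) :
    Nice (fromW c) w ∧ fromW c w ∈ domW c ∧ toW c (fromW c w) = w := by
  rcases c with j | c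
  · refine ⟨nice_bu j h, ?_, bd_bu j h⟩
    change bu j w j ≠ 0
    rw [bu_apply]
    exact h
  · fin_cases c
    · refine ⟨nice_invA h, ?_, invA_invA h⟩
      change na (invA w) ≠ 0
      rw [na_invA h]
      exact inv_ne_zero h
    · refine ⟨nice_invB h, ?_, invB_invB h⟩
      change nb (invB w) ≠ 0
      rw [nb_invB h]
      exact inv_ne_zero h
    · exact ⟨nice_AB h.1 h.2, ⟨na_AB h.1, nb_AB h.2⟩, AB_AB h.1 h.2⟩

/-- a point which lies in all charts -/
def w0 : V := fun _ => ⟨1, 1⟩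

theorem w0_mem (c : Idx) : w0 ∈ rngW c := by
  have h1 : na w0 ≠ 0 := by norm_num [na, w0]
  have h2 : nb w0 ≠ 0 := by norm_num [nb, w0]
  rcases c with j | c
  · change w0 j ≠ 0
    intro h
    have := congrArg Complex.re h
    simp [w0] at this
  · fin_cases c
    · exact h1
    · exact h2
    · exact ⟨h1, h2⟩

/-- the full statement for a pair of charts -/
def Core (c d : Idx) : Prop :=
  IsOpen (O c d) ∧ (O c d).Nonempty ∧ (∀ q ∈ O c d, Nice (tr c d) q) ∧
    (∀ q ∈ O c d, tr c d q ∈ O d c ∧ tr d c (tr c d q) = q)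

theorem core_mixed (c d : Idx) (h1 : O c d = {q | q ∈ domW c ∧ toW c q ∈ rngW d})
    (h2 : O d c = {q | q ∈ domW d ∧ toW d q ∈ rngW c})
    (h3 : tr c d = fun q => fromW d (toW c q)) (h4 : tr d c = fun q => fromW c (toW d q)) :
    Core c d := by
  unfold Core
  rw [h1, h2, h3, h4]
  refine ⟨?_, ?_, ?_, ?_⟩
  · have hc : ContinuousOn (toW c) (domW c) := fun q hq =>
      (toW_prop c hq).1.1.continuousAt.continuousWithinAt
    exact hc.isOpen_inter_preimage (isOpen_domW c) (isOpen_rngW d)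
  · refine ⟨fromW c w0, (fromW_prop c (w0_mem c)).2.1, ?_⟩
    rw [(fromW_prop c (w0_mem c)).2.2]
    exact w0_mem d
  · rintro q ⟨hq1, hq2⟩
    exact Nice.comp (fromW_prop d hq2).1 (toW_prop c hq1).1
  · rintro q ⟨hq1, hq2⟩
    have e1 := fromW_prop d hq2
    have e2 := toW_prop c hq1
    refine ⟨⟨e1.2.1, ?_⟩, ?_⟩
    · change toW d (fromW d (toW c q)) ∈ rngW c
      rw [e1.2.2]
      exact e2.2.1
    · change fromW c (toW d (fromW d (toW c q))) = q
      rw [e1.2.2]
      exact e2.2.2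

theorem core_diag (c d : Idx) (h1 : O c d = univ) (h2 : O d c = univ) (h3 : tr c d = id)
    (h4 : tr d c = id) : Core c d := by
  unfold Core
  rw [h1, h2, h3, h4]
  exact ⟨isOpen_univ, univ_nonempty, fun q _ => nice_id q, fun q _ => ⟨mem_univ _, rfl⟩⟩

theorem core_A (c d : Idx) (h1 : O c d = {q | na q ≠ 0}) (h2 : O d c = {q | na q ≠ 0})
    (h3 : tr c d = invA) (h4 : tr d c = invA) : Core c d := by
  unfold Core
  rw [h1, h2, h3, h4]
  refine ⟨isOpen_na, ⟨w0, w0_mem (Sum.inr 0)⟩, fun q hq => nice_invA hq, fun q hq => ⟨?_,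
    invA_invA hq⟩⟩
  exact (toW_prop (Sum.inr 0) hq).2.1

theorem core_B (c d : Idx) (h1 : O c d = {q | nb q ≠ 0}) (h2 : O d c = {q | nb q ≠ 0})
    (h3 : tr c d = invB) (h4 : tr d c = invB) : Core c d := by
  unfold Core
  rw [h1, h2, h3, h4]
  refine ⟨isOpen_nb, ⟨w0, w0_mem (Sum.inr 1)⟩, fun q hq => nice_invB hq, fun q hq => ⟨?_,
    invB_invB hq⟩⟩
  exact (toW_prop (Sum.inr 1) hq).2.1

theorem core_AB (c d : Idx) (h1 : O c d = {q | na q ≠ 0 ∧ nb q ≠ 0})
    (h2 : O d c = {q | na q ≠ 0 ∧ nb q ≠ 0})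
    (h3 : tr c d = fun q => invA (invB q)) (h4 : tr d c = fun q => invA (invB q)) :
    Core c d := by
  unfold Core
  rw [h1, h2, h3, h4]
  refine ⟨isOpen_na.inter isOpen_nb, ⟨w0, w0_mem (Sum.inr 2)⟩,
    fun q hq => nice_AB hq.1 hq.2, fun q hq => ⟨?_, AB_AB hq.1 hq.2⟩⟩
  exact (toW_prop (Sum.inr 2) hq).2.1

theorem core (c d : Idx) : Core c d := by
  rcases c with j | c <;> rcases d with k | d
  · by_cases hjk : j = k
    · subst hjk
      exact core_diag _ _ (by simp [O]) (by simp [O]) (by simp [tr]) (by simp [tr])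
    · have hkj : ¬ k = j := fun h => hjk h.symm
      have h1 : O (Sum.inl j) (Sum.inl k) = {v | v k ≠ 0} := by simp [O, hjk]
      have h2 : O (Sum.inl k) (Sum.inl j) = {v | v j ≠ 0} := by simp [O, hkj]
      have h3 : tr (Sum.inl j) (Sum.inl k) = bb j k := by
        simp only [tr, hjk, if_false]
        rfl
      have h4 : tr (Sum.inl k) (Sum.inl j) = bb k j := by
        simp only [tr, hkj, if_false]
        rfl
      unfold Core
      rw [h1, h2, h3, h4]
      refine ⟨isOpen_cd k, ⟨w0, w0_mem (Sum.inl k)⟩, fun q hq => nice_bb j k hjk hq,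
        fun q hq => ⟨?_, bb_bb j k hjk hq⟩⟩
      change bb j k q j ≠ 0
      rw [bb_apply j k hjk]
      exact inv_ne_zero hq
  · exact core_mixed _ _ rfl rfl rfl rfl
  · exact core_mixed _ _ rfl rfl rfl rfl
  · fin_cases c <;> fin_cases d
    · exact core_diag _ _ (by simp [O]) (by simp [O]) (by simp [tr]) (by simp [tr])
    · exact core_AB _ _ (by simp [O]) (by simp [O]) (by simp [tr]) (by simp [tr])
    · exact core_B _ _ (by simp [O]) (by simp [O]) (by simp [tr]) (by simp [tr])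
    · exact core_AB _ _ (by simp [O]) (by simp [O]) (by simp [tr]) (by simp [tr])
    · exact core_diag _ _ (by simp [O]) (by simp [O]) (by simp [tr]) (by simp [tr])
    · exact core_A _ _ (by simp [O]) (by simp [O]) (by simp [tr]) (by simp [tr])
    · exact core_B _ _ (by simp [O]) (by simp [O]) (by simp [tr]) (by simp [tr])
    · exact core_A _ _ (by simp [O]) (by simp [O]) (by simp [tr]) (by simp [tr])
    · exact core_diag _ _ (by simp [O]) (by simp [O]) (by simp [tr]) (by simp [tr])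

theorem taskSmooth : TaskSmooth := by
  intro c d
  obtain ⟨h1, h2, h3, h4⟩ := core c d
  exact ⟨h1, h2, fun q hq => (h3 q hq).1.contDiffWithinAt, h4, fun q hq => (h3 q hq).2⟩

end Pool.Agent.TH365.J1649
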