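import Pool.Agent.TH281.PC.Core

/-!
# Sup-convolution of a concave coercive subsolution

Lemma F of the proof for `MP_a627f3_an`.
-/

open MeasureTheory Set Metric Filter Topology
open scoped InnerProductSpace
namespace Pool.Agent.TH365.J149
open Pool.Agent.TH281.PC
variable {d : ℕ}

/-- maximisers exist -/
lemma exists_max {O : OpData d} {δ : ℝ} {P : Set (V d)} (hP : IsOpen P) (hne : P.Nonempty)
    {w : V d → ℝ} (hw : Cls O δ P w) {κ : ℝ} (hκ : 0 < κ) (x : V d) :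
    ∃ Y ∈ P, ∀ y ∈ P, w y - ‖x - y‖ ^ 2 / (2 * κ) ≤ w Y - ‖x - Y‖ ^ 2 / (2 * κ) := by
  obtain ⟨y1, hy1⟩ := hne
  set f : V d → ℝ := fun y => w y - ‖x - y‖ ^ 2 / (2 * κ) with hf
  obtain ⟨K, hKP, hK, hKw⟩ := hw.coer (-(f y1))
  have hfw : ∀ y, f y ≤ w y := by
    intro y
    have : 0 ≤ ‖x - y‖ ^ 2 / (2 * κ) := by positivity
    simp only [hf]
    linarith
  have hwc : ContinuousOn w P := hw.conc.continuousOn hP
  have hfc : ContinuousOn f K := by
    apply (hwc.mono hKP).sub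
    apply Continuous.continuousOn
    fun_prop
  have hy1K : y1 ∈ K := hKw y1 hy1 (by rw [neg_neg]; exact hfw y1)
  obtain ⟨Y, hYK, hY⟩ := hK.exists_isMaxOn ⟨y1, hy1K⟩ hfc
  refine ⟨Y, hKP hYK, ?_⟩
  intro y hy
  change f y ≤ f Y
  by_cases h : f y1 ≤ w y
  · exact hY (hKw y hy (by rw [neg_neg]; exact h))
  · push Not at h
    exact ((hfw y).trans h.le).trans (hY hy1K)

/-- sup-convolution of a concave coercive subsolution -/
theorem moreau {O : OpData d} {δ : ℝ} {P : Set (V d)} (hP : IsOpen P) (hne : P.Nonempty)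
    {w : V d → ℝ} (hw : Cls O δ P w) (hδ : 0 ≤ δ) {κ : ℝ} (hκ : 0 < κ) :
    ∃ (W : V d → ℝ) (g : V d → V d), ConcaveOn ℝ univ W ∧ (∀ x, HasGradientAt W (g x) x) ∧
      (∃ L : NNReal, LipschitzWith L g) ∧ Sub O δ univ W ∧ (∀ x ∈ P, w x ≤ W x) ∧
      (∀ x ∈ P, ∃ y ∈ P, W x ≤ w y ∧ ‖x - y‖ ^ 2 ≤ 2 * κ * (w y - w x)) := by
  choose Y hYP hYmax using exists_max hP hne hw hκ
  set W : V d → ℝ := fun x => w (Y x) - ‖x - Y x‖ ^ 2 / (2 * κ) with hW
  set g : V d → V d := fun x => κ⁻¹ • (Y x - x) with hg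
  have hWle : ∀ x, W x ≤ w (Y x) := by
    intro x
    have : 0 ≤ ‖x - Y x‖ ^ 2 / (2 * κ) := by positivity
    simp only [hW]
    linarith
  have hconc : ConcaveOn ℝ univ W := by
    refine ⟨convex_univ, ?_⟩
    intro x1 _ x2 _ a b ha hb hab
    have hy : a • Y x1 + b • Y x2 ∈ P := hw.conc.1 (hYP x1) (hYP x2) ha hb hab
    have h1 := hYmax (a • x1 + b • x2) _ hy
    have h2 := hw.conc.2 (hYP x1) (hYP x2) ha hb hab
    have h3 : ‖a • x1 + b • x2 - (a • Y x1 + b • Y x2)‖ ^ 2 ≤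
        a * ‖x1 - Y x1‖ ^ 2 + b * ‖x2 - Y x2‖ ^ 2 := by
      have e1 : a • x1 + b • x2 - (a • Y x1 + b • Y x2) =
          a • (x1 - Y x1) + b • (x2 - Y x2) := by
        simp only [smul_sub]; abel
      rw [e1]
      have h4 : ‖a • (x1 - Y x1) + b • (x2 - Y x2)‖ ≤ a * ‖x1 - Y x1‖ + b * ‖x2 - Y x2‖ := by
        refine (norm_add_le _ _).trans ?_
        rw [norm_smul, norm_smul, Real.norm_eq_abs, Real.norm_eq_abs, abs_of_nonneg ha,
          abs_of_nonneg hb]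
      have h5 : ‖a • (x1 - Y x1) + b • (x2 - Y x2)‖ ^ 2 ≤
          (a * ‖x1 - Y x1‖ + b * ‖x2 - Y x2‖) ^ 2 := by gcongr
      refine h5.trans ?_
      have hb' : b = 1 - a := by linarith
      subst hb'
      nlinarith [mul_nonneg ha hb, sq_nonneg (‖x1 - Y x1‖ - ‖x2 - Y x2‖),
        mul_nonneg (mul_nonneg ha hb) (sq_nonneg (‖x1 - Y x1‖ - ‖x2 - Y x2‖))]
    have h6 : ‖a • x1 + b • x2 - (a • Y x1 + b • Y x2)‖ ^ 2 / (2 * κ) ≤
        a * (‖x1 - Y x1‖ ^ 2 / (2 * κ)) + b * (‖x2 - Y x2‖ ^ 2 / (2 * κ)) := by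
      calc _ ≤ (a * ‖x1 - Y x1‖ ^ 2 + b * ‖x2 - Y x2‖ ^ 2) / (2 * κ) := by gcongr
        _ = _ := by ring
    simp only [smul_eq_mul] at h2 ⊢
    change a * W x1 + b * W x2 ≤ W (a • x1 + b • x2)
    calc a * W x1 + b * W x2 = a * w (Y x1) + b * w (Y x2) -
          (a * (‖x1 - Y x1‖ ^ 2 / (2 * κ)) + b * (‖x2 - Y x2‖ ^ 2 / (2 * κ))) := by
          simp only [hW]; ring
      _ ≤ w (a • Y x1 + b • Y x2) -
          ‖a • x1 + b • x2 - (a • Y x1 + b • Y x2)‖ ^ 2 / (2 * κ) := by linarith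
      _ ≤ _ := h1
  -- lower bound
  have hlow : ∀ x v, W x + ⟪g x, v⟫_ℝ - ‖v‖ ^ 2 / (2 * κ) ≤ W (x + v) := by
    intro x v
    have h1 := hYmax (x + v) (Y x) (hYP x)
    have e1 : x + v - Y x = v - (Y x - x) := by abel
    have e2 : ‖x + v - Y x‖ ^ 2 = ‖v‖ ^ 2 - 2 * ⟪v, Y x - x⟫_ℝ + ‖Y x - x‖ ^ 2 := by
      rw [e1]
      exact norm_sub_sq_real v (Y x - x)
    have e3 : ⟪g x, v⟫_ℝ = κ⁻¹ * ⟪v, Y x - x⟫_ℝ := by
      simp only [hg, inner_smul_left, conj_trivial]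
      rw [real_inner_comm]
    have e4 : W x + ⟪g x, v⟫_ℝ - ‖v‖ ^ 2 / (2 * κ) =
        w (Y x) - ‖x + v - Y x‖ ^ 2 / (2 * κ) := by
      rw [e2, e3]
      simp only [hW]
      rw [norm_sub_rev x (Y x)]
      field_simp
      ring
    rw [e4]
    exact h1
  -- upper bound
  have hup : ∀ x v, W (x + v) ≤ W x + ⟪g x, v⟫_ℝ := by
    intro x v
    apply le_of_forall_pos_le_add
    intro ε hε
    set t : ℝ := ε / (‖v‖ ^ 2 / (2 * κ) + 1) with ht
    have ht0 : 0 < t := by positivity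
    have ht1 : t * (‖v‖ ^ 2 / (2 * κ)) ≤ ε := by
      rw [ht, div_mul_eq_mul_div, div_le_iff₀ (by positivity)]
      nlinarith
    have ha0 : 0 ≤ 1 / (1 + t) := by positivity
    have hb0 : 0 ≤ t / (1 + t) := by positivity
    have hab0 : 1 / (1 + t) + t / (1 + t) = 1 := by field_simp
    have h1 := hconc.2 (mem_univ (x - t • v)) (mem_univ (x + v)) ha0 hb0 hab0
    have e1 : (1 / (1 + t)) • (x - t • v) + (t / (1 + t)) • (x + v) = x := by
      have : (1 / (1 + t)) • (x - t • v) + (t / (1 + t)) • (x + v) =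
          (1 / (1 + t) + t / (1 + t)) • x + (t / (1 + t) - 1 / (1 + t) * t) • v := by
        simp only [smul_sub, smul_add, add_smul, sub_smul, smul_smul]
        abel
      rw [this]
      have e2 : 1 / (1 + t) + t / (1 + t) = 1 := by field_simp
      have e3 : t / (1 + t) - 1 / (1 + t) * t = 0 := by ring
      rw [e2, e3, one_smul, zero_smul, add_zero]
    rw [e1, smul_eq_mul, smul_eq_mul] at h1
    have h2 := hlow x (-(t • v))
    rw [← sub_eq_add_neg, inner_neg_right, inner_smul_right, norm_neg, norm_smul, mul_pow,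
      Real.norm_eq_abs, sq_abs] at h2
    have h3 : W (x - t • v) + t * W (x + v) ≤ (1 + t) * W x := by
      have h4 : (1 + t) * (1 / (1 + t) * W (x - t • v) + t / (1 + t) * W (x + v)) ≤
          (1 + t) * W x := by gcongr
      have e4 : (1 + t) * (1 / (1 + t) * W (x - t • v) + t / (1 + t) * W (x + v)) =
          W (x - t • v) + t * W (x + v) := by field_simp
      rwa [e4] at h4
    have h5 : t * W (x + v) ≤ t * (W x + ⟪g x, v⟫_ℝ + t * (‖v‖ ^ 2 / (2 * κ))) := by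
      have e5 : t * (W x + ⟪g x, v⟫_ℝ + t * (‖v‖ ^ 2 / (2 * κ))) =
          t * W x + t * ⟪g x, v⟫_ℝ + t ^ 2 * ‖v‖ ^ 2 / (2 * κ) := by ring
      rw [e5]
      linarith
    have h6 := le_of_mul_le_mul_left h5 ht0
    linarith
  have hgrad : ∀ x, HasGradientAt W (g x) x := by
    intro x
    rw [hasGradientAt_iff_isLittleO]
    have h1 : (fun x' => W x' - W x - ⟪g x, x' - x⟫_ℝ) =O[𝓝 x] fun x' => ‖x' - x‖ ^ 2 := by
      apply Asymptotics.IsBigO.of_bound (1 / (2 * κ))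
      filter_upwards with x'
      have h2 := hlow x (x' - x)
      have h3 := hup x (x' - x)
      rw [add_sub_cancel] at h2 h3
      rw [Real.norm_eq_abs, Real.norm_eq_abs, abs_of_nonneg (sq_nonneg ‖x' - x‖), abs_le]
      have e1 : 1 / (2 * κ) * ‖x' - x‖ ^ 2 = ‖x' - x‖ ^ 2 / (2 * κ) := by ring
      rw [e1]
      have h4 : 0 ≤ ‖x' - x‖ ^ 2 / (2 * κ) := by positivity
      constructor <;> linarith
    have h2 : (fun x' => ‖x' - x‖ ^ 2) =o[𝓝 x] fun x' => x' - x := by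
      have h3 : Tendsto (fun x' : V d => x' - x) (𝓝 x) (𝓝 0) := by
        have : Continuous fun x' : V d => x' - x := by fun_prop
        simpa using this.tendsto x
      have h4 : (fun v : V d => ‖v‖ ^ 2) =o[𝓝 0] fun v => v := by
        have := Asymptotics.isLittleO_norm_pow_id (E' := V d) (n := 2) (by norm_num)
        exact this
      exact h4.comp_tendsto h3
    exact h1.trans_isLittleO h2
  refine ⟨W, g, hconc, hgrad, ?_, ?_, ?_, ?_⟩
  · refine ⟨⟨κ⁻¹, by positivity⟩, ?_⟩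
    apply LipschitzWith.of_dist_le_mul
    intro x' x
    rw [dist_eq_norm, dist_eq_norm]
    change ‖g x' - g x‖ ≤ κ⁻¹ * ‖x' - x‖
    set D := g x' - g x with hD
    have h1 := hlow x' (κ • D)
    have h2 := hup x (x' - x + κ • D)
    have h3 := hlow x (x' - x)
    rw [add_sub_cancel] at h3
    have e1 : x + (x' - x + κ • D) = x' + κ • D := by abel
    rw [e1, inner_add_right] at h2
    have h4 : ⟪D, κ • D⟫_ℝ ≤ (‖κ • D‖ ^ 2 + ‖x' - x‖ ^ 2) / (2 * κ) := by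
      have e2 : ⟪D, κ • D⟫_ℝ = ⟪g x', κ • D⟫_ℝ - ⟪g x, κ • D⟫_ℝ := by
        rw [hD, inner_sub_left]
      have e3 : (‖κ • D‖ ^ 2 + ‖x' - x‖ ^ 2) / (2 * κ) =
          ‖κ • D‖ ^ 2 / (2 * κ) + ‖x' - x‖ ^ 2 / (2 * κ) := by ring
      rw [e2, e3]
      linarith
    rw [inner_smul_right, real_inner_self_eq_norm_sq, norm_smul, Real.norm_eq_abs,
      abs_of_pos hκ, le_div_iff₀ (by positivity)] at h4
    have h5 : (κ * ‖D‖) ^ 2 ≤ ‖x' - x‖ ^ 2 := by nlinarith
    have h6 : κ * ‖D‖ ≤ ‖x' - x‖ := le_of_sq_le_sq h5 (norm_nonneg _)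
    rw [inv_mul_eq_div, le_div_iff₀ hκ]
    linarith
  · intro x _ ξ H hH
    have h1 := hw.sub (Y x) (hYP x) ξ H ?_
    · have := hWle x
      nlinarith
    · have hcont : Tendsto (fun z : V d => x + (z - Y x)) (𝓝 (Y x)) (𝓝 x) := by
        have : Continuous fun z : V d => x + (z - Y x) := by fun_prop
        simpa using this.tendsto (Y x)
      filter_upwards [hcont.eventually hH, hP.mem_nhds (hYP x)] with z hz hzP
      have h2 := hYmax (x + (z - Y x)) z hzP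
      have e1 : x + (z - Y x) - z = x - Y x := by abel
      have e2 : x + (z - Y x) - x = z - Y x := by abel
      rw [e1] at h2
      rw [e2] at hz
      have h3 : w z - ‖x - Y x‖ ^ 2 / (2 * κ) ≤ W (x + (z - Y x)) := h2
      have h4 : W x = w (Y x) - ‖x - Y x‖ ^ 2 / (2 * κ) := rfl
      linarith
  · intro x hx
    have := hYmax x x hx
    simp only [sub_self, norm_zero] at this
    have h4 : W x = w (Y x) - ‖x - Y x‖ ^ 2 / (2 * κ) := rfl
    rw [h4]
    simpa using this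
  · intro x hx
    refine ⟨Y x, hYP x, hWle x, ?_⟩
    have := hYmax x x hx
    simp only [sub_self, norm_zero] at this
    have h5 : ‖x - Y x‖ ^ 2 / (2 * κ) ≤ w (Y x) - w x := by
      have : w x ≤ w (Y x) - ‖x - Y x‖ ^ 2 / (2 * κ) := by simpa using this
      linarith
    rw [div_le_iff₀ (by positivity)] at h5
    linarith

/-- local uniform convergence of sup-convolutions -/
theorem moreau_close {O : OpData d} {δ : ℝ} {P : Set (V d)} (hP : IsOpen P) (hne : P.Nonempty)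
    {w : V d → ℝ} (hw : Cls O δ P w) {K : Set (V d)} (hK : IsCompact K) (hKP : K ⊆ P)
    {η : ℝ} (hη : 0 < η) :
    ∃ κ : ℝ, 0 < κ ∧ ∀ x ∈ K, ∀ y ∈ P, ‖x - y‖ ^ 2 ≤ 2 * κ * (w y - w x) → w y ≤ w x + η := by
  rcases K.eq_empty_or_nonempty with rfl | hKne
  · exact ⟨1, one_pos, by simp⟩
  have hwc : ContinuousOn w P := hw.conc.continuousOn hP
  obtain ⟨x0, hx0, hmin⟩ := hK.exists_isMinOn hKne (hwc.mono hKP)
  obtain ⟨K', hK'P, hK', hK'w⟩ := hw.coer (-(w x0))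
  have hx0K' : x0 ∈ K' := hK'w x0 (hKP hx0) (by rw [neg_neg])
  obtain ⟨y0, hy0, hmax⟩ := hK'.exists_isMaxOn ⟨x0, hx0K'⟩ (hwc.mono hK'P)
  have huc : UniformContinuousOn w (K ∪ K') :=
    (hK.union hK').uniformContinuousOn_of_continuous (hwc.mono (union_subset hKP hK'P))
  rw [Metric.uniformContinuousOn_iff] at huc
  obtain ⟨ρ, hρ, huc⟩ := huc η hη
  have hge : w x0 ≤ w y0 := hmax hx0K'
  refine ⟨ρ ^ 2 / (4 * (w y0 - w x0 + 1)), by
    have : 0 < w y0 - w x0 + 1 := by linarith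
    positivity, ?_⟩
  intro x hx y hy hxy
  have hpos : 0 < w y0 - w x0 + 1 := by linarith
  have h1 : 0 ≤ 2 * (ρ ^ 2 / (4 * (w y0 - w x0 + 1))) * (w y - w x) :=
    le_trans (by positivity) hxy
  have h2 : 0 ≤ w y - w x := by
    by_contra hcon
    push Not at hcon
    have : 2 * (ρ ^ 2 / (4 * (w y0 - w x0 + 1))) * (w y - w x) < 0 :=
      mul_neg_of_pos_of_neg (by positivity) hcon
    linarith
  have hxmin : w x0 ≤ w x := hmin hx
  have hyK' : y ∈ K' := hK'w y hy (by rw [neg_neg]; linarith)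
  have hymax : w y ≤ w y0 := hmax hyK'
  have h3 : ‖x - y‖ ^ 2 < ρ ^ 2 := by
    calc ‖x - y‖ ^ 2 ≤ 2 * (ρ ^ 2 / (4 * (w y0 - w x0 + 1))) * (w y - w x) := hxy
      _ ≤ 2 * (ρ ^ 2 / (4 * (w y0 - w x0 + 1))) * (w y0 - w x0 + 1) := by
          gcongr
          linarith
      _ = ρ ^ 2 / 2 := by field_simp; ring
      _ < ρ ^ 2 := by
          have : 0 < ρ ^ 2 := by positivity
          linarith
  have h4 : dist x y < ρ := by
    rw [dist_eq_norm]
    exact lt_of_pow_lt_pow_left₀ 2 hρ.le h3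
  have h5 := huc x (Or.inl hx) y (Or.inr hyK') h4
  rw [Real.dist_eq, abs_lt] at h5
  linarith [h5.1]

end Pool.Agent.TH365.J149
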