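import Pool.Agent.TH281.PC.Op

/-!
# Integration by parts for locally Lipschitz fields and the field inequality

Lemma L of the proof for `MP_a627f3_an`.
-/

open MeasureTheory Set Metric Filter Topology
open scoped InnerProductSpace
namespace Pool.Agent.TH365.J158
open Pool.Agent.TH281.PC
variable {d : ℕ}

theorem LocLip.ae_differentiable {F : Type*} [NormedAddCommGroup F] [NormedSpace ℝ F]
    [FiniteDimensional ℝ F] {P : Set (V d)} (hP : IsOpen P) {X : V d → F} (hX : LocLip P X) :
    ∀ᵐ x, x ∈ P → DifferentiableAt ℝ X x := by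
  rw [ae_iff]
  apply measure_null_of_locally_null
  intro x hx
  simp only [Classical.not_imp, mem_ofPred_eq] at hx
  obtain ⟨r, hr, hrP⟩ := Metric.isOpen_iff.1 hP x hx.1
  have hsub : closedBall x (r / 2) ⊆ P :=
    (closedBall_subset_ball (by linarith)).trans hrP
  obtain ⟨L, hL⟩ := hX _ hsub (isCompact_closedBall x (r / 2))
  have h1 := (hL.mono ball_subset_closedBall).ae_differentiableWithinAt_of_mem (μ := volume)
  refine ⟨ball x (r / 2) ∩ {y | ¬ (y ∈ P → DifferentiableAt ℝ X y)}, ?_, ?_⟩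
  · rw [inter_comm]
    exact inter_mem_nhdsWithin _ (ball_mem_nhds x (by linarith))
  · rw [ae_iff] at h1
    refine measure_mono_null ?_ h1
    rintro y ⟨hy1, hy2⟩
    simp only [Classical.not_imp, mem_ofPred_eq] at hy2 ⊢
    exact ⟨hy1, fun h => hy2.2 (h.differentiableAt (isOpen_ball.mem_nhds hy1))⟩

/-- bounded measurable functions vanishing off a compact set are integrable -/
lemma integrable_of_bdd {f : V d → ℝ} (hm : Measurable f) {K : Set (V d)} (hK : IsCompact K)
    (h0 : ∀ x, x ∉ K → f x = 0) {C : ℝ} (hC : ∀ x ∈ K, |f x| ≤ C) : Integrable f := by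
  have hs : Function.support f ⊆ K := by
    intro x hx
    by_contra h
    exact hx (h0 x h)
  rw [← integrableOn_iff_integrable_of_support_subset hs]
  refine IntegrableOn.of_bound hK.measure_lt_top hm.aestronglyMeasurable C ?_
  filter_upwards [ae_restrict_mem hK.measurableSet] with x hx
  exact hC x hx

lemma sum_trL (D : V d →L[ℝ] V d) :
    trL d D = ∑ i : Fin d, (D (EuclideanSpace.single i (1 : ℝ))) i := by
  rw [trL_eq_sum (EuclideanSpace.basisFun (Fin d) ℝ)]
  refine Finset.sum_congr rfl fun i _ => ?_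
  rw [EuclideanSpace.basisFun_apply, EuclideanSpace.inner_single_right]
  simp

lemma sum_coord (A : V d →L[ℝ] ℝ) (v : V d) :
    A v = ∑ i : Fin d, A (EuclideanSpace.single i (1 : ℝ)) * v i := by
  have h1 : v = ∑ i : Fin d, v i • EuclideanSpace.single i (1 : ℝ) := by
    have := (EuclideanSpace.basisFun (Fin d) ℝ).sum_repr v
    simp only [EuclideanSpace.basisFun_repr, EuclideanSpace.basisFun_apply] at this
    exact this.symm
  conv_lhs => rw [h1]
  rw [map_sum]
  refine Finset.sum_congr rfl fun i _ => ?_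
  rw [map_smul, smul_eq_mul, mul_comm]

/-- integration by parts for globally Lipschitz vector fields -/
lemma ibp_global {X : V d → V d} {M : NNReal} (hX : LipschitzWith M X) {φ : V d → ℝ}
    {L : NNReal} (hφ : LipschitzWith L φ) (hc : HasCompactSupport φ) :
    Integrable (fun x => φ x * trL d (fderiv ℝ X x)) ∧
      Integrable (fun x => fderiv ℝ φ x (X x)) ∧
      ∫ x, φ x * trL d (fderiv ℝ X x) = -∫ x, fderiv ℝ φ x (X x) := by
  set K := tsupport φ with hK
  have hKc : IsCompact K := hc
  have hφm : Measurable φ := hφ.continuous.measurable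
  have hφ0 : ∀ x, x ∉ K → φ x = 0 := fun x hx => image_eq_zero_of_notMem_tsupport hx
  have hdφ0 : ∀ x, x ∉ K → fderiv ℝ φ x = 0 := by
    intro x hx
    by_contra h
    exact hx (support_fderiv_subset ℝ (f := φ) h)
  obtain ⟨C, hC⟩ : ∃ C, ∀ x, ‖φ x‖ ≤ C := hc.exists_bound_of_continuous hφ.continuous
  have hC' : ∀ x, |φ x| ≤ C := hC
  have hC0 : 0 ≤ C := (norm_nonneg _).trans (hC 0)
  obtain ⟨C2, hC2⟩ : ∃ C2, ∀ x ∈ K, ‖X x‖ ≤ C2 :=
    hKc.exists_bound_of_continuousOn hX.continuous.continuousOn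
  have hdX : ∀ x, ‖fderiv ℝ X x‖ ≤ M := fun x => norm_fderiv_le_of_lipschitz ℝ hX
  have hdφ : ∀ x, ‖fderiv ℝ φ x‖ ≤ L := fun x => norm_fderiv_le_of_lipschitz ℝ hφ
  have hsingle : ∀ i : Fin d, ‖(EuclideanSpace.single i (1 : ℝ) : V d)‖ = 1 := by
    intro i; simp
  set a : Fin d → V d → ℝ := fun i x =>
    (fderiv ℝ X x (EuclideanSpace.single i (1 : ℝ))) i * φ x with ha
  set b : Fin d → V d → ℝ := fun i x =>
    fderiv ℝ φ x (EuclideanSpace.single i (1 : ℝ)) * X x i with hb
  have hproj : ∀ i : Fin d, Measurable fun v : V d => v i := by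
    intro i
    have : Continuous fun v : V d => v i := by fun_prop
    exact this.measurable
  have hai : ∀ i, Integrable (a i) := by
    intro i
    refine integrable_of_bdd (C := M * C) ?_ hKc ?_ ?_
    · exact ((hproj i).comp (measurable_fderiv_apply_const ℝ X _)).mul hφm
    · intro x hx
      simp only [ha]
      rw [hφ0 x hx, mul_zero]
    · intro x _
      simp only [ha]
      rw [abs_mul]
      have h1 : |(fderiv ℝ X x (EuclideanSpace.single i (1 : ℝ))) i| ≤ M := by
        have h2 : ‖(fderiv ℝ X x (EuclideanSpace.single i (1 : ℝ))) i‖ ≤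
            ‖fderiv ℝ X x (EuclideanSpace.single i (1 : ℝ))‖ := PiLp.norm_apply_le _ _
        have h3 := (fderiv ℝ X x).le_opNorm (EuclideanSpace.single i (1 : ℝ))
        rw [hsingle, mul_one] at h3
        exact h2.trans (h3.trans (hdX x))
      have := hC' x
      gcongr
  have hbi : ∀ i, Integrable (b i) := by
    intro i
    refine integrable_of_bdd (C := L * C2) ?_ hKc ?_ ?_
    · exact (measurable_fderiv_apply_const ℝ φ _).mul ((hproj i).comp hX.continuous.measurable)
    · intro x hx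
      simp only [hb]
      rw [hdφ0 x hx]
      simp
    · intro x hx
      simp only [hb]
      rw [abs_mul]
      have h1 : |fderiv ℝ φ x (EuclideanSpace.single i (1 : ℝ))| ≤ L := by
        have h3 := (fderiv ℝ φ x).le_opNorm (EuclideanSpace.single i (1 : ℝ))
        rw [hsingle, mul_one] at h3
        exact h3.trans (hdφ x)
      have h4 : |X x i| ≤ C2 := (PiLp.norm_apply_le (X x) i).trans (hC2 x hx)
      gcongr
  have e1 : (fun x => φ x * trL d (fderiv ℝ X x)) = fun x => ∑ i, a i x := by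
    funext x
    rw [sum_trL, Finset.mul_sum]
    exact Finset.sum_congr rfl fun i _ => mul_comm _ _
  have e2 : (fun x => fderiv ℝ φ x (X x)) = fun x => ∑ i, b i x := by
    funext x
    exact sum_coord _ _
  rw [e1, e2]
  refine ⟨integrable_finsetSum _ fun i _ => hai i, integrable_finsetSum _ fun i _ => hbi i, ?_⟩
  rw [integral_finsetSum _ fun i _ => hai i, integral_finsetSum _ fun i _ => hbi i,
    ← Finset.sum_neg_distrib]
  refine Finset.sum_congr rfl fun i _ => ?_
  have hXi : LipschitzWith M fun x => X x i := by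
    apply LipschitzWith.of_dist_le_mul
    intro x y
    refine le_trans ?_ (hX.dist_le_mul x y)
    rw [dist_eq_norm, dist_eq_norm]
    exact PiLp.norm_apply_le (X x - X y) i
  have key := hXi.integral_lineDeriv_mul_eq (μ := volume) hφ hc
    (EuclideanSpace.single i (1 : ℝ))
  have h1 : ∫ x, a i x = ∫ x, lineDeriv ℝ (fun x => X x i) x (EuclideanSpace.single i (1 : ℝ)) *
      φ x := by
    apply integral_congr_ae
    filter_upwards [hX.ae_differentiableAt (μ := volume)] with x hx
    simp only [ha]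
    congr 1
    have h2 : HasFDerivAt (fun x => X x i)
        ((EuclideanSpace.proj i : V d →L[ℝ] ℝ).comp (fderiv ℝ X x)) x :=
      (EuclideanSpace.proj i : V d →L[ℝ] ℝ).hasFDerivAt.comp x hx.hasFDerivAt
    rw [(h2.hasLineDerivAt _).lineDeriv]
    rfl
  have h2 : ∫ x, b i x = -∫ x, lineDeriv ℝ φ x (-(EuclideanSpace.single i (1 : ℝ))) * X x i := by
    rw [← integral_neg]
    apply integral_congr_ae
    filter_upwards [hφ.ae_differentiableAt (μ := volume)] with x hx
    simp only [hb]
    rw [hx.lineDeriv_eq_fderiv, map_neg]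
    ring
  rw [h1, h2, neg_neg]
  exact key

/-- integration by parts for locally Lipschitz vector fields -/
theorem ibp {P : Set (V d)} (hP : IsOpen P) {X : V d → V d} (hX : LocLip P X) {φ : V d → ℝ}
    {L : NNReal} (hφ : LipschitzWith L φ) (hc : HasCompactSupport φ) (hs : tsupport φ ⊆ P) :
    Integrable (fun x => φ x * trL d (fderiv ℝ X x)) ∧
      Integrable (fun x => fderiv ℝ φ x (X x)) ∧
      ∫ x, φ x * trL d (fderiv ℝ X x) = -∫ x, fderiv ℝ φ x (X x) := by
  obtain ⟨ρ, hρ, hρP⟩ := IsCompact.exists_cthickening_subset_open hc.isCompact hP hs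
  obtain ⟨M, hM⟩ := hX _ hρP hc.isCompact.cthickening
  obtain ⟨X', hX', hEq⟩ := hM.extend_finite_dimension
  have hloc : ∀ x ∈ tsupport φ, X =ᶠ[𝓝 x] X' := by
    intro x hx
    have h1 : thickening ρ (tsupport φ) ∈ 𝓝 x :=
      isOpen_thickening.mem_nhds (self_subset_thickening hρ _ hx)
    filter_upwards [h1] with y hy
    exact hEq (thickening_subset_cthickening _ _ hy)
  have h := ibp_global hX' hφ hc
  have e1 : (fun x => φ x * trL d (fderiv ℝ X x)) = fun x => φ x * trL d (fderiv ℝ X' x) := by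
    funext x
    by_cases hx : x ∈ tsupport φ
    · rw [(hloc x hx).fderiv_eq]
    · rw [image_eq_zero_of_notMem_tsupport hx, zero_mul, zero_mul]
  have e2 : (fun x => fderiv ℝ φ x (X x)) = fun x => fderiv ℝ φ x (X' x) := by
    funext x
    by_cases hx : x ∈ tsupport φ
    · rw [(hloc x hx).eq_of_nhds]
    · have : fderiv ℝ φ x = 0 := by
        by_contra h
        exact hx (support_fderiv_subset ℝ (f := φ) h)
      rw [this]
      simp
  rw [e1, e2]
  exact h

/-- a vector field gives a lower bound for the `q`-energy -/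
theorem field_ineq {q : ℝ} (hq : 1 < q) {P : Set (V d)} (hP : IsOpen P) {F : V d → V d}
    (hF : LocLip P F) {φ : V d → ℝ} {L : NNReal} (hφ : LipschitzWith L φ)
    (hc : HasCompactSupport φ) (hs : tsupport φ ⊆ P) {G : V d → ℝ}
    (hint : Integrable (fun x => G x * |φ x| ^ q))
    (hG : ∀ᵐ x, x ∈ P → φ x ≠ 0 →
      G x ≤ -trL d (fderiv ℝ F x) - (q - 1) * ‖F x‖ ^ (q / (q - 1))) :
    ∫ x, G x * |φ x| ^ q ≤ ∫ x, ‖fderiv ℝ φ x‖ ^ q := by
  have hq0 : 0 < q := by linarith
  have hq1 : 0 < q - 1 := by linarith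
  obtain ⟨C, hC⟩ : ∃ C, ∀ x, ‖φ x‖ ≤ C := hc.exists_bound_of_continuous hφ.continuous
  have hC0 : 0 ≤ C := (norm_nonneg _).trans (hC 0)
  set ψ : V d → ℝ := fun x => |φ x| ^ q with hψ
  -- `ψ` is Lipschitz
  have hpow : LipschitzOnWith (Real.toNNReal (q * C ^ (q - 1))) (fun t : ℝ => t ^ q)
      (Icc 0 C) := by
    apply Convex.lipschitzOnWith_of_nnnorm_hasDerivWithin_le (convex_Icc 0 C)
      (f' := fun t => q * t ^ (q - 1))
    · intro t _
      exact (Real.hasDerivAt_rpow_const (Or.inr hq.le)).hasDerivWithinAt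
    · intro t ht
      rw [← NNReal.coe_le_coe, coe_nnnorm, Real.coe_toNNReal _ (by positivity),
        Real.norm_eq_abs, abs_of_nonneg (by have := ht.1; positivity)]
      gcongr
      · exact ht.1
      · exact ht.2
  have hψL : LipschitzWith (Real.toNNReal (q * C ^ (q - 1)) * L) ψ := by
    apply LipschitzWith.of_dist_le_mul
    intro x y
    have h1 := hpow.dist_le_mul |φ x| ⟨abs_nonneg _, hC x⟩ |φ y| ⟨abs_nonneg _, hC y⟩
    have h2 : dist |φ x| |φ y| ≤ dist (φ x) (φ y) := by
      rw [Real.dist_eq, Real.dist_eq]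
      exact abs_abs_sub_abs_le _ _
    have h3 := hφ.dist_le_mul x y
    rw [NNReal.coe_mul, mul_assoc]
    calc dist (ψ x) (ψ y) ≤ _ := h1
      _ ≤ _ := by gcongr; exact h2.trans h3
  have hψt : tsupport ψ ⊆ tsupport φ := by
    apply closure_mono
    intro x hx
    intro h
    apply hx
    simp only [hψ]
    rw [h, abs_zero, Real.zero_rpow hq0.ne']
  have hψc : HasCompactSupport ψ := hc.of_isClosed_subset (isClosed_tsupport _) hψt
  obtain ⟨i1, i2, i3⟩ := ibp hP hF hψL hψc (hψt.trans hs)
  -- integrability of the energy density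
  have hdφ : ∀ x, ‖fderiv ℝ φ x‖ ≤ L := fun x => norm_fderiv_le_of_lipschitz ℝ hφ
  have i4 : Integrable (fun x => ‖fderiv ℝ φ x‖ ^ q) := by
    refine integrable_of_bdd (C := (L : ℝ) ^ q) ?_ hc.isCompact ?_ ?_
    · exact (measurable_fderiv ℝ φ).norm.pow_const q
    · intro x hx
      have : fderiv ℝ φ x = 0 := by
        by_contra h
        exact hx (support_fderiv_subset ℝ (f := φ) h)
      rw [this, norm_zero, Real.zero_rpow hq0.ne']
    · intro x _
      rw [abs_of_nonneg (by positivity)]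
      exact Real.rpow_le_rpow (norm_nonneg _) (hdφ x) hq0.le
  -- pointwise inequality
  have hpt : ∀ᵐ x, G x * |φ x| ^ q + (ψ x * trL d (fderiv ℝ F x) + fderiv ℝ ψ x (F x)) ≤
      ‖fderiv ℝ φ x‖ ^ q := by
    filter_upwards [hG, hφ.ae_differentiableAt (μ := volume)] with x hx hd
    have hdψ : HasFDerivAt ψ ((q * |φ x| ^ (q - 2) * φ x) • fderiv ℝ φ x) x :=
      (hasDerivAt_abs_rpow (φ x) hq).comp_hasFDerivAt x hd.hasFDerivAt
    rw [hdψ.fderiv]
    by_cases h0 : φ x = 0
    · simp only [hψ]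
      rw [h0, abs_zero, Real.zero_rpow hq0.ne']
      simp only [mul_zero, zero_mul, zero_smul, add_zero, zero_apply]
      positivity
    · have hxP : x ∈ P := by
        apply hs
        apply subset_tsupport
        exact h0
      have h1 := hx hxP h0
      have hφpos : 0 < |φ x| := abs_pos.2 h0
      have hψpos : 0 < |φ x| ^ q := by positivity
      have h2 : G x * |φ x| ^ q ≤
          (-trL d (fderiv ℝ F x) - (q - 1) * ‖F x‖ ^ (q / (q - 1))) * |φ x| ^ q := by gcongr
      have h3 : ((q * |φ x| ^ (q - 2) * φ x) • fderiv ℝ φ x) (F x) ≤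
          q * |φ x| ^ (q - 1) * (‖fderiv ℝ φ x‖ * ‖F x‖) := by
        rw [smul_apply, smul_eq_mul]
        have h4 : (q * |φ x| ^ (q - 2) * φ x) * (fderiv ℝ φ x (F x)) ≤
            |(q * |φ x| ^ (q - 2) * φ x) * (fderiv ℝ φ x (F x))| := le_abs_self _
        refine h4.trans ?_
        rw [abs_mul, abs_mul, abs_mul, abs_of_pos hq0, abs_of_pos (by positivity :
          0 < |φ x| ^ (q - 2))]
        have e1 : q * |φ x| ^ (q - 2) * |φ x| = q * |φ x| ^ (q - 1) := by
          rw [mul_assoc, ← Real.rpow_add_one hφpos.ne']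
          congr 2
          ring
        rw [e1]
        have h5 : |fderiv ℝ φ x (F x)| ≤ ‖fderiv ℝ φ x‖ * ‖F x‖ := (fderiv ℝ φ x).le_opNorm _
        gcongr
      have hconj : q.HolderConjugate (q / (q - 1)) := Real.HolderConjugate.conjExponent hq
      have h6 := Real.young_inequality_of_nonneg (norm_nonneg (fderiv ℝ φ x))
        (by positivity : 0 ≤ |φ x| ^ (q - 1) * ‖F x‖) hconj
      have e2 : (|φ x| ^ (q - 1) * ‖F x‖) ^ (q / (q - 1)) =
          |φ x| ^ q * ‖F x‖ ^ (q / (q - 1)) := by
        rw [Real.mul_rpow (by positivity) (norm_nonneg _), ← Real.rpow_mul hφpos.le]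
        congr 2
        field_simp
      rw [e2] at h6
      have h7 : q * |φ x| ^ (q - 1) * (‖fderiv ℝ φ x‖ * ‖F x‖) ≤
          ‖fderiv ℝ φ x‖ ^ q + (q - 1) * (|φ x| ^ q * ‖F x‖ ^ (q / (q - 1))) := by
        calc q * |φ x| ^ (q - 1) * (‖fderiv ℝ φ x‖ * ‖F x‖) =
              q * (‖fderiv ℝ φ x‖ * (|φ x| ^ (q - 1) * ‖F x‖)) := by ring
          _ ≤ q * (‖fderiv ℝ φ x‖ ^ q / q +
                |φ x| ^ q * ‖F x‖ ^ (q / (q - 1)) / (q / (q - 1))) := by gcongr
          _ = _ := by field_simp
      simp only [hψ]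
      linarith
  have i12 : Integrable (fun x => ψ x * trL d (fderiv ℝ F x) + fderiv ℝ ψ x (F x)) := i1.add i2
  have i0 : Integrable (fun x => G x * |φ x| ^ q +
      (ψ x * trL d (fderiv ℝ F x) + fderiv ℝ ψ x (F x))) := hint.add i12
  have hle := integral_mono_ae i0 i4 hpt
  rw [integral_add hint i12, integral_add i1 i2, i3] at hle
  linarith

end Pool.Agent.TH365.J158
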