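import Pool.Agent.TH281.PC.Op

/-!
# The tangential field

Lemma T of the proof for `MP_a627f3_an`.
-/

open MeasureTheory Set Metric Filter Topology
open scoped InnerProductSpace
namespace Pool.Agent.TH365.J194
open Pool.Agent.TH281.PC
variable {d : ℕ}

/-- tangential part of `-tr D` -/
noncomputable def tau (z : V d) (D : V d →L[ℝ] V d) : ℝ := (‖z‖ ^ 2)⁻¹ * ⟪D z, z⟫_ℝ - trL d D

/-- tangential field, orthogonal to `g y` -/
noncomputable def tanF (k : ℝ → ℝ) (x₁ : V d) (g : V d → V d) (y : V d) : V d :=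
  -(k (‖g y‖ ^ 2) • (‖g y‖ ^ 2 • (y - x₁) - ⟪g y, y - x₁⟫_ℝ • g y))

lemma trL_smulRight (φ : V d →L[ℝ] ℝ) (b : V d) : trL d (φ.smulRight b) = φ b := by
  have B := stdOrthonormalBasis ℝ (V d)
  rw [trL_eq_sum B]
  conv_rhs => rw [← B.sum_repr' b]
  rw [map_sum]
  refine Finset.sum_congr rfl fun i _ => ?_
  rw [ContinuousLinearMap.smulRight_apply, inner_smul_left, conj_trivial, map_smul, smul_eq_mul,
    mul_comm, real_inner_comm]

lemma trL_id : trL d (ContinuousLinearMap.id ℝ (V d)) = d := by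
  rw [trL_eq_sum (EuclideanSpace.basisFun (Fin d) ℝ)]
  have : ∀ i, ⟪(ContinuousLinearMap.id ℝ (V d)) (EuclideanSpace.basisFun (Fin d) ℝ i),
      EuclideanSpace.basisFun (Fin d) ℝ i⟫_ℝ = 1 := by
    intro i
    rw [ContinuousLinearMap.id_apply, real_inner_self_eq_norm_sq,
      (EuclideanSpace.basisFun (Fin d) ℝ).norm_eq_one i, one_pow]
  simp only [this]
  simp

/-- divergence of the tangential field -/
theorem trL_tanF {k : ℝ → ℝ} {k' : ℝ} {x₁ x : V d} {g : V d → V d} {D : V d →L[ℝ] V d}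
    (hg : HasFDerivAt g D x) (hsym : ∀ a b, ⟪D a, b⟫_ℝ = ⟪a, D b⟫_ℝ)
    (hk : HasDerivAt k k' (‖g x‖ ^ 2)) (hz : g x ≠ 0) :
    ∃ T : V d →L[ℝ] V d, HasFDerivAt (tanF k x₁ g) T x ∧
      -trL d T = k (‖g x‖ ^ 2) * ‖g x‖ ^ 2 * ((d : ℝ) - 1) +
        (2 * k' * ‖g x‖ ^ 2 + k (‖g x‖ ^ 2)) *
          ⟪D (g x), (x - x₁) - (⟪g x, x - x₁⟫_ℝ / ‖g x‖ ^ 2) • g x⟫_ℝ +
        k (‖g x‖ ^ 2) * ⟪g x, x - x₁⟫_ℝ * tau (g x) D := by
  have hX : HasFDerivAt (fun y => y - x₁) (ContinuousLinearMap.id ℝ (V d)) x :=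
    (hasFDerivAt_id x).sub_const x₁
  have hn : HasFDerivAt (fun y => ‖g y‖ ^ 2) ((2 : ℝ) • (innerSL ℝ (g x)).comp D) x := by
    have h0 := hg.norm_sq
    refine h0.congr_fderiv ?_
    ext1 e
    simp
  have hi : HasFDerivAt (fun y => ⟪g y, y - x₁⟫_ℝ)
      ((innerSL ℝ (x - x₁)).comp D + innerSL ℝ (g x)) x := by
    have h0 := hg.inner ℝ hX
    refine h0.congr_fderiv ?_
    ext1 e
    simp only [ContinuousLinearMap.comp_apply, fderivInnerCLM_apply, ContinuousLinearMap.prod_apply,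
      add_apply, innerSL_apply_apply, ContinuousLinearMap.id_apply]
    rw [real_inner_comm (x - x₁) (D e)]
    ring
  have hkn : HasFDerivAt (fun y => k (‖g y‖ ^ 2)) (k' • ((2 : ℝ) • (innerSL ℝ (g x)).comp D)) x :=
    hk.comp_hasFDerivAt x hn
  have hE := (hn.smul hX).sub (hi.smul hg)
  have hT := (hkn.smul hE).neg
  refine ⟨_, hT, ?_⟩
  have hu : 0 < ‖g x‖ ^ 2 := by positivity
  simp only [Pi.sub_apply, Pi.smul_apply']
  generalize x - x₁ = X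
  simp only [map_neg, map_add, map_sub, map_smul, trL_smulRight, trL_id, smul_eq_mul,
    ContinuousLinearMap.comp_apply, add_apply, smul_apply, innerSL_apply_apply,
    tau, inner_sub_right, inner_smul_right, neg_neg]
  rw [← hsym (g x) X, ← hsym (g x) (g x), real_inner_self_eq_norm_sq,
    real_inner_comm (D (g x)) X]
  field_simp
  ring

lemma two_le_trL {H : V d →L[ℝ] V d} (h : ∀ x, 0 ≤ ⟪H x, x⟫_ℝ) {e f : V d} (he : ‖e‖ = 1)
    (hf : ‖f‖ = 1) (hef : ⟪e, f⟫_ℝ = 0) : ⟪H e, e⟫_ℝ + ⟪H f, f⟫_ℝ ≤ trL d H := by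
  classical
  have hne : e ≠ f := by
    rintro rfl
    rw [real_inner_self_eq_norm_sq, he] at hef
    norm_num at hef
  have hfe : ⟪f, e⟫_ℝ = 0 := by rw [real_inner_comm]; exact hef
  have h1 : Orthonormal ℝ ((↑) : ({e, f} : Set (V d)) → V d) := by
    rw [orthonormal_iff_ite]
    rintro ⟨a, ha⟩ ⟨b, hb⟩
    rcases ha with rfl | ha <;> rcases hb with rfl | hb
    · simp [he]
    · rw [mem_singleton_iff] at hb
      subst hb
      simp only [hef]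
      rw [if_neg (fun h => hne (congrArg Subtype.val h))]
    · rw [mem_singleton_iff] at ha
      subst ha
      simp only [hfe]
      rw [if_neg (fun h => hne.symm (congrArg Subtype.val h))]
    · rw [mem_singleton_iff] at ha hb
      subst ha; subst hb
      simp [hf]
  obtain ⟨u, b, hu, hb⟩ := h1.exists_orthonormalBasis_extension
  have he' : e ∈ u := hu (by simp)
  have hf' : f ∈ u := hu (by simp)
  rw [trL_eq_sum b]
  have h2 : ⟪H e, e⟫_ℝ = ⟪H (b ⟨e, he'⟩), b ⟨e, he'⟩⟫_ℝ := by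
    rw [hb]
  have h3 : ⟪H f, f⟫_ℝ = ⟪H (b ⟨f, hf'⟩), b ⟨f, hf'⟩⟫_ℝ := by
    rw [hb]
  rw [h2, h3]
  have hne' : (⟨e, he'⟩ : u) ≠ ⟨f, hf'⟩ := by
    intro h
    exact hne (congrArg Subtype.val h)
  rw [← Finset.sum_pair hne' (f := fun i => ⟪H (b i), b i⟫_ℝ)]
  exact Finset.sum_le_sum_of_subset_of_nonneg (Finset.subset_univ _) fun i _ _ => h _

lemma tau_nonneg {z : V d} {D : V d →L[ℝ] V d} (hD : ∀ x, ⟪D x, x⟫_ℝ ≤ 0) : 0 ≤ tau z D := by
  have hD' : ∀ x, 0 ≤ ⟪(-D) x, x⟫_ℝ := fun x => by simpa using hD x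
  rcases eq_or_ne z 0 with rfl | hz
  · have := trL_nonneg hD'
    simpa [tau] using this
  · have hn : ‖z‖ ≠ 0 := norm_ne_zero_iff.2 hz
    have he : ‖(‖z‖⁻¹ • z)‖ = 1 := by
      rw [norm_smul, norm_inv, norm_norm, inv_mul_cancel₀ hn]
    have h3 := le_trL hD' he
    rw [map_smul, inner_smul_left, inner_smul_right, conj_trivial] at h3
    simp only [neg_apply, inner_neg_left, map_neg] at h3
    have e1 : (‖z‖ ^ 2)⁻¹ * ⟪D z, z⟫_ℝ = -(‖z‖⁻¹ * (‖z‖⁻¹ * -⟪D z, z⟫_ℝ)) := by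
      field_simp
    rw [tau, e1]
    linarith

/-- Cauchy-Schwarz with the tangential trace -/
theorem cs_tau {z Y : V d} {D : V d →L[ℝ] V d} (hsym : ∀ a b, ⟪D a, b⟫_ℝ = ⟪a, D b⟫_ℝ)
    (hD : ∀ x, ⟪D x, x⟫_ℝ ≤ 0) (hzY : ⟪z, Y⟫_ℝ = 0) :
    ⟪D z, Y⟫_ℝ ^ 2 ≤ (-⟪D z, z⟫_ℝ) * (tau z D * ‖Y‖ ^ 2) := by
  rcases eq_or_ne z 0 with rfl | hz
  · simp
  rcases eq_or_ne Y 0 with rfl | hY
  · simp
  have hD' : ∀ x, 0 ≤ ⟪(-D) x, x⟫_ℝ := fun x => by simpa using hD x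
  have hnz : ‖z‖ ≠ 0 := norm_ne_zero_iff.2 hz
  have hnY : ‖Y‖ ≠ 0 := norm_ne_zero_iff.2 hY
  have he : ‖(‖z‖⁻¹ • z)‖ = 1 := by
    rw [norm_smul, norm_inv, norm_norm, inv_mul_cancel₀ hnz]
  have hf : ‖(‖Y‖⁻¹ • Y)‖ = 1 := by
    rw [norm_smul, norm_inv, norm_norm, inv_mul_cancel₀ hnY]
  have hef : ⟪‖z‖⁻¹ • z, ‖Y‖⁻¹ • Y⟫_ℝ = 0 := by
    rw [inner_smul_left, inner_smul_right, hzY]
    simp
  have h1 := two_le_trL hD' he hf hef
  rw [map_smul, map_smul, inner_smul_left, inner_smul_right, inner_smul_left, inner_smul_right,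
    conj_trivial, conj_trivial] at h1
  simp only [neg_apply, inner_neg_left, map_neg] at h1
  have e1 : (‖z‖ ^ 2)⁻¹ * ⟪D z, z⟫_ℝ = -(‖z‖⁻¹ * (‖z‖⁻¹ * -⟪D z, z⟫_ℝ)) := by
    field_simp
  have h2 : -⟪D Y, Y⟫_ℝ ≤ tau z D * ‖Y‖ ^ 2 := by
    have e2 : ‖Y‖⁻¹ * (‖Y‖⁻¹ * -⟪D Y, Y⟫_ℝ) = -⟪D Y, Y⟫_ℝ / ‖Y‖ ^ 2 := by
      field_simp
    rw [e2] at h1
    have h3 : -⟪D Y, Y⟫_ℝ / ‖Y‖ ^ 2 ≤ tau z D := by
      rw [tau, e1]
      linarith
    rwa [div_le_iff₀ (by positivity)] at h3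
  have h4 : ⟪D z, Y⟫_ℝ ^ 2 ≤ (-⟪D z, z⟫_ℝ) * (-⟪D Y, Y⟫_ℝ) := by
    have hquad : ∀ t : ℝ, 0 ≤ (-⟪D Y, Y⟫_ℝ) * (t * t) + (-2 * ⟪D z, Y⟫_ℝ) * t +
        (-⟪D z, z⟫_ℝ) := by
      intro t
      have h5 := hD (z + t • Y)
      rw [map_add, map_smul, inner_add_left, inner_add_right, inner_add_right, inner_smul_left,
        inner_smul_left, inner_smul_right, inner_smul_right, conj_trivial,
        hsym Y z, real_inner_comm (D z) Y] at h5
      nlinarith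
    have := discrim_le_zero hquad
    unfold discrim at this
    nlinarith
  have h6 : 0 ≤ -⟪D z, z⟫_ℝ := by linarith [hD z]
  exact h4.trans (mul_le_mul_of_nonneg_left h2 h6)

/-- lower bound for the divergence of the tangential field, `k = χ ^ 2` -/
theorem tan_lower (hd : 2 ≤ d) {χ : ℝ → ℝ} {χ' : ℝ} {x₁ x : V d} {g : V d → V d}
    {D : V d →L[ℝ] V d} (hg : HasFDerivAt g D x) (hsym : ∀ a b, ⟪D a, b⟫_ℝ = ⟪a, D b⟫_ℝ)
    (hD : ∀ x, ⟪D x, x⟫_ℝ ≤ 0) (hχ : HasDerivAt χ χ' (‖g x‖ ^ 2)) {r₁ r₂ C D₀ N : ℝ}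
    (hr₁ : 0 < r₁) (h1 : r₁ ≤ ‖g x‖) (h2 : ‖g x‖ ≤ r₂)
    (hC : |4 * χ' * ‖g x‖ ^ 2 + χ (‖g x‖ ^ 2)| ≤ C) (hχ1 : |χ (‖g x‖ ^ 2)| ≤ 1)
    (hX : ‖x - x₁‖ ≤ D₀) (hN : -⟪D (g x), g x⟫_ℝ ≤ N) :
    ∃ T : V d →L[ℝ] V d, HasFDerivAt (tanF (fun u => χ u ^ 2) x₁ g) T x ∧
      (1 / 2) * χ (‖g x‖ ^ 2) ^ 2 * ‖g x‖ ^ 2 -
        (C ^ 2 * D₀ ^ 2 * N / (2 * r₁ ^ 2) + r₂ * D₀) * tau (g x) D ≤ -trL d T := by
  have hz : g x ≠ 0 := by
    intro h
    rw [h, norm_zero] at h1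
    linarith
  have hk : HasDerivAt (fun u => χ u ^ 2) (2 * χ (‖g x‖ ^ 2) * χ') (‖g x‖ ^ 2) := by
    have := hχ.pow 2
    refine this.congr_deriv ?_
    simp
  obtain ⟨T, hT, hTr⟩ := trL_tanF (x₁ := x₁) hg hsym hk hz
  refine ⟨T, hT, ?_⟩
  rw [hTr]
  set z := g x with hzdef
  set X := x - x₁ with hXdef
  set u := ‖z‖ ^ 2 with hu
  set c := χ u with hc
  set s := ⟪z, X⟫_ℝ with hs
  set w := ⟪D z, X - (s / u) • z⟫_ℝ with hw
  set τ := tau z D with hτ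
  have hu0 : 0 < u := by positivity
  have hτ0 : 0 ≤ τ := tau_nonneg hD
  have hperp : ⟪z, X - (s / u) • z⟫_ℝ = 0 := by
    rw [inner_sub_right, inner_smul_right, real_inner_self_eq_norm_sq, ← hu, ← hs]
    field_simp
    ring
  have hXτ : ‖X - (s / u) • z‖ ^ 2 ≤ D₀ ^ 2 := by
    have e1 : ‖X‖ ^ 2 = ‖X - (s / u) • z‖ ^ 2 + ‖(s / u) • z‖ ^ 2 := by
      have e2 : X = (X - (s / u) • z) + (s / u) • z := by abel
      conv_lhs => rw [e2]
      rw [norm_add_sq_real, inner_smul_right, real_inner_comm, hperp]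
      ring
    have e3 : ‖X‖ ^ 2 ≤ D₀ ^ 2 := by gcongr
    nlinarith [sq_nonneg ‖(s / u) • z‖]
  have hN0 : 0 ≤ N := by linarith [hD z]
  have hw2 : w ^ 2 ≤ N * (τ * D₀ ^ 2) := by
    have h3 := cs_tau hsym hD hperp
    refine h3.trans ?_
    have h4 : 0 ≤ -⟪D z, z⟫_ℝ := by linarith [hD z]
    gcongr
  have hr2 : 0 ≤ r₂ := (norm_nonneg _).trans h2
  have hD0 : 0 ≤ D₀ := (norm_nonneg _).trans hX
  -- middle term
  have hmid : -(1 / 2 * c ^ 2 * u + C ^ 2 * D₀ ^ 2 * N / (2 * r₁ ^ 2) * τ) ≤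
      (2 * (2 * c * χ') * u + c ^ 2) * w := by
    set m := 4 * χ' * u + c with hm
    have e1 : (2 * (2 * c * χ') * u + c ^ 2) * w = c * m * w := by rw [hm]; ring
    rw [e1]
    have h5 : 0 ≤ (c * u + m * w) ^ 2 / (2 * u) := by positivity
    have e2 : (c * u + m * w) ^ 2 / (2 * u) = 1 / 2 * c ^ 2 * u + c * m * w +
        m ^ 2 * w ^ 2 / (2 * u) := by
      field_simp
      ring
    have h6 : m ^ 2 * w ^ 2 / (2 * u) ≤ C ^ 2 * D₀ ^ 2 * N / (2 * r₁ ^ 2) * τ := by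
      have h7 : m ^ 2 ≤ C ^ 2 := by
        rw [← sq_abs m]
        gcongr
      have h8 : m ^ 2 * w ^ 2 ≤ C ^ 2 * (N * (τ * D₀ ^ 2)) := by gcongr
      have h9 : 2 * r₁ ^ 2 ≤ 2 * u := by rw [hu]; gcongr
      calc m ^ 2 * w ^ 2 / (2 * u) ≤ C ^ 2 * (N * (τ * D₀ ^ 2)) / (2 * r₁ ^ 2) := by gcongr
        _ = _ := by ring
    linarith
  have hlast : -(r₂ * D₀ * τ) ≤ c ^ 2 * s * τ := by
    have h7 : |c ^ 2 * s| ≤ r₂ * D₀ := by
      rw [abs_mul, abs_of_nonneg (sq_nonneg c)]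
      have h8 : c ^ 2 ≤ 1 := by
        rw [← sq_abs]
        have := abs_nonneg c
        nlinarith
      have h9 : |s| ≤ ‖z‖ * ‖X‖ := abs_real_inner_le_norm z X
      calc c ^ 2 * |s| ≤ 1 * (r₂ * D₀) := by
            gcongr
            exact h9.trans (by gcongr)
        _ = r₂ * D₀ := one_mul _
    have h8 := neg_le_of_abs_le h7
    nlinarith
  have hfirst : c ^ 2 * u ≤ c ^ 2 * u * ((d : ℝ) - 1) := by
    have h3 : (2 : ℝ) ≤ d := by exact_mod_cast hd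
    have h4 : 0 ≤ c ^ 2 * u := by positivity
    nlinarith
  linarith

/-- the product of a locally Lipschitz function and a compactly supported Lipschitz function -/
theorem LocLip.exists_lipschitz_mul {P : Set (V d)} (_hP : IsOpen P) {a : V d → ℝ}
    (ha : LocLip P a) {φ : V d → ℝ} {L : NNReal} (hφ : LipschitzWith L φ)
    (hc : HasCompactSupport φ) (hs : tsupport φ ⊆ P) :
    ∃ L' : NNReal, LipschitzWith L' (fun x => a x * φ x) := by
  obtain ⟨M, hM⟩ := ha _ hs hc.isCompact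
  obtain ⟨a', ha', hEq⟩ := hM.extend_real
  obtain ⟨C, hC⟩ : ∃ C, ∀ x, ‖φ x‖ ≤ C := hc.exists_bound_of_continuous hφ.continuous
  obtain ⟨C2, hC2⟩ : ∃ C2, ∀ x ∈ tsupport φ, ‖a' x‖ ≤ C2 :=
    hc.isCompact.exists_bound_of_continuousOn ha'.continuous.continuousOn
  have hC0 : 0 ≤ C := (norm_nonneg _).trans (hC 0)
  have e1 : (fun x => a x * φ x) = fun x => a' x * φ x := by
    funext x
    by_cases hx : x ∈ tsupport φ
    · rw [hEq hx]
    · rw [image_eq_zero_of_notMem_tsupport hx, mul_zero, mul_zero]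
  rw [e1]
  refine ⟨Real.toNNReal |C2| * L + Real.toNNReal C * M, ?_⟩
  have key : ∀ x ∈ tsupport φ, ∀ y, |a' x * φ x - a' y * φ y| ≤ (|C2| * L + C * M) * dist x y := by
    intro x hx y
    have e2 : a' x * φ x - a' y * φ y = a' x * (φ x - φ y) + (a' x - a' y) * φ y := by ring
    rw [e2]
    have h1 : |φ x - φ y| ≤ L * dist x y := by
      have := hφ.dist_le_mul x y
      rwa [Real.dist_eq] at this
    have h2 : |a' x - a' y| ≤ M * dist x y := by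
      have := ha'.dist_le_mul x y
      rwa [Real.dist_eq] at this
    have h3 : |a' x| ≤ |C2| := (hC2 x hx).trans (le_abs_self _)
    have h4 : |φ y| ≤ C := hC y
    calc |a' x * (φ x - φ y) + (a' x - a' y) * φ y| ≤ |a' x * (φ x - φ y)| +
          |(a' x - a' y) * φ y| := abs_add_le _ _
      _ = |a' x| * |φ x - φ y| + |a' x - a' y| * |φ y| := by rw [abs_mul, abs_mul]
      _ ≤ |C2| * (L * dist x y) + (M * dist x y) * C := by gcongr
      _ = _ := by ring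
  apply LipschitzWith.of_dist_le_mul
  intro x y
  rw [Real.dist_eq, NNReal.coe_add, NNReal.coe_mul, NNReal.coe_mul,
    Real.coe_toNNReal _ (abs_nonneg _), Real.coe_toNNReal _ hC0]
  by_cases hx : x ∈ tsupport φ
  · exact key x hx y
  · by_cases hy : y ∈ tsupport φ
    · rw [abs_sub_comm, dist_comm]
      exact key y hy x
    · rw [image_eq_zero_of_notMem_tsupport hx, image_eq_zero_of_notMem_tsupport hy]
      simp only [mul_zero, sub_self, abs_zero]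
      positivity

end Pool.Agent.TH365.J194
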