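import Pool.Agent.TH331.RZ.Defs

/-!
# Unfolding an integral over the unit cube

Job RZ-G3 for `MP_d18e52_an`.
-/

set_option autoImplicit false

open MeasureTheory Set Filter Topology
open scoped ENNReal Real FourierTransform ContDiff

namespace Pool.Agent.TH365.J252

open Pool.Agent.Helper88.SE

theorem unfold_cube (D : ℕ) (F : EuclideanSpace ℝ (Fin D) → ℝ≥0∞) (hF : Measurable F) :
    ∫⁻ τ in {τ : EuclideanSpace ℝ (Fin D) | ∀ i, 0 ≤ τ i ∧ τ i < 1},
      ∑' j : Fin D → ℤ, F (τ + WithLp.toLp 2 (fun i => (j i : ℝ))) =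
    ∫⁻ t, F t := by
  set C : Set (EuclideanSpace ℝ (Fin D)) := {τ | ∀ i, 0 ≤ τ i ∧ τ i < 1} with hC
  set v : (Fin D → ℤ) → EuclideanSpace ℝ (Fin D) := fun j => WithLp.toLp 2 (fun i => (j i : ℝ))
    with hv
  have hproj : ∀ i : Fin D, Measurable fun x : EuclideanSpace ℝ (Fin D) => x i := by
    intro i
    have : Continuous fun x : EuclideanSpace ℝ (Fin D) => x i := by fun_prop
    exact this.measurable
  have hCm : MeasurableSet C := by
    have : C = ⋂ i, {τ : EuclideanSpace ℝ (Fin D) | 0 ≤ τ i ∧ τ i < 1} := by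
      ext τ
      simp [hC]
    rw [this]
    exact MeasurableSet.iInter fun i =>
      (measurableSet_le measurable_const (hproj i)).inter
        (measurableSet_lt (hproj i) measurable_const)
  rw [lintegral_tsum (fun j => by
    apply Measurable.aemeasurable
    exact hF.comp (measurable_id.add_const _))]
  set Sj : (Fin D → ℤ) → Set (EuclideanSpace ℝ (Fin D)) := fun j => {t | t - v j ∈ C} with hSj
  have hSm : ∀ j, MeasurableSet (Sj j) := fun j => (measurable_id.sub_const _) hCm
  have h1 : ∀ j, ∫⁻ τ in C, F (τ + v j) = ∫⁻ t in Sj j, F t := by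
    intro j
    rw [← lintegral_indicator hCm, ← lintegral_indicator (hSm j),
      ← lintegral_add_right_eq_self (fun t => (Sj j).indicator (fun t => F t) t) (v j)]
    congr 1
    funext τ
    by_cases h : τ ∈ C
    · have h2 : τ + v j ∈ Sj j := by
        simp only [hSj, mem_ofPred_eq, add_sub_cancel_right]
        exact h
      rw [indicator_of_mem h, indicator_of_mem h2]
    · have h2 : τ + v j ∉ Sj j := by
        simp only [hSj, mem_ofPred_eq, add_sub_cancel_right]
        exact h
      rw [indicator_of_notMem h, indicator_of_notMem h2]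
  rw [tsum_congr h1]
  have hcoord : ∀ (t : EuclideanSpace ℝ (Fin D)) (j : Fin D → ℤ),
      t ∈ Sj j ↔ ∀ i, ⌊t i⌋ = j i := by
    intro t j
    simp only [hSj, hC, mem_ofPred_eq, hv, PiLp.sub_apply]
    refine forall_congr' fun i => ?_
    rw [Int.floor_eq_iff]
    constructor
    · rintro ⟨h1, h2⟩
      exact ⟨by linarith, by linarith⟩
    · rintro ⟨h1, h2⟩
      exact ⟨by linarith, by linarith⟩
  have hdisj : Pairwise (Function.onFun Disjoint Sj) := by
    intro j k hjk
    rw [Function.onFun, Set.disjoint_left]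
    intro t hj hk
    apply hjk
    funext i
    rw [← (hcoord t j).1 hj i, (hcoord t k).1 hk i]
  rw [← lintegral_iUnion hSm hdisj]
  have hU : ⋃ j, Sj j = univ := by
    ext t
    simp only [mem_iUnion, mem_univ, iff_true]
    exact ⟨fun i => ⌊t i⌋, (hcoord t _).2 fun i => rfl⟩
  rw [hU, Measure.restrict_univ]

end Pool.Agent.TH365.J252
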