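import Pool.Agent.TH331.RZ.Defs
import Pool.Agent.Helper88.SE.P_no_atom
import Pool.Agent.Helper88.SE.P_sg_open

/-!
# A smooth cutoff of a cube, density of injective configurations

Job RZ-G4 for `MP_d18e52_an`.
-/

set_option autoImplicit false

open MeasureTheory Set Filter Topology
open scoped ENNReal Real FourierTransform ContDiff

namespace Pool.Agent.TH365.J253

open Pool.Agent.Helper88.SE

theorem cutoff (D : ℕ) (δ : ℝ) (hδ : 0 < δ) (hδ1 : δ < 1 / 4) :
    ∃ f : EuclideanSpace ℝ (Fin D) → ℝ, ContDiff ℝ ∞ f ∧ (∀ x, 0 ≤ f x) ∧ (∀ x, f x ≤ 1) ∧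
      (∀ x, (∃ i, 1 / 2 - δ ≤ |x i|) → f x = 0) ∧
      (∀ x, (∀ i, |x i| ≤ 1 / 2 - 2 * δ) → f x = 1) := by
  set a := 1 / 2 - δ with ha
  set b := 1 / 2 - 2 * δ with hb
  have hb0 : 0 < b := by linarith
  have hab : b < a := by linarith
  have hden : 0 < a ^ 2 - b ^ 2 := by nlinarith
  refine ⟨fun x => ∏ i, Real.smoothTransition ((a ^ 2 - x i ^ 2) / (a ^ 2 - b ^ 2)),
    ?_, ?_, ?_, ?_, ?_⟩
  · apply contDiff_prod
    intro i _
    apply Real.smoothTransition.contDiff.comp
    have : ContDiff ℝ ∞ fun x : EuclideanSpace ℝ (Fin D) => x i := by fun_prop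
    exact (contDiff_const.sub (this.pow 2)).div_const _
  · intro x
    exact Finset.prod_nonneg fun i _ => Real.smoothTransition.nonneg _
  · intro x
    exact Finset.prod_le_one (fun i _ => Real.smoothTransition.nonneg _)
      fun i _ => Real.smoothTransition.le_one _
  · rintro x ⟨i, hi⟩
    apply Finset.prod_eq_zero (Finset.mem_univ i)
    apply Real.smoothTransition.zero_of_nonpos
    apply div_nonpos_of_nonpos_of_nonneg _ hden.le
    have : a ^ 2 ≤ |x i| ^ 2 := pow_le_pow_left₀ (by linarith) hi 2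
    rw [sq_abs] at this
    linarith
  · intro x hx
    apply Finset.prod_eq_one
    intro i _
    apply Real.smoothTransition.one_of_one_le
    rw [one_le_div hden]
    have : |x i| ^ 2 ≤ b ^ 2 := pow_le_pow_left₀ (abs_nonneg _) (hx i) 2
    rw [sq_abs] at this
    linarith

lemma ball_infinite (d : ℕ) (hd : 1 ≤ d) (x : S d) {η : ℝ} (hη : 0 < η) :
    (Metric.ball x η).Infinite := by
  intro hfin
  have h1 : sg d (Metric.ball x η) = 0 := by
    rw [← Set.biUnion_of_singleton (Metric.ball x η), measure_biUnion_null_iff hfin.countable]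
    intro y _
    exact no_atom d hd y
  have := sg_open d
  exact (Metric.isOpen_ball.measure_ne_zero (sg d) ⟨x, Metric.mem_ball_self hη⟩) h1

theorem inj_dense (d : ℕ) (hd : 1 ≤ d) (N : ℕ) (x : Fin N → S d) (η : ℝ) (hη : 0 < η) :
    ∃ y : Fin N → S d, Function.Injective y ∧ ∀ i, dist (x i) (y i) < η := by
  classical
  have h1 : ∀ i, ∃ T : Finset (S d), (T : Set (S d)) ⊆ Metric.ball (x i) η ∧ T.card = N :=
    fun i => (ball_infinite d hd (x i) hη).exists_subset_card_eq N
  choose T hT hTc using h1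
  obtain ⟨y, hy, hyT⟩ := (Finset.all_card_le_biUnion_card_iff_exists_injective T).1 (by
    intro s
    rcases s.eq_empty_or_nonempty with rfl | ⟨i, hi⟩
    · simp
    · calc s.card ≤ N := by simpa using Finset.card_le_univ s
        _ = (T i).card := (hTc i).symm
        _ ≤ _ := Finset.card_le_card (Finset.subset_biUnion_of_mem T hi))
  refine ⟨y, hy, fun i => ?_⟩
  have := hT i (hyT i)
  rw [Metric.mem_ball, dist_comm] at this
  exact this

end Pool.Agent.TH365.J253
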