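import Pool.Agent.TH331.RZ.Defs

/-!
# Plancherel at a fixed frequency

Job RZ-L3 for `MP_d18e52_an`.
-/

set_option autoImplicit false

open MeasureTheory Set Filter Topology
open scoped ENNReal Real FourierTransform

namespace Pool.Agent.TH365.J234

open Pool.Agent.Helper88.SE Pool.Agent.TH331.RZ

section planch
variable {V : Type*} [NormedAddCommGroup V] [InnerProductSpace ℝ V] [FiniteDimensional ℝ V]
  [MeasurableSpace V] [BorelSpace V]

lemma planch (h : V → ℂ) (hc : Continuous h) (hi : Integrable h) (hF : Integrable (𝓕 h)) :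
    ∫ ξ, ‖𝓕 h ξ‖ ^ 2 = ∫ x, ‖h x‖ ^ 2 := by
  have h1 := VectorFourier.integral_sesq_fourierIntegral_eq_neg_flip (innerSL ℂ)
    (L := innerₗ V) Real.continuous_fourierChar continuous_inner hi hF
  rw [flip_innerₗ] at h1
  have h2 : ∫ ξ, inner ℂ (𝓕 h ξ) (𝓕 h ξ) = ∫ x, inner ℂ (h x) (𝓕⁻ (𝓕 h) x) := h1
  rw [hc.fourierInv_fourier_eq hi hF] at h2
  apply Complex.ofRealLI.injective
  simpa [← LinearIsometry.integral_comp_comm, inner_self_eq_norm_sq_to_K] using h2

lemma planch_l (h : V → ℂ) (hc : Continuous h) (hi : Integrable h) (hF : Integrable (𝓕 h))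
    {M : ℝ} (hM : ∀ x, ‖h x‖ ≤ M) :
    ∫⁻ x, ENNReal.ofReal (‖h x‖ ^ 2) = ∫⁻ ξ, ENNReal.ofReal (‖𝓕 h ξ‖ ^ 2) := by
  have hM0 : 0 ≤ M := (norm_nonneg _).trans (hM 0)
  have i1 : Integrable (fun x => ‖h x‖ ^ 2) := by
    refine (hi.norm.const_mul M).mono' (hi.norm.aestronglyMeasurable.pow 2)
      (Filter.Eventually.of_forall fun x => ?_)
    rw [Real.norm_eq_abs, abs_of_nonneg (by positivity), sq]
    exact mul_le_mul_of_nonneg_right (hM x) (norm_nonneg _)
  have hM2 : ∀ ξ, ‖𝓕 h ξ‖ ≤ ∫ x, ‖h x‖ := by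
    intro ξ
    rw [Real.fourier_eq]
    refine (norm_integral_le_integral_norm _).trans (le_of_eq ?_)
    congr 1
    funext x
    exact Circle.norm_smul _ _
  have i2 : Integrable (fun x => ‖𝓕 h x‖ ^ 2) := by
    refine (hF.norm.const_mul (∫ x, ‖h x‖)).mono' (hF.norm.aestronglyMeasurable.pow 2)
      (Filter.Eventually.of_forall fun x => ?_)
    rw [Real.norm_eq_abs, abs_of_nonneg (by positivity), sq]
    exact mul_le_mul_of_nonneg_right (hM2 x) (norm_nonneg _)
  rw [← ofReal_integral_eq_lintegral_ofReal i1 (Filter.Eventually.of_forall fun _ => by positivity),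
    ← ofReal_integral_eq_lintegral_ofReal i2 (Filter.Eventually.of_forall fun _ => by positivity),
    planch h hc hi hF]

end planch

lemma fub {X : Type*} [TopologicalSpace X] [SecondCountableTopology X] [MeasurableSpace X]
    [BorelSpace X] (μ ν : Measure X) [SigmaFinite μ] [SigmaFinite ν] (G : X → X → ℂ)
    (c : X → ℂ) (hc : Continuous c) (hc1 : ∀ x, ‖c x‖ = 1)
    (hG : Integrable (fun p : X × X => G p.1 p.2) (μ.prod ν)) :
    ∫ z, c z * ∫ u, G u z ∂μ ∂ν = ∫ u, ∫ z, c z * G u z ∂ν ∂μ := by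
  have hint : Integrable (Function.uncurry fun z u : X => c z * G u z) (ν.prod μ) := by
    have h1 := hG.swap
    have h2 : Continuous fun p : X × X => c p.1 := hc.comp continuous_fst
    refine h1.norm.mono' (h2.aestronglyMeasurable.mul h1.aestronglyMeasurable)
      (Filter.Eventually.of_forall fun p => ?_)
    simp only [Function.uncurry, norm_mul, hc1, one_mul]
    exact le_rfl
  rw [← integral_integral_swap hint]
  congr 1
  funext z
  rw [integral_const_mul]

variable {d : ℕ}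

lemma ex_eq_char (ξ u : E d) : ex ξ u = (Real.fourierChar (inner ℝ ξ u) : ℂ) := by
  rw [Real.fourierChar_apply, ex]

lemma norm_ex (ξ u : E d) : ‖ex ξ u‖ = 1 := by
  rw [ex_eq_char]
  exact Circle.norm_coe _

lemma ex_add_right (ξ u v : E d) : ex ξ (u + v) = ex ξ u * ex ξ v := by
  unfold ex
  rw [← Complex.exp_add, inner_add_right]
  congr 1
  push_cast
  ring

lemma ex_add_left (ξ η u : E d) : ex (ξ + η) u = ex ξ u * ex η u := by
  unfold ex
  rw [← Complex.exp_add, inner_add_left]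
  congr 1
  push_cast
  ring

lemma ex_smul (c : ℝ) (ξ u : E d) : ex (c • ξ) u = ex ξ (c • u) := by
  unfold ex
  rw [inner_smul_left, inner_smul_right]
  simp

lemma ex_neg (ξ u : E d) : ex (-ξ) u = ex ξ (-u) := by
  unfold ex
  rw [inner_neg_left, inner_neg_right]

lemma ex_conj (ξ u : E d) : ex (-ξ) u = (starRingEnd ℂ) (ex ξ u) := by
  unfold ex
  rw [← Complex.exp_conj, inner_neg_left, map_mul, Complex.conj_I, Complex.conj_ofReal]
  congr 1
  push_cast
  ring

lemma cont_ex (ξ : E d) : Continuous (fun u : E d => ex ξ u) := by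
  unfold ex
  fun_prop

/-- the integrand -/
noncomputable def Gf (f : SchwartzMap (E d) ℂ) (lam : ℝ) (ξ : E d) (α β : ℂ) (u z : E d) : ℂ :=
  f (lam • u - z) * (α * ex ξ u - β * ex ξ (lam⁻¹ • z))

section
variable (f : SchwartzMap (E d) ℂ) (lam : ℝ) (ξ : E d) (α β : ℂ)

lemma cont_G : Continuous (fun p : E d × E d => Gf f lam ξ α β p.1 p.2) := by
  unfold Gf
  have h1 : Continuous (fun p : E d × E d => f (lam • p.1 - p.2)) :=
    f.continuous.comp (by fun_prop)
  have h2 : Continuous (fun p : E d × E d => ex ξ p.1) := (cont_ex ξ).comp continuous_fst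
  have h4 : Continuous (fun z : E d => ex ξ (lam⁻¹ • z)) := by
    simp only [← ex_smul]
    exact cont_ex _
  have h3 : Continuous (fun p : E d × E d => ex ξ (lam⁻¹ • p.2)) := h4.comp continuous_snd
  exact h1.mul ((continuous_const.mul h2).sub (continuous_const.mul h3))

lemma norm_G (u z : E d) : ‖Gf f lam ξ α β u z‖ ≤ (‖α‖ + ‖β‖) * ‖f (lam • u - z)‖ := by
  unfold Gf
  rw [norm_mul, mul_comm]
  gcongr
  refine (norm_sub_le _ _).trans ?_
  rw [norm_mul, norm_mul, norm_ex, norm_ex, mul_one, mul_one]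

lemma exists_bound : ∃ M, ∀ x, ‖f x‖ ≤ M := by
  refine ⟨SchwartzMap.seminorm ℝ 0 0 f, fun x => SchwartzMap.norm_le_seminorm ℝ f x⟩

lemma int_G (u : E d) : Integrable (fun z => Gf f lam ξ α β u z) := by
  refine ((f.integrable (μ := volume).comp_sub_left (lam • u)).norm.const_mul
    (‖α‖ + ‖β‖)).mono' ?_ (Filter.Eventually.of_forall fun z => norm_G f lam ξ α β u z)
  exact ((cont_G f lam ξ α β).comp (continuous_const.prodMk continuous_id)).aestronglyMeasurable

variable (μ : Measure (E d)) [IsFiniteMeasure μ]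

lemma int_prod : Integrable (fun p : E d × E d => Gf f lam ξ α β p.1 p.2) (μ.prod volume) := by
  have hm : AEStronglyMeasurable (fun p : E d × E d => Gf f lam ξ α β p.1 p.2)
      (μ.prod volume) := (cont_G f lam ξ α β).aestronglyMeasurable
  rw [integrable_prod_iff hm]
  refine ⟨Filter.Eventually.of_forall fun u => int_G f lam ξ α β u, ?_⟩
  refine Integrable.of_bound hm.norm.integral_prod_right' ((‖α‖ + ‖β‖) * ∫ z, ‖f z‖)
    (Filter.Eventually.of_forall fun u => ?_)
  rw [Real.norm_eq_abs, abs_of_nonneg (integral_nonneg fun _ => norm_nonneg _)]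
  calc ∫ z, ‖Gf f lam ξ α β u z‖ ≤ ∫ z, (‖α‖ + ‖β‖) * ‖f (lam • u - z)‖ := by
        apply integral_mono (int_G f lam ξ α β u).norm
        · exact (f.integrable (μ := volume).comp_sub_left (lam • u)).norm.const_mul _
        · intro z
          exact norm_G f lam ξ α β u z
    _ = (‖α‖ + ‖β‖) * ∫ z, ‖f (lam • u - z)‖ := integral_const_mul _ _
    _ = (‖α‖ + ‖β‖) * ∫ z, ‖f z‖ := by
        rw [integral_sub_left_eq_self (fun z => ‖f z‖) volume (lam • u)]

/-- the averaged function -/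
noncomputable def hf (z : E d) : ℂ := ∫ u, Gf f lam ξ α β u z ∂μ

lemma int_h : Integrable (hf f lam ξ α β μ) := (int_prod f lam ξ α β μ).integral_prod_right

lemma cont_h : Continuous (hf f lam ξ α β μ) := by
  obtain ⟨M, hM⟩ := exists_bound f
  unfold hf
  refine continuous_of_dominated (bound := fun _ => (‖α‖ + ‖β‖) * M) ?_ ?_ ?_ ?_
  · intro z
    exact ((cont_G f lam ξ α β).comp (continuous_id.prodMk continuous_const)).aestronglyMeasurable
  · intro z
    refine Filter.Eventually.of_forall fun u => ?_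
    refine (norm_G f lam ξ α β u z).trans ?_
    have := hM (lam • u - z)
    gcongr
  · exact integrable_const _
  · refine Filter.Eventually.of_forall fun u => ?_
    exact (cont_G f lam ξ α β).comp (continuous_const.prodMk continuous_id)

lemma bdd_h : ∃ M, ∀ z, ‖hf f lam ξ α β μ z‖ ≤ M := by
  obtain ⟨M, hM⟩ := exists_bound f
  refine ⟨(‖α‖ + ‖β‖) * M * μ.real univ, fun z => ?_⟩
  unfold hf
  refine norm_integral_le_of_norm_le_const (Filter.Eventually.of_forall fun u => ?_)
  refine (norm_G f lam ξ α β u z).trans ?_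
  have := hM (lam • u - z)
  gcongr

/-- the multiplier -/
noncomputable def mf (η : E d) : ℂ := α * (𝓕 f) (-η) - β * (𝓕 f) (lam⁻¹ • ξ - η)

lemma fourier_exp (η : E d) : (𝓕 f) (-η) = ∫ y, ex η y * f y := by
  rw [SchwartzMap.fourier_coe, Real.fourier_eq]
  congr 1
  funext y
  rw [inner_neg_right, neg_neg, Circle.smul_def, smul_eq_mul, ex_eq_char, real_inner_comm]

lemma fourier_G (hlam : 0 < lam) (η u : E d) :
    ∫ z, (Real.fourierChar (-(inner ℝ z η)) : ℂ) * Gf f lam ξ α β u z =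
      mf f lam ξ α β η * ex (ξ - lam • η) u := by
  have e1 : ∀ z : E d, (Real.fourierChar (-(inner ℝ z η)) : ℂ) = ex (-η) z := by
    intro z
    rw [ex_eq_char, inner_neg_left, real_inner_comm]
  simp only [e1]
  rw [← integral_sub_left_eq_self _ volume (lam • u)]
  have e2 : ∀ y : E d, ex (-η) (lam • u - y) * Gf f lam ξ α β u (lam • u - y) =
      ex (ξ - lam • η) u * (α * (ex η y * f y) - β * (ex (η - lam⁻¹ • ξ) y * f y)) := by
    intro y
    have a1 : ex (-η) (lam • u - y) = ex (-(lam • η)) u * ex η y := by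
      rw [sub_eq_add_neg, ex_add_right, ← ex_smul, smul_neg, ex_neg η (-y), neg_neg]
    have a2 : lam • u - (lam • u - y) = y := by abel
    have a3 : lam⁻¹ • (lam • u - y) = u + -(lam⁻¹ • y) := by
      rw [smul_sub, smul_smul, inv_mul_cancel₀ hlam.ne', one_smul, sub_eq_add_neg]
    have a4 : ex (ξ - lam • η) u = ex ξ u * ex (-(lam • η)) u := by
      rw [sub_eq_add_neg, ex_add_left]
    have a5 : ex (η - lam⁻¹ • ξ) y = ex η y * ex ξ (-(lam⁻¹ • y)) := by
      rw [sub_eq_add_neg, ex_add_left, ex_neg (lam⁻¹ • ξ) y, ex_smul, smul_neg]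
    unfold Gf
    rw [a2, a3, ex_add_right, a1, a4, a5]
    ring
  simp only [e2]
  have hint : ∀ ζ : E d, Integrable (fun y => ex ζ y * f y) := by
    intro ζ
    refine (f.integrable (μ := volume)).norm.mono' ?_ (Filter.Eventually.of_forall fun y => ?_)
    · exact ((cont_ex ζ).mul f.continuous).aestronglyMeasurable
    · rw [norm_mul, norm_ex, one_mul]
  rw [integral_const_mul, integral_sub ((hint _).const_mul _) ((hint _).const_mul _),
    integral_const_mul, integral_const_mul, ← fourier_exp, ← fourier_exp, mf, neg_sub]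
  ring

lemma fourier_h (hlam : 0 < lam) (η : E d) :
    𝓕 (hf f lam ξ α β μ) η = mf f lam ξ α β η * ∫ u, ex (ξ - lam • η) u ∂μ := by
  have h1 := fub μ volume (Gf f lam ξ α β) (ex (-η)) (cont_ex (-η)) (norm_ex (-η))
    (int_prod f lam ξ α β μ)
  have e1 : ∀ z : E d, (Real.fourierChar (-(inner ℝ z η)) : ℂ) = ex (-η) z := by
    intro z
    rw [ex_eq_char, inner_neg_left, real_inner_comm]
  have h2 : 𝓕 (hf f lam ξ α β μ) η = ∫ z, ex (-η) z * ∫ u, Gf f lam ξ α β u z ∂μ := by
    rw [Real.fourier_eq]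
    congr 1
    funext z
    rw [Circle.smul_def, smul_eq_mul, e1, hf]
  rw [h2, h1]
  have h3 : ∀ u : E d, ∫ z, ex (-η) z * Gf f lam ξ α β u z =
      mf f lam ξ α β η * ex (ξ - lam • η) u := by
    intro u
    rw [← fourier_G f lam ξ α β hlam]
    congr 1
    funext z
    rw [e1]
  simp only [h3]
  rw [integral_const_mul]

end

theorem fixed_freq (d : ℕ) (f : SchwartzMap (E d) ℂ) (μ ν : Measure (E d)) [IsFiniteMeasure μ]
    [IsFiniteMeasure ν] (lam : ℝ) (hlam : 0 < lam) (ξ : E d) (α β : ℂ) :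
    ∫⁻ z : E d, ENNReal.ofReal
      (‖dI μ ν (fun u => f (lam • u - z) * (α * ex ξ u - β * ex ξ (lam⁻¹ • z)))‖ ^ 2) =
    ∫⁻ η : E d, ENNReal.ofReal
      (‖α * (𝓕 f) (-η) - β * (𝓕 f) (lam⁻¹ • ξ - η)‖ ^ 2 *
        ‖dI μ ν (fun u => ex (lam • η - ξ) u)‖ ^ 2) := by
  set h : E d → ℂ := fun z => hf f lam ξ α β μ z - hf f lam ξ α β ν z with hh
  have hc : Continuous h := (cont_h f lam ξ α β μ).sub (cont_h f lam ξ α β ν)
  have hi : Integrable h := (int_h f lam ξ α β μ).sub (int_h f lam ξ α β ν)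
  obtain ⟨M1, hM1⟩ := bdd_h f lam ξ α β μ
  obtain ⟨M2, hM2⟩ := bdd_h f lam ξ α β ν
  have hM : ∀ z, ‖h z‖ ≤ M1 + M2 := fun z =>
    (norm_sub_le _ _).trans (add_le_add (hM1 z) (hM2 z))
  have hF : ∀ η, 𝓕 h η = mf f lam ξ α β η * dI μ ν (fun u => ex (ξ - lam • η) u) := by
    intro η
    have e1 : 𝓕 h η = 𝓕 (hf f lam ξ α β μ) η - 𝓕 (hf f lam ξ α β ν) η := by
      simp only [Real.fourier_eq]
      rw [← integral_sub]
      · congr 1
        funext z
        rw [← smul_sub]
      · exact (Real.fourierIntegral_convergent_iff η).2 (int_h f lam ξ α β μ)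
      · exact (Real.fourierIntegral_convergent_iff η).2 (int_h f lam ξ α β ν)
    rw [e1, fourier_h f lam ξ α β μ hlam, fourier_h f lam ξ α β ν hlam, dI, mul_sub]
  have hdI : ∀ ζ : E d, ‖dI μ ν (fun u => ex ζ u)‖ ≤ μ.real univ + ν.real univ := by
    intro ζ
    unfold dI
    refine (norm_sub_le _ _).trans ?_
    have h1 := norm_integral_le_of_norm_le_const (μ := μ) (f := fun u => ex ζ u) (C := 1)
      (Filter.Eventually.of_forall fun u => (norm_ex ζ u).le)
    have h2 := norm_integral_le_of_norm_le_const (μ := ν) (f := fun u => ex ζ u) (C := 1)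
      (Filter.Eventually.of_forall fun u => (norm_ex ζ u).le)
    linarith
  have hFi : Integrable (𝓕 h) := by
    have hcont : Continuous (𝓕 h) :=
      VectorFourier.fourierIntegral_continuous Real.continuous_fourierChar
        (by exact continuous_inner) hi
    have i1 : Integrable (fun η => (‖α‖ * ‖(𝓕 f) (-η)‖ + ‖β‖ * ‖(𝓕 f) (lam⁻¹ • ξ - η)‖) *
        (μ.real univ + ν.real univ)) := by
      apply Integrable.mul_const
      have j1 : Integrable (fun η => ‖(𝓕 f) (-η)‖) :=
        ((𝓕 f).integrable (μ := volume)).comp_neg.norm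
      have j2 : Integrable (fun η => ‖(𝓕 f) (lam⁻¹ • ξ - η)‖) :=
        (((𝓕 f).integrable (μ := volume)).comp_sub_left (lam⁻¹ • ξ)).norm
      exact (j1.const_mul _).add (j2.const_mul _)
    refine i1.mono' hcont.aestronglyMeasurable (Filter.Eventually.of_forall fun η => ?_)
    rw [hF, norm_mul]
    have h1 : ‖mf f lam ξ α β η‖ ≤ ‖α‖ * ‖(𝓕 f) (-η)‖ + ‖β‖ * ‖(𝓕 f) (lam⁻¹ • ξ - η)‖ := by
      unfold mf
      refine (norm_sub_le _ _).trans ?_
      rw [norm_mul, norm_mul]
    have h2 := hdI (ξ - lam • η)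
    gcongr
  have key := planch_l h hc hi hFi hM
  have hconj : ∀ η, ‖dI μ ν (fun u => ex (ξ - lam • η) u)‖ =
      ‖dI μ ν (fun u => ex (lam • η - ξ) u)‖ := by
    intro η
    have e1 : dI μ ν (fun u => ex (ξ - lam • η) u) =
        (starRingEnd ℂ) (dI μ ν (fun u => ex (lam • η - ξ) u)) := by
      unfold dI
      rw [map_sub, ← integral_conj, ← integral_conj]
      simp only [← ex_conj, neg_sub]
    rw [e1, RCLike.norm_conj]
  refine Eq.trans (b := ∫⁻ z : E d, ENNReal.ofReal (‖h z‖ ^ 2)) rfl ?_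
  rw [key]
  congr 1
  funext η
  rw [hF, norm_mul, mul_pow, hconj]
  rfl

end Pool.Agent.TH365.J234
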