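import Pool.Agent.TH349.HI.Defs
set_option autoImplicit false
open Finset Equiv
namespace Pool.Agent.TH365.J372
open Pool.Agent.TH349.HI

/-- the relabelled graph -/
def rel {V : Type} (σ : Perm V) (G : SimpleGraph V) : SimpleGraph V := G.comap (σ⁻¹ : Perm V)

/-- the isomorphism onto the relabelled graph -/
def relIso {V : Type} (σ : Perm V) (G : SimpleGraph V) : G ≃g rel σ G where
  toEquiv := σ
  map_rel_iff' := by
    intro a b
    simp [rel]

theorem rel_hirr {V : Type} {G H : SimpleGraph V} (f : G ≃g H) (h : HIrr G) : HIrr H := by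
  intro v
  have h1 := h (f.symm v)
  rw [← Nat.card_congr (f.symm.mapNeighborSet v)] at h1
  exact h1

theorem rel_edge {V : Type} {G H : SimpleGraph V} (f : G ≃g H) :
    Nat.card G.edgeSet = Nat.card H.edgeSet := Nat.card_congr f.mapEdgeSet

/-- the set of graphs counted -/
abbrev XX (p q : ℕ) := {G : SimpleGraph (Fin p) // HIrr G ∧ Nat.card G.edgeSet = q}

instance act (p q : ℕ) : MulAction (Perm (Fin p)) (XX p q) where
  smul σ G := ⟨rel σ G.1, rel_hirr (relIso σ G.1) G.2.1, by
    rw [← rel_edge (relIso σ G.1)]; exact G.2.2⟩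
  one_smul G := by
    apply Subtype.ext
    ext a b
    show (G.1.comap _).Adj a b ↔ _
    simp
  mul_smul σ τ G := by
    apply Subtype.ext
    ext a b
    show (G.1.comap _).Adj a b ↔ ((G.1.comap _).comap _).Adj a b
    simp

theorem smul_adj {p q : ℕ} (σ : Perm (Fin p)) (G : XX p q) (a b : Fin p) :
    (σ • G).1.Adj a b ↔ G.1.Adj (σ⁻¹ a) (σ⁻¹ b) := Iff.rfl

theorem fixed_iff {p q : ℕ} (σ : Perm (Fin p)) (G : XX p q) :
    σ • G = G ↔ ∀ a b, G.1.Adj (σ a) (σ b) ↔ G.1.Adj a b := by
  constructor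
  · intro h a b
    have h1 := smul_adj σ G (σ a) (σ b)
    rw [h] at h1
    simpa using h1
  · intro h
    apply Subtype.ext
    ext a b
    rw [smul_adj]
    have := h (σ⁻¹ a) (σ⁻¹ b)
    simpa using this.symm

theorem orbitRel_eq (p q : ℕ) :
    MulAction.orbitRel (Perm (Fin p)) (XX p q) = isoSetoid p q := by
  ext G H
  rw [MulAction.orbitRel_apply]
  constructor
  · rintro ⟨σ, hσ⟩
    -- σ • H = G
    have h2 : σ • H = G := hσ
    have : Nonempty (H.1 ≃g G.1) := by
      rw [← h2]
      exact ⟨relIso σ H.1⟩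
    exact ⟨this.some.symm⟩
  · rintro ⟨f⟩
    refine ⟨f.toEquiv.symm, ?_⟩
    apply Subtype.ext
    ext a b
    show H.1.Adj (f.toEquiv a) (f.toEquiv b) ↔ _
    exact f.map_rel_iff'

theorem h_mul (p q : ℕ) :
    p.factorial * h p q = ∑ σ : Perm (Fin p), Nat.card {G : XX p q // σ • G = G} := by
  classical
  have : Fintype (XX p q) := Fintype.ofFinite _
  have h1 := MulAction.sum_card_fixedBy_eq_card_orbits_mul_card_group (Perm (Fin p)) (XX p q)
  have h2 : Fintype.card (Perm (Fin p)) = p.factorial := by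
    rw [Fintype.card_perm, Fintype.card_fin]
  rw [h2] at h1
  have h3 : h p q = Fintype.card (Quotient (MulAction.orbitRel (Perm (Fin p)) (XX p q))) := by
    unfold h
    rw [← Nat.card_eq_fintype_card, orbitRel_eq]
  rw [h3, mul_comm, ← h1]
  refine Finset.sum_congr rfl fun σ _ => ?_
  rw [← Nat.card_eq_fintype_card]
  rfl

open Classical in
theorem burnside_h {F : Type} [Field F] [CharZero F] (p : ℕ) (x : F) :
    (p.factorial : F) * ∑ q ∈ range (p * p + 1), (h p q : F) * x ^ q =
      ∑ σ : Perm (Fin p), ∑ G : SimpleGraph (Fin p),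
        if (∀ a b, G.Adj (σ a) (σ b) ↔ G.Adj a b) ∧ HIrr G then x ^ Nat.card G.edgeSet else 0 := by
  have h1 : ∀ q, (p.factorial : F) * ((h p q : F) * x ^ q) =
      ∑ σ : Perm (Fin p), ∑ G : SimpleGraph (Fin p),
        if Nat.card G.edgeSet = q then
        (if (∀ a b, G.Adj (σ a) (σ b) ↔ G.Adj a b) ∧ HIrr G then x ^ Nat.card G.edgeSet else 0)
        else 0 := by
    intro q
    have h2 := h_mul p q
    rw [← mul_assoc, ← Nat.cast_mul, h2, Nat.cast_sum, Finset.sum_mul]
    refine Finset.sum_congr rfl fun σ _ => ?_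
    have h3 : Nat.card {G : XX p q // σ • G = G} =
        (Finset.univ.filter (fun G : SimpleGraph (Fin p) => Nat.card G.edgeSet = q ∧
          ((∀ a b, G.Adj (σ a) (σ b) ↔ G.Adj a b) ∧ HIrr G))).card := by
      rw [← Nat.card_eq_finsetCard]
      refine Nat.card_congr
        { toFun := fun G => ⟨G.1.1, by
            rw [Finset.mem_filter]
            exact ⟨Finset.mem_univ _, G.1.2.2, (fixed_iff σ G.1).1 G.2, G.1.2.1⟩⟩
          invFun := fun G => ⟨⟨G.1, by
            have := G.2
            rw [Finset.mem_filter] at this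
            exact ⟨this.2.2.2, this.2.1⟩⟩, by
            rw [fixed_iff]
            have := G.2
            rw [Finset.mem_filter] at this
            exact this.2.2.1⟩
          left_inv := fun G => rfl
          right_inv := fun G => rfl }
    rw [h3, Finset.card_filter, Nat.cast_sum, Finset.sum_mul]
    refine Finset.sum_congr rfl fun G _ => ?_
    by_cases hq : Nat.card G.edgeSet = q
    · by_cases hh : (∀ a b, G.Adj (σ a) (σ b) ↔ G.Adj a b) ∧ HIrr G
      · rw [if_pos ⟨hq, hh⟩, if_pos hq, if_pos hh, hq]; simp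
      · rw [if_neg (fun h => hh h.2), if_pos hq, if_neg hh]; simp
    · rw [if_neg (fun h => hq h.1), if_neg hq]; simp
  rw [Finset.mul_sum]
  rw [Finset.sum_congr rfl fun q _ => h1 q, Finset.sum_comm]
  refine Finset.sum_congr rfl fun σ _ => ?_
  rw [Finset.sum_comm]
  refine Finset.sum_congr rfl fun G _ => ?_
  rw [Finset.sum_ite_eq, if_pos]
  rw [Finset.mem_range]
  have h4 : Nat.card G.edgeSet ≤ p * p := by
    rw [Nat.card_eq_fintype_card, ← SimpleGraph.edgeFinset_card]
    refine le_trans G.card_edgeFinset_le_card_choose_two ?_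
    rw [Fintype.card_fin]
    refine le_trans (Nat.choose_le_pow p 2) ?_
    rw [pow_two]
  omega

end Pool.Agent.TH365.J372
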