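import Pool.Agent.TH365.HI.InvSum
import Pool.Agent.TH365.HI.Common
import Pool.Agent.TH405.J380
set_option autoImplicit false
open Finset Equiv
namespace Pool.Agent.TH365.J379
open Pool.Agent.TH349.HI Pool.Agent.TH365.HI

/-- the unordered pairs of distinct points -/
abbrev EE (W : Type) := {e : Sym2 W // ¬ e.IsDiag}

theorem map_isDiag {W : Type} (τ : Perm W) (e : Sym2 W) : (Sym2.map τ e).IsDiag ↔ e.IsDiag := by
  induction e using Sym2.inductionOn with
  | hf a b => simp

/-- the induced permutation of the pairs -/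
def gE {W : Type} (τ : Perm W) : Perm (EE W) where
  toFun e := ⟨Sym2.map τ e.1, by rw [map_isDiag]; exact e.2⟩
  invFun e := ⟨Sym2.map (τ⁻¹ : Perm W) e.1, by rw [map_isDiag]; exact e.2⟩
  left_inv e := by
    apply Subtype.ext
    obtain ⟨e, he⟩ := e
    induction e using Sym2.inductionOn with
    | hf a b => simp
  right_inv e := by
    apply Subtype.ext
    obtain ⟨e, he⟩ := e
    induction e using Sym2.inductionOn with
    | hf a b => simp

theorem gE_val {W : Type} (τ : Perm W) (e : EE W) : (gE τ e).1 = Sym2.map τ e.1 := rfl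

theorem gE_pow {W : Type} (τ : Perm W) (r : ℕ) (e : EE W) :
    (((gE τ) ^ r) e).1 = Sym2.map (τ ^ r : Perm W) e.1 := by
  induction r with
  | zero =>
    simp
  | succ r ih =>
    rw [pow_succ', Perm.mul_apply, gE_val, ih, Sym2.map_map, pow_succ']
    rfl

open Classical in
/-- twice the number of fixed pairs -/
theorem two_mul_fix {W : Type} [Fintype W] [DecidableEq W] (σ : Perm W) :
    2 * #{e : EE W | Sym2.map σ e.1 = e.1} + #{w : W | σ w = w} + #{w : W | σ w = w} =
      #{w : W | σ w = w} ^ 2 + #{w : W | (σ ^ 2) w = w} := by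
  set H : SimpleGraph W :=
    { Adj := fun a b => a ≠ b ∧ s(σ a, σ b) = s(a, b)
      symm := ⟨fun a b h => ⟨h.1.symm, by rw [Sym2.eq_swap, h.2, Sym2.eq_swap]⟩⟩
      loopless := ⟨fun a h => h.1 rfl⟩ } with hH
  have h1 := H.sum_degrees_eq_twice_card_edges
  have h2 : #H.edgeFinset = #{e : EE W | Sym2.map σ e.1 = e.1} := by
    refine Finset.card_bij' (i := fun e he => ⟨e, ?_⟩) (j := fun e _ => e.1) ?_ ?_ ?_ ?_
    · rw [SimpleGraph.mem_edgeFinset] at he
      exact H.not_isDiag_of_mem_edgeSet he
    · intro e he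
      rw [Finset.mem_filter]
      refine ⟨Finset.mem_univ _, ?_⟩
      rw [SimpleGraph.mem_edgeFinset] at he
      induction e using Sym2.inductionOn with
      | hf a b =>
        rw [SimpleGraph.mem_edgeSet] at he
        rw [Sym2.map_mk]
        exact he.2
    · intro e he
      rw [Finset.mem_filter] at he
      rw [SimpleGraph.mem_edgeFinset]
      obtain ⟨e, he1⟩ := e
      induction e using Sym2.inductionOn with
      | hf a b =>
        rw [SimpleGraph.mem_edgeSet]
        refine ⟨?_, ?_⟩
        · intro h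
          apply he1
          rw [Sym2.mk_isDiag_iff]
          exact h
        · have := he.2
          rwa [Sym2.map_mk] at this
    · intro e he; rfl
    · intro e he; rfl
  have h3 : ∀ a, H.degree a = (if σ a = a then #{w : W | σ w = w} - 1 else
      if (σ ^ 2) a = a then 1 else 0) := by
    intro a
    rw [← SimpleGraph.card_neighborFinset_eq_degree]
    have h4 : H.neighborFinset a = Finset.univ.filter (fun b => H.Adj a b) := by
      ext b; simp
    rw [h4]
    by_cases h5 : σ a = a
    · rw [if_pos h5]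
      have h6 : Finset.univ.filter (fun b => H.Adj a b) =
          (Finset.univ.filter (fun w : W => σ w = w)).erase a := by
        ext b
        rw [Finset.mem_filter, Finset.mem_erase, Finset.mem_filter]
        constructor
        · rintro ⟨_, hab, hs⟩
          refine ⟨fun h => hab h.symm, Finset.mem_univ _, ?_⟩
          rw [h5, Sym2.eq_iff] at hs
          rcases hs with hs | hs
          · exact hs.2
          · exact absurd hs.1 hab
        · rintro ⟨hab, _, hb⟩
          refine ⟨Finset.mem_univ _, fun h => hab h.symm, ?_⟩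
          rw [h5, hb]
      rw [h6, Finset.card_erase_of_mem]
      rw [Finset.mem_filter]
      exact ⟨Finset.mem_univ _, h5⟩
    · rw [if_neg h5]
      by_cases h6 : (σ ^ 2) a = a
      · rw [if_pos h6, Finset.card_eq_one]
        have h7 : σ (σ a) = a := by
          rw [pow_two, Perm.mul_apply] at h6; exact h6
        refine ⟨σ a, ?_⟩
        ext b
        rw [Finset.mem_filter, Finset.mem_singleton]
        constructor
        · rintro ⟨_, hab, hs⟩
          rw [Sym2.eq_iff] at hs
          rcases hs with hs | hs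
          · exact absurd hs.1 h5
          · exact hs.1.symm
        · rintro rfl
          refine ⟨Finset.mem_univ _, fun h => h5 h.symm, ?_⟩
          rw [h7, Sym2.eq_swap]
      · rw [if_neg h6, Finset.card_eq_zero, Finset.filter_eq_empty_iff]
        rintro b _ ⟨hab, hs⟩
        rw [Sym2.eq_iff] at hs
        rcases hs with hs | hs
        · exact absurd hs.1 h5
        · apply h6
          rw [pow_two, Perm.mul_apply, hs.1, hs.2]
  rw [h2] at h1
  rw [← h1]
  rw [Finset.sum_congr rfl (fun a _ => h3 a)]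
  have h8 : ∑ a : W, (if σ a = a then #{w : W | σ w = w} - 1 else
      if (σ ^ 2) a = a then 1 else 0) + #{w : W | σ w = w} =
      #{w : W | σ w = w} * (#{w : W | σ w = w} - 1) + #{w : W | (σ ^ 2) w = w} := by
    have h9 : #{w : W | (σ ^ 2) w = w} = ∑ a : W, if (σ ^ 2) a = a then 1 else 0 := by
      rw [Finset.card_filter]
    have h10 : #{w : W | σ w = w} = ∑ a : W, if σ a = a then 1 else 0 := by
      rw [Finset.card_filter]
    have h11 : #{w : W | σ w = w} * (#{w : W | σ w = w} - 1) =
        ∑ a : W, if σ a = a then (#{w : W | σ w = w} - 1) else 0 := by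
      rw [← Finset.sum_filter, Finset.sum_const, smul_eq_mul]
    rw [h11, h9]
    nth_rw 2 [h10]
    rw [← Finset.sum_add_distrib, ← Finset.sum_add_distrib]
    refine Finset.sum_congr rfl fun a _ => ?_
    by_cases h5 : σ a = a
    · have h6 : (σ ^ 2) a = a := by rw [pow_two, Perm.mul_apply, h5, h5]
      simp only [h5, h6, if_true]
    · simp only [h5, if_false]; ring
  have h12 : #{w : W | σ w = w} * (#{w : W | σ w = w} - 1) + #{w : W | σ w = w} =
      #{w : W | σ w = w} ^ 2 := by
    rcases Nat.eq_zero_or_pos (#{w : W | σ w = w}) with h | h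
    · rw [h]; simp
    · obtain ⟨n, hn⟩ : ∃ n, #{w : W | σ w = w} = n + 1 := ⟨_, (Nat.sub_add_cancel h).symm⟩
      rw [hn, Nat.add_sub_cancel]; ring
  omega


open Classical in
theorem QW_inv {F : Type} [Field F] (W : Type) [Fintype W] [inst : DecidableEq W]
    (τ : Perm W) (x : F) :
    QW W τ x = ∑ S : Finset (EE W), (if ∀ e, gE τ e ∈ S ↔ e ∈ S then x ^ #S else 0) := by
  obtain rfl : inst = fun a b => Classical.propDecidable (a = b) := Subsingleton.elim _ _
  unfold QW
  let toF : SimpleGraph W → Finset (EE W) := fun G => {e : EE W | e.1 ∈ G.edgeSet}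
  let toG : Finset (EE W) → SimpleGraph W := fun S =>
    { Adj := fun a b => ∃ h : ¬ (s(a, b)).IsDiag, (⟨s(a, b), h⟩ : EE W) ∈ S
      symm := ⟨fun a b ⟨h, h'⟩ => by
        have : s(a, b) = s(b, a) := Sym2.eq_swap
        refine ⟨by rw [← this]; exact h, ?_⟩
        have h2 : (⟨s(b, a), by rw [← this]; exact h⟩ : EE W) = ⟨s(a, b), h⟩ := Subtype.ext this.symm
        rw [h2]; exact h'⟩
      loopless := ⟨fun a ⟨h, _⟩ => h (by rw [Sym2.mk_isDiag_iff])⟩ }
  have hF : ∀ G (e : EE W), e ∈ toF G ↔ e.1 ∈ G.edgeSet := by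
    intro G e
    simp [toF]
  have hG : ∀ S (e : EE W), e.1 ∈ (toG S).edgeSet ↔ e ∈ S := by
    intro S e
    obtain ⟨e, he⟩ := e
    induction e using Sym2.inductionOn with
    | hf a b =>
      rw [SimpleGraph.mem_edgeSet]
      exact ⟨fun ⟨_, h⟩ => h, fun h => ⟨he, h⟩⟩
  refine Finset.sum_bij' (i := fun G _ => toF G) (j := fun S _ => toG S)
    (fun _ _ => Finset.mem_univ _) (fun _ _ => Finset.mem_univ _) ?_ ?_ ?_
  · intro G _
    ext a b
    by_cases hab : a = b
    · subst hab; simp
    · have h1 : ¬ (s(a, b)).IsDiag := by rwa [Sym2.mk_isDiag_iff]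
      have := hG (toF G) ⟨s(a, b), h1⟩
      rw [hF, SimpleGraph.mem_edgeSet, SimpleGraph.mem_edgeSet] at this
      exact this
  · intro S _
    ext e
    rw [hF, hG]
  · intro G _
    have h1 : (∀ a b, G.Adj (τ a) (τ b) ↔ G.Adj a b) ↔ (∀ e, gE τ e ∈ toF G ↔ e ∈ toF G) := by
      constructor
      · intro h e
        rw [hF, hF, gE_val]
        obtain ⟨e, he⟩ := e
        induction e using Sym2.inductionOn with
        | hf a b =>
          rw [Sym2.map_mk, SimpleGraph.mem_edgeSet, SimpleGraph.mem_edgeSet]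
          exact h a b
      · intro h a b
        by_cases hab : a = b
        · subst hab; simp
        · have h1 : ¬ (s(a, b)).IsDiag := by rwa [Sym2.mk_isDiag_iff]
          have := h ⟨s(a, b), h1⟩
          rw [hF, hF, gE_val, Sym2.map_mk, SimpleGraph.mem_edgeSet, SimpleGraph.mem_edgeSet] at this
          exact this
    have h2 : Nat.card G.edgeSet = #(toF G) := by
      rw [← Nat.card_eq_finsetCard]
      refine Nat.card_congr
        { toFun := fun e => ⟨⟨e.1, G.not_isDiag_of_mem_edgeSet e.2⟩, (hF _ _).2 e.2⟩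
          invFun := fun e => ⟨e.1.1, (hF _ _).1 e.2⟩
          left_inv := fun e => rfl
          right_inv := fun e => rfl }
    rw [h2]
    by_cases h3 : (∀ a b, G.Adj (τ a) (τ b) ↔ G.Adj a b)
    · rw [if_pos h3, if_pos (h1.1 h3)]
    · rw [if_neg h3, if_neg (fun h => h3 (h1.2 h))]

/-- the multiset of the lengths of the cycles on the pairs, from the cycle type -/
def M2 (K : ℕ) (j : ℕ → ℕ) : Multiset ℕ :=
  (∑ k ∈ Icc 1 K, (((k - 1) / 2 * j k + k * (j k).choose 2) • ({k} : Multiset ℕ) +
    (if Even k then (j k) • ({k / 2} : Multiset ℕ) else 0))) +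
  ∑ k ∈ Icc 1 K, ∑ l ∈ Icc (k + 1) K, (k.gcd l * j k * j l) • ({k.lcm l} : Multiset ℕ)

theorem M2_pos (K : ℕ) (j : ℕ → ℕ) : ∀ L ∈ M2 K j, L ≠ 0 := by
  intro L hL
  rw [M2, Multiset.mem_add] at hL
  rcases hL with hL | hL
  · rw [Multiset.mem_sum] at hL
    obtain ⟨k, hk, hL⟩ := hL
    rw [mem_Icc] at hk
    rw [Multiset.mem_add] at hL
    rcases hL with hL | hL
    · rw [Multiset.mem_nsmul, Multiset.mem_singleton] at hL
      omega
    · by_cases he : Even k
      · rw [if_pos he, Multiset.mem_nsmul, Multiset.mem_singleton] at hL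
        obtain ⟨m, hm⟩ := he
        omega
      · rw [if_neg he] at hL
        simp at hL
  · rw [Multiset.mem_sum] at hL
    obtain ⟨k, hk, hL⟩ := hL
    rw [Multiset.mem_sum] at hL
    obtain ⟨l, hl, hL⟩ := hL
    rw [mem_Icc] at hk hl
    rw [Multiset.mem_nsmul, Multiset.mem_singleton] at hL
    rw [hL.2]
    exact Nat.lcm_ne_zero (by omega) (by omega)

theorem M2_prod {F : Type} [Field F] (x : F) (K : ℕ) (j : ℕ → ℕ) :
    ((M2 K j).map (fun L => 1 + x ^ L)).prod = pgr x K j := by
  rw [M2, pgr, Multiset.map_add, Multiset.prod_add]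
  have hs : ∀ {ι : Type} (s : Finset ι) (f : ι → Multiset ℕ),
      ((∑ i ∈ s, f i).map (fun L => 1 + x ^ L)).prod =
        ∏ i ∈ s, ((f i).map (fun L => 1 + x ^ L)).prod := by
    intro ι s f
    classical
    induction s using Finset.induction_on with
    | empty => simp
    | insert a s ha ih =>
      rw [Finset.sum_insert ha, Finset.prod_insert ha, Multiset.map_add, Multiset.prod_add, ih]
  have hn : ∀ (n L : ℕ), ((n • ({L} : Multiset ℕ)).map (fun L => 1 + x ^ L)).prod =
      (1 + x ^ L) ^ n := by
    intro n L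
    rw [Multiset.map_nsmul, Multiset.prod_nsmul, Multiset.map_singleton, Multiset.prod_singleton]
  rw [hs, hs]
  congr 1
  · refine Finset.prod_congr rfl fun k _ => ?_
    rw [Multiset.map_add, Multiset.prod_add, hn]
    split_ifs
    · rw [hn]
    · simp
  · refine Finset.prod_congr rfl fun k _ => ?_
    rw [hs]
    refine Finset.prod_congr rfl fun l _ => ?_
    rw [hn]

theorem M2_sum (K : ℕ) (j : ℕ → ℕ) (r : ℕ) :
    ((M2 K j).map (fun L => if L ∣ r then L else 0)).sum =
      ∑ k ∈ Icc 1 K, (((k - 1) / 2 * j k + k * (j k).choose 2) * (if k ∣ r then k else 0) +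
        (if Even k then j k * (if k / 2 ∣ r then k / 2 else 0) else 0)) +
      ∑ k ∈ Icc 1 K, ∑ l ∈ Icc (k + 1) K,
        (k.gcd l * j k * j l) * (if k.lcm l ∣ r then k.lcm l else 0) := by
  rw [M2, Multiset.map_add, Multiset.sum_add]
  have hs : ∀ {ι : Type} (s : Finset ι) (f : ι → Multiset ℕ),
      ((∑ i ∈ s, f i).map (fun L => if L ∣ r then L else 0)).sum =
        ∑ i ∈ s, ((f i).map (fun L => if L ∣ r then L else 0)).sum := by
    intro ι s f
    classical
    induction s using Finset.induction_on with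
    | empty => simp
    | insert a s ha ih =>
      rw [Finset.sum_insert ha, Finset.sum_insert ha, Multiset.map_add, Multiset.sum_add, ih]
  have hn : ∀ (n L : ℕ), ((n • ({L} : Multiset ℕ)).map (fun L => if L ∣ r then L else 0)).sum =
      n * (if L ∣ r then L else 0) := by
    intro n L
    rw [Multiset.map_nsmul, Multiset.sum_nsmul, Multiset.map_singleton, Multiset.sum_singleton,
      smul_eq_mul]
  rw [hs, hs]
  congr 1
  · refine Finset.sum_congr rfl fun k _ => ?_
    rw [Multiset.map_add, Multiset.sum_add, hn]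
    congr 1
    by_cases h : Even k
    · rw [if_pos h, if_pos h, hn]
    · rw [if_neg h, if_neg h]; simp
  · refine Finset.sum_congr rfl fun k _ => ?_
    rw [hs]
    refine Finset.sum_congr rfl fun l _ => ?_
    rw [hn]

/-- twice the number of fixed pairs in terms of the cycle type -/
theorem two_M2 (K : ℕ) (j : ℕ → ℕ) (r : ℕ) :
    2 * ((M2 K j).map (fun L => if L ∣ r then L else 0)).sum + fixn K j r + fixn K j r =
      fixn K j r ^ 2 + fixn K j (2 * r) := by
  have h1 := S_a K j r
  have h2 := rev K j r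
  rw [M2_sum, Finset.sum_add_distrib]
  have h3 : 2 * ∑ k ∈ Icc 1 K, (if Even k then j k * (if k / 2 ∣ r then k / 2 else 0) else 0) =
      (∑ k ∈ Icc 1 K, if Even k ∧ k ∣ r then k * j k else 0) +
      ∑ k ∈ Icc 1 K, (if Even k ∧ k / 2 ∣ r ∧ ¬ k ∣ r then k * j k else 0) := by
    rw [Finset.mul_sum, ← Finset.sum_add_distrib]
    refine Finset.sum_congr rfl fun k _ => ?_
    by_cases he : Even k
    · have hk : 2 * (k / 2) = k := Nat.mul_div_cancel' he.two_dvd
      by_cases h4 : k / 2 ∣ r
      · by_cases h5 : k ∣ r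
        · simp only [he, h4, h5, if_true, and_self, not_true_eq_false, and_false, if_false]
          calc 2 * (j k * (k / 2)) = (2 * (k / 2)) * j k := by ring
            _ = _ := by rw [hk]; ring
        · simp only [he, h4, h5, if_true, and_self, not_false_eq_true, and_false, if_false]
          calc 2 * (j k * (k / 2)) = (2 * (k / 2)) * j k := by ring
            _ = _ := by rw [hk]; ring
      · have h5 : ¬ k ∣ r := fun h => h4 ((Dvd.intro_left 2 hk).trans h)
        simp [he, h4, h5]
    · simp [he]
  linarith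

theorem QW_eq {F : Type} [Field F] [CharZero F] (W : Type) [Fintype W] [DecidableEq W]
    (τ : Perm W) (x : F) (K : ℕ) (hK : Fintype.card W ≤ K) :
    QW W τ x = pgr x K (cyc τ) := by
  classical
  rw [QW_inv, sum_inv, ← M2_prod]
  have h : parts (gE τ) = M2 K (cyc τ) := by
    refine multiset_eq _ _ (parts_pos _) (M2_pos _ _) fun r hr => ?_
    rw [← card_fix]
    have h1 := two_M2 K (cyc τ) r
    have h2 := two_mul_fix (τ ^ r)
    have h3 : #{e : EE W | Sym2.map (τ ^ r : Perm W) e.1 = e.1} =
        #{e : EE W | ((gE τ) ^ r) e = e} := by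
      congr 1
      ext e
      rw [Finset.mem_filter, Finset.mem_filter]
      refine and_congr_right fun _ => ?_
      rw [Subtype.ext_iff, gE_pow]
    have h4 : ∀ r, 1 ≤ r → #{w : W | (τ ^ r) w = w} = fixn K (cyc τ) r := by
      intro r hr
      rw [← Pool.Agent.TH405.J380.card_fixed_pow τ K hK r hr, Nat.card_eq_fintype_card,
        Fintype.card_subtype]
    rw [h3, h4 r hr, ← pow_mul, h4 (r * 2) (by omega), mul_comm r 2] at h2
    omega
  rw [h]

end Pool.Agent.TH365.J379
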