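import Pool.Agent.TH365.HI.Common
set_option autoImplicit false
open Finset Equiv
namespace Pool.Agent.TH365.J378
open Pool.Agent.TH349.HI Pool.Agent.TH365.HI

variable {F : Type} [Field F]

/-- logarithmic derivative up to degree `n` -/
def LDn (n : ℕ) (Y : PowerSeries F) (c : ℕ → F) : Prop :=
  PowerSeries.constantCoeff Y = 1 ∧ ∃ R : PowerSeries F,
    PowerSeries.X * PowerSeries.derivative F Y = Y * R ∧ ∀ i ≤ n, PowerSeries.coeff i R = c i

theorem LDn.congr {n : ℕ} {Y : PowerSeries F} {c c' : ℕ → F} (h : LDn n Y c)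
    (hc : ∀ i ≤ n, c i = c' i) : LDn n Y c' := by
  obtain ⟨h0, R, hR, h1⟩ := h
  exact ⟨h0, R, hR, fun i hi => by rw [h1 i hi, hc i hi]⟩

theorem LDn.one (n : ℕ) : LDn n (1 : PowerSeries F) (fun _ => 0) := by
  refine ⟨by simp, 0, ?_, by simp⟩
  simp

theorem LDn.mul {n : ℕ} {A B : PowerSeries F} {a b : ℕ → F} (hA : LDn n A a) (hB : LDn n B b) :
    LDn n (A * B) (fun i => a i + b i) := by
  obtain ⟨h0, R, hR, h1⟩ := hA
  obtain ⟨h0', R', hR', h1'⟩ := hB
  refine ⟨by rw [map_mul, h0, h0', mul_one], R + R', ?_, fun i hi => ?_⟩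
  · rw [Derivation.leibniz, smul_eq_mul, smul_eq_mul]
    calc PowerSeries.X * (A * PowerSeries.derivative F B + B * PowerSeries.derivative F A)
        = A * (PowerSeries.X * PowerSeries.derivative F B) +
          B * (PowerSeries.X * PowerSeries.derivative F A) := by ring
      _ = A * B * (R + R') := by rw [hR, hR']; ring
  · rw [map_add, h1 i hi, h1' i hi]

theorem LDn.pow {n : ℕ} {A : PowerSeries F} {a : ℕ → F} (hA : LDn n A a) (k : ℕ) :
    LDn n (A ^ k) (fun i => (k : F) * a i) := by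
  induction k with
  | zero => simpa using LDn.one (F := F) n
  | succ k ih =>
    rw [pow_succ]
    refine (ih.mul hA).congr fun i _ => ?_
    push_cast
    ring

theorem LDn.inv {n : ℕ} {A : PowerSeries F} {a : ℕ → F} (hA : LDn n A a) :
    LDn n (A⁻¹) (fun i => - a i) := by
  obtain ⟨h0, R, hR, h1⟩ := hA
  have hne : PowerSeries.constantCoeff A ≠ 0 := by rw [h0]; exact one_ne_zero
  have hA0 : A ≠ 0 := by
    rintro rfl
    simp at h0
  have hm : A * A⁻¹ = 1 := PowerSeries.mul_inv_cancel A hne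
  refine ⟨by rw [PowerSeries.constantCoeff_inv, h0, inv_one], -R, ?_, fun i hi => by
    rw [map_neg, h1 i hi]⟩
  have h2 : PowerSeries.derivative F (A * A⁻¹) = 0 := by rw [hm]; simp
  rw [Derivation.leibniz, smul_eq_mul, smul_eq_mul] at h2
  apply mul_left_cancel₀ hA0
  calc A * (PowerSeries.X * PowerSeries.derivative F A⁻¹)
      = PowerSeries.X * (A * PowerSeries.derivative F A⁻¹ + A⁻¹ * PowerSeries.derivative F A) -
        A⁻¹ * (PowerSeries.X * PowerSeries.derivative F A) := by ring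
    _ = A * (A⁻¹ * (-R)) := by rw [h2, hR]; ring

theorem LDn.prod {n : ℕ} {ι : Type} (s : Finset ι) (A : ι → PowerSeries F) (a : ι → ℕ → F)
    (h : ∀ i ∈ s, LDn n (A i) (a i)) : LDn n (∏ i ∈ s, A i) (fun k => ∑ i ∈ s, a i k) := by
  classical
  induction s using Finset.induction_on with
  | empty => simpa using LDn.one (F := F) n
  | insert b s hb ih =>
    rw [Finset.prod_insert hb]
    refine ((h b (Finset.mem_insert_self _ _)).mul
      (ih fun i hi => h i (Finset.mem_insert_of_mem hi))).congr fun k _ => ?_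
    rw [Finset.sum_insert hb]

theorem coeff_XD (Y : PowerSeries F) (i : ℕ) :
    PowerSeries.coeff i (PowerSeries.X * PowerSeries.derivative F Y) =
      (i : F) * PowerSeries.coeff i Y := by
  rcases i with _ | i
  · simp
  · rw [PowerSeries.coeff_succ_X_mul, PowerSeries.coeff_derivative]
    push_cast
    ring

theorem LDn.fac (n : ℕ) (c : F) (b : ℕ) (hb : 1 ≤ b) :
    LDn n (fac c b) (fun i => if b ∣ i ∧ 1 ≤ i then -((b : F) * c ^ (i / b)) else 0) := by
  refine ⟨by simp [Pool.Agent.TH349.HI.fac, show b ≠ 0 by omega], PowerSeries.mk (fun i => if b ∣ i ∧ 1 ≤ i then -((b : F) * c ^ (i / b)) else 0),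
    ?_, fun i _ => by rw [PowerSeries.coeff_mk]⟩
  ext i
  rw [coeff_XD, Pool.Agent.TH349.HI.fac, sub_mul (1 : PowerSeries F), one_mul, map_sub, map_sub,
    PowerSeries.coeff_mk, mul_assoc,
    PowerSeries.coeff_C_mul, PowerSeries.coeff_C_mul, PowerSeries.coeff_X_pow_mul',
    PowerSeries.coeff_X_pow, PowerSeries.coeff_one]
  by_cases h0 : i = 0
  · subst h0
    simp [show ¬ b = 0 by omega]
  by_cases h1 : i < b
  · have h2 : ¬ b ∣ i := fun h => by
      have := Nat.le_of_dvd (by omega) h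
      omega
    simp [h0, h2, show ¬ i = b by omega, show ¬ b ≤ i by omega]
  by_cases h2 : i = b
  · subst h2
    rw [if_neg h0, if_pos rfl, if_pos ⟨dvd_rfl, hb⟩, if_pos le_rfl, PowerSeries.coeff_mk,
      Nat.div_self (by omega), if_neg (by omega)]
    ring
  · rw [if_neg h0, if_neg h2, if_pos (show b ≤ i by omega), PowerSeries.coeff_mk]
    by_cases h3 : b ∣ i
    · have h4 : b ∣ i - b := Nat.dvd_sub h3 dvd_rfl
      rw [if_pos ⟨h3, by omega⟩, if_pos ⟨h4, by omega⟩]
      have h5 : i / b = (i - b) / b + 1 := by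
        rw [Nat.div_eq_sub_div (by omega) (by omega)]
      rw [h5, pow_succ]
      ring
    · have h4 : ¬ b ∣ i - b := fun h => h3 ((Nat.dvd_sub_iff_left (by omega) dvd_rfl).1 h)
      rw [if_neg (fun h => h3 h.1), if_neg (fun h => h4 h.1)]
      ring

/-- final recursion -/
theorem LDn.rec {n : ℕ} {Y : PowerSeries F} {c : ℕ → F} (h : LDn n Y c) (M : ℕ) (hM : M ≤ n) :
    (M : F) * PowerSeries.coeff M Y = ∑ i ∈ range (M + 1), c i * PowerSeries.coeff (M - i) Y := by
  obtain ⟨h0, R, hR, h1⟩ := h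
  rw [← coeff_XD, hR, mul_comm, PowerSeries.coeff_mul,
    Finset.Nat.sum_antidiagonal_eq_sum_range_succ_mk]
  refine Finset.sum_congr rfl fun i hi => ?_
  rw [Finset.mem_range] at hi
  rw [h1 i (by omega)]

/-- divisor sums -/
def dv (G : ℕ → ℕ → F) (i : ℕ) : F := ∑ m ∈ i.divisors, G m (i / m)

theorem dv_zero (G : ℕ → ℕ → F) : dv G 0 = 0 := by simp [dv]

theorem dv_eq {n : ℕ} (G : ℕ → ℕ → F) (i : ℕ) (hi : 1 ≤ i) (hn : i ≤ n) :
    dv G i = ∑ m ∈ Icc 1 n, if m ∣ i then G m (i / m) else 0 := by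
  unfold dv
  rw [← Finset.sum_filter]
  refine Finset.sum_congr ?_ fun _ _ => rfl
  ext m
  rw [Nat.mem_divisors, mem_filter, mem_Icc]
  constructor
  · rintro ⟨h1, h2⟩
    exact ⟨⟨Nat.pos_of_dvd_of_pos h1 hi, (Nat.le_of_dvd hi h1).trans hn⟩, h1⟩
  · rintro ⟨_, h2⟩
    exact ⟨h2, by omega⟩

theorem dvd_div {l m i : ℕ} (_hl : 1 ≤ l) (_hm : 1 ≤ m) (hmi : m ∣ i) : l * m ∣ i ↔ l ∣ i / m := by
  rw [Nat.dvd_div_iff_mul_dvd hmi, mul_comm]

theorem div_div' {l m i : ℕ} : i / (l * m) = i / m / l := by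
  rw [Nat.div_div_eq_div_mul, mul_comm]

/-- a product of factors `fac` with exponents `lm` -/
theorem LDn.al (n l : ℕ) (hl : 1 ≤ l) (x : F) :
    LDn n (al x n l) (dv (fun m r => (m : F) * x ^ (r * (m + 1)) *
      ((-1) ^ m * (if l ∣ r then (l : F) else 0)))) := by
  unfold Pool.Agent.TH349.HI.al
  refine (LDn.prod (n := n) (Icc 1 n) _ (fun m i => if l * m ∣ i ∧ 1 ≤ i then
    (-1) ^ m * (((l * m : ℕ) : F) * (x ^ (l * (m + 1))) ^ (i / (l * m))) else 0) ?_).congr ?_
  · intro m hm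
    rw [mem_Icc] at hm
    split_ifs with ho
    · refine (LDn.fac n _ _ (Nat.mul_pos hl hm.1)).congr fun i _ => ?_
      rw [ho.neg_one_pow]
      split_ifs
      · ring
      · rfl
    · refine (LDn.fac n _ _ (Nat.mul_pos hl hm.1)).inv.congr fun i _ => ?_
      rw [Nat.not_odd_iff_even] at ho
      rw [ho.neg_one_pow]
      split_ifs
      · ring
      · simp
  · intro i hi
    rcases Nat.eq_zero_or_pos i with rfl | hi0
    · rw [dv_zero]
      simp
    · rw [dv_eq _ i hi0 hi]
      refine Finset.sum_congr rfl fun m hm => ?_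
      rw [mem_Icc] at hm
      by_cases h1 : m ∣ i
      · rw [if_pos h1]
        by_cases h2 : l ∣ i / m
        · rw [if_pos ⟨(dvd_div hl hm.1 h1).2 h2, hi0⟩, if_pos h2, ← pow_mul, div_div']
          have h3 : l * (m + 1) * (i / m / l) = i / m * (m + 1) := by
            calc l * (m + 1) * (i / m / l) = (l * (i / m / l)) * (m + 1) := by ring
              _ = _ := by rw [Nat.mul_div_cancel' h2]
          rw [h3]
          push_cast
          ring
        · rw [if_neg (fun h => h2 ((dvd_div hl hm.1 h1).1 h.1)), if_neg h2]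
          ring
      · rw [if_neg h1, if_neg (fun h => h1 ((Dvd.intro_left l rfl).trans h.1))]

theorem LDn.be (n l : ℕ) (hl : 1 ≤ l) (x : F) :
    LDn n (be x n l) (dv (fun m r => (m : F) * x ^ (r * (m + 1)) *
      (if l ∣ r then (l : F) * (if Even (r / l) then (-1) ^ m else (-1) ^ ((m + 1) / 2)) else 0))) := by
  unfold Pool.Agent.TH349.HI.be
  refine (LDn.prod (n := n) (Icc 1 n) _ (fun m i => if l * m ∣ i ∧ 1 ≤ i then
    (if Even (i / (l * m)) then (-1) ^ m else (-1) ^ ((m + 1) / 2)) *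
      (((l * m : ℕ) : F) * (x ^ (l * (m + 1))) ^ (i / (l * m))) else 0) ?_).congr ?_
  · intro m hm
    rw [mem_Icc] at hm
    split_ifs with ho
    · refine (LDn.fac n _ _ (Nat.mul_pos hl hm.1)).congr fun i _ => ?_
      by_cases h1 : l * m ∣ i ∧ 1 ≤ i
      · rw [if_pos h1, if_pos h1]
        rw [neg_eq_neg_one_mul ((-1 : F) ^ ((m + 1) / 2) * x ^ (l * (m + 1))), mul_pow, mul_pow]
        by_cases h2 : Even (i / (l * m))
        · rw [if_pos h2, h2.neg_one_pow, ho.neg_one_pow, ← pow_mul, mul_comm ((m + 1) / 2), pow_mul,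
            h2.neg_one_pow, one_pow]
          ring
        · rw [if_neg h2]
          rw [Nat.not_even_iff_odd] at h2
          rw [h2.neg_one_pow, ← pow_mul, mul_comm ((m + 1) / 2), pow_mul, h2.neg_one_pow]
          ring
      · rw [if_neg h1, if_neg h1]
    · refine (LDn.fac n _ _ (Nat.mul_pos hl hm.1)).inv.congr fun i _ => ?_
      by_cases h1 : l * m ∣ i ∧ 1 ≤ i
      · rw [if_pos h1, if_pos h1, mul_pow]
        rw [Nat.not_odd_iff_even] at ho
        by_cases h2 : Even (i / (l * m))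
        · rw [if_pos h2, ho.neg_one_pow, ← pow_mul, mul_comm (m / 2), pow_mul,
            h2.neg_one_pow, one_pow]
          ring
        · rw [if_neg h2]
          rw [Nat.not_even_iff_odd] at h2
          have h3 : (m + 1) / 2 = m / 2 := by
            obtain ⟨t, ht⟩ := ho
            omega
          rw [← pow_mul, mul_comm (m / 2), pow_mul, h2.neg_one_pow, h3]
          ring
      · rw [if_neg h1, if_neg h1]
        simp
  · intro i hi
    rcases Nat.eq_zero_or_pos i with rfl | hi0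
    · rw [dv_zero]
      simp
    · rw [dv_eq _ i hi0 hi]
      refine Finset.sum_congr rfl fun m hm => ?_
      rw [mem_Icc] at hm
      by_cases h1 : m ∣ i
      · rw [if_pos h1]
        by_cases h2 : l ∣ i / m
        · rw [if_pos ⟨(dvd_div hl hm.1 h1).2 h2, hi0⟩, if_pos h2, ← pow_mul, div_div']
          have h3 : l * (m + 1) * (i / m / l) = i / m * (m + 1) := by
            calc l * (m + 1) * (i / m / l) = (l * (i / m / l)) * (m + 1) := by ring
              _ = _ := by rw [Nat.mul_div_cancel' h2]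
          rw [h3]
          push_cast
          ring
        · rw [if_neg (fun h => h2 ((dvd_div hl hm.1 h1).1 h.1)), if_neg h2]
          ring
      · rw [if_neg h1, if_neg (fun h => h1 ((Dvd.intro_left l rfl).trans h.1))]

/-- reindexing of the `m ≡ 0, 1 (mod 4)` -/
theorem sum_mod (n : ℕ) (f : ℕ → F) (a : ℕ) (ha : a < 4) (hf : ∀ m, n < m → f m = 0) :
    ∑ k ∈ Icc 1 n, f (4 * k + a) = ∑ m ∈ Icc 1 n, if m % 4 = a ∧ 4 ≤ m then f m else 0 := by
  rw [← Finset.sum_filter]
  have h1 : ∑ k ∈ Icc 1 n, f (4 * k + a) = ∑ k ∈ (Icc 1 n).filter (fun k => 4 * k + a ≤ n), f (4 * k + a) := by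
    rw [Finset.sum_filter]
    refine Finset.sum_congr rfl fun k _ => ?_
    split_ifs with h
    · rfl
    · exact hf _ (by omega)
  rw [h1]
  refine Finset.sum_nbij' (i := fun k => 4 * k + a) (j := fun m => m / 4) ?_ ?_ ?_ ?_ ?_
  · intro k hk
    simp only [mem_filter, mem_Icc] at hk ⊢
    omega
  · intro k hk
    simp only [mem_filter, mem_Icc] at hk ⊢
    omega
  · intro k hk
    simp only [mem_filter, mem_Icc] at hk ⊢
    omega
  · intro k hk
    simp only [mem_filter, mem_Icc] at hk ⊢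
    omega
  · intro k hk
    rfl

theorem LDn.la (n l : ℕ) (hl : 1 ≤ l) (x : F) :
    LDn n (la x n l) (dv (fun m r => (m : F) * x ^ (r * (m + 1)) *
      ((if m % 4 = 0 ∧ 4 ≤ m then 1 else if m % 4 = 1 ∧ 4 ≤ m then -1 else 0) *
        (if l ∣ r then (l : F) else 0)))) := by
  unfold Pool.Agent.TH349.HI.la
  refine (LDn.prod (n := n) (Icc 1 n) _ (fun k i =>
    (if l * (4 * k + 1) ∣ i ∧ 1 ≤ i then
      -(((l * (4 * k + 1) : ℕ) : F) * (x ^ (l * (4 * k + 1 + 1))) ^ (i / (l * (4 * k + 1)))) else 0) +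
    (if l * (4 * k + 0) ∣ i ∧ 1 ≤ i then
      ((l * (4 * k + 0) : ℕ) : F) * (x ^ (l * (4 * k + 0 + 1))) ^ (i / (l * (4 * k + 0))) else 0)) ?_).congr ?_
  · intro k hk
    rw [mem_Icc] at hk
    refine ((LDn.fac n _ _ (Nat.mul_pos hl (by omega))).mul
      (LDn.fac n _ _ (Nat.mul_pos hl (by omega))).inv).congr fun i _ => ?_
    congr 1
    · rw [add_zero]
      split_ifs
      · ring
      · simp
  · intro i hi
    rcases Nat.eq_zero_or_pos i with rfl | hi0
    · rw [dv_zero]
      simp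
    · rw [Finset.sum_add_distrib]
      have hz : ∀ m, n < m → ¬ (l * m ∣ i ∧ 1 ≤ i) := by
        intro m hm h
        have := Nat.le_of_dvd hi0 h.1
        nlinarith
      rw [sum_mod n (fun m => if l * m ∣ i ∧ 1 ≤ i then
          -(((l * m : ℕ) : F) * (x ^ (l * (m + 1))) ^ (i / (l * m))) else 0) 1 (by norm_num)
          (fun m hm => if_neg (hz m hm)),
        sum_mod n (fun m => if l * m ∣ i ∧ 1 ≤ i then
          (((l * m : ℕ) : F) * (x ^ (l * (m + 1))) ^ (i / (l * m))) else 0) 0 (by norm_num)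
          (fun m hm => if_neg (hz m hm)), ← Finset.sum_add_distrib,
        dv_eq _ i hi0 hi]
      refine Finset.sum_congr rfl fun m hm => ?_
      rw [mem_Icc] at hm
      by_cases h1 : m ∣ i
      · rw [if_pos h1]
        by_cases h2 : l ∣ i / m
        · rw [if_pos (show l * m ∣ i ∧ 1 ≤ i from ⟨(dvd_div hl hm.1 h1).2 h2, hi0⟩), if_pos h2,
            if_pos (show l * m ∣ i ∧ 1 ≤ i from ⟨(dvd_div hl hm.1 h1).2 h2, hi0⟩), ← pow_mul, div_div']
          have h3 : l * (m + 1) * (i / m / l) = i / m * (m + 1) := by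
            calc l * (m + 1) * (i / m / l) = (l * (i / m / l)) * (m + 1) := by ring
              _ = _ := by rw [Nat.mul_div_cancel' h2]
          rw [h3]
          by_cases h4 : m % 4 = 0 ∧ 4 ≤ m
          · rw [if_neg (show ¬ (m % 4 = 1 ∧ 4 ≤ m) by omega), if_pos h4, if_pos h4]
            push_cast
            ring
          · rw [if_neg h4, if_neg h4]
            split_ifs
            · push_cast; ring
            · ring
        · have h3 : ¬ (l * m ∣ i ∧ 1 ≤ i) := fun h => h2 ((dvd_div hl hm.1 h1).1 h.1)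
          rw [if_neg h2]
          simp only [if_neg h3, ite_self]
          ring
      · have h3 : ¬ (l * m ∣ i ∧ 1 ≤ i) := fun h => h1 ((Dvd.intro_left l rfl).trans h.1)
        rw [if_neg h1]
        simp only [if_neg h3, ite_self]
        ring

theorem LDn.cy (n : ℕ) (x : F) :
    LDn n (cy x n) (dv (fun m r => if m % 4 = 1 ∧ 5 ≤ m then -((m : F) * x ^ (r * m)) else 0)) := by
  unfold Pool.Agent.TH349.HI.cy
  refine (LDn.prod (n := n) (Icc 1 n) _ (fun k i =>
    (if (4 * k + 1) ∣ i ∧ 1 ≤ i then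
      -(((4 * k + 1 : ℕ) : F) * (x ^ (4 * k + 1)) ^ (i / (4 * k + 1))) else 0)) ?_).congr ?_
  · intro k hk
    exact LDn.fac n _ _ (by omega)
  · intro i hi
    rcases Nat.eq_zero_or_pos i with rfl | hi0
    · rw [dv_zero]
      simp
    · have hz : ∀ m, n < m → ¬ (m ∣ i ∧ 1 ≤ i) := by
        intro m hm h
        have := Nat.le_of_dvd hi0 h.1
        omega
      rw [sum_mod n (fun m => if m ∣ i ∧ 1 ≤ i then
          -(((m : ℕ) : F) * (x ^ m) ^ (i / m)) else 0) 1 (by norm_num)
          (fun m hm => if_neg (hz m hm)), dv_eq _ i hi0 hi]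
      refine Finset.sum_congr rfl fun m hm => ?_
      rw [mem_Icc] at hm
      by_cases h1 : m ∣ i
      · rw [if_pos h1, if_pos (show m ∣ i ∧ 1 ≤ i from ⟨h1, hi0⟩), ← pow_mul, mul_comm m (i / m)]
        by_cases h2 : m % 4 = 1 ∧ 4 ≤ m
        · rw [if_pos h2, if_pos (by omega)]
        · rw [if_neg h2, if_neg (by omega)]
      · rw [if_neg h1, if_neg (show ¬ (m ∣ i ∧ 1 ≤ i) from fun h => h1 h.1), ite_self]

theorem mul_dv {n : ℕ} {A B : PowerSeries F} {a b : ℕ → ℕ → F} (hA : LDn n A (dv a))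
    (hB : LDn n B (dv b)) : LDn n (A * B) (dv (fun m r => a m r + b m r)) :=
  (hA.mul hB).congr fun i _ => by simp only [dv]; rw [Finset.sum_add_distrib]

theorem pow_dv {n : ℕ} {A : PowerSeries F} {a : ℕ → ℕ → F} (hA : LDn n A (dv a)) (k : ℕ) :
    LDn n (A ^ k) (dv (fun m r => (k : F) * a m r)) :=
  (hA.pow k).congr fun i _ => by simp only [dv]; rw [Finset.mul_sum]

theorem prod_dv {n : ℕ} {ι : Type} (s : Finset ι) (A : ι → PowerSeries F) (a : ι → ℕ → ℕ → F)
    (h : ∀ i ∈ s, LDn n (A i) (dv (a i))) :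
    LDn n (∏ i ∈ s, A i) (dv (fun m r => ∑ i ∈ s, a i m r)) :=
  (LDn.prod s A (fun i => dv (a i)) h).congr fun i _ => by
    simp only [dv]; rw [Finset.sum_comm]

theorem one_dv (n : ℕ) : LDn n (1 : PowerSeries F) (dv (fun _ _ => 0)) :=
  (LDn.one n).congr fun i _ => by simp [dv]

/-- the logarithmic derivative of the whole product -/
theorem LDn.ppr (x : F) (n K : ℕ) (j : ℕ → ℕ) :
    LDn n (ppr x n K j) (dv (fun m r => (m : F) * x ^ (r * (m + 1)) *
      (∑ k ∈ Icc 1 K, ((j k : F) *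
          ((if m % 4 = 0 ∧ 4 ≤ m then 1 else if m % 4 = 1 ∧ 4 ≤ m then -1 else 0) *
            (if k ∣ r then (k : F) else 0)) +
          (((k - 1) / 2 * j k + k * (j k).choose 2 : ℕ) : F) *
            ((-1) ^ m * (if k ∣ r then (k : F) else 0)) +
          (if Even k then (j k : F) * (if k / 2 ∣ r then ((k / 2 : ℕ) : F) *
            (if Even (r / (k / 2)) then (-1) ^ m else (-1) ^ ((m + 1) / 2)) else 0) else 0)) +
        ∑ k ∈ Icc 1 K, ∑ l ∈ Icc (k + 1) K, ((k.gcd l * j k * j l : ℕ) : F) *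
          ((-1) ^ m * (if k.lcm l ∣ r then ((k.lcm l : ℕ) : F) else 0))))) := by
  unfold Pool.Agent.TH349.HI.ppr
  refine (mul_dv (prod_dv (Icc 1 K) _ (fun k m r => (m : F) * x ^ (r * (m + 1)) *
      ((j k : F) *
          ((if m % 4 = 0 ∧ 4 ≤ m then 1 else if m % 4 = 1 ∧ 4 ≤ m then -1 else 0) *
            (if k ∣ r then (k : F) else 0)) +
          (((k - 1) / 2 * j k + k * (j k).choose 2 : ℕ) : F) *
            ((-1) ^ m * (if k ∣ r then (k : F) else 0)) +
          (if Even k then (j k : F) * (if k / 2 ∣ r then ((k / 2 : ℕ) : F) *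
            (if Even (r / (k / 2)) then (-1) ^ m else (-1) ^ ((m + 1) / 2)) else 0) else 0))) ?_)
    (prod_dv (Icc 1 K) _ (fun k m r => ∑ l ∈ Icc (k + 1) K, (m : F) * x ^ (r * (m + 1)) *
      (((k.gcd l * j k * j l : ℕ) : F) *
          ((-1) ^ m * (if k.lcm l ∣ r then ((k.lcm l : ℕ) : F) else 0)))) ?_)).congr ?_
  · intro k hk
    rw [mem_Icc] at hk
    refine (mul_dv (mul_dv (pow_dv (LDn.la n k hk.1 x) _) (pow_dv (LDn.al n k hk.1 x) _))
      (b := fun m r => (if Even k then (j k : F) * ((m : F) * x ^ (r * (m + 1)) * (if k / 2 ∣ r then ((k / 2 : ℕ) : F) *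
            (if Even (r / (k / 2)) then (-1) ^ m else (-1) ^ ((m + 1) / 2)) else 0)) else 0)) ?_).congr ?_
    · by_cases he : Even k
      · simp only [if_pos he]
        exact pow_dv (LDn.be n (k / 2) (by obtain ⟨t, ht⟩ := he; omega) x) _
      · simp only [if_neg he]
        exact one_dv n
    · intro i _
      unfold dv
      refine Finset.sum_congr rfl fun m _ => ?_
      by_cases he : Even k
      · simp only [if_pos he]
        ring
      · simp only [if_neg he]
        ring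
  · intro k hk
    rw [mem_Icc] at hk
    refine prod_dv _ _ _ fun l hl => ?_
    rw [mem_Icc] at hl
    refine (pow_dv (LDn.al n (k.lcm l) (Nat.lcm_pos (by omega) (by omega)) x) _).congr ?_
    intro i _
    unfold dv
    refine Finset.sum_congr rfl fun m _ => ?_
    ring
  · intro i _
    unfold dv
    refine Finset.sum_congr rfl fun m _ => ?_
    beta_reduce
    rw [mul_add ((m : F) * x ^ (i / m * (m + 1))), Finset.mul_sum, Finset.mul_sum]
    congr 1
    refine Finset.sum_congr rfl fun k _ => ?_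
    rw [Finset.mul_sum]

/-- the bracket -/
theorem bracket [CharZero F] (K : ℕ) (j : ℕ → ℕ) (m r : ℕ) (hm : 1 ≤ m) :
    (∑ k ∈ Icc 1 K, ((j k : F) *
          ((if m % 4 = 0 ∧ 4 ≤ m then 1 else if m % 4 = 1 ∧ 4 ≤ m then -1 else 0) *
            (if k ∣ r then (k : F) else 0)) +
          (((k - 1) / 2 * j k + k * (j k).choose 2 : ℕ) : F) *
            ((-1) ^ m * (if k ∣ r then (k : F) else 0)) +
          (if Even k then (j k : F) * (if k / 2 ∣ r then ((k / 2 : ℕ) : F) *
            (if Even (r / (k / 2)) then (-1) ^ m else (-1) ^ ((m + 1) / 2)) else 0) else 0)) +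
        ∑ k ∈ Icc 1 K, ∑ l ∈ Icc (k + 1) K, ((k.gcd l * j k * j l : ℕ) : F) *
          ((-1) ^ m * (if k.lcm l ∣ r then ((k.lcm l : ℕ) : F) else 0))) =
    (1 / 2) * ((-1) ^ m * ((fixn K j r : F) ^ 2 - if m = 1 then (fixn K j r : F) else 0) +
          (-1) ^ ((m + 1) / 2) * ((fixn K j (2 * r) : F) - if m = 1 then (fixn K j r : F) else 0)) := by
  have h1 : ((2 * (∑ k ∈ Icc 1 K, ((k - 1) / 2 * j k + k * (j k).choose 2) * (if k ∣ r then k else 0) +
      ∑ k ∈ Icc 1 K, ∑ l ∈ Icc (k + 1) K,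
        (k.gcd l * j k * j l) * (if k.lcm l ∣ r then k.lcm l else 0)) +
    (∑ k ∈ Icc 1 K, if Even k ∧ k ∣ r then k * j k else 0) + fixn K j r : ℕ) : F) =
      ((fixn K j r ^ 2 : ℕ) : F) := by rw [S_a K j r]
  have h2 : (fixn K j (2 * r) : F) = ((fixn K j r +
      ∑ k ∈ Icc 1 K, (if Even k ∧ k / 2 ∣ r ∧ ¬ k ∣ r then k * j k else 0) : ℕ) : F) := by
    rw [← rev K j r]
  have h3 : (fixn K j r : F) = ∑ k ∈ Icc 1 K, (j k : F) * (if k ∣ r then (k : F) else 0) := by
    unfold fixn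
    rw [Nat.cast_sum]
    refine Finset.sum_congr rfl fun k _ => ?_
    split_ifs
    · push_cast; ring
    · simp
  have h4 : ∑ k ∈ Icc 1 K, (2 : F) * (if Even k then (j k : F) * (if k / 2 ∣ r then ((k / 2 : ℕ) : F) *
            (if Even (r / (k / 2)) then (-1) ^ m else (-1) ^ ((m + 1) / 2)) else 0) else 0) =
      (-1) ^ m * ∑ k ∈ Icc 1 K, ((if Even k ∧ k ∣ r then k * j k else 0 : ℕ) : F) +
      (-1) ^ ((m + 1) / 2) * ∑ k ∈ Icc 1 K,
        ((if Even k ∧ k / 2 ∣ r ∧ ¬ k ∣ r then k * j k else 0 : ℕ) : F) := by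
    rw [Finset.mul_sum, Finset.mul_sum, ← Finset.sum_add_distrib]
    refine Finset.sum_congr rfl fun k hk => ?_
    rw [mem_Icc] at hk
    by_cases he : Even k
    · have hk2 : 2 * (k / 2) = k := Nat.mul_div_cancel' he.two_dvd
      have hkF : (2 : F) * ((k / 2 : ℕ) : F) = (k : F) := by exact_mod_cast congrArg (Nat.cast (R := F)) hk2
      by_cases h5 : k / 2 ∣ r
      · have h6 : Even (r / (k / 2)) ↔ k ∣ r := by
          rw [even_iff_two_dvd, Nat.dvd_div_iff_mul_dvd h5, mul_comm, hk2]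
        by_cases h7 : k ∣ r
        · rw [if_pos he, if_pos h5, if_pos (h6.2 h7), if_pos ⟨he, h7⟩, if_neg (fun h => h.2.2 h7)]
          push_cast
          linear_combination (j k : F) * (-1) ^ m * hkF
        · rw [if_pos he, if_pos h5, if_neg (fun h => h7 (h6.1 h)), if_neg (fun h => h7 h.2),
            if_pos ⟨he, h5, h7⟩]
          push_cast
          linear_combination (j k : F) * (-1) ^ ((m + 1) / 2) * hkF
      · rw [if_pos he, if_neg h5, if_neg (fun h => h5 ((Dvd.intro_left 2 hk2).trans h.2)),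
          if_neg (fun h => h5 h.2.1)]
        simp
    · rw [if_neg he, if_neg (fun h => he h.1), if_neg (fun h => he h.1)]
      simp
  have h8 : (2 : F) * ((if m % 4 = 0 ∧ 4 ≤ m then 1 else if m % 4 = 1 ∧ 4 ≤ m then -1 else 0) *
        (fixn K j r : F)) =
      (-1) ^ m * ((fixn K j r : F) - if m = 1 then (fixn K j r : F) else 0) +
      (-1) ^ ((m + 1) / 2) * ((fixn K j r : F) - if m = 1 then (fixn K j r : F) else 0) := by
    by_cases hm1 : m = 1
    · subst hm1
      simp
    · have h9 : m % 4 = 0 ∨ m % 4 = 1 ∨ m % 4 = 2 ∨ m % 4 = 3 := by omega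
      rw [if_neg hm1]
      rcases h9 with h9 | h9 | h9 | h9
      · rw [if_pos ⟨h9, by omega⟩]
        have e1 : Even m := ⟨m / 2, by omega⟩
        have e2 : Even ((m + 1) / 2) := ⟨m / 4, by omega⟩
        rw [e1.neg_one_pow, e2.neg_one_pow]
        ring
      · rw [if_neg (by omega), if_pos ⟨h9, by omega⟩]
        have e1 : Odd m := ⟨m / 2, by omega⟩
        have e2 : Odd ((m + 1) / 2) := ⟨m / 4, by omega⟩
        rw [e1.neg_one_pow, e2.neg_one_pow]
        ring
      · rw [if_neg (by omega), if_neg (by omega)]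
        have e1 : Even m := ⟨m / 2, by omega⟩
        have e2 : Odd ((m + 1) / 2) := ⟨m / 4, by omega⟩
        rw [e1.neg_one_pow, e2.neg_one_pow]
        ring
      · rw [if_neg (by omega), if_neg (by omega)]
        have e1 : Odd m := ⟨m / 2, by omega⟩
        have e2 : Even ((m + 1) / 2) := ⟨m / 4 + 1, by omega⟩
        rw [e1.neg_one_pow, e2.neg_one_pow]
        ring
  set s : F := (-1) ^ m with hs
  set s' : F := (-1) ^ ((m + 1) / 2) with hs'
  set e : F := (if m % 4 = 0 ∧ 4 ≤ m then 1 else if m % 4 = 1 ∧ 4 ≤ m then -1 else 0) with he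
  have e1 : ∀ (b : ℕ → F), ∑ k ∈ Icc 1 K, ((j k : F) * (e * (if k ∣ r then (k : F) else 0)) +
          (((k - 1) / 2 * j k + k * (j k).choose 2 : ℕ) : F) *
            (s * (if k ∣ r then (k : F) else 0)) + b k) =
      e * ∑ k ∈ Icc 1 K, (j k : F) * (if k ∣ r then (k : F) else 0) +
      s * ∑ k ∈ Icc 1 K, (((k - 1) / 2 * j k + k * (j k).choose 2 : ℕ) : F) *
        (if k ∣ r then (k : F) else 0) + ∑ k ∈ Icc 1 K, b k := by
    intro b
    rw [Finset.mul_sum, Finset.mul_sum, ← Finset.sum_add_distrib, ← Finset.sum_add_distrib]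
    refine Finset.sum_congr rfl fun k _ => ?_
    ring
  have e2 : ∑ k ∈ Icc 1 K, ∑ l ∈ Icc (k + 1) K, ((k.gcd l * j k * j l : ℕ) : F) *
          (s * (if k.lcm l ∣ r then ((k.lcm l : ℕ) : F) else 0)) =
      s * ∑ k ∈ Icc 1 K, ∑ l ∈ Icc (k + 1) K, ((k.gcd l * j k * j l : ℕ) : F) *
          (if k.lcm l ∣ r then ((k.lcm l : ℕ) : F) else 0) := by
    rw [Finset.mul_sum]
    refine Finset.sum_congr rfl fun k _ => ?_
    rw [Finset.mul_sum]
    refine Finset.sum_congr rfl fun l _ => ?_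
    ring
  have h1' : 2 * (∑ k ∈ Icc 1 K, (((k - 1) / 2 * j k + k * (j k).choose 2 : ℕ) : F) *
        (if k ∣ r then (k : F) else 0) +
      ∑ k ∈ Icc 1 K, ∑ l ∈ Icc (k + 1) K, ((k.gcd l * j k * j l : ℕ) : F) *
          (if k.lcm l ∣ r then ((k.lcm l : ℕ) : F) else 0)) +
      ∑ k ∈ Icc 1 K, ((if Even k ∧ k ∣ r then k * j k else 0 : ℕ) : F) + (fixn K j r : F) =
      (fixn K j r : F) ^ 2 := by
    push_cast at h1 ⊢
    exact h1
  have h2' : (fixn K j (2 * r) : F) = (fixn K j r : F) +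
      ∑ k ∈ Icc 1 K, ((if Even k ∧ k / 2 ∣ r ∧ ¬ k ∣ r then k * j k else 0 : ℕ) : F) := by
    rw [h2]
    push_cast
    rfl
  rw [e1, e2, ← h3]
  rw [← Finset.mul_sum] at h4
  have two : (2 : F) ≠ 0 := two_ne_zero
  apply mul_left_cancel₀ two
  rw [h2'] at *
  linear_combination h8 + s * h1' + h4

theorem prod_rec {F : Type} [Field F] [CharZero F] (x : F) (j : ℕ → ℕ) (K : ℕ) (P : ℕ → F)
    (h0 : P 0 = 1)
    (hP : ∀ M : ℕ, 1 ≤ M → (M : F) * P M = ∑ m ∈ Icc 1 M, ∑ r ∈ Icc 1 (M / m),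
      (m : F) * ((1 / 2) * x ^ (r * (m + 1)) *
        ((-1) ^ m * ((fixn K j r : F) ^ 2 - if m = 1 then (fixn K j r : F) else 0) +
          (-1) ^ ((m + 1) / 2) * ((fixn K j (2 * r) : F) - if m = 1 then (fixn K j r : F) else 0)) -
        if m % 4 = 1 ∧ 5 ≤ m then x ^ (r * m) else 0) * P (M - r * m))
    (n M : ℕ) (hM : M ≤ n) :
    P M = PowerSeries.coeff M (cy x n * ppr x n K j) := by
  have hL : LDn n (cy x n * ppr x n K j) (dv (fun m r =>
      (m : F) * ((1 / 2) * x ^ (r * (m + 1)) *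
        ((-1) ^ m * ((fixn K j r : F) ^ 2 - if m = 1 then (fixn K j r : F) else 0) +
          (-1) ^ ((m + 1) / 2) * ((fixn K j (2 * r) : F) - if m = 1 then (fixn K j r : F) else 0)) -
        if m % 4 = 1 ∧ 5 ≤ m then x ^ (r * m) else 0))) := by
    refine (mul_dv (LDn.cy n x) (LDn.ppr x n K j)).congr fun i hi => ?_
    unfold dv
    refine Finset.sum_congr rfl fun m hm => ?_
    have hm1 : 1 ≤ m := Nat.pos_of_mem_divisors hm
    beta_reduce
    rw [bracket K j m (i / m) hm1]
    split_ifs <;> ring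
  have key : ∀ (g : ℕ → ℕ → F) (M : ℕ), ∑ m ∈ Icc 1 M, ∑ r ∈ Icc 1 (M / m), g m r * P (M - r * m) =
      ∑ i ∈ Icc 1 M, dv g i * P (M - i) := by
    intro g M
    have h1 : ∀ m ∈ Icc 1 M, ∑ r ∈ Icc 1 (M / m), g m r * P (M - r * m) =
        ∑ i ∈ Icc 1 M, (if m ∣ i then g m (i / m) else 0) * P (M - i) := by
      intro m hm
      rw [mem_Icc] at hm
      have h2 : ∑ i ∈ Icc 1 M, (if m ∣ i then g m (i / m) else 0) * P (M - i) =
          ∑ i ∈ (Icc 1 M).filter (fun i => m ∣ i), g m (i / m) * P (M - i) := by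
        rw [Finset.sum_filter]
        refine Finset.sum_congr rfl fun i _ => ?_
        split_ifs <;> simp
      rw [h2]
      refine Finset.sum_nbij' (i := fun r => r * m) (j := fun i => i / m) ?_ ?_ ?_ ?_ ?_
      · intro r hr
        rw [mem_Icc] at hr
        rw [mem_filter, mem_Icc]
        have := (Nat.le_div_iff_mul_le hm.1).1 hr.2
        exact ⟨⟨Nat.mul_pos hr.1 hm.1, this⟩, Dvd.intro_left r rfl⟩
      · intro i hi
        rw [mem_filter, mem_Icc] at hi
        rw [mem_Icc]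
        exact ⟨Nat.div_pos (Nat.le_of_dvd (by omega) hi.2) hm.1, Nat.div_le_div_right hi.1.2⟩
      · intro r hr
        exact Nat.mul_div_cancel r hm.1
      · intro i hi
        rw [mem_filter] at hi
        exact Nat.div_mul_cancel hi.2
      · intro r hr
        rw [Nat.mul_div_cancel r hm.1]
    rw [Finset.sum_congr rfl h1, Finset.sum_comm]
    refine Finset.sum_congr rfl fun i hi => ?_
    rw [mem_Icc] at hi
    rw [dv_eq g i hi.1 hi.2, Finset.sum_mul]
  induction M using Nat.strong_induction_on with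
  | _ M ih =>
    rcases Nat.eq_zero_or_pos M with rfl | hM0
    · rw [h0, PowerSeries.coeff_zero_eq_constantCoeff]
      exact hL.1.symm
    · have h1 := hP M hM0
      have h2 := hL.rec M hM
      rw [key] at h1
      rw [Finset.range_eq_Ico, Finset.sum_eq_sum_Ico_succ_bot (by omega), dv_zero, zero_mul,
        zero_add] at h2
      have h3 : Finset.Ico (0 + 1) (M + 1) = Icc 1 M := by
        ext i; rw [mem_Ico, mem_Icc]; omega
      rw [h3] at h2
      have hMF : (M : F) ≠ 0 := by exact_mod_cast hM0.ne'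
      apply mul_left_cancel₀ hMF
      rw [h1, h2]
      refine Finset.sum_congr rfl fun i hi => ?_
      rw [mem_Icc] at hi
      rw [ih (M - i) (by omega) (by omega)]

end Pool.Agent.TH365.J378
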