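import Pool.Agent.TH722.FI.Defs

/-!
# FI-CELL (job 1704)

Nearest points exist and are unique; the Voronoi cells are connected.
-/

namespace Pool.Agent.TH365.FI

open MeasureTheory Set Filter Pool.Agent.TH722.FI

variable {V W : Type*}

set_option linter.unusedVariables false

theorem blk_refl (T C : SimpleGraph V) (x : V) : Blk T C x x := SimpleGraph.Reachable.refl x

theorem blk_symm {T C : SimpleGraph V} {x y : V} (h : Blk T C x y) : Blk T C y x :=
  SimpleGraph.Reachable.symm h

theorem blk_trans {T C : SimpleGraph V} {x y z : V} (h : Blk T C x y) (h' : Blk T C y z) :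
    Blk T C x z := SimpleGraph.Reachable.trans h h'

theorem near_unique (U T C : SimpleGraph V) (key : V → ℝ) (hkey : Function.Injective key)
    {u x y : V} (hxy : Blk T C x y) (hx : Near U T C key u x) (hy : Near U T C key u y) :
    x = y := by
  have h1 := hx y hxy
  have h2 := hy x (blk_symm hxy)
  rcases h1 with h1 | ⟨h1, k1⟩
  · rcases h2 with h2 | ⟨h2, k2⟩
    · omega
    · omega
  · rcases h2 with h2 | ⟨h2, k2⟩
    · omega
    · exact hkey (le_antisymm k1 k2)

theorem near_exists (U T C : SimpleGraph V) (hU : U.IsTree) (hT : T.IsTree) (hC : C ≤ T)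
    (N : ℕ → ℕ) (hN : BallBd U N) (key : V → ℝ) (hkey : Function.Injective key) (u w : V) :
    ∃! x, Blk T C w x ∧ Near U T C key u x := by
  classical
  have hex : ∃ n, ∃ x, Blk T C w x ∧ U.dist u x = n := ⟨_, w, blk_refl T C w, rfl⟩
  let m := Nat.find hex
  have hm : ∃ x, Blk T C w x ∧ U.dist u x = m := Nat.find_spec hex
  have hmin : ∀ z, Blk T C w z → m ≤ U.dist u z := fun z hz => Nat.find_min' hex ⟨z, hz, rfl⟩
  let M : Set V := {x | Blk T C w x ∧ U.dist u x = m}
  have hMfin : M.Finite := (hN u m).1.subset (fun x hx => le_of_eq hx.2)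
  obtain ⟨x, hxM, hxmin⟩ := Set.exists_min_image M key hMfin hm
  have hnear : Near U T C key u x := by
    intro z hz
    have hwz : Blk T C w z := blk_trans hxM.1 hz
    have h1 := hmin z hwz
    rcases lt_or_eq_of_le h1 with h | h
    · left
      rw [hxM.2]
      exact h
    · right
      refine ⟨hxM.2.trans h, hxmin z ⟨hwz, h.symm⟩⟩
  refine ⟨x, ⟨hxM.1, hnear⟩, ?_⟩
  rintro y ⟨hy1, hy2⟩
  exact near_unique U T C key hkey (blk_trans (blk_symm hy1) hxM.1) hy2 hnear

theorem near_self (U T C : SimpleGraph V) (hU : U.IsTree) (key : V → ℝ) (x : V) :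
    Near U T C key x x := by
  intro w _
  by_cases h : x = w
  · right
    subst h
    exact ⟨rfl, le_rfl⟩
  · left
    rw [SimpleGraph.dist_self]
    exact (hU.connected.pos_dist_of_ne h)

/-- one step towards `x` stays in the cell of `x` -/
theorem near_step (U T C : SimpleGraph V) (hU : U.IsTree) (key : V → ℝ) {u v x : V}
    (huv : U.Adj u v) (hd : U.dist u x = U.dist v x + 1) (h : Near U T C key u x) :
    Near U T C key v x := by
  intro w hw
  have h1 : U.dist u w ≤ U.dist v w + 1 := by
    have h2 : U.dist u w ≤ U.dist u v + U.dist v w := hU.connected.dist_triangle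
    have h3 : U.dist u v = 1 := SimpleGraph.dist_eq_one_iff_adj.mpr huv
    omega
  rcases h w hw with h | ⟨h, hk⟩
  · left
    omega
  · rcases Nat.lt_or_ge (U.dist v x) (U.dist v w) with h' | h'
    · exact Or.inl h'
    · right
      exact ⟨by omega, hk⟩

theorem exists_step (U : SimpleGraph V) (hU : U.Connected) {u x : V} {n : ℕ}
    (h : U.dist u x = n + 1) : ∃ v, U.Adj u v ∧ U.dist v x = n := by
  obtain ⟨p, hp⟩ := hU.exists_walk_length_eq_dist u x
  cases p with
  | nil => simp at h
  | @cons _ v _ huv q =>
    refine ⟨v, huv, ?_⟩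
    have h1 : q.length = n := by
      simp at hp
      omega
    have h2 : U.dist v x ≤ n := by
      rw [← h1]; exact SimpleGraph.dist_le q
    have h3 : U.dist u x ≤ U.dist u v + U.dist v x := hU.dist_triangle
    have h4 : U.dist u v = 1 := SimpleGraph.dist_eq_one_iff_adj.mpr huv
    omega

theorem cell_connected (U T C : SimpleGraph V) (hU : U.IsTree) (hT : T.IsTree) (hC : C ≤ T)
    (key : V → ℝ) (x : V) : (U.induce {u | Near U T C key u x}).Connected := by
  have hx : Near U T C key x x := near_self U T C hU key x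
  have key1 : ∀ (n : ℕ) (u : V) (hu : Near U T C key u x), U.dist u x = n →
      (U.induce {u | Near U T C key u x}).Reachable ⟨u, hu⟩ ⟨x, hx⟩ := by
    intro n
    induction n with
    | zero =>
      intro u hu h0
      have : u = x := by
        have := hU.connected.dist_eq_zero_iff.mp h0
        exact this
      subst this
      exact SimpleGraph.Reachable.refl _
    | succ n ih =>
      intro u hu hn
      obtain ⟨v, huv, hv⟩ := exists_step U hU.connected hn
      have hnv : Near U T C key v x := near_step U T C hU key huv (by omega) hu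
      have hadj : (U.induce {u | Near U T C key u x}).Adj ⟨u, hu⟩ ⟨v, hnv⟩ := huv
      exact hadj.reachable.trans (ih v hnv hv)
  have : Nonempty {u | Near U T C key u x} := ⟨⟨x, hx⟩⟩
  refine SimpleGraph.Connected.mk ?_
  rintro ⟨u, hu⟩ ⟨v, hv⟩
  exact (key1 _ u hu rfl).trans (key1 _ v hv rfl).symm

end Pool.Agent.TH365.FI
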