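import Pool.Agent.TH722.FI.Defs
import Pool.Agent.TH365.FI_CELL
import Pool.Agent.TH75.FI_GLUE

/-!
# FI-HYBTREE (job 1705)

The hybrid graph is a tree.
-/

namespace Pool.Agent.TH365.FI

open MeasureTheory Set Filter Pool.Agent.TH722.FI

universe uu vv

variable {V : Type uu} {W : Type vv}

set_option linter.unusedVariables false

theorem cut_not_blk (T C : SimpleGraph V) (hT : T.IsTree) (hC : C ≤ T) (x y : V)
    (hxy : C.Adj x y) : ¬ Blk T C x y := by
  intro h
  have hbr : T.IsBridge s(x, y) := by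
    have := SimpleGraph.isAcyclic_iff_forall_adj_isBridge.mp hT.2
    exact this (hC hxy)
  have h2 := (SimpleGraph.isBridge_iff.mp hbr)
  apply h2
  refine SimpleGraph.Reachable.mono ?_ h
  intro a b hab
  rw [SimpleGraph.sdiff_adj] at hab
  rw [SimpleGraph.deleteEdges_adj]
  refine ⟨hab.1, ?_⟩
  intro h3
  rw [Set.mem_singleton_iff, Sym2.eq_iff] at h3
  rcases h3 with ⟨rfl, rfl⟩ | ⟨rfl, rfl⟩
  · exact hab.2 hxy
  · exact hab.2 hxy.symm

theorem blk_equivalence (T C : SimpleGraph V) : Equivalence (Blk T C) :=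
  ⟨blk_refl T C, fun h => blk_symm h, fun h h' => blk_trans h h'⟩

/-- the blocks are connected in `T` -/
theorem blk_conn (T C : SimpleGraph V) (x : V) : (T.induce {z | Blk T C x z}).Connected := by
  have hx : Blk T C x x := blk_refl T C x
  have key1 : ∀ (a b : V) (p : (T \ C).Walk a b) (ha : Blk T C x a) (hb : Blk T C x b),
      (T.induce {z | Blk T C x z}).Reachable ⟨a, ha⟩ ⟨b, hb⟩ := by
    intro a b p
    induction p with
    | nil => intro ha hb; exact SimpleGraph.Reachable.refl _
    | @cons a c b hac q ih =>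
      intro ha hb
      have hc : Blk T C x c := blk_trans ha hac.reachable
      have hadj : (T.induce {z | Blk T C x z}).Adj ⟨a, ha⟩ ⟨c, hc⟩ := hac.1
      exact hadj.reachable.trans (ih hc hb)
  have : Nonempty {z | Blk T C x z} := ⟨⟨x, hx⟩⟩
  refine SimpleGraph.Connected.mk ?_
  rintro ⟨u, hu⟩ ⟨v, hv⟩
  obtain ⟨p⟩ := blk_trans (blk_symm hu) hv
  exact key1 u v p hu hv

/-- outside the blocks the two graphs agree -/
theorem hyb_ext (U T C : SimpleGraph V) (hC : C ≤ T) (key : V → ℝ) (x y : V)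
    (h : ¬ Blk T C x y) : T.Adj x y ↔ (Hyb U T C key).Adj x y := by
  constructor
  · intro hT
    left
    by_contra hc
    apply h
    have : (T \ C).Adj x y := by
      rw [SimpleGraph.sdiff_adj]
      exact ⟨hT, hc⟩
    exact this.reachable
  · rintro (h1 | ⟨_, h1, _⟩)
    · exact hC h1
    · exact absurd h1 h

/-- the induced hybrid graph on a block -/
theorem hyb_block_of
    (contract : ∀ (W : Type uu) (U : SimpleGraph V) (hU : U.IsTree) (p : V → W)
      (hp : Function.Surjective p) (hc : ∀ w, (U.induce (p ⁻¹' {w})).Connected)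
      (H : SimpleGraph W)
      (hH : ∀ w w', H.Adj w w' ↔ w ≠ w' ∧ ∃ u v, U.Adj u v ∧ p u = w ∧ p v = w'), H.IsTree)
    (U T C : SimpleGraph V) (hU : U.IsTree) (hT : T.IsTree) (hC : C ≤ T)
    (N : ℕ → ℕ) (hN : BallBd U N) (key : V → ℝ) (hkey : Function.Injective key) (x : V) :
    ((Hyb U T C key).induce {z | Blk T C x z}).IsTree := by
  choose p hp hpu using fun u => near_exists U T C hU hT hC N hN key hkey u x
  have hpu' : ∀ u y, Blk T C x y → Near U T C key u y → p u = y := by
    intro u y h1 h2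
    exact (hpu u y ⟨h1, h2⟩).symm
  let q : V → {z | Blk T C x z} := fun u => ⟨p u, (hp u).1⟩
  have hq : ∀ u (w : {z | Blk T C x z}), q u = w ↔ Near U T C key u w.1 := by
    intro u w
    constructor
    · rintro rfl
      exact (hp u).2
    · intro h
      exact Subtype.ext (hpu' u w.1 w.2 h)
  refine contract _ U hU q ?_ ?_ _ ?_
  · intro w
    exact ⟨w.1, (hq _ _).2 (near_self U T C hU key w.1)⟩
  · intro w
    have h1 : q ⁻¹' {w} = {u | Near U T C key u w.1} := by
      ext u
      exact hq u w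
    rw [h1]
    exact cell_connected U T C hU hT hC key w.1
  · intro w w'
    have hww : Blk T C w.1 w'.1 := blk_trans (blk_symm w.2) w'.2
    constructor
    · rintro (h | ⟨hne, _, u, v, huv, hu, hv⟩)
      · exact absurd hww (cut_not_blk T C hT hC _ _ h)
      · refine ⟨fun h => hne (congrArg Subtype.val h), u, v, huv, (hq _ _).2 hu, (hq _ _).2 hv⟩
    · rintro ⟨hne, u, v, huv, hu, hv⟩
      refine Or.inr ⟨fun h => hne (Subtype.ext h), hww, u, v, huv, (hq _ _).1 hu, (hq _ _).1 hv⟩

theorem hyb_tree_of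
    (contract : ∀ (W : Type uu) (U : SimpleGraph V) (hU : U.IsTree) (p : V → W)
      (hp : Function.Surjective p) (hc : ∀ w, (U.induce (p ⁻¹' {w})).Connected)
      (H : SimpleGraph W)
      (hH : ∀ w w', H.Adj w w' ↔ w ≠ w' ∧ ∃ u v, U.Adj u v ∧ p u = w ∧ p v = w'), H.IsTree)
    (glue : ∀ (A B : SimpleGraph V) (hA : A.IsTree) (R : V → V → Prop) (hR : Equivalence R)
      (hconn : ∀ x, (A.induce {z | R x z}).Connected)
      (hext : ∀ x y, ¬ R x y → (A.Adj x y ↔ B.Adj x y)),
      ((∀ x, (B.induce {z | R x z}).IsTree) → B.IsTree) ∧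
      (B.Connected → ∀ x, (B.induce {z | R x z}).Connected))
    (U T C : SimpleGraph V) (hU : U.IsTree) (hT : T.IsTree) (hC : C ≤ T)
    (N : ℕ → ℕ) (hN : BallBd U N) (key : V → ℝ) (hkey : Function.Injective key) :
    (Hyb U T C key).IsTree ∧
      (∀ x, ((Hyb U T C key).induce {z | Blk T C x z}).IsTree) ∧
      (∀ x y, C.Adj x y → ¬ Blk T C x y) := by
  have h1 : ∀ x, ((Hyb U T C key).induce {z | Blk T C x z}).IsTree :=
    fun x => hyb_block_of contract U T C hU hT hC N hN key hkey x
  refine ⟨?_, h1, cut_not_blk T C hT hC⟩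
  exact (glue T (Hyb U T C key) hT (Blk T C) (blk_equivalence T C) (blk_conn T C)
    (hyb_ext U T C hC key)).1 h1

/-- FI-HYBTREE, as stated in the job -/
theorem hyb_tree (U T C : SimpleGraph V) (hU : U.IsTree) (hT : T.IsTree) (hC : C ≤ T)
    (N : ℕ → ℕ) (hN : BallBd U N) (key : V → ℝ) (hkey : Function.Injective key) :
    (Hyb U T C key).IsTree ∧
      (∀ x, ((Hyb U T C key).induce {z | Blk T C x z}).IsTree) ∧
      (∀ x y, C.Adj x y → ¬ Blk T C x y) :=
  hyb_tree_of
    (fun W U hU p hp hc H hH => Pool.Agent.TH75.FI.contract U hU p hp hc H hH)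
    (fun A B hA R hR hconn hext => Pool.Agent.TH75.FI.glue A B hA R hR hconn hext)
    U T C hU hT hC N hN key hkey

theorem hyb_bot (U T : SimpleGraph V) (hU : U.IsTree) (hT : T.IsTree) (key : V → ℝ)
    (hkey : Function.Injective key) : Hyb U T ⊥ key = U := by
  have hB : ∀ x y, Blk T ⊥ x y := by
    intro x y
    show (T \ ⊥).Reachable x y
    rw [sdiff_bot]
    exact hT.connected.preconnected x y
  have hN : ∀ u x, Near U T ⊥ key u x ↔ x = u := by
    intro u x
    constructor
    · intro h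
      have h1 := h u (hB x u)
      rw [SimpleGraph.dist_self] at h1
      rcases h1 with h1 | ⟨h1, _⟩
      · omega
      · exact (hU.connected.dist_eq_zero_iff.mp h1).symm
    · rintro rfl
      exact near_self U T ⊥ hU key x
  ext x y
  constructor
  · rintro (h | ⟨_, _, u, v, huv, hu, hv⟩)
    · exact absurd h (by simp)
    · rw [hN] at hu hv
      rw [hu, hv]
      exact huv
  · intro h
    exact Or.inr ⟨h.ne, hB x y, x, y, h, (hN x x).2 rfl, (hN y y).2 rfl⟩

end Pool.Agent.TH365.FI
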