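import Pool.Agent.TH37.HG.Stmts

set_option autoImplicit false

/-!
# HG-MFINV (job 1756)
-/

namespace Pool.Agent.TH365.HG

open Pool.Agent.TH37.HG
open Pool.Agent.Helper294.HallC (PC FGM Stb Noe)
open Pool.Agent.H53R2 (InVar Lw MaxN VN VNil UI SecMod)
open scoped commutatorElement

section

variable {Q A : Type} [Group Q] [AddCommGroup A] [DistribMulAction Q A]

/-- the action of a subgroup on a quotient by a stable subgroup -/
@[reducible] def qact (Q0 : Subgroup Q) (B : AddSubgroup A) (hB : ∀ g ∈ Q0, ∀ x ∈ B, g • x ∈ B) :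
    DistribMulAction ↥Q0 (A ⧸ B) where
  smul g := QuotientAddGroup.map B B (DistribSMul.toAddMonoidHom A (g : Q))
    (fun x hx => hB g g.2 x hx)
  one_smul := by
    intro x
    induction x using QuotientAddGroup.induction_on with
    | H x =>
      show ((((1 : ↥Q0) : Q) • x : A) : A ⧸ B) = _
      rw [Subgroup.coe_one, one_smul]
  mul_smul := by
    intro g h x
    induction x using QuotientAddGroup.induction_on with
    | H x =>
      show ((((g * h : ↥Q0) : Q) • x : A) : A ⧸ B) = (((g : Q) • ((h : Q) • x) : A) : A ⧸ B)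
      rw [Subgroup.coe_mul, mul_smul]
  smul_zero := by
    intro g
    exact map_zero _
  smul_add := by
    intro g x y
    exact map_add _ x y

/-- a maximal stable subgroup avoiding `r` -/
theorem exists_max (Q0 : Subgroup Q) (r : A) (hr : r ≠ 0) :
    ∃ B : AddSubgroup A, (∀ g ∈ Q0, ∀ x ∈ B, g • x ∈ B) ∧ r ∉ B ∧
      ∀ B' : AddSubgroup A, (∀ g ∈ Q0, ∀ x ∈ B', g • x ∈ B') → B ≤ B' → r ∉ B' → B' = B := by
  let S : Set (AddSubgroup A) := {B | (∀ g ∈ Q0, ∀ x ∈ B, g • x ∈ B) ∧ r ∉ B}
  have h0 : (⊥ : AddSubgroup A) ∈ S := by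
    refine ⟨?_, ?_⟩
    · intro g _ x hx
      rw [AddSubgroup.mem_bot] at hx ⊢
      rw [hx, smul_zero]
    · rw [AddSubgroup.mem_bot]
      exact hr
  obtain ⟨B, hB0, hBmax⟩ := zorn_le_nonempty₀ S (by
    intro c hc hchain y hy
    refine ⟨sSup c, ⟨?_, ?_⟩, fun z hz => le_sSup hz⟩
    · intro g hg x hx
      rw [AddSubgroup.mem_sSup_of_directedOn ⟨y, hy⟩ hchain.directedOn] at hx ⊢
      obtain ⟨B, hB, hx⟩ := hx
      exact ⟨B, hB, (hc hB).1 g hg x hx⟩
    · rw [AddSubgroup.mem_sSup_of_directedOn ⟨y, hy⟩ hchain.directedOn]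
      rintro ⟨B, hB, hx⟩
      exact (hc hB).2 hx) ⊥ h0
  refine ⟨B, hBmax.prop.1, hBmax.prop.2, ?_⟩
  intro B' h1 h2 h3
  exact le_antisymm (hBmax.le_of_ge ⟨h1, h3⟩ h2) h2

end

theorem mfinv (hM : MfinStmt) : MfinVStmt := by
  classical
  intro Q A _ _ _ _ hQ hA r hr
  obtain ⟨Q0, hn, hfi, m, hm⟩ := hQ
  have hfg : Group.FG ↥Q0 := Subgroup.fg_of_index_ne_zero Q0
  have hnil : Group.IsNilpotent ↥Q0 := by
    apply Pool.Agent.H53R2.E_nilp m
    have h1 := Pool.Agent.H53R2.E_map_mk Q0 m
    rw [hm] at h1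
    rw [eq_bot_iff]
    intro x hx
    have h2 : (x : Q) ∈ (Lw (⊤ : Subgroup ↥Q0) m ⊤).map Q0.subtype := ⟨x, hx, rfl⟩
    rw [h1, Subgroup.mem_bot] at h2
    exact Subtype.ext h2
  have hfq : Finite (Q ⧸ Q0) := Subgroup.finite_quotient_of_finiteIndex
  obtain ⟨B, hBst, hrB, hBmax⟩ := exists_max Q0 r hr.1
  let act : DistribMulAction ↥Q0 (A ⧸ B) := qact Q0 B hBst
  have hact : ∀ (g : ↥Q0) (x : A), g • ((x : A) : A ⧸ B) = (((g : Q) • x : A) : A ⧸ B) :=
    fun g x => rfl
  -- representatives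
  have hrep : ∀ g : Q, ∃ q : Q ⧸ Q0, ∃ h : ↥Q0, g = (h : Q) * (q.out)⁻¹ := by
    intro g
    refine ⟨(g⁻¹ : Q), ?_⟩
    obtain ⟨h, hh⟩ := QuotientGroup.mk_out_eq_mul Q0 g⁻¹
    refine ⟨h, ?_⟩
    rw [hh, mul_inv_rev, inv_inv, ← mul_assoc, mul_inv_cancel, one_mul]
  -- finite generation
  obtain ⟨S, hS⟩ := hA
  have hFG : FGM ↥Q0 (A ⧸ B) := by
    have : Fintype (Q ⧸ Q0) := Fintype.ofFinite _
    refine ⟨((Finset.univ : Finset (Q ⧸ Q0)) ×ˢ S).image
      (fun p => ((((p.1.out)⁻¹ : Q) • p.2 : A) : A ⧸ B)), ?_⟩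
    rw [eq_top_iff]
    rintro x -
    induction x using QuotientAddGroup.induction_on with
    | H x =>
      have hx : x ∈ AddSubgroup.closure {a : A | ∃ g : Q, ∃ s ∈ S, a = g • s} := by
        rw [hS]; trivial
      induction hx using AddSubgroup.closure_induction with
      | mem x hx =>
        obtain ⟨g, s, hs, rfl⟩ := hx
        obtain ⟨q, h, rfl⟩ := hrep g
        apply AddSubgroup.subset_closure
        refine ⟨h, _, Finset.mem_image.mpr ⟨(q, s), by simp [hs], rfl⟩, ?_⟩
        rw [hact, mul_smul]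
      | zero => exact AddSubgroup.zero_mem _
      | add x y _ _ hx hy => exact AddSubgroup.add_mem _ hx hy
      | neg x _ hx => exact AddSubgroup.neg_mem _ hx
  have hMono : MonoM ↥Q0 ((r : A) : A ⧸ B) := by
    refine ⟨?_, ?_⟩
    · intro h
      exact hrB ((QuotientAddGroup.eq_zero_iff r).mp h)
    · intro B' hB' hne
      by_contra hr'
      apply hne
      have h1 : B'.comap (QuotientAddGroup.mk' B) = B := by
        apply hBmax
        · intro g hg x hx
          exact hB' ⟨g, hg⟩ _ hx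
        · intro x hx
          rw [AddSubgroup.mem_comap]
          have : QuotientAddGroup.mk' B x = 0 := (QuotientAddGroup.eq_zero_iff x).mpr hx
          rw [this]
          exact B'.zero_mem
        · exact hr'
      rw [eq_bot_iff]
      intro x hx
      induction x using QuotientAddGroup.induction_on with
      | H x =>
        have h2 : x ∈ B'.comap (QuotientAddGroup.mk' B) := hx
        rw [h1] at h2
        rw [AddSubgroup.mem_bot]
        exact (QuotientAddGroup.eq_zero_iff x).mpr h2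
  have hfin : Finite (A ⧸ B) := hM ↥Q0 (A ⧸ B) hFG _ hMono
  -- the intersection of the translates
  let B' : AddSubgroup A :=
    { carrier := {x | ∀ g : Q, g • x ∈ B}
      zero_mem' := by intro g; rw [smul_zero]; exact B.zero_mem
      add_mem' := by
        intro x y hx hy g
        rw [smul_add]
        exact B.add_mem (hx g) (hy g)
      neg_mem' := by
        intro x hx g
        rw [smul_neg]
        exact B.neg_mem (hx g) }
  have hB'st : Stb Q B' := by
    intro g x hx h
    rw [← mul_smul]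
    exact hx (h * g)
  have hrB' : r ∉ B' := by
    intro h
    have := h 1
    rw [one_smul] at this
    exact hrB this
  have hB'bot : B' = ⊥ := by
    by_contra h
    exact hrB' (hr.2 B' hB'st h)
  let F : A → (Q ⧸ Q0 → A ⧸ B) := fun x q => ((((q.out)⁻¹ : Q) • x : A) : A ⧸ B)
  have hF : Function.Injective F := by
    intro x y hxy
    have h1 : x - y ∈ B' := by
      intro g
      obtain ⟨q, h, rfl⟩ := hrep g
      rw [mul_smul]
      apply hBst _ h.2
      have h2 : F x q = F y q := congrFun hxy q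
      have h3 : ((((q.out)⁻¹ : Q) • (x - y) : A) : A ⧸ B) = 0 := by
        rw [smul_sub, QuotientAddGroup.mk_sub, sub_eq_zero]
        exact h2
      exact (QuotientAddGroup.eq_zero_iff _).mp h3
    rw [hB'bot, AddSubgroup.mem_bot, sub_eq_zero] at h1
    exact h1
  exact Finite.of_injective F hF

end Pool.Agent.TH365.HG
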