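import Pool.Agent.TH37.HG.Stmts

set_option autoImplicit false

/-!
# HG-PERG (job 1760)
-/

namespace Pool.Agent.TH365.HG

open Pool.Agent.TH37.HG
open Pool.Agent.Helper294.HallC (PC FGM Stb Noe)
open Pool.Agent.H53R2 (InVar Lw MaxN VN VNil UI SecMod)
open scoped commutatorElement

theorem lift_mem {G : Type} [Group G] (H : Subgroup G) (a b c : G) (ha : a ∈ H) (hb : b ∈ H)
    (hc : c ∈ H) (w : FreeGroup (Fin 3)) : FreeGroup.lift ![a, b, c] w ∈ H := by
  induction w using FreeGroup.induction_on with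
  | C1 => simp
  | of x =>
    rw [FreeGroup.lift_apply_of]
    fin_cases x
    · exact ha
    · exact hb
    · exact hc
  | inv_of x h =>
    rw [map_inv]
    exact H.inv_mem h
  | mul x y hx hy =>
    rw [map_mul]
    exact H.mul_mem hx hy

theorem perg (hP : PerStmt) : PergStmt := by
  intro u G _ hu B C D _ _ _ _ hDC hBC hDCB
  classical
  have he : 0 < Nat.card B := Nat.card_pos
  obtain ⟨P, hP0, hP1⟩ := hP u (Nat.card B) he
  refine ⟨P, hP0, ?_⟩
  intro d hd c hc t ht
  have hcomm : ∀ x ∈ B, ∀ y ∈ C, x * y = y * x := by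
    intro x hx y hy
    have h1 : ⁅x, y⁆ ∈ ⁅B, C⁆ := Subgroup.commutator_mem_commutator hx hy
    rw [hBC, Subgroup.mem_bot] at h1
    exact commutatorElement_eq_one_iff_mul_comm.mp h1
  let A' : Subgroup G := B ⊓ C
  let hA : CommGroup A' :=
    { (inferInstance : Group A') with
      mul_comm := by
        intro x y
        apply Subtype.ext
        exact hcomm x.1 x.2.1 y.1 y.2.2 }
  have hval : ∀ j : ℤ, ⁅d, t ^ j * c * t ^ (-j)⁆ ∈ A' := by
    intro j
    have h1 : t ^ j * c * t ^ (-j) ∈ C := by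
      have h2 := (inferInstance : C.Normal).conj_mem c hc (t ^ j)
      rwa [← zpow_neg] at h2
    have h3 : ⁅d, t ^ j * c * t ^ (-j)⁆ ∈ ⁅D, C⁆ :=
      Subgroup.commutator_mem_commutator hd h1
    refine ⟨hDCB h3, ?_⟩
    have h4 : ⁅d, t ^ j * c * t ^ (-j)⁆ ∈ ⁅C, C⁆ :=
      Subgroup.commutator_mem_commutator (hDC hd) h1
    exact Subgroup.commutator_le_right C C h4
  let ψ : ℤ → A' := fun j => ⟨⁅d, t ^ j * c * t ^ (-j)⁆, hval j⟩
  let φ : ℤ → Additive A' := fun j => Additive.ofMul (ψ j)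
  have hE : ∀ x : Additive A', Nat.card B • x = 0 := by
    intro x
    have h1 : (Additive.toMul x) ^ (Nat.card B) = 1 := by
      apply Subtype.ext
      have h2 : (⟨(Additive.toMul x).1, (Additive.toMul x).2.1⟩ : B) ^ (Nat.card B) = 1 :=
        pow_card_eq_one'
      have h3 : (Additive.toMul x).1 ^ (Nat.card B) = 1 := congrArg (Subtype.val) h2
      exact h3
    exact h1
  have hid : ∀ l n : ℤ, ψ l = ∏ k, ψ (l + n * u.i k) ^ (u.e k) := by
    intro l n
    apply Subtype.ext
    have h1 := hu d (t ^ l * c * t ^ (-l)) (t ^ n)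
    have h2 : (ψ l : G) = ⁅d, t ^ l * c * t ^ (-l)⁆ := rfl
    rw [h2, h1]
    have h3 : (∏ k, ψ (l + n * u.i k) ^ (u.e k)) =
        (List.ofFn fun k : Fin u.n => ψ (l + n * u.i k) ^ (u.e k)).prod := by
      rw [List.prod_ofFn]
    rw [h3]
    have h4 : ((List.ofFn fun k : Fin u.n => ψ (l + n * u.i k) ^ (u.e k)).prod : G) =
        (List.ofFn fun k : Fin u.n => (ψ (l + n * u.i k) : G) ^ (u.e k)).prod := by
      have h5 := map_list_prod A'.subtype (List.ofFn fun k : Fin u.n => ψ (l + n * u.i k) ^ (u.e k))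
      rw [List.map_ofFn] at h5
      simp only [Subgroup.subtype_apply] at h5
      rw [h5]
      congr 1
    rw [h4]
    congr 1
    congr 1
    funext k
    have h6 : (t ^ n) ^ (u.i k) * (t ^ l * c * t ^ (-l)) * (t ^ n) ^ (-(u.i k)) =
        t ^ (l + n * u.i k) * c * t ^ (-(l + n * u.i k)) := by
      rw [← zpow_mul, ← zpow_mul]
      have e1 : t ^ (l + n * u.i k) = t ^ (n * u.i k) * t ^ l := by
        rw [← zpow_add]; congr 1; ring
      have e2 : t ^ (-(l + n * u.i k)) = t ^ (-l) * t ^ (n * -(u.i k)) := by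
        rw [← zpow_add]; congr 1; ring
      rw [e1, e2]
      simp only [mul_assoc]
    rw [h6]
    have h7 : FreeGroup.lift ![d, t ^ l * c * t ^ (-l), t ^ n] (u.w k) ∈
        Subgroup.centralizer (B : Set G) := by
      apply lift_mem
      · rw [Subgroup.mem_centralizer_iff]
        intro b hb
        exact hcomm b hb d (hDC hd)
      · rw [Subgroup.mem_centralizer_iff]
        intro b hb
        refine hcomm b hb _ ?_
        have h2 := (inferInstance : C.Normal).conj_mem c hc (t ^ l)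
        rwa [← zpow_neg] at h2
      · exact Subgroup.zpow_mem _ ht n
    have h8 : ⁅d, t ^ (l + n * u.i k) * c * t ^ (-(l + n * u.i k))⁆ ^ (u.e k) ∈ B :=
      B.zpow_mem (hval (l + n * u.i k)).1 _
    have h9 := Subgroup.mem_centralizer_iff.mp h7 _ h8
    rw [← h9, mul_assoc, mul_inv_cancel, mul_one]
  have hφ : ∀ l n : ℤ, φ l = ∑ k, u.e k • φ (l + n * u.i k) := by
    intro l n
    have h1 := congrArg Additive.ofMul (hid l n)
    rw [ofMul_prod] at h1
    exact h1
  have h0 := hP1 (Additive A') hE φ hφ 0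
  have h1 : ψ (0 + (P : ℤ)) = ψ 0 := h0
  have h2 := congrArg Subtype.val h1
  have h3 : ⁅d, t ^ (0 + (P : ℤ)) * c * t ^ (-(0 + (P : ℤ)))⁆ = ⁅d, t ^ (0 : ℤ) * c * t ^ (-(0 : ℤ))⁆ := h2
  rw [zero_add, zpow_natCast, zpow_zero, neg_zero, zpow_zero, one_mul, mul_one, zpow_neg,
    zpow_natCast, ← inv_pow] at h3
  exact h3

end Pool.Agent.TH365.HG
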