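import Mathlib
import Pool.Agent.TH444.ML.Defs

/-!
# Job 3099 (helper444, MP_af4c59_nt): `WrIff` and `MidUnique`

Galois groups equal to `C₂ ≀ H`.
-/

set_option autoImplicit false

open Pool.Agent.TH444.ML IntermediateField

namespace Pool.Agent.TH365.J3099

/-! ### the wreath product -/

section wr

variable {H : Type} [Group H]

/-- the permutation `(x, b) ↦ (h x, f x b)` -/
def wrF (p : H × (H → Equiv.Perm Bool)) : Equiv.Perm (H × Bool) where
  toFun x := (p.1 * x.1, p.2 x.1 x.2)
  invFun y := (p.1⁻¹ * y.1, (p.2 (p.1⁻¹ * y.1)).symm y.2)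
  left_inv x := by simp
  right_inv y := by simp

theorem wrF_injective : Function.Injective (wrF (H := H)) := by
  rintro ⟨h, f⟩ ⟨h', f'⟩ e
  have e1 : ∀ x : H × Bool, wrF (h, f) x = wrF (h', f') x := fun x => by rw [e]
  have h1 : h = h' := by
    have := congrArg Prod.fst (e1 (1, true))
    simpa [wrF] using this
  subst h1
  have h2 : f = f' := by
    funext x
    ext b
    have := congrArg Prod.snd (e1 (x, b))
    simpa [wrF] using this
  rw [h2]

theorem range_wrF : Set.range (wrF (H := H)) = Wr2 H := by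
  ext π
  constructor
  · rintro ⟨⟨h, f⟩, rfl⟩
    exact ⟨h, fun x => rfl⟩
  · rintro ⟨h, hh⟩
    have inj : ∀ x : H, Function.Injective (fun b : Bool => (π (x, b)).2) := by
      intro x b b' hb
      have : π (x, b) = π (x, b') := by
        apply Prod.ext
        · rw [hh, hh]
        · exact hb
      have := π.injective this
      exact congrArg Prod.snd this
    refine ⟨(h, fun x => Equiv.ofBijective _ (Finite.injective_iff_bijective.1 (inj x))), ?_⟩
    ext1 x
    apply Prod.ext
    · simp [wrF, hh]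
    · simp [wrF]

theorem ncard_Wr2 [Finite H] : (Wr2 H).ncard = 2 ^ Nat.card H * Nat.card H := by
  classical
  have : Fintype H := Fintype.ofFinite H
  rw [← range_wrF, ← Set.image_univ, Set.ncard_image_of_injective _ wrF_injective,
    Set.ncard_univ, Nat.card_prod, Nat.card_fun, mul_comm]
  congr 2
  rw [Nat.card_eq_fintype_card, Fintype.card_perm]
  simp

end wr

/-! ### the action of the absolute Galois group on embeddings -/

section act

variable {K Ω : Type} [Field K] [Field Ω] [Algebra K Ω]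

/-- action on the embeddings -/
def act (L : IntermediateField K Ω) : (Ω ≃ₐ[K] Ω) →* Equiv.Perm (L →ₐ[K] Ω) where
  toFun σ :=
    { toFun := fun φ => σ.toAlgHom.comp φ
      invFun := fun φ => σ.symm.toAlgHom.comp φ
      left_inv := fun φ => by ext x; simp
      right_inv := fun φ => by ext x; simp }
  map_one' := by ext φ x; simp
  map_mul' σ τ := by ext φ x; simp

theorem act_apply (L : IntermediateField K Ω) (σ : Ω ≃ₐ[K] Ω) (φ : L →ₐ[K] Ω) :
    act L σ φ = σ.toAlgHom.comp φ := rfl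

theorem act_apply_apply (L : IntermediateField K Ω) (σ : Ω ≃ₐ[K] Ω) (φ : L →ₐ[K] Ω) (x : L) :
    act L σ φ x = σ (φ x) := rfl

theorem ker_act (L : IntermediateField K Ω) :
    (act L).ker = (normalClosure K L Ω).fixingSubgroup := by
  ext σ
  rw [MonoidHom.mem_ker]
  constructor
  · intro h
    have h1 : normalClosure K L Ω ≤ fixedField (Subgroup.zpowers σ) := by
      rw [normalClosure_le_iff]
      intro φ
      rintro _ ⟨x, rfl⟩
      rw [mem_fixedField_iff]
      intro τ hτ
      have h2 : Subgroup.zpowers σ ≤ (act L).ker := by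
        rw [Subgroup.zpowers_le]
        exact h
      have h3 := h2 hτ
      rw [MonoidHom.mem_ker] at h3
      have := congrArg (fun π => π φ x) h3
      simpa [act_apply_apply] using this
    have h2 := (le_iff_le _ _).1 h1
    exact h2 (Subgroup.mem_zpowers σ)
  · intro h
    ext φ x
    rw [act_apply_apply]
    rw [IntermediateField.mem_fixingSubgroup_iff] at h
    exact h _ (AlgHom.fieldRange_le_normalClosure φ ⟨x, rfl⟩)

/-- the number of automorphisms of a finite Galois extension, as a quotient of `Gal(Ω/K)` -/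
theorem card_quot [Normal K Ω] (N : IntermediateField K Ω) [FiniteDimensional K N]
    [IsGalois K N] : Nat.card ((Ω ≃ₐ[K] Ω) ⧸ N.fixingSubgroup) = Module.finrank K N := by
  have h1 : (AlgEquiv.restrictNormalHom (F := K) (K₁ := Ω) N).ker = N.fixingSubgroup :=
    restrictNormalHom_ker N
  have h2 : Function.Surjective (AlgEquiv.restrictNormalHom (F := K) (K₁ := Ω) N) :=
    AlgEquiv.restrictNormalHom_surjective Ω
  rw [← IsGalois.card_aut_eq_finrank K N, ← h1]
  exact Nat.card_congr (QuotientGroup.quotientKerEquivOfSurjective _ h2).toEquiv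

/-- the permutations of `X` coming from the Galois group -/
def imP {X : Type} (L : IntermediateField K Ω) (e : (L →ₐ[K] Ω) ≃ X) : Set (Equiv.Perm X) :=
  {π | ∃ σ : Ω ≃ₐ[K] Ω, ∀ φ : L →ₐ[K] Ω, e (σ.toAlgHom.comp φ) = π (e φ)}

theorem imP_eq {X : Type} (L : IntermediateField K Ω) (e : (L →ₐ[K] Ω) ≃ X) :
    imP L e = e.permCongr '' ((act L).range : Set (Equiv.Perm (L →ₐ[K] Ω))) := by
  ext π
  constructor
  · rintro ⟨σ, hσ⟩
    refine ⟨act L σ, ⟨σ, rfl⟩, ?_⟩
    ext1 x
    rw [Equiv.permCongr_apply, act_apply, hσ, Equiv.apply_symm_apply]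
  · rintro ⟨_, ⟨σ, rfl⟩, rfl⟩
    refine ⟨σ, fun φ => ?_⟩
    rw [Equiv.permCongr_apply, Equiv.symm_apply_apply, act_apply]

theorem ncard_imP {X : Type} [Algebra.IsSeparable K Ω] [Normal K Ω] (L : IntermediateField K Ω)
    [FiniteDimensional K L] (e : (L →ₐ[K] Ω) ≃ X) :
    (imP L e).ncard = Module.finrank K (normalClosure K L Ω) := by
  have hG : IsGalois K (normalClosure K L Ω) := by
    constructor
  rw [imP_eq, Set.ncard_image_of_injective _ (Equiv.injective _), ← card_quot, ← ker_act]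
  rw [← Nat.card_congr (QuotientGroup.quotientKerEquivRange (act L)).toEquiv.symm]
  rfl

end act

/-! ### the two directions -/

section main

variable {K Ω : Type} [Field K] [CharZero K] [Field Ω] [Algebra K Ω] [IsAlgClosure K Ω]
variable {H : Type} [Group H] [Finite H]

theorem forward (L : IntermediateField K Ω) (hL : Module.finrank K L = 2 * Nat.card H)
    (hw : IsWr K Ω H L) : ∃ M, Mid K Ω H L M := by
  obtain ⟨e, he⟩ := hw
  have hpos : 0 < Nat.card H := Nat.card_pos
  have hfd : FiniteDimensional K L := FiniteDimensional.of_finrank_pos (by omega)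
  have i1 : IsAlgClosed Ω := IsAlgClosure.isAlgClosed K
  have i2 : Normal K Ω := IsAlgClosure.normal K Ω
  have i3 : Algebra.IsAlgebraic K Ω := IsAlgClosure.isAlgebraic
  have i4 : Algebra.IsSeparable K Ω := inferInstance
  have i5 : IsGalois K Ω := ⟨⟩
  let P : (Ω ≃ₐ[K] Ω) →* Equiv.Perm (H × Bool) := e.permCongrHom.toMonoidHom.comp (act L)
  have hP : ∀ (σ : Ω ≃ₐ[K] Ω) (φ : L →ₐ[K] Ω), e (act L σ φ) = P σ (e φ) := by
    intro σ φ
    change _ = e (act L σ (e.symm (e φ)))
    rw [Equiv.symm_apply_apply]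
  have hPW : ∀ σ, P σ ∈ Wr2 H := fun σ => (he _).2 ⟨σ, fun φ => hP σ φ⟩
  have hfst : ∀ (σ : Ω ≃ₐ[K] Ω) (x : H × Bool), (P σ x).1 = (P σ (1, true)).1 * x.1 := by
    intro σ x
    obtain ⟨a, ha⟩ := hPW σ
    rw [ha, ha]
    simp
  let h : (Ω ≃ₐ[K] Ω) →* H :=
    { toFun := fun σ => (P σ (1, true)).1
      map_one' := by simp
      map_mul' := fun σ τ => by rw [map_mul, Equiv.Perm.mul_apply, hfst] }
  have hh : ∀ σ, h σ = (P σ (1, true)).1 := fun σ => rfl
  have hs : Function.Surjective h := by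
    intro a
    obtain ⟨σ, hσ⟩ := (he (wrF (a, 1))).1 ⟨a, fun x => rfl⟩
    refine ⟨σ, ?_⟩
    have h1 := hσ (e.symm (1, true))
    rw [← act_apply, hP, Equiv.apply_symm_apply] at h1
    rw [hh, h1]
    simp [wrF]
  have hker : L.fixingSubgroup ≤ h.ker := by
    intro σ hσ
    rw [MonoidHom.mem_ker, hh]
    have h1 : act L σ L.val = L.val := by
      ext x
      rw [act_apply_apply]
      rw [IntermediateField.mem_fixingSubgroup_iff] at hσ
      exact hσ _ x.2
    have h2 := hP σ L.val
    rw [h1] at h2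
    have h3 := hfst σ (e L.val)
    rw [← h2] at h3
    exact (mul_eq_right.1 h3.symm)
  have hopen : IsOpen (h.ker : Set (Ω ≃ₐ[K] Ω)) :=
    Subgroup.isOpen_mono hker L.fixingSubgroup_isOpen
  have hclosed : IsClosed (h.ker : Set (Ω ≃ₐ[K] Ω)) := Subgroup.isClosed_of_isOpen _ hopen
  obtain ⟨M, hMdef⟩ : ∃ M, M = fixedField h.ker := ⟨_, rfl⟩
  have hM : M.fixingSubgroup = h.ker := by
    rw [hMdef]
    exact InfiniteGalois.fixingSubgroup_fixedField ⟨h.ker, hclosed⟩
  have hML : M ≤ L := by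
    rw [← InfiniteGalois.fixedField_fixingSubgroup L, hMdef]
    intro x hx
    rw [mem_fixedField_iff] at hx ⊢
    exact fun σ hσ => hx σ (hker hσ)
  have hMfd : FiniteDimensional K M := by
    rw [← InfiniteGalois.isOpen_iff_finite, hM]
    exact hopen
  have hMgal : IsGalois K M := by
    rw [← InfiniteGalois.normal_iff_isGalois, hM]
    infer_instance
  have hk : (AlgEquiv.restrictNormalHom (F := K) (K₁ := Ω) M).ker = h.ker := by
    rw [← hM]
    exact restrictNormalHom_ker M
  have hsM : Function.Surjective (AlgEquiv.restrictNormalHom (F := K) (K₁ := Ω) M) :=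
    AlgEquiv.restrictNormalHom_surjective Ω
  have hiso : Nonempty ((M ≃ₐ[K] M) ≃* H) :=
    ⟨((QuotientGroup.quotientKerEquivOfSurjective _ hsM).symm.trans
      (QuotientGroup.quotientMulEquivOfEq hk)).trans
      (QuotientGroup.quotientKerEquivOfSurjective _ hs)⟩
  have hfr : Module.finrank K M = Nat.card H := by
    obtain ⟨g⟩ := hiso
    rw [← IsGalois.card_aut_eq_finrank K M]
    exact Nat.card_congr g.toEquiv
  refine ⟨M, ⟨hMfd, hMgal, hiso⟩, hML, hfd, by rw [hL, hfr], ?_⟩
  have h1 : imP L e = Wr2 H := by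
    ext π
    exact (he π).symm
  rw [← ncard_imP L e, h1, ncard_Wr2, hfr]

theorem backward (L M : IntermediateField K Ω) (h : Mid K Ω H L M) :
    Module.finrank K L = 2 * Nat.card H ∧ IsWr K Ω H L := by
  obtain ⟨⟨hMfd, hMgal, ⟨g⟩⟩, hML, hLfd, hLM, hN⟩ := h
  have i1 : IsAlgClosed Ω := IsAlgClosure.isAlgClosed K
  have i2 : Normal K Ω := IsAlgClosure.normal K Ω
  have i3 : Algebra.IsAlgebraic K Ω := IsAlgClosure.isAlgebraic
  have i4 : Algebra.IsSeparable K Ω := inferInstance
  have i5 : IsGalois K Ω := ⟨⟩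
  have hMH : Module.finrank K M = Nat.card H := by
    rw [← IsGalois.card_aut_eq_finrank K M]
    exact Nat.card_congr g.toEquiv
  refine ⟨by rw [hLM, hMH], ?_⟩
  let i : M →ₐ[K] L := IntermediateField.inclusion hML
  let ρ : (Ω ≃ₐ[K] Ω) →* (M ≃ₐ[K] M) := AlgEquiv.restrictNormalHom (F := K) (K₁ := Ω) M
  have hρ : ∀ (σ : Ω ≃ₐ[K] Ω) (m : M), ((ρ σ m : M) : Ω) = σ m := fun σ m =>
    AlgEquiv.restrictNormalHom_apply M σ m
  have hρs : Function.Surjective ρ := AlgEquiv.restrictNormalHom_surjective Ω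
  let r : (L →ₐ[K] Ω) → (M ≃ₐ[K] M) := fun φ => Normal.algHomEquivAut K Ω M (φ.comp i)
  have hr0 : ∀ (φ : L →ₐ[K] Ω) (m : M), ((r φ m : M) : Ω) = φ (i m) := fun φ m =>
    AlgHom.restrictNormal_commutes (φ.comp i) M m
  have hr : ∀ (σ : Ω ≃ₐ[K] Ω) (φ : L →ₐ[K] Ω), r (act L σ φ) = ρ σ * r φ := by
    intro σ φ
    ext m
    rw [AlgEquiv.mul_apply, hρ, hr0, hr0, act_apply_apply]
  choose s hsr using hρs
  let F : (L →ₐ[K] Ω) ≃ (M ≃ₐ[K] M) × {φ : L →ₐ[K] Ω // r φ = 1} :=
    { toFun := fun φ => (r φ, ⟨act L (s (r φ))⁻¹ φ, by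
        rw [hr, map_inv, hsr, inv_mul_cancel]⟩)
      invFun := fun p => act L (s p.1) p.2.1
      left_inv := fun φ => by
        change act L (s (r φ)) (act L (s (r φ))⁻¹ φ) = φ
        rw [← Equiv.Perm.mul_apply, ← map_mul, mul_inv_cancel, map_one, Equiv.Perm.one_apply]
      right_inv := fun p => by
        obtain ⟨a, φ, hφ⟩ := p
        have h1 : r (act L (s a) φ) = a := by rw [hr, hsr, hφ, mul_one]
        apply Prod.ext
        · exact h1
        · apply Subtype.ext
          change act L (s (r (act L (s a) φ)))⁻¹ (act L (s a) φ) = φ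
          rw [h1, ← Equiv.Perm.mul_apply, ← map_mul, inv_mul_cancel, map_one,
            Equiv.Perm.one_apply] }
  have hfin : Finite (L →ₐ[K] Ω) := inferInstance
  have hcX : Nat.card (L →ₐ[K] Ω) = Module.finrank K L := by
    rw [← AlgHom.card K L Ω, Nat.card_eq_fintype_card]
  have hcM : Nat.card (M ≃ₐ[K] M) = Module.finrank K M := IsGalois.card_aut_eq_finrank K M
  have hMpos : 0 < Module.finrank K M := Module.finrank_pos
  have hc2 : Nat.card {φ : L →ₐ[K] Ω // r φ = 1} = Nat.card Bool := by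
    have h1 := Nat.card_congr F
    rw [Nat.card_prod, hcX, hcM, hLM, mul_comm] at h1
    have h2 := Nat.eq_of_mul_eq_mul_left hMpos h1
    rw [← h2]
    simp
  let β : {φ : L →ₐ[K] Ω // r φ = 1} ≃ Bool := (Finite.card_eq.1 hc2).some
  let e : (L →ₐ[K] Ω) ≃ H × Bool := F.trans (Equiv.prodCongr g.toEquiv β)
  have he1 : ∀ φ, (e φ).1 = g (r φ) := fun φ => rfl
  have hsub : imP L e ⊆ Wr2 H := by
    rintro π ⟨σ, hσ⟩
    refine ⟨g (ρ σ), fun x => ?_⟩
    obtain ⟨φ, rfl⟩ := e.surjective x
    rw [← hσ φ, ← act_apply, he1, he1, hr, map_mul]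
  have heq : imP L e = Wr2 H := by
    apply Set.eq_of_subset_of_ncard_le hsub
    rw [ncard_imP L e, ncard_Wr2, hN, hMH]
  refine ⟨e, fun π => ?_⟩
  rw [← heq]
  rfl

omit [CharZero K] [IsAlgClosure K Ω] [Finite H] in
theorem midUnique_aux (L M M' : IntermediateField K Ω) (h2 : 2 ≤ Nat.card H)
    (h : Mid K Ω H L M) (h' : Mid K Ω H L M') : M = M' := by
  obtain ⟨⟨hMfd, hMgal, ⟨g⟩⟩, hML, hLfd, hLM, hN⟩ := h
  obtain ⟨⟨hMfd', hMgal', ⟨g'⟩⟩, hML', -, hLM', hN'⟩ := h'
  have hMH : Module.finrank K M = Nat.card H := by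
    rw [← IsGalois.card_aut_eq_finrank K M]
    exact Nat.card_congr g.toEquiv
  have hMH' : Module.finrank K M' = Nat.card H := by
    rw [← IsGalois.card_aut_eq_finrank K M']
    exact Nat.card_congr g'.toEquiv
  by_contra hne
  have hS : M ⊔ M' ≤ L := sup_le hML hML'
  have hSfd : FiniteDimensional K (M ⊔ M' : IntermediateField K Ω) := inferInstance
  have hSn : Normal K (M ⊔ M' : IntermediateField K Ω) := inferInstance
  have hMS : M ≤ M ⊔ M' := le_sup_left
  have hMS' : M' ≤ M ⊔ M' := le_sup_right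
  have h3 : Module.finrank K M < Module.finrank K (M ⊔ M' : IntermediateField K Ω) := by
    by_contra hcon
    push Not at hcon
    have e1 : M = M ⊔ M' := IntermediateField.eq_of_le_of_finrank_le hMS hcon
    have e2 : M' = M ⊔ M' := IntermediateField.eq_of_le_of_finrank_le hMS' (by
      rw [hMH', ← hMH]; exact hcon)
    exact hne (e1.trans e2.symm)
  have h4 : Module.finrank K M ∣ Module.finrank K (M ⊔ M' : IntermediateField K Ω) :=
    IntermediateField.finrank_dvd_of_le_right hMS
  have h5 : Module.finrank K L ≤ Module.finrank K (M ⊔ M' : IntermediateField K Ω) := by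
    obtain ⟨k, hk⟩ := h4
    rw [hk, hLM]
    have : 2 ≤ k := by
      by_contra hk2
      have : k ≤ 1 := by omega
      rw [hk] at h3
      nlinarith
    nlinarith
  have h6 : M ⊔ M' = L := IntermediateField.eq_of_le_of_finrank_le hS h5
  have h7 : Normal K L := by rw [← h6]; exact hSn
  rw [IntermediateField.normalClosure_of_normal, hLM, hMH] at hN
  have h8 : 2 = 2 ^ Nat.card H := Nat.eq_of_mul_eq_mul_right (by omega) hN
  have h9 : 2 ^ 2 ≤ 2 ^ Nat.card H := Nat.pow_le_pow_right (by norm_num) h2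
  omega

end main

/-- extensions with group `C₂ ≀ H` -/
theorem wrIff : Pool.Agent.TH444.ML.WrIff := by
  intro K Ω _ _ _ _ _ H _ _ L
  constructor
  · rintro ⟨h1, h2⟩
    exact forward L h1 h2
  · rintro ⟨M, hM⟩
    exact backward L M hM

/-- uniqueness of `M` -/
theorem midUnique : Pool.Agent.TH444.ML.MidUnique := by
  intro K Ω _ _ _ _ _ H _ _ L M M' h2 h h'
  exact midUnique_aux L M M' h2 h h'

end Pool.Agent.TH365.J3099
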