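import Pool.Agent.TH598.GV.Defs

set_option autoImplicit false

/-! Kernel vectors of alternating matrices and the components of the Pfaffian. -/

namespace Pool.Agent.TH365.J3418

open Finset Pool.Agent.TH598.GV

/-- the form `e₀ ∧ ζ` -/
noncomputable def Z {k : ℕ} (ζ : Ix k → ℂ) : Ix k → Ix k → ℂ := fun i j =>
  (if i = e0 then 1 else 0) * ζ j - ζ i * (if j = e0 then 1 else 0)

/-- the product belonging to a map of the indices -/
noncomputable def term {k : ℕ} (h : Fin (k + 1) → Ix k → Ix k → ℂ) (f : Ix k → Ix k) : ℂ :=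
  ∏ b : Fin (k + 1), h b (f (b, false)) (f (b, true))

theorem wv_e1 {k : ℕ} (u : K k → ℂ) : wv u (e1 : Ix k) = 1 := by
  unfold wv e1 Pool.Agent.TH598.GV.em
  rw [if_pos rfl]
  have : ∀ j : K k, u j * (if ((0, true) : Ix k) = (j.1.succ, j.2) then (1 : ℂ) else 0) = 0 := by
    intro j
    rw [if_neg, mul_zero]
    intro h
    exact absurd (congrArg Prod.fst h) (Fin.succ_ne_zero j.1).symm
  rw [sum_congr rfl fun j _ => this j, sum_const_zero, add_zero]

theorem wv_e0 {k : ℕ} (u : K k → ℂ) : wv u (e0 : Ix k) = 0 := by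
  unfold wv e1 Pool.Agent.TH598.GV.em e0
  rw [if_neg (by simp)]
  have : ∀ j : K k, u j * (if ((0, false) : Ix k) = (j.1.succ, j.2) then (1 : ℂ) else 0) = 0 := by
    intro j
    rw [if_neg, mul_zero]
    intro h
    exact absurd (congrArg Prod.fst h) (Fin.succ_ne_zero j.1).symm
  rw [sum_congr rfl fun j _ => this j, sum_const_zero, add_zero]

theorem lemA {k : ℕ} (h : Fin (k + 1) → Ix k → Ix k → ℂ) (w : Ix k → ℂ)
    (hl : ∀ b q, q ≠ e1 → ∑ i, w i * h b i q = 0) (hr : ∀ b q, q ≠ e1 → ∑ i, w i * h b q i = 0)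
    (σ : Equiv.Perm (Ix k)) :
    ∑ i, w i * term h (Function.update σ (σ.symm e1) i) = 0 := by
  classical
  obtain ⟨⟨b0, c0⟩, hs⟩ : ∃ s, s = σ.symm e1 := ⟨_, rfl⟩
  rw [← hs]
  have hσ : σ (b0, c0) = e1 := by rw [hs]; simp
  have hC : ∀ i, term h (Function.update σ (b0, c0) i) =
      h b0 (Function.update σ (b0, c0) i (b0, false)) (Function.update σ (b0, c0) i (b0, true)) *
        ∏ b ∈ univ.erase b0, h b (σ (b, false)) (σ (b, true)) := by
    intro i
    unfold term
    rw [← mul_prod_erase univ _ (mem_univ b0)]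
    congr 1
    apply prod_congr rfl
    intro b hb
    have hne := ne_of_mem_erase hb
    rw [Function.update_of_ne, Function.update_of_ne]
    · intro e; exact hne (congrArg Prod.fst e)
    · intro e; exact hne (congrArg Prod.fst e)
  simp only [hC, ← mul_assoc]
  rw [← sum_mul]
  have : ∑ i, w i * h b0 (Function.update σ (b0, c0) i (b0, false))
      (Function.update σ (b0, c0) i (b0, true)) = 0 := by
    cases c0 with
    | false =>
      have hq : σ (b0, true) ≠ e1 := by
        intro e
        have := σ.injective (e.trans hσ.symm)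
        simp at this
      have e2 : ∀ i, Function.update σ (b0, false) i (b0, true) = σ (b0, true) := by
        intro i
        rw [Function.update_of_ne]; simp
      simp only [e2, Function.update_self]
      exact hl b0 _ hq
    | true =>
      have hq : σ (b0, false) ≠ e1 := by
        intro e
        have := σ.injective (e.trans hσ.symm)
        simp at this
      have e2 : ∀ i, Function.update σ (b0, true) i (b0, false) = σ (b0, false) := by
        intro i
        rw [Function.update_of_ne]; simp
      simp only [e2, Function.update_self]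
      exact hr b0 _ hq
  rw [this, zero_mul]

theorem lemB {k : ℕ} (h : Fin (k + 1) → Ix k → Ix k → ℂ) (i : Ix k) (hi : i ≠ e1) :
    ∑ σ : Equiv.Perm (Ix k), cs σ * term h (Function.update σ (σ.symm e1) i) = 0 := by
  classical
  have key : ∑ σ : Equiv.Perm (Ix k), cs σ * term h (Function.update σ (σ.symm e1) i) =
      ∑ σ : Equiv.Perm (Ix k), -(cs σ * term h (Function.update σ (σ.symm e1) i)) := by
    rw [← Equiv.sum_comp (Equiv.mulLeft (Equiv.swap i e1 : Equiv.Perm (Ix k)))]
    apply sum_congr rfl
    intro σ _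
    have h1 : cs (Equiv.mulLeft (Equiv.swap i e1 : Equiv.Perm (Ix k)) σ) = - cs σ := by
      unfold cs
      rw [Equiv.coe_mulLeft, Equiv.Perm.sign_mul, Equiv.Perm.sign_swap hi]
      push_cast
      ring
    have h2 : Function.update (⇑(Equiv.mulLeft (Equiv.swap i e1 : Equiv.Perm (Ix k)) σ))
        ((Equiv.mulLeft (Equiv.swap i e1 : Equiv.Perm (Ix k)) σ).symm e1) i =
        Function.update σ (σ.symm e1) i := by
      funext x
      have e3 : (Equiv.mulLeft (Equiv.swap i e1 : Equiv.Perm (Ix k)) σ).symm e1 = σ.symm i := by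
        rw [Equiv.coe_mulLeft]
        rw [Equiv.symm_apply_eq]
        simp
      rw [e3]
      by_cases hx1 : x = σ.symm i
      · rw [hx1, Function.update_self]
        by_cases hx2 : σ.symm i = σ.symm e1
        · exact absurd (σ.symm.injective hx2) hi
        · rw [Function.update_of_ne hx2]; simp
      · rw [Function.update_of_ne hx1]
        by_cases hx2 : x = σ.symm e1
        · rw [hx2, Function.update_self]; simp
        · rw [Function.update_of_ne hx2]
          rw [Equiv.coe_mulLeft, Equiv.Perm.mul_apply]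
          apply Equiv.swap_apply_of_ne_of_ne
          · intro e; exact hx1 (by rw [← e]; simp)
          · intro e; exact hx2 (by rw [← e]; simp)
    rw [h1, h2, neg_mul]
  rw [sum_neg_distrib] at key
  have h3 : (2 : ℂ) * ∑ σ : Equiv.Perm (Ix k),
      cs σ * term h (Function.update σ (σ.symm e1) i) = 0 := by linear_combination key
  exact (mul_eq_zero.1 h3).resolve_left two_ne_zero

theorem PP_zero {k : ℕ} (h : Fin (k + 1) → Ix k → Ix k → ℂ) (w : Ix k → ℂ) (hw1 : w e1 = 1)
    (hl : ∀ b q, q ≠ e1 → ∑ i, w i * h b i q = 0)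
    (hr : ∀ b q, q ≠ e1 → ∑ i, w i * h b q i = 0) : PP (B := Fin (k + 1)) h = 0 := by
  classical
  have h1 : ∑ σ : Equiv.Perm (Ix k), cs σ *
      ∑ i, w i * term h (Function.update σ (σ.symm e1) i) = 0 :=
    sum_eq_zero fun σ _ => by rw [lemA h w hl hr σ, mul_zero]
  have h2 : ∑ σ : Equiv.Perm (Ix k), cs σ *
      ∑ i, w i * term h (Function.update σ (σ.symm e1) i) =
      ∑ i, w i * ∑ σ : Equiv.Perm (Ix k), cs σ * term h (Function.update σ (σ.symm e1) i) := by
    simp only [mul_sum]
    rw [sum_comm]
    exact sum_congr rfl fun i _ => sum_congr rfl fun σ _ => by ring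
  rw [h2, sum_eq_single e1] at h1
  · rw [hw1, one_mul] at h1
    rw [← h1]
    unfold PP term
    apply sum_congr rfl
    intro σ _
    have : Function.update (⇑σ) (σ.symm e1) (e1 : Ix k) = ⇑σ := by
      funext x
      by_cases hx : x = σ.symm e1
      · rw [hx, Function.update_self]; simp
      · rw [Function.update_of_ne hx]
    rw [this]
  · intro i _ hi
    rw [lemB h i hi, mul_zero]
  · intro h; exact absurd (mem_univ _) h

theorem om_zero {k : ℕ} (β : Ix k → Ix k → ℂ) (ha : ∀ i j, β j i = - β i j)
    (u : K k → ℂ) (hw : ∀ j, ∑ i, wv u i * β i j = 0) (ζ : Ix k → ℂ)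
    (hz : ∑ i, wv u i * ζ i = 0) :
    PP (B := Fin (k + 1)) (Fin.cons (Z ζ) (fun _ => β)) = 0 := by
  classical
  have hz2 : ∑ i, wv u i * (if i = e0 then (1 : ℂ) else 0) = 0 := by
    simp only [mul_ite, mul_one, mul_zero, Finset.sum_ite_eq', mem_univ, if_true, wv_e0]
  apply PP_zero _ (wv u) (wv_e1 u)
  · intro b q _
    refine Fin.cases ?_ (fun b => ?_) b
    · simp only [Fin.cons_zero]
      have : ∀ i, wv u i * Z ζ i q = (wv u i * (if i = e0 then (1 : ℂ) else 0)) * ζ q -
          (wv u i * ζ i) * (if q = e0 then 1 else 0) := fun i => by unfold Z; ring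
      rw [sum_congr rfl fun i _ => this i, sum_sub_distrib, ← sum_mul, ← sum_mul, hz, hz2]
      ring
    · simp only [Fin.cons_succ]
      exact hw q
  · intro b q _
    refine Fin.cases ?_ (fun b => ?_) b
    · simp only [Fin.cons_zero]
      have : ∀ i, wv u i * Z ζ q i = (wv u i * ζ i) * (if q = e0 then (1 : ℂ) else 0) -
          (wv u i * (if i = e0 then 1 else 0)) * ζ q := fun i => by unfold Z; ring
      rw [sum_congr rfl fun i _ => this i, sum_sub_distrib, ← sum_mul, ← sum_mul, hz, hz2]
      ring
    · simp only [Fin.cons_succ]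
      have : ∑ i, wv u i * β q i = - ∑ i, wv u i * β i q := by
        rw [← sum_neg_distrib]
        exact sum_congr rfl fun i _ => by rw [ha i q]; ring
      rw [this, hw q, neg_zero]

theorem kernel {k : ℕ} (β : Ix k → Ix k → ℂ) (ha : ∀ i j, β j i = - β i j)
    (_h0 : ∀ j, β e0 j = 0) (u : K k → ℂ) (hw : ∀ j, ∑ i, wv u i * β i j = 0) (p : Ix k) :
    om β p = wv u p * om β e1 := by
  classical
  have h1 := om_zero β ha u hw (fun i => (if i = p then 1 else 0) -
      wv u p * (if i = e1 then 1 else 0)) (by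
    simp only [mul_sub, sum_sub_distrib, mul_ite, mul_one, mul_zero, Finset.sum_ite_eq', mem_univ,
      if_true, wv_e1]
    ring)
  have h2 : PP (B := Fin (k + 1)) (Fin.cons (Z (fun i => (if i = p then 1 else 0) -
      wv u p * (if i = e1 then 1 else 0))) (fun _ => β)) = om β p - wv u p * om β e1 := by
    unfold om PP
    rw [mul_sum, ← sum_sub_distrib]
    apply sum_congr rfl
    intro σ _
    rw [Fin.prod_univ_succ, Fin.prod_univ_succ, Fin.prod_univ_succ]
    simp only [Fin.cons_zero, Fin.cons_succ]
    unfold Z W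
    ring
  rw [h2] at h1
  exact sub_eq_zero.1 h1

end Pool.Agent.TH365.J3418
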