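import Pool.Agent.TH86.IL.Defs

set_option autoImplicit false

namespace Pool.Agent.TH86.IL

universe u

section J531
variable {H : Type u} [Group H]

/-- the permutation attached to a group element and a cochain -/
private def pJ531 (J : H → H → ZMod 2) (s : H) : Equiv.Perm (H × ZMod 2) where
  toFun p := (p.1 * s⁻¹, p.2 + J p.1 (p.1 * s⁻¹))
  invFun p := (p.1 * s, p.2 - J (p.1 * s) p.1)
  left_inv p := by
    ext
    · simp
    · simp
  right_inv p := by
    ext
    · simp
    · simp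

variable {n : ℕ} (φ : FreeGroup (Fin n) →* H)

/-- the action of the free group -/
private def PhiJ531 (J : H → H → ZMod 2) : FreeGroup (Fin n) →* Equiv.Perm (H × ZMod 2) :=
  FreeGroup.lift fun i => pJ531 J (φ (FreeGroup.of i))

private theorem fstJ531 (J : H → H → ZMod 2) (w : FreeGroup (Fin n)) :
    ∀ p, (PhiJ531 φ J w p).1 = p.1 * (φ w)⁻¹ := by
  induction w using FreeGroup.induction_on with
  | C1 => intro p; simp
  | of i => intro p; simp [PhiJ531, pJ531]
  | inv_of i hi => intro p; simp [PhiJ531, pJ531, Equiv.Perm.inv_def]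
  | mul x y hx hy =>
    intro p
    rw [map_mul, Equiv.Perm.mul_apply, hx, hy, map_mul]
    group

/-- the maximal norm of a suffix -/
private def NJ531 (D : GM H) : List (Fin n × Bool) → ℕ
  | [] => 0
  | a :: L => max (NJ531 D L) (D.d 1 (φ (FreeGroup.mk (a :: L)))⁻¹)

private theorem N_headJ531 (D : GM H) (L : List (Fin n × Bool)) :
    D.d 1 (φ (FreeGroup.mk L))⁻¹ ≤ NJ531 φ D L := by
  cases L with
  | nil =>
    have : (FreeGroup.mk ([] : List (Fin n × Bool))) = 1 := rfl
    rw [this, map_one, inv_one, D.d_self]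
    exact Nat.zero_le _
  | cons a L => exact le_max_right _ _

private theorem pathJ531 (D : GM H) (hinv : ∀ g x y, D.d (g * x) (g * y) = D.d x y) (m : ℕ)
    (J : H → H → ZMod 2)
    (hJ : ∀ x y z, D.d x y ≤ m → D.d y z ≤ m → D.d x z ≤ m → J x y + J y z = J x z)
    (hm : ∀ i : Fin n, ∀ b : Bool, D.d 1 (φ (FreeGroup.mk [(i, b)]))⁻¹ ≤ m)
    (L : List (Fin n × Bool)) (hL : NJ531 φ D L ≤ m) (x : H) (e : ZMod 2) :
    PhiJ531 φ J (FreeGroup.mk L) (x, e) =
      (x * (φ (FreeGroup.mk L))⁻¹, e + J x (x * (φ (FreeGroup.mk L))⁻¹)) := by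
  have hJ0 : ∀ x, J x x = 0 := by
    intro x
    have := hJ x x x (by rw [D.d_self]; omega) (by rw [D.d_self]; omega) (by rw [D.d_self]; omega)
    simpa using this
  have hJs : ∀ x y, D.d x y ≤ m → J x y = J y x := by
    intro x y h
    have h1 := hJ x y x h (by rwa [D.d_symm]) (by rw [D.d_self]; omega)
    rw [hJ0] at h1
    have h2 : J x y = - J y x := eq_neg_of_add_eq_zero_left h1
    rw [h2]
    exact ZMod.neg_eq_self_mod_two _
  have hd : ∀ x s, D.d x (x * s) = D.d 1 s := by
    intro x s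
    have := hinv x 1 s
    rwa [mul_one] at this
  induction L with
  | nil =>
    have : (FreeGroup.mk ([] : List (Fin n × Bool))) = 1 := rfl
    rw [this, map_one, map_one]
    simp [hJ0]
  | cons a L ih =>
    obtain ⟨i, b⟩ := a
    have hmk : FreeGroup.mk ((i, b) :: L) = FreeGroup.mk [(i, b)] * FreeGroup.mk L := by
      rw [FreeGroup.mul_mk]; rfl
    have hL1 : NJ531 φ D L ≤ m := (le_max_left _ _).trans hL
    have hL2 : D.d 1 (φ (FreeGroup.mk ((i, b) :: L)))⁻¹ ≤ m := (le_max_right _ _).trans hL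
    have hL3 := (N_headJ531 φ D L).trans hL1
    have ih1 := ih hL1
    rw [hmk] at hL2 ⊢
    rw [map_mul, Equiv.Perm.mul_apply, ih1]
    set x' := x * (φ (FreeGroup.mk L))⁻¹ with hx'
    have e1 : x * (φ (FreeGroup.mk [(i, b)] * FreeGroup.mk L))⁻¹ =
        x' * (φ (FreeGroup.mk [(i, b)]))⁻¹ := by
      rw [map_mul, hx']; group
    rw [e1]
    have d1 : D.d x x' ≤ m := by rw [hx', hd]; exact hL3
    have d2 : D.d x' (x' * (φ (FreeGroup.mk [(i, b)]))⁻¹) ≤ m := by rw [hd]; exact hm i b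
    have d3 : D.d x (x' * (φ (FreeGroup.mk [(i, b)]))⁻¹) ≤ m := by rw [← e1, hd]; exact hL2
    rw [← hJ _ _ _ d1 d2 d3]
    cases b with
    | true =>
      have : (FreeGroup.mk [(i, true)]) = FreeGroup.of i := rfl
      rw [this]
      simp only [PhiJ531, FreeGroup.lift_apply_of, pJ531, Equiv.coe_fn_mk]
      rw [add_assoc]
    | false =>
      have : (FreeGroup.mk [(i, false)]) = (FreeGroup.of i)⁻¹ := rfl
      rw [this] at d2 ⊢
      rw [map_inv, inv_inv] at d2
      simp only [PhiJ531, map_inv, FreeGroup.lift_apply_of, pJ531, Equiv.Perm.inv_def,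
        Equiv.symm, Equiv.coe_fn_mk, inv_inv]
      rw [hJs _ _ d2]
      have h5 : ∀ a : ZMod 2, -a = a := ZMod.neg_eq_self_mod_two
      rw [sub_eq_add_neg, h5, add_assoc]

end J531

/-- On a finitely presented group with a left-invariant graph metric, 1-cocycles at a large enough
scale are coboundaries. -/
theorem exact_of_fp {H : Type u} [Group H] [Group.IsFinitelyPresented H] (D : GM H)
    (hinv : ∀ g x y, D.d (g * x) (g * y) = D.d x y) : ∃ m, 1 ≤ m ∧ Exact1 D m := by
  obtain ⟨n, φ, hφ, R, hR, hRc⟩ := Group.IsFinitelyPresented.out (G := H)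
  have hc : ∀ h : H, ∃ w, (φ w)⁻¹ = h := fun h => by
    obtain ⟨w, hw⟩ := hφ h⁻¹
    exact ⟨w, by rw [hw, inv_inv]⟩
  choose W hW using hc
  -- the finite set of words
  set T : Set (List (Fin n × Bool)) := (FreeGroup.toWord '' R) ∪
    ((fun s => (W s).toWord) '' {s | D.d 1 s ≤ 1}) ∪
      Set.range (fun a : Fin n × Bool => [a]) with hT
  have hTf : T.Finite := by
    refine ((hR.image _).union ((D.ball_fin 1 1).image _)).union (Set.finite_range _)
  obtain ⟨M, hM⟩ := (hTf.image (NJ531 φ D)).bddAbove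
  have hM' : ∀ L ∈ T, NJ531 φ D L ≤ M := fun L hL => hM ⟨L, hL, rfl⟩
  refine ⟨max 1 M, le_max_left _ _, ?_⟩
  intro J hJ
  set m := max 1 M with hm
  have hN : ∀ L ∈ T, NJ531 φ D L ≤ m := fun L hL => (hM' L hL).trans (le_max_right _ _)
  have hlet : ∀ i : Fin n, ∀ b : Bool, D.d 1 (φ (FreeGroup.mk [(i, b)]))⁻¹ ≤ m := fun i b =>
    (N_headJ531 φ D _).trans (hN _ (Or.inr ⟨(i, b), rfl⟩))
  have hJ0 : ∀ x, J x x = 0 := by
    intro x
    have := hJ x x x (by rw [D.d_self]; omega) (by rw [D.d_self]; omega) (by rw [D.d_self]; omega)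
    simpa using this
  have path := pathJ531 φ D hinv m J hJ hlet
  have hrel : ∀ r ∈ R, PhiJ531 φ J r = 1 := by
    intro r hr
    ext p : 1
    obtain ⟨x, e⟩ := p
    have h1 := path r.toWord (hN _ (Or.inl (Or.inl ⟨r, hr, rfl⟩))) x e
    rw [FreeGroup.mk_toWord] at h1
    have h2 : φ r = 1 := by
      have : r ∈ φ.ker := by rw [← hRc]; exact Subgroup.subset_normalClosure hr
      exact this
    rw [h1, h2, inv_one, mul_one, hJ0, add_zero]
    rfl
  have hker : ∀ w, φ w = 1 → PhiJ531 φ J w = 1 := by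
    intro w hw
    have h1 : w ∈ Subgroup.normalClosure R := by rw [hRc]; exact hw
    have h2 : Subgroup.normalClosure R ≤ (PhiJ531 φ J).ker :=
      Subgroup.normalClosure_le_normal (fun r hr => hrel r hr)
    exact h2 h1
  have hwd : ∀ w w', φ w = φ w' → PhiJ531 φ J w = PhiJ531 φ J w' := by
    intro w w' h
    have h1 := hker (w⁻¹ * w') (by rw [map_mul, map_inv, h]; group)
    rw [map_mul, map_inv] at h1
    exact inv_mul_eq_one.1 h1
  refine ⟨fun h => (PhiJ531 φ J (W h) (1, 0)).2, ?_⟩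
  have hst : ∀ x s, D.d 1 s ≤ 1 → (PhiJ531 φ J (W (x * s)) (1, 0)).2 =
      (PhiJ531 φ J (W x) (1, 0)).2 + J x (x * s) := by
    intro x s hs
    have h1 : φ (W (x * s)) = φ (W s * W x) := by
      rw [map_mul]
      have a1 := hW (x * s)
      have a2 := hW x
      have a3 := hW s
      rw [inv_eq_iff_eq_inv] at a1 a2 a3
      rw [a1, a2, a3]; group
    have h2 : PhiJ531 φ J (W x) (1, 0) = (x, (PhiJ531 φ J (W x) (1, 0)).2) := by
      ext
      · rw [fstJ531, hW, one_mul]
      · rfl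
    have h3 := path (W s).toWord (hN _ (Or.inl (Or.inr ⟨s, hs, rfl⟩))) x
      (PhiJ531 φ J (W x) (1, 0)).2
    rw [FreeGroup.mk_toWord, hW] at h3
    rw [hwd _ _ h1, map_mul, Equiv.Perm.mul_apply, h2, h3]
  have hch : ∀ k x y, D.d x y = k → k ≤ m → J x y =
      (PhiJ531 φ J (W x) (1, 0)).2 + (PhiJ531 φ J (W y) (1, 0)).2 := by
    intro k
    have hstep : ∀ z y, D.d z y ≤ 1 → J z y =
        (PhiJ531 φ J (W z) (1, 0)).2 + (PhiJ531 φ J (W y) (1, 0)).2 := by
      intro z y hzy
      have h1 : y = z * (z⁻¹ * y) := by group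
      have h2 : D.d 1 (z⁻¹ * y) ≤ 1 := by
        have := hinv z 1 (z⁻¹ * y)
        rw [mul_one, ← h1] at this
        rw [← this]; exact hzy
      have h3 := hst z (z⁻¹ * y) h2
      rw [← h1] at h3
      rw [h3, ← add_assoc, CharTwo.add_self_eq_zero, zero_add]
    induction k with
    | zero =>
      intro x y hxy _
      exact hstep x y (by omega)
    | succ k ih =>
      intro x y hxy hk
      obtain ⟨z, hz1, hz2⟩ := D.d_geo x y k hxy
      rw [← hJ x z y (by omega) (by omega) (by omega), ih x z hz1 (by omega), hstep z y (by omega)]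
      have : ∀ a b c : ZMod 2, a + b + (b + c) = a + c := by decide
      exact this _ _ _
  intro x y hxy
  exact hch _ x y rfl hxy

end Pool.Agent.TH86.IL
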