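import Pool.Agent.TH86.IL.Defs

set_option autoImplicit false

namespace Pool.Agent.TH86.IL

universe u

private theorem geoJ532 {H : Type u} (D : GM H) (k : ℕ) : ∀ x y, D.d x y = k →
    ∃ g : ℕ → H, g 0 = x ∧ g k = y ∧ (∀ i ≤ k, D.d x (g i) = i) ∧
      ∀ i < k, D.d (g i) (g (i + 1)) = 1 := by
  induction k with
  | zero =>
    intro x y h
    refine ⟨fun _ => x, rfl, D.d_eq x y h, ?_, ?_⟩
    · intro i hi
      rw [D.d_self]; omega
    · intro i hi; omega
  | succ k ih =>
    intro x y h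
    obtain ⟨z, hz1, hz2⟩ := D.d_geo x y k h
    obtain ⟨g, g0, gk, g1, g2⟩ := ih x z hz1
    refine ⟨fun i => if i ≤ k then g i else y, ?_, ?_, ?_, ?_⟩
    · simp [g0]
    · simp
    · intro i hi
      by_cases hik : i ≤ k
      · simp [hik, g1 i hik]
      · simp only [hik, if_false]
        rw [h]; omega
    · intro i hi
      by_cases hik : i < k
      · simp only [show i ≤ k by omega, show i + 1 ≤ k by omega, if_true]
        exact g2 i hik
      · have : i = k := by omega
        subst this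
        simp only [le_refl, if_true, show ¬ (i + 1 ≤ i) by omega, if_false, gk, hz2]

private theorem geo2J532 {H : Type u} (D : GM H) (x : H) (k : ℕ) (g : ℕ → H)
    (g1 : ∀ i ≤ k, D.d x (g i) = i) (g2 : ∀ i < k, D.d (g i) (g (i + 1)) = 1)
    (i j : ℕ) (hij : i ≤ j) (hj : j ≤ k) : D.d (g i) (g j) = j - i := by
  have h1 : ∀ e, i + e ≤ k → D.d (g i) (g (i + e)) ≤ e := by
    intro e
    induction e with
    | zero => intro _; rw [add_zero, D.d_self]
    | succ e ih =>
      intro he
      have h2 := ih (by omega)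
      have h3 := g2 (i + e) (by omega)
      have h4 := D.d_tri (g i) (g (i + e)) (g (i + e + 1))
      rw [← add_assoc]
      omega
  have h2 := h1 (j - i) (by omega)
  rw [show i + (j - i) = j by omega] at h2
  have h3 := D.d_tri x (g i) (g j)
  rw [g1 i (by omega), g1 j hj] at h3
  omega

/-- approximating lines -/
private theorem approxJ532 {H : Type u} [Group H] (D : GM H)
    (hinv : ∀ g x y, D.d (g * x) (g * y) = D.d x y) (n : ℕ) (hT : ¬ TreeLike D n) :
    ∃ γ : ℤ → H, γ 0 = 1 ∧
      (∀ i j : ℤ, i.natAbs ≤ n → j.natAbs ≤ n → D.d (γ i) (γ j) = (i - j).natAbs) ∧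
      (∀ Δ k k' : ℕ, Δ < k → Δ < k' → k ≤ n → k' ≤ n → Conn D 1 Δ (γ (-(k : ℤ))) (γ (k' : ℤ))) := by
  unfold TreeLike at hT
  push Not at hT
  obtain ⟨x0, m, y0, hx0, hy0, hg0, hc0⟩ := hT
  obtain ⟨x, y, hx, hy, hg, hc⟩ : ∃ x y : H, n < D.d 1 x ∧ n < D.d 1 y ∧
      D.d x 1 + D.d 1 y = D.d x y ∧ Conn D 1 n x y := by
    have h1 : ∀ z, D.d 1 (m⁻¹ * z) = D.d m z := by
      intro z
      have := hinv m⁻¹ m z
      rwa [inv_mul_cancel] at this
    have h1' : ∀ z, D.d (m⁻¹ * z) 1 = D.d z m := by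
      intro z
      rw [D.d_symm, h1, D.d_symm]
    refine ⟨m⁻¹ * x0, m⁻¹ * y0, by rw [h1]; exact hx0, by rw [h1]; exact hy0, ?_, ?_⟩
    · rw [h1, h1', hinv]; exact hg0
    · refine Relation.ReflTransGen.lift (fun z => m⁻¹ * z) ?_ _ _ hc0
      intro a b hab
      change D.d (m⁻¹ * a) (m⁻¹ * b) ≤ 1 ∧ n < D.d 1 (m⁻¹ * a) ∧ n < D.d 1 (m⁻¹ * b)
      rw [hinv, h1, h1]
      exact hab
  obtain ⟨gx, gx0, gxk, gx1, gx2⟩ := geoJ532 D _ 1 x rfl
  obtain ⟨gy, gy0, gyk, gy1, gy2⟩ := geoJ532 D _ 1 y rfl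
  set a := D.d 1 x with ha
  set b := D.d 1 y with hb
  have hdx := geo2J532 D 1 a gx gx1 gx2
  have hdy := geo2J532 D 1 b gy gy1 gy2
  have hxy : ∀ i j : ℕ, i ≤ a → j ≤ b → D.d (gx i) (gy j) = i + j := by
    intro i j hi hj
    have e1 : D.d (gx i) (gy j) ≤ i + j := by
      have := D.d_tri (gx i) 1 (gy j)
      rw [D.d_symm (gx i) 1, gx1 i hi, gy1 j hj] at this
      exact this
    have e2 : a + b ≤ (a - i) + D.d (gx i) (gy j) + (b - j) := by
      have t1 := D.d_tri x (gx i) y
      have t2 := D.d_tri (gx i) (gy j) y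
      have t3 := hdx i a hi le_rfl
      rw [gxk] at t3
      have t4 := hdy j b hj le_rfl
      rw [gyk] at t4
      rw [D.d_symm x (gx i), t3] at t1
      rw [t4] at t2
      rw [← hg, D.d_symm x 1] at t1
      omega
    omega
  refine ⟨fun i => if 0 ≤ i then gy i.toNat else gx (-i).toNat, ?_, ?_, ?_⟩
  · simp [gy0]
  · intro i j hi hj
    have g00 : gx 0 = gy 0 := by rw [gx0, gy0]
    by_cases h1 : 0 ≤ i
    · by_cases h2 : 0 ≤ j
      · simp only [h1, h2, if_true]
        rcases le_total i j with h3 | h3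
        · rw [hdy i.toNat j.toNat (by omega) (by omega)]; omega
        · rw [D.d_symm, hdy j.toNat i.toNat (by omega) (by omega)]; omega
      · simp only [h1, h2, if_true, if_false]
        rw [D.d_symm, hxy _ _ (by omega) (by omega)]; omega
    · by_cases h2 : 0 ≤ j
      · simp only [h1, h2, if_true, if_false]
        rw [hxy _ _ (by omega) (by omega)]; omega
      · simp only [h1, h2, if_false]
        rcases le_total i j with h3 | h3
        · rw [D.d_symm, hdx (-j).toNat (-i).toNat (by omega) (by omega)]; omega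
        · rw [hdx (-i).toNat (-j).toNat (by omega) (by omega)]; omega
  · intro Δ k k' hk hk' hkn hkn'
    simp only [show ¬ (0 ≤ -(k : ℤ)) by omega, show (0 : ℤ) ≤ (k' : ℤ) by omega, if_true, if_false,
      neg_neg, Int.toNat_natCast]
    -- from gx k to x
    have p1 : ∀ e, k + e ≤ a → Conn D 1 Δ (gx k) (gx (k + e)) := by
      intro e
      induction e with
      | zero => intro _; exact Relation.ReflTransGen.refl
      | succ e ih =>
        intro he
        refine Relation.ReflTransGen.tail (ih (by omega)) ⟨?_, ?_, ?_⟩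
        · rw [← add_assoc, gx2 (k + e) (by omega)]
        · rw [gx1 _ (by omega)]; omega
        · rw [gx1 _ (by omega)]; omega
    have p2 : ∀ e, k' + e ≤ b → Conn D 1 Δ (gy (k' + e)) (gy k') := by
      intro e
      induction e with
      | zero => intro _; exact Relation.ReflTransGen.refl
      | succ e ih =>
        intro he
        refine Relation.ReflTransGen.head ⟨?_, ?_, ?_⟩ (ih (by omega))
        · rw [← add_assoc, D.d_symm, gy2 (k' + e) (by omega)]
        · rw [gy1 _ (by omega)]; omega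
        · rw [gy1 _ (by omega)]; omega
    have p3 : Conn D 1 Δ x y := by
      refine Relation.ReflTransGen.mono ?_ _ _ hc
      rintro u v ⟨h1, h2, h3⟩
      exact ⟨h1, by omega, by omega⟩
    have q1 := p1 (a - k) (by omega)
    rw [show k + (a - k) = a by omega, gxk] at q1
    have q2 := p2 (b - k') (by omega)
    rw [show k' + (b - k') = b by omega, gyk] at q2
    exact (q1.trans p3).trans q2

/-- the limit line -/
private theorem limitJ532 {H : Type u} [Group H] (D : GM H)
    (hinv : ∀ g x y, D.d (g * x) (g * y) = D.d x y) (hT : ∀ Δ, ¬ TreeLike D Δ) :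
    ∃ ℓ : ℤ → H, (∀ i j, D.d (ℓ i) (ℓ j) = (i - j).natAbs) ∧
      (∀ Δ k k' : ℕ, Δ < k → Δ < k' → Conn D 1 Δ (ℓ (-(k : ℤ))) (ℓ (k' : ℤ))) := by
  choose γ h0 h1 h2 using fun n => approxJ532 D hinv n (hT n)
  set U : Ultrafilter ℕ := Filter.hyperfilter ℕ with hU
  have hlarge : ∀ N : ℕ, ∀ᶠ n in (U : Filter ℕ), N ≤ n := by
    intro N
    have : (U : Filter ℕ) ≤ Filter.atTop := by
      rw [← Nat.cofinite_eq_atTop]
      exact Filter.hyperfilter_le_cofinite
    exact this (Filter.eventually_ge_atTop N)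
  have hex : ∀ i : ℤ, ∃ v, ∀ᶠ n in (U : Filter ℕ), γ n i = v := by
    intro i
    have hf := D.ball_fin 1 i.natAbs
    have h3 : (⋃ v ∈ {y | D.d 1 y ≤ i.natAbs}, {n | γ n i = v}) ∈ U := by
      refine Filter.mem_of_superset (hlarge i.natAbs) ?_
      intro n hn
      rw [Set.mem_ofPred_eq] at hn
      rw [Set.mem_iUnion₂]
      refine ⟨γ n i, ?_, rfl⟩
      rw [Set.mem_ofPred_eq]
      have := h1 n 0 i (by simp) hn
      rw [h0] at this
      rw [this]
      simp
    rw [Ultrafilter.finite_biUnion_mem_iff hf] at h3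
    obtain ⟨v, _, hv⟩ := h3
    exact ⟨v, hv⟩
  choose ℓ hℓ using hex
  refine ⟨ℓ, ?_, ?_⟩
  · intro i j
    obtain ⟨n, hi, hj, hn1, hn2⟩ := ((hℓ i).and ((hℓ j).and ((hlarge i.natAbs).and
      (hlarge j.natAbs)))).exists
    rw [← hi, ← hj]
    exact h1 n i j hn1 hn2
  · intro Δ k k' hk hk'
    obtain ⟨n, hi, hj, hn1, hn2⟩ := ((hℓ (-(k : ℤ))).and ((hℓ (k' : ℤ)).and ((hlarge k).and
      (hlarge k')))).exists
    rw [← hi, ← hj]
    exact h2 n Δ k k' hk hk' hn1 hn2

/-- A group that is not tree-like contains a bi-infinite geodesic line both of whose ends are not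
separated by any bounded cut. -/
theorem exists_line {H : Type u} [Group H] (D : GM H)
    (hinv : ∀ g x y, D.d (g * x) (g * y) = D.d x y) (hT : ∀ Δ, ¬ TreeLike D Δ) :
    ∃ ℓ : ℤ → H, (∀ i j, D.d (ℓ i) (ℓ j) = (i - j).natAbs) ∧ ∀ s, Par D (3 * s) s ℓ ℓ := by
  obtain ⟨ℓ, hd, hc⟩ := limitJ532 D hinv hT
  refine ⟨ℓ, hd, ?_⟩
  intro s
  -- it suffices to treat t ≤ t'
  have main : ∀ (o : H) (χ : H → ZMod 2), (∀ x y, D.d x y ≤ 1 → χ x ≠ χ y → D.d o x ≤ s) →
    ∀ t t', t ≤ t' → 3 * s < D.d o (ℓ t) → 3 * s < D.d o (ℓ t') → χ (ℓ t) = χ (ℓ t') := by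
    intro o χ hχ t t' htt ht ht'
    -- constant along segments outside the ball
    have seg : ∀ (p : ℤ) (e : ℕ), (∀ u, p ≤ u → u ≤ p + e → s < D.d o (ℓ u)) →
        χ (ℓ p) = χ (ℓ (p + e)) := by
      intro p e
      induction e with
      | zero => intro _; simp
      | succ e ih =>
        intro h
        rw [ih (fun u h1 h2 => h u h1 (by push_cast; omega))]
        by_contra hne
        have h3 := hχ (ℓ (p + e)) (ℓ (p + ((e + 1 : ℕ) : ℤ))) (by rw [hd]; push_cast; omega) hne
        have h4 := h (p + e) (by omega) (by push_cast; omega)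
        omega
    by_cases hcase : ∃ u, t ≤ u ∧ u ≤ t' ∧ D.d o (ℓ u) ≤ s
    · obtain ⟨u, hu1, hu2, hu3⟩ := hcase
      have left : ∀ r, r ≤ t → s < D.d o (ℓ r) := by
        intro r hr
        by_contra hcon
        have t1 := D.d_tri (ℓ r) o (ℓ u)
        rw [hd, D.d_symm (ℓ r) o] at t1
        have t2 := D.d_tri o (ℓ u) (ℓ t)
        rw [hd] at t2
        omega
      have right : ∀ r, t' ≤ r → s < D.d o (ℓ r) := by
        intro r hr
        by_contra hcon
        have t1 := D.d_tri (ℓ r) o (ℓ u)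
        rw [hd, D.d_symm (ℓ r) o] at t1
        have t2 := D.d_tri o (ℓ u) (ℓ t')
        rw [hd] at t2
        omega
      obtain ⟨k, hk⟩ : ∃ k : ℕ, k = t.natAbs + t'.natAbs + (D.d 1 o + s) + 1 := ⟨_, rfl⟩
      have c1 : χ (ℓ (-(k : ℤ))) = χ (ℓ t) := by
        have := seg (-(k : ℤ)) (t + k).toNat (fun r _ h2 => left r (by omega))
        rw [show -(k : ℤ) + ((t + k).toNat : ℤ) = t by omega] at this
        exact this
      have c2 : χ (ℓ t') = χ (ℓ (k : ℤ)) := by
        have := seg t' ((k : ℤ) - t').toNat (fun r h1 _ => right r h1)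
        rw [show t' + (((k : ℤ) - t').toNat : ℤ) = k by omega] at this
        exact this
      have c3 : χ (ℓ (-(k : ℤ))) = χ (ℓ (k : ℤ)) := by
        have h5 := hc (D.d 1 o + s) k k (by omega) (by omega)
        have : ∀ u v, Conn D 1 (D.d 1 o + s) u v → χ u = χ v := by
          intro u v huv
          induction huv with
          | refl => rfl
          | @tail b c _ hab ih =>
            rw [ih]
            by_contra hne
            have h6 := hχ _ _ hab.1 hne
            have h7 := D.d_tri 1 o b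
            have h8 := hab.2.1
            omega
        exact this _ _ h5
      rw [← c1, c3, c2]
    · push Not at hcase
      have := seg t (t' - t).toNat (fun u h1 h2 => hcase u h1 (by omega))
      rw [show t + ((t' - t).toNat : ℤ) = t' by omega] at this
      exact this
  intro o χ hχ t t' ht ht'
  rcases le_total t t' with h | h
  · exact main o χ hχ t t' h ht ht'
  · exact (main o χ hχ t' t h ht' ht).symm

end Pool.Agent.TH86.IL
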