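import Pool.Agent.TH62.PL.Stms
set_option autoImplicit false
namespace Pool.Agent.TH365.J735
open Pool.Agent.TH62.PL

theorem compl_in {G : Type} [Group G] [Finite G] (M P Y : Subgroup G) (hM : M.Normal)
    (hY : M ⊔ P = Y) (hc : (Nat.card M).Coprime (Nat.card P)) :
    (M.subgroupOf Y).IsComplement' (P.subgroupOf Y) := by
  have hMY : M ≤ Y := hY ▸ le_sup_left
  have hPY : P ≤ Y := hY ▸ le_sup_right
  refine Subgroup.isComplement'_of_disjoint_and_mul_eq_univ ?_ ?_
  · have h1 := Subgroup.disjoint_of_coprime_natCard hc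
    rw [disjoint_iff] at h1 ⊢
    rw [eq_bot_iff]
    intro x hx
    rw [Subgroup.mem_inf, Subgroup.mem_subgroupOf, Subgroup.mem_subgroupOf] at hx
    have h2 : (x : G) ∈ M ⊓ P := hx
    rw [h1, Subgroup.mem_bot] at h2
    rw [Subgroup.mem_bot]
    exact Subtype.ext h2
  · rw [Set.eq_univ_iff_forall]
    intro y
    have hy : (y : G) ∈ M ⊔ P := by
      rw [hY]
      exact y.2
    rw [Subgroup.mem_sup_of_normal_left] at hy
    obtain ⟨m, hm, p, hp, hmp⟩ := hy
    exact ⟨⟨m, hMY hm⟩, hm, ⟨p, hPY hp⟩, hp, Subtype.ext hmp⟩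

theorem szApply (sz : SZStm) {G : Type} [Group G] [Finite G] (M P P' Y : Subgroup G)
    (hM : M.Normal) (hY : M ⊔ P = Y) (hY' : M ⊔ P' = Y)
    (hc : (Nat.card M).Coprime (Nat.card P)) (hc' : (Nat.card M).Coprime (Nat.card P'))
    (hs : Group.IsSolvable P) : ∃ y ∈ Y, ∀ x, x ∈ P' ↔ y⁻¹ * x * y ∈ P := by
  have hMY : M ≤ Y := hY ▸ le_sup_left
  have hPY : P ≤ Y := hY ▸ le_sup_right
  have hPY' : P' ≤ Y := hY' ▸ le_sup_right
  have c1 := compl_in M P Y hM hY hc
  have c2 := compl_in M P' Y hM hY' hc'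
  have e1 : Nat.card (M.subgroupOf Y) = Nat.card M :=
    Nat.card_congr (Subgroup.subgroupOfEquivOfLe hMY).toEquiv
  have e2 : Nat.card (P.subgroupOf Y) = Nat.card P :=
    Nat.card_congr (Subgroup.subgroupOfEquivOfLe hPY).toEquiv
  have e3 : (M.subgroupOf Y).index = Nat.card P := by
    rw [c1.symm.index_eq_card, e2]
  have hs' : Group.IsSolvable (P.subgroupOf Y) := by
    have := hs
    exact Group.isSolvable_of_isSolvable_injective
      (f := (Subgroup.subgroupOfEquivOfLe hPY).toMonoidHom) (Subgroup.subgroupOfEquivOfLe hPY).injective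
  obtain ⟨y, hy⟩ := sz Y (M.subgroupOf Y) (P.subgroupOf Y) (P'.subgroupOf Y)
    (hM.subgroupOf Y) (by rw [e1, e3]; exact hc) c1 c2 hs'
  refine ⟨y, y.2, fun x => ?_⟩
  constructor
  · intro hx
    have := (hy ⟨x, hPY' hx⟩).1 hx
    exact this
  · intro hx
    have hxY : x ∈ Y := by
      have h1 := hPY hx
      have h2 := Y.mul_mem (Y.mul_mem y.2 h1) (Y.inv_mem y.2)
      have h3 : (y : G) * ((y : G)⁻¹ * x * y) * (y : G)⁻¹ = x := by group
      rwa [h3] at h2
    exact (hy ⟨x, hxY⟩).2 hx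

theorem frH (sz : SZStm) : FrHStm := by
  intro G _ _ M P hM hMP hc hs g
  set P' : Subgroup G := P.map (MulAut.conj g).toMonoidHom with hP'
  have hmem : ∀ x, x ∈ P' ↔ g⁻¹ * x * g ∈ P := by
    intro x
    rw [hP', Subgroup.mem_map]
    constructor
    · rintro ⟨p, hp, rfl⟩
      simpa [MulAut.conj_apply, mul_assoc] using hp
    · intro h
      exact ⟨_, h, by simp [MulAut.conj_apply]; group⟩
  have hcard : Nat.card P' = Nat.card P :=
    (Nat.card_congr (P.equivMapOfInjective _ (MulAut.conj g).injective).toEquiv).symm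
  have hsup : M ⊔ P' = M ⊔ P := by
    apply le_antisymm
    · refine sup_le le_sup_left ?_
      intro x hx
      have h1 : g⁻¹ * x * g ∈ M ⊔ P := (le_sup_right : P ≤ M ⊔ P) ((hmem x).1 hx)
      have h2 := hMP.conj_mem _ h1 g
      have h3 : g * (g⁻¹ * x * g) * g⁻¹ = x := by group
      rwa [h3] at h2
    · intro x hx
      have h1 := hMP.conj_mem x hx g⁻¹
      rw [inv_inv, Subgroup.mem_sup_of_normal_left] at h1
      obtain ⟨m, hm, p, hp, hmp⟩ := h1
      have h2 : x = (g * m * g⁻¹) * (g * p * g⁻¹) := by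
        have : g * (g⁻¹ * x * g) * g⁻¹ = x := by group
        rw [← this, ← hmp]; group
      rw [h2]
      refine (M ⊔ P').mul_mem ((le_sup_left : M ≤ M ⊔ P') (hM.conj_mem m hm g))
        ((le_sup_right : P' ≤ M ⊔ P') ((hmem _).2 ?_))
      have : g⁻¹ * (g * p * g⁻¹) * g = p := by group
      rwa [this]
  obtain ⟨y, hy, hyP⟩ := szApply sz M P P' (M ⊔ P) hM rfl hsup hc (by rw [hcard]; exact hc) hs
  rw [Subgroup.mem_sup_of_normal_left] at hy
  obtain ⟨m, hm, p, hp, rfl⟩ := hy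
  refine ⟨m, hm, m⁻¹ * g, fun x hx => ?_, by group⟩
  have h1 : g * x * g⁻¹ ∈ P' := (hmem _).2 (by
    have : g⁻¹ * (g * x * g⁻¹) * g = x := by group
    rwa [this])
  have h2 := (hyP _).1 h1
  have h3 := P.mul_mem (P.mul_mem hp h2) (P.inv_mem hp)
  have h4 : p * ((m * p)⁻¹ * (g * x * g⁻¹) * (m * p)) * p⁻¹ = m⁻¹ * g * x * (m⁻¹ * g)⁻¹ := by group
  rwa [h4] at h3

theorem invSyl (sz : SZStm) : InvSylStm := by
  intro G _ _ M L hM hc hs q _
  obtain ⟨S⟩ : Nonempty (Sylow q M) := inferInstance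
  set Q0 : Subgroup G := (S : Subgroup M).map M.subtype with hQ0
  have hfr := Sylow.normalizer_sup_eq_top S
  rw [← hQ0] at hfr
  set N : Subgroup G := Subgroup.normalizer (Q0 : Set G) with hN
  set H : Subgroup G := M ⊔ L with hH
  set NH : Subgroup G := N ⊓ H with hNH
  have hMH : M ≤ H := le_sup_left
  have hsupH : M ⊔ NH = H := by
    apply le_antisymm
    · exact sup_le hMH inf_le_right
    · intro x hx
      have h1 : x ∈ M ⊔ N := by
        rw [sup_comm, hfr]; trivial
      rw [Subgroup.mem_sup_of_normal_left] at h1 ⊢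
      obtain ⟨m, hm, n, hn, rfl⟩ := h1
      refine ⟨m, hm, n, ⟨hn, ?_⟩, rfl⟩
      have := H.mul_mem (H.inv_mem (hMH hm)) hx
      rwa [inv_mul_cancel_left] at this
  have hidx : M.relIndex NH = Nat.card L := by
    rw [← Subgroup.relIndex_sup_left NH M, hsupH, hH, Subgroup.relIndex_sup_left,
      ← Subgroup.inf_relIndex_right, disjoint_iff.1 (Subgroup.disjoint_of_coprime_natCard hc),
      Subgroup.relIndex_bot_left]
  have hcard1 : Nat.card (M.subgroupOf NH) ∣ Nat.card M := by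
    have e : Nat.card (M.subgroupOf NH) = Nat.card (M ⊓ NH : Subgroup G) := by
      rw [← Subgroup.inf_subgroupOf_right]
      exact Nat.card_congr (Subgroup.subgroupOfEquivOfLe inf_le_right).toEquiv
    rw [e]
    exact Subgroup.card_dvd_of_le inf_le_left
  have hMn : (M.subgroupOf NH).Normal := hM.subgroupOf NH
  obtain ⟨L1', hL1'⟩ := Subgroup.exists_right_complement'_of_coprime (N := M.subgroupOf NH) (by
    have : (M.subgroupOf NH).index = Nat.card L := hidx
    rw [this]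
    exact Nat.Coprime.coprime_dvd_left hcard1 hc)
  set L1 : Subgroup G := L1'.map NH.subtype with hL1
  have hL1NH : L1 ≤ NH := Subgroup.map_subtype_le L1'
  have hcL1 : Nat.card L1 = Nat.card L := by
    have e1 : Nat.card L1 = Nat.card L1' :=
      (Nat.card_congr (L1'.equivMapOfInjective _ NH.subtype_injective).toEquiv).symm
    rw [e1, ← hL1'.symm.index_eq_card]
    exact hidx
  have hsup1 : M ⊔ L1 = H := by
    apply le_antisymm
    · exact sup_le hMH (hL1NH.trans inf_le_right)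
    · rw [← hsupH]
      refine sup_le le_sup_left ?_
      intro x hx
      have h1 : (⟨x, hx⟩ : NH) ∈ (⊤ : Subgroup NH) := trivial
      rw [← hL1'.sup_eq_top, Subgroup.mem_sup_of_normal_left] at h1
      obtain ⟨m, hm, p, hp, hmp⟩ := h1
      have h2 : x = (m : G) * (p : G) := by
        have := congrArg Subtype.val hmp
        exact this.symm
      rw [h2]
      exact (M ⊔ L1).mul_mem ((le_sup_left : M ≤ M ⊔ L1) hm)
        ((le_sup_right : L1 ≤ M ⊔ L1) ⟨p, hp, rfl⟩)
  obtain ⟨y, hy, hyL⟩ := szApply sz M L L1 H hM rfl hsup1 hc (by rw [hcL1]; exact hc) hs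
  -- the invariant Sylow subgroup
  have hMi := hM
  set T : Sylow q M := (MulAut.conjNormal (H := M) y⁻¹) • S with hT
  have hTm : ∀ a, a ∈ (T : Subgroup M) ↔ ∃ b ∈ (S : Subgroup M), MulAut.conjNormal y⁻¹ b = a := by
    intro a
    rw [hT, Sylow.pointwise_smul_def, Subgroup.mem_smul_pointwise_iff_exists]
    rfl
  set Q : Subgroup G := (T : Subgroup M).map M.subtype with hQ
  have hQmem : ∀ x, x ∈ Q ↔ y * x * y⁻¹ ∈ Q0 := by
    intro x
    rw [hQ, hQ0]
    constructor
    · rintro ⟨a, ha, rfl⟩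
      obtain ⟨b, hb, rfl⟩ := (hTm a).1 ha
      refine ⟨b, hb, ?_⟩
      simp [MulAut.conjNormal_apply, mul_assoc]
    · rintro ⟨a, ha, hax⟩
      refine ⟨MulAut.conjNormal y⁻¹ a, ?_, ?_⟩
      · exact (hTm _).2 ⟨a, ha, rfl⟩
      · simp only [Subgroup.subtype_apply] at hax ⊢
        rw [MulAut.conjNormal_apply, hax]
        group
  have hfr2 := Sylow.normalizer_sup_eq_top T
  rw [← hQ] at hfr2
  refine ⟨Q, Subgroup.map_subtype_le _, T.2.map _, ?_, ?_, ?_⟩
  · have h1 := Sylow.not_dvd_index T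
    have h2 : Q.relIndex M = (T : Subgroup M).index := by
      have : Q.subgroupOf M = (T : Subgroup M) := by
        rw [hQ, Subgroup.subgroupOf, Subgroup.comap_map_eq_self_of_injective M.subtype_injective]
      rw [Subgroup.relIndex, this]
    rw [h2]
    exact h1
  · intro l hl x hx
    rw [hQmem] at hx ⊢
    have h1 : y * l * y⁻¹ ∈ L1 := by
      rw [hyL]
      have : y⁻¹ * (y * l * y⁻¹) * y = l := by group
      rwa [this]
    have h2 : y * l * y⁻¹ ∈ N := (hL1NH h1).1
    have h3 := (Subgroup.mem_normalizer_iff.1 h2 (y * x * y⁻¹)).1 hx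
    have h4 : y * l * y⁻¹ * (y * x * y⁻¹) * (y * l * y⁻¹)⁻¹ = y * (l * x * l⁻¹) * y⁻¹ := by group
    rwa [h4] at h3
  · intro g
    have h1 : g ∈ M ⊔ Subgroup.normalizer (Q : Set G) := by
      rw [sup_comm, hfr2]; trivial
    rw [Subgroup.mem_sup_of_normal_left] at h1
    obtain ⟨m, hm, t, ht, rfl⟩ := h1
    exact ⟨m, hm, t, fun x hx => (Subgroup.mem_normalizer_iff.1 ht x).1 hx, rfl⟩

end Pool.Agent.TH365.J735
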