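import Pool.Agent.TH62.PL.Stms
set_option autoImplicit false
namespace Pool.Agent.TH365.J737
open Pool.Agent.TH62.PL

/-- the order of a `σ`-subgroup is a `σ`-number -/
theorem card_PN {σ : Set ℕ} {G : Type} [Group G] [Finite G] {P Q : Subgroup G} (hP : PF σ ⊥ P)
    (hQ : Q ≤ P) : PN σ (Nat.card Q) := by
  refine ⟨Nat.card_pos.ne', fun p hp hd => ?_⟩
  have : Fact p.Prime := ⟨hp⟩
  obtain ⟨x, hx⟩ := exists_prime_orderOf_dvd_card' (G := Q) p hd
  obtain ⟨m, hm, hm1⟩ := hP x (hQ x.2)
  rw [Subgroup.mem_bot] at hm1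
  have h1 : x ^ m = 1 := Subtype.ext (by simpa using hm1)
  have h2 := orderOf_dvd_of_pow_eq_one h1
  rw [hx] at h2
  exact hm.2 p hp h2

/-- elements acting trivially on `P₁/P₂` and on `P₂` -/
theorem pow_central {G : Type} [Group G] [Finite G] {P₁ P₂ : Subgroup G} {g : G}
    (h1 : ∀ y ∈ P₁, g * y * g⁻¹ * y⁻¹ ∈ P₂) (h2 : ∀ y ∈ P₂, y * g = g * y) :
    ∀ y ∈ P₁, y * g ^ (Nat.card P₂) = g ^ (Nat.card P₂) * y := by
  intro y hy
  set c := g * y * g⁻¹ * y⁻¹ with hc
  have hcP := h1 y hy
  have hgy : g * y = c * y * g := by rw [hc]; group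
  have hcg : c * g = g * c := h2 c hcP
  have key : ∀ n : ℕ, g ^ n * y = c ^ n * y * g ^ n := by
    intro n
    induction n with
    | zero => simp
    | succ n ih =>
      have e1 : g * c ^ n = c ^ n * g := (Commute.pow_right (show Commute g c from hcg.symm) n).eq
      calc g ^ (n + 1) * y = g * (g ^ n * y) := by rw [pow_succ']; group
        _ = (g * c ^ n) * y * g ^ n := by rw [ih]; group
        _ = c ^ n * (g * y) * g ^ n := by rw [e1]; group
        _ = c ^ n * (c * y * g) * g ^ n := by rw [hgy]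
        _ = c ^ (n + 1) * y * g ^ (n + 1) := by rw [pow_succ, pow_succ']; group
  have hcn : c ^ (Nat.card P₂) = 1 := by
    have h3 := pow_card_eq_one' (G := P₂) (x := ⟨c, hcP⟩)
    exact congrArg Subtype.val h3
  have := key (Nat.card P₂)
  rw [hcn, one_mul] at this
  exact this.symm

theorem sel : SelStm := by
  intro σ G _ _ Φ htop hinf hup hdown P hPn hPσ hPs hPC
  classical
  -- minimal bad subgroup
  have hcen : ∀ (X C : Subgroup G), (∀ g, g ∈ C ↔ ∀ x ∈ X, g * x = x * g) →
      C = Subgroup.centralizer (X : Set G) := by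
    intro X C h
    ext g
    rw [h, Subgroup.mem_centralizer_iff]
    exact ⟨fun h x hx => (h x hx).symm, fun h x hx => (h x hx).symm⟩
  have hcen' : ∀ (X : Subgroup G) g, g ∈ Subgroup.centralizer (X : Set G) ↔
      ∀ x ∈ X, g * x = x * g := by
    intro X g
    rw [Subgroup.mem_centralizer_iff]
    exact ⟨fun h x hx => (h x hx).symm, fun h x hx => (h x hx).symm⟩
  have wf : WellFounded (fun A B : Subgroup G => A < B) := wellFounded_lt
  obtain ⟨P₁, ⟨hP₁n, hP₁P, hP₁Φ⟩, hmin⟩ := wf.has_min
    {X : Subgroup G | X.Normal ∧ X ≤ P ∧ ¬ Φ (Subgroup.centralizer (X : Set G))}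
    ⟨P, hPn, le_rfl, hPC _ (hcen' P)⟩
  have hmin' : ∀ Y : Subgroup G, Y.Normal → Y ≤ P₁ → Y ≠ P₁ →
      Φ (Subgroup.centralizer (Y : Set G)) := by
    intro Y hY hY1 hY2
    by_contra hcon
    exact hmin Y ⟨hY, hY1.trans hP₁P, hcon⟩ (lt_of_le_of_ne hY1 hY2)
  have hcn : ∀ X : Subgroup G, X.Normal → (Subgroup.centralizer (X : Set G)).Normal := by
    intro X hX
    exact Subgroup.normal_centralizer
  have hP₁bot : P₁ ≠ ⊥ := by
    rintro rfl
    apply hP₁Φ
    have : Subgroup.centralizer (((⊥ : Subgroup G) : Set G)) = ⊤ := by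
      rw [eq_top_iff]
      intro g _
      rw [hcen']
      intro x hx
      rw [Subgroup.mem_bot] at hx
      rw [hx]; simp
    rw [this]
    exact htop
  -- maximal proper
  have wf' : WellFounded (fun A B : Subgroup G => A > B) := wellFounded_gt
  obtain ⟨P₂, ⟨hP₂n, hP₂P, hP₂Φ⟩, hmax⟩ := wf'.has_min
    {X : Subgroup G | X.Normal ∧ X ≤ P₁ ∧ Φ (Subgroup.centralizer (X : Set G))}
    ⟨⊥, inferInstance, bot_le, hmin' ⊥ inferInstance bot_le (Ne.symm hP₁bot)⟩
  have hP₂ne : P₂ ≠ P₁ := by
    rintro rfl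
    exact hP₁Φ hP₂Φ
  have hmaxY : ∀ Y : Subgroup G, Y.Normal → Y ≤ P₁ → Y = P₁ ∨ Y ≤ P₂ := by
    intro Y hY hYP
    by_cases hYe : Y = P₁
    · exact Or.inl hYe
    right
    have h1 := hmin' Y hY hYP hYe
    have h2 : Φ (Subgroup.centralizer ((Y ⊔ P₂ : Subgroup G) : Set G)) := by
      have hn1 := hcn Y hY
      have hn2 := hcn P₂ hP₂n
      have hn3 := hcn (Y ⊔ P₂) (by
        have := hY
        have := hP₂n
        infer_instance)
      refine hup (Subgroup.centralizer (Y : Set G) ⊓ Subgroup.centralizer (P₂ : Set G)) _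
        (by infer_instance) hn3 ?_ (hinf _ _ hn1 hn2 h1 hP₂Φ)
      rw [Subgroup.le_centralizer_iff]
      refine sup_le ?_ ?_
      · rw [Subgroup.le_centralizer_iff]; exact inf_le_left
      · rw [Subgroup.le_centralizer_iff]; exact inf_le_right
    by_contra hcon
    have hlt : P₂ < Y ⊔ P₂ := by
      refine lt_of_le_of_ne le_sup_right ?_
      intro he
      exact hcon (he ▸ le_sup_left)
    exact hmax (Y ⊔ P₂) ⟨by
      have := hY
      have := hP₂n
      infer_instance, sup_le hYP hP₂P, h2⟩ hlt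
  -- commutator
  have hcom : ⁅P₁, P₁⁆ ≤ P₂ := by
    have hn : (⁅P₁, P₁⁆ : Subgroup G).Normal := by
      have := hP₁n
      infer_instance
    have hle : ⁅P₁, P₁⁆ ≤ P₁ := by
      have := hP₁n
      exact Subgroup.commutator_le_left P₁ P₁
    rcases hmaxY _ hn hle with h | h
    · exfalso
      have hs1 : Group.IsSolvable P₁ := by
        have := hPs
        exact Group.isSolvable_of_isSolvable_injective (f := Subgroup.inclusion hP₁P)
          (Subgroup.inclusion_injective hP₁P)
      have : Nontrivial P₁ := (Subgroup.nontrivial_iff_ne_bot P₁).2 hP₁bot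
      have h1 := Group.IsSolvable.commutator_lt_top_of_nontrivial P₁
      rw [← Subgroup.map_subtype_commutator] at h
      have h2 : _root_.commutator P₁ = ⊤ := by
        apply Subgroup.map_injective P₁.subtype_injective
        rw [h, ← MonoidHom.range_eq_map, Subgroup.range_subtype]
      exact absurd h2 h1.ne
    · exact h
  -- the quotient
  set N : Subgroup P₁ := P₂.subgroupOf P₁ with hN
  have hNn : N.Normal := hP₂n.subgroupOf P₁
  have hidx : N.index ≠ 1 := by
    rw [ne_eq, Subgroup.index_eq_one]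
    intro h
    apply hP₂ne
    apply le_antisymm hP₂P
    intro x hx
    have : (⟨x, hx⟩ : P₁) ∈ N := by rw [h]; trivial
    exact this
  obtain ⟨r, hr, hrd⟩ := Nat.exists_prime_and_dvd hidx
  have : Fact r.Prime := ⟨hr⟩
  have hrel : N.index = P₂.relIndex P₁ := rfl
  have hcommq : ∀ a b : P₁ ⧸ N, a * b = b * a := by
    intro a b
    induction a using QuotientGroup.induction_on with
    | H a =>
    induction b using QuotientGroup.induction_on with
    | H b =>
      rw [← QuotientGroup.mk_mul, ← QuotientGroup.mk_mul, QuotientGroup.eq]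
      rw [hN, Subgroup.mem_subgroupOf]
      apply hcom
      have hcm := Subgroup.commutator_mem_commutator (P₁.inv_mem b.2) (P₁.inv_mem a.2)
      rw [commutatorElement_def] at hcm
      have : (((a * b)⁻¹ * (b * a) : P₁) : G) =
          (b : G)⁻¹ * (a : G)⁻¹ * ((b : G)⁻¹)⁻¹ * ((a : G)⁻¹)⁻¹ := by
        push_cast
        group
      rw [this]
      exact hcm
  have hpow : ∀ x ∈ P₁, x ^ r ∈ P₂ := by
    -- the normal subgroup generated by r-th powers
    set W : Subgroup G := Subgroup.closure {z | ∃ x ∈ P₁, z = x ^ r} with hW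
    have hWn : W.Normal := by
      refine ⟨fun n hn g => ?_⟩
      have : W ≤ W.comap (MulAut.conj g).toMonoidHom := by
        rw [hW, Subgroup.closure_le]
        rintro z ⟨x, hx, rfl⟩
        refine Subgroup.subset_closure ⟨g * x * g⁻¹, hP₁n.conj_mem x hx g, ?_⟩
        simp
      exact this hn
    have hWP : W ≤ P₁ := by
      rw [hW, Subgroup.closure_le]
      rintro z ⟨x, hx, rfl⟩
      exact P₁.pow_mem hx r
    have hR : (P₂ ⊔ W).Normal := by
      have := hP₂n
      infer_instance
    rcases hmaxY _ hR (sup_le hP₂P hWP) with h | h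
    · exfalso
      -- the r-th power map on the quotient is onto
      let K : Subgroup (P₁ ⧸ N) :=
        { carrier := {a | ∃ b, b ^ r = a}
          mul_mem' := by
            rintro _ _ ⟨b, rfl⟩ ⟨b', rfl⟩
            exact ⟨b * b', (show Commute b b' from hcommq b b').mul_pow r⟩
          one_mem' := ⟨1, one_pow r⟩
          inv_mem' := by
            rintro _ ⟨b, rfl⟩
            exact ⟨b⁻¹, inv_pow b r⟩ }
      have hKtop : ∀ a : P₁ ⧸ N, a ∈ K := by
        have h1 : P₂ ⊔ W ≤ (K.comap (QuotientGroup.mk' N)).map P₁.subtype := by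
          refine sup_le ?_ ?_
          · intro x hx
            refine ⟨⟨x, hP₂P hx⟩, ?_, rfl⟩
            have : (QuotientGroup.mk' N) ⟨x, hP₂P hx⟩ = 1 := by
              rw [← MonoidHom.mem_ker, QuotientGroup.ker_mk']
              exact hx
            show (QuotientGroup.mk' N) ⟨x, hP₂P hx⟩ ∈ K
            rw [this]
            exact K.one_mem
          · rw [hW, Subgroup.closure_le]
            rintro z ⟨x, hx, rfl⟩
            refine ⟨⟨x, hx⟩ ^ r, ?_, rfl⟩
            show (QuotientGroup.mk' N) (⟨x, hx⟩ ^ r) ∈ K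
            rw [map_pow]
            exact ⟨_, rfl⟩
        intro a
        induction a using QuotientGroup.induction_on with
        | H a =>
          have h2 : (a : G) ∈ P₂ ⊔ W := by rw [h]; exact a.2
          obtain ⟨b, hb, hba⟩ := h1 h2
          have : b = a := Subtype.ext hba
          rw [this] at hb
          exact hb
      have hsurj : Function.Surjective (fun a : P₁ ⧸ N => a ^ r) := fun a => hKtop a
      have hinj := Finite.injective_iff_surjective.2 hsurj
      obtain ⟨a, ha⟩ := exists_prime_orderOf_dvd_card' (G := P₁ ⧸ N) r hrd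
      have h3 : a = 1 := hinj (by
        show a ^ r = 1 ^ r
        rw [one_pow, ← ha, pow_orderOf_eq_one])
      rw [h3, orderOf_one] at ha
      exact hr.one_lt.ne ha
    · intro x hx
      exact h (le_sup_right (a := P₂) (Subgroup.subset_closure ⟨x, hx, rfl⟩))
  have hrσ : r ∈ σ := by
    have h1 := card_PN hPσ hP₁P
    refine h1.2 r hr ?_
    exact hrd.trans (Subgroup.index_dvd_card N)
  have hcP₂ := card_PN hPσ (hP₂P.trans hP₁P)
  have hanti : Subgroup.centralizer (P₁ : Set G) ≤ Subgroup.centralizer (P₂ : Set G) :=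
    Subgroup.centralizer_le hP₂P
  -- [P₁, P₂] = 1
  have hcom2 : ⁅P₁, P₂⁆ = ⊥ := by
    set J₃ := Subgroup.centralizer (P₂ : Set G) with hJ₃
    have hJn : J₃.Normal := hcn P₂ hP₂n
    have hTn : (⁅P₁, J₃⁆ : Subgroup G).Normal := by
      have := hP₁n
      infer_instance
    have hTle : ⁅P₁, J₃⁆ ≤ P₁ := by
      have := hP₁n
      exact Subgroup.commutator_le_left P₁ J₃
    rcases hmaxY _ hTn hTle with h | h
    · have h23 : ⁅P₂, J₃⁆ = ⊥ := by
        rw [Subgroup.commutator_comm, Subgroup.commutator_eq_bot_iff_le_centralizer]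
      have h1 : ⁅⁅P₂, J₃⁆, P₁⁆ = ⊥ := by
        rw [h23]
        exact Subgroup.commutator_bot_left P₁
      have h2 : ⁅⁅P₁, P₂⁆, J₃⁆ = ⊥ := by
        rw [eq_bot_iff, ← h23]
        refine Subgroup.commutator_mono ?_ le_rfl
        have := hP₂n
        exact Subgroup.commutator_le_right P₁ P₂
      have h3 := Subgroup.commutator_commutator_eq_bot_of_rotate (H₁ := J₃) (H₂ := P₁) (H₃ := P₂)
        h2 h1
      rw [Subgroup.commutator_comm J₃ P₁, h] at h3
      exact h3
    · exfalso
      apply hP₁Φ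
      refine hdown _ _ (hcn P₁ hP₁n) hJn hanti ?_ hP₂Φ
      intro g hg
      refine ⟨Nat.card P₂, hcP₂, ?_⟩
      rw [Subgroup.mem_centralizer_iff]
      apply pow_central (P₁ := P₁) (P₂ := P₂)
      · intro y hy
        apply h
        rw [Subgroup.commutator_comm]
        exact Subgroup.commutator_mem_commutator hg hy
      · exact Subgroup.mem_centralizer_iff.1 hg
  -- P₁ is an r-group
  have hnil : Group.IsNilpotent P₁ := by
    have hq : Group.IsNilpotent (P₁ ⧸ N) := by
      let _ : CommGroup (P₁ ⧸ N) := { (inferInstance : Group (P₁ ⧸ N)) with mul_comm := hcommq }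
      exact CommGroup.isNilpotent
    refine Subgroup.isNilpotent_of_ker_le_center (QuotientGroup.mk' N) ?_
    rw [QuotientGroup.ker_mk']
    intro x hx
    rw [Subgroup.mem_center_iff]
    intro y
    have h1 := Subgroup.commutator_eq_bot_iff_le_centralizer.1 hcom2 y.2
    rw [Subgroup.mem_centralizer_iff] at h1
    exact Subtype.ext (h1 (x : G) hx).symm
  have hrg : PF {r} ⊥ P₁ := by
    obtain ⟨S⟩ : Nonempty (Sylow r P₁) := inferInstance
    have hSn : (S : Subgroup P₁).Normal := by
      have := hnil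
      infer_instance
    have hSc := Sylow.characteristic_of_normal S hSn
    have hSG : ((S : Subgroup P₁).map P₁.subtype).Normal := by
      have := hP₁n
      exact ConjAct.normal_of_characteristic_of_normal
    have hStop : (S : Subgroup P₁) = ⊤ := by
      rcases hmaxY _ hSG (Subgroup.map_subtype_le _) with h | h
      · apply Subgroup.map_injective P₁.subtype_injective
        rw [h, ← MonoidHom.range_eq_map, Subgroup.range_subtype]
      · exfalso
        have h1 : (S : Subgroup P₁) ≤ N := by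
          intro x hx
          exact h ⟨x, hx, rfl⟩
        have h2 := Subgroup.index_dvd_of_le h1
        exact Sylow.not_dvd_index S (hrd.trans h2)
    intro x hx
    have h1 : (⟨x, hx⟩ : P₁) ∈ (S : Subgroup P₁) := by rw [hStop]; trivial
    obtain ⟨k, hk⟩ := S.2 ⟨_, h1⟩
    refine ⟨r ^ k, ⟨pow_ne_zero k hr.ne_zero, fun p hp hd => ?_⟩, ?_⟩
    · have := (Nat.prime_dvd_prime_iff_eq hp hr).1 (hp.dvd_of_dvd_pow hd)
      exact this
    · rw [Subgroup.mem_bot]
      have := congrArg (fun z : (S : Subgroup P₁) => ((z : P₁) : G)) hk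
      simpa using this
  refine ⟨r, P₁, P₂, hr, hrσ, hP₁n, hP₂n, hP₂P, hP₁P, hP₂ne, hmaxY, hrg, hcom, hcom2, hpow, ?_, ?_⟩
  · intro C hC
    rw [hcen P₁ C hC]
    exact hP₁Φ
  · intro C hC hΦ
    have hCn : C.Normal := by
      refine ⟨fun n hn g => ?_⟩
      rw [hC] at hn ⊢
      intro x hx
      have h1 := hn (g⁻¹ * x * g) (by
        have := hP₁n.conj_mem x hx g⁻¹
        rwa [inv_inv] at this)
      have h2 := hP₂n.conj_mem _ h1 g
      have h3 : g * (n * (g⁻¹ * x * g) * n⁻¹ * (g⁻¹ * x * g)⁻¹) * g⁻¹ =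
          g * n * g⁻¹ * x * (g * n * g⁻¹)⁻¹ * x⁻¹ := by group
      rwa [h3] at h2
    have hJn : (Subgroup.centralizer (P₂ : Set G)).Normal := hcn P₂ hP₂n
    have h1 := hinf _ _ hCn hJn hΦ hP₂Φ
    apply hP₁Φ
    refine hdown _ _ (hcn P₁ hP₁n) (by infer_instance) ?_ ?_ h1
    · refine le_inf ?_ hanti
      intro g hg
      rw [hC]
      intro x hx
      have : g * x = x * g := ((hcen' P₁ g).1 hg) x hx
      rw [this]
      have e : x * g * g⁻¹ * x⁻¹ = 1 := by group
      rw [e]
      exact P₂.one_mem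
    · intro g hg
      refine ⟨Nat.card P₂, hcP₂, ?_⟩
      rw [Subgroup.mem_centralizer_iff]
      apply pow_central (P₁ := P₁) (P₂ := P₂)
      · exact (hC g).1 hg.1
      · exact Subgroup.mem_centralizer_iff.1 hg.2

end Pool.Agent.TH365.J737
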