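import Pool.Agent.TH62.PL.Stms
import Pool.Agent.TH62.PL.Stms2
import Pool.Agent.TH62.PL.Hall

set_option autoImplicit false

/-! Job 826: length at most derived length, from the existence of a large section. -/

namespace Pool.Agent.TH365.J826

open Pool.Agent.TH62.PL

lemma subgroupOf_normal {G : Type} [Group G] {K P : Subgroup G} (h : Inv K P) :
    (P.subgroupOf K).Normal := ⟨fun x hx g => by
  rw [Subgroup.mem_subgroupOf] at hx ⊢
  exact h g g.2 x hx⟩

theorem tStm (π : Set ℕ) (hπ : ∀ p ∈ π, p.Prime) (n : ℕ) (hPE : PEStm π n) : TStm π n := by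
  intro G _ _ L N hcard hsol hL hN d hd
  rcases d with _ | m
  · exact hL.PF_top hN hd
  · by_contra hcon
    have hidx : N.index ≤ n :=
      (Nat.le_of_dvd Nat.card_pos (Subgroup.index_dvd_card N)).trans hcard
    obtain ⟨r, K, P₁, P₂, h⟩ := hPE G L N hsol hL hN hidx m hcon
    apply h.large
    have h1 : P₁ ≤ L ⊔ N := by
      have hLK : IsHall π (L.subgroupOf K) := hL.subgroupOf h.LK
      have hNK : (N.subgroupOf K).Normal := subgroupOf_normal (Inv.of_normal K hN)
      have hPK : (P₁.subgroupOf K).Normal := subgroupOf_normal h.inv₁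
      have hPF : PF π (N.subgroupOf K) (P₁.subgroupOf K) := by
        have h2 : PF π N P₁ := h.pf.set_mono (by
          intro x hx
          rw [Set.mem_singleton_iff] at hx
          rw [hx]; exact h.rπ)
        exact h2.comap K.subtype
      have h3 := hLK.normal_le_sup hNK hPK hPF
      intro x hx
      have h4 : (⟨x, h.PK hx⟩ : K) ∈ P₁.subgroupOf K := hx
      have h5 := h3 h4
      have h6 : (L.subgroupOf K ⊔ N.subgroupOf K) ≤ (L ⊔ N).comap K.subtype :=
        sup_le (fun y hy => Subgroup.mem_sup_left (Subgroup.mem_subgroupOf.1 hy))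
          (fun y hy => Subgroup.mem_sup_right (Subgroup.mem_subgroupOf.1 hy))
      exact h6 h5
    have h2 : CE P₁ (DS L) (m + 1) ≤ CE L (DS L) (m + 1) ⊔ N := CE.le_sup hN h1 (m + 1)
    have h3 : CE L (DS L) (m + 1) ≤ DS L (m + 1) := CE.le_DS le_rfl (m + 1)
    exact h2.trans ((sup_le (h3.trans hd) le_rfl).trans h.NP)

end Pool.Agent.TH365.J826
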