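import Pool.Agent.TH62.PL.Stms
import Pool.Agent.TH62.PL.Stms2
import Pool.Agent.TH62.PL.Hall
import Pool.Agent.TH62.PL.Rep

set_option autoImplicit false

/-! Job 827: consequence of Lemma I for a weight space. -/

namespace Pool.Agent.TH365.J827

open Pool.Agent.TH62.PL

theorem lemJ (h : LemIStm) : LemJStm := by
  intro p hp k G V Ω _ _ _ _ _ _ _ _ ρ e he L hL l hV ω hω
  classical
  have hfixl : ∀ g ∈ DS L l, g • ω = ω := by
    by_contra hcon
    push Not at hcon
    obtain ⟨g, hg, hg'⟩ := hcon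
    apply hω
    apply LinearMap.ext
    intro v
    obtain ⟨w, hw, hw'⟩ := h p k G V Ω ρ e he L hL l ω ⟨g, hg, hg'⟩ v
    rw [hV, Submodule.mem_bot] at hw
    rw [← hw', hw, map_zero]; rfl
  have hex : ∃ j, ∀ g ∈ DS L j, g • ω = ω := ⟨l, hfixl⟩
  have hjl := Nat.find_min' hex hfixl
  have hspec := Nat.find_spec hex
  have hmin : ∀ m, m < Nat.find hex → ¬ ∀ g ∈ DS L m, g • ω = ω :=
    fun m hm => Nat.find_min hex hm
  refine ⟨Nat.find hex, hjl, hspec, ?_⟩
  generalize Nat.find hex = j at *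
  have base : LinearMap.range (e ω) ≤ (VC ρ (DS L) ⊤ j).map (e ω) := by
    rcases j with _ | j'
    · rintro _ ⟨v, rfl⟩
      exact ⟨v, trivial, rfl⟩
    · have h1 := hmin j' (Nat.lt_succ_self j')
      push Not at h1
      obtain ⟨g, hg, hg'⟩ := h1
      rintro _ ⟨v, rfl⟩
      obtain ⟨w, hw, hw'⟩ := h p k G V Ω ρ e he L hL j' ω ⟨g, hg, hg'⟩ v
      exact ⟨w, hw, hw'⟩
  have key : ∀ i, VC ρ (fun i => DS L (j + i)) (LinearMap.range (e ω)) i ≤
      (VC ρ (DS L) ⊤ (j + i)).map (e ω) := by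
    intro i
    induction i with
    | zero => exact base
    | succ i ih =>
      change cm ρ (VC ρ (fun i => DS L (j + i)) (LinearMap.range (e ω)) i) (DS L (j + i)) ≤ _
      rw [cm_le]
      intro g hg w hw
      obtain ⟨v, hv, rfl⟩ := ih hw
      refine ⟨ρ g v - v, mem_cm (D := DS L (j + i)) hg hv, ?_⟩
      have hgω : g • ω = ω := hspec g (DS.anti L (Nat.le_add_right j i) hg)
      have h2 := he.equi g ω
      rw [hgω] at h2
      have h3 := congrArg (fun T : Module.End k V => T v) h2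
      have h4 : ρ g (e ω v) = e ω (ρ g v) := h3
      rw [map_sub, h4]
  have h5 := key (l + 1 - j)
  rw [show j + (l + 1 - j) = l + 1 by omega, hV, Submodule.map_bot] at h5
  exact eq_bot_iff.2 h5

end Pool.Agent.TH365.J827
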