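import Pool.Agent.TH62.PL.Stms
import Pool.Agent.TH62.PL.Stms2
import Pool.Agent.TH62.PL.Hall
import Pool.Agent.TH62.PL.Rep

set_option autoImplicit false

/-! Job 828: abelian normal subgroups. -/

namespace Pool.Agent.TH365.J828

open Pool.Agent.TH62.PL

/-- an element acting trivially on all nonzero components acts trivially -/
lemma rho_eq_one {k G V Ω : Type} [Field k] [Group G] [AddCommGroup V] [Module k V] [Fintype Ω]
    [MulAction G Ω] {ρ : G →* Module.End k V} {e : Ω → Module.End k V} (he : PS ρ e)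
    (u : G) (h : ∀ ω, e ω ≠ 0 → ρ u * e ω = e ω) : ρ u = 1 := by
  have h1 : ρ u * ∑ ω, e ω = ∑ ω, e ω := by
    rw [Finset.mul_sum]
    refine Finset.sum_congr rfl fun ω _ => ?_
    by_cases hω : e ω = 0
    · rw [hω, mul_zero]
    · exact h ω hω
  rwa [he.sum, mul_one] at h1

/-- every element of the last term fixes all the nonzero components -/
lemma fix_last (h1 : LemIStm) (p : ℕ) [Fact p.Prime] (k G V Ω : Type) [Field k] [CharP k p]
    [Group G] [Finite G] [AddCommGroup V] [Module k V] [Fintype Ω] [MulAction G Ω]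
    (ρ : G →* Module.End k V) (e : Ω → Module.End k V) (he : PS ρ e) (L : Subgroup G)
    (hL : Group.IsSolvable L) (l : ℕ) (hV : VC ρ (DS L) ⊤ (l + 1) = ⊥) (ω : Ω) (hω : e ω ≠ 0) :
    ∀ g ∈ DS L l, g • ω = ω := by
  by_contra hcon
  push Not at hcon
  obtain ⟨g, hg, hg'⟩ := hcon
  apply hω
  apply LinearMap.ext
  intro v
  obtain ⟨w, hw, hw'⟩ := h1 p k G V Ω ρ e he L hL l ω ⟨g, hg, hg'⟩ v
  rw [hV, Submodule.mem_bot] at hw
  rw [← hw', hw, map_zero]; rfl

lemma chi_one {k G : Type} [Field k] [Group G] {Z : Subgroup G} {c : G → k}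
    (hm : ∀ z ∈ Z, ∀ z' ∈ Z, c (z * z') = c z * c z') (hne : ∀ z ∈ Z, c z ≠ 0) : c 1 = 1 := by
  have h := hm 1 Z.one_mem 1 Z.one_mem
  rw [mul_one] at h
  have h0 := hne 1 Z.one_mem
  field_simp at h
  exact h.symm

theorem abStm (h1 : LemIStm) (h2 : CharDecStm) : AbStm := by
  intro p hp k G V _ _ _ _ _ _ _ ρ L hL l hV R hR hab hcard hf g hg x hx
  obtain ⟨Ω, _, _, e, χ, he, hχ, hmul, hne, hact, -⟩ := h2 k G V ρ R hR hab hcard
  have hu : g * x * g⁻¹ * x⁻¹ ∈ R := R.mul_mem (hR.conj_mem x hx g) (R.inv_mem hx)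
  have hone : ρ (g * x * g⁻¹ * x⁻¹) = 1 := by
    refine rho_eq_one he _ fun ω hω => ?_
    have hfix : g • ω = ω := fix_last h1 p k G V Ω ρ e he L hL l hV ω hω g hg
    have h3 := hact g ω x hx
    rw [hfix] at h3
    have h4 := hmul ω (g * x * g⁻¹ * x⁻¹) hu x hx
    rw [inv_mul_cancel_right, h3] at h4
    have h5 : χ ω (g * x * g⁻¹ * x⁻¹) = 1 := by
      have h6 := hne ω x hx
      have h7 : (χ ω (g * x * g⁻¹ * x⁻¹) - 1) * χ ω x = 0 := by rw [sub_mul, one_mul, ← h4, sub_self]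
      rcases mul_eq_zero.1 h7 with h | h
      · exact sub_eq_zero.1 h
      · exact absurd h h6
    rw [hχ ω _ hu, h5, one_smul]
  have h8 := hf _ hu hone
  have h9 : g * x * g⁻¹ * x⁻¹ * (x * g) = x * g := by rw [h8, one_mul]
  rw [← h9]; group

end Pool.Agent.TH365.J828
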