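import Pool.Agent.TH62.PL.Stms
import Pool.Agent.TH62.PL.Stms2
import Pool.Agent.TH62.PL.Hall
import Pool.Agent.TH62.PL.Rep
import Pool.Agent.TH365.J828

set_option autoImplicit false

/-! Job 829: existence of weight data. -/

namespace Pool.Agent.TH365.J829

open Pool.Agent.TH62.PL

lemma card_ne_zero {k G : Type} [Field k] [Group G] [Finite G] {p q : ℕ} [hp : Fact p.Prime]
    [hq : Fact q.Prime] [CharP k p] (hpq : p ≠ q) {Z : Subgroup G} (hZ : IsPGroup q Z) :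
    ((Nat.card Z : ℕ) : k) ≠ 0 := by
  obtain ⟨n, hn⟩ := hZ.exists_card_eq
  rw [hn]
  intro h0
  rw [CharP.cast_eq_zero_iff k p] at h0
  exact hpq ((Nat.prime_dvd_prime_iff_eq hp.out hq.out).1 (hp.out.dvd_of_dvd_pow h0))

theorem wdStm (h1 : LemJStm) (h2 : CharDecStm) : WDStm := by
  intro p q hp hq k G V _ _ _ _ _ _ _ ρ L Q Z l hpq hL hV hQ hf x hx hxZ
  have hab : ∀ x ∈ Z, ∀ y ∈ Z, x * y = y * x := fun a ha b hb => hQ.cent a ha b (hQ.ZQ hb)
  have hZp : IsPGroup q Z := hQ.pg.to_le hQ.ZQ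
  obtain ⟨Ω, _, _, e, χ, he, hχ, hmul, hne, hact, hinj⟩ :=
    h2 k G V ρ Z hQ.Zn hab (card_ne_zero (p := p) hpq hZp)
  have hy : ∃ y ∈ Q, x * y ≠ y * x := by
    by_contra hcon
    push Not at hcon
    exact hxZ (hQ.full x hx hcon)
  obtain ⟨y, hy, hxy⟩ := hy
  have hu : x * y * x⁻¹ * y⁻¹ ∈ Z := hQ.comm x hx y hy
  have hω : ∃ ω, e ω ≠ 0 ∧ χ ω (x * y * x⁻¹ * y⁻¹) ≠ 1 := by
    by_contra hcon
    push Not at hcon
    have h3 : ρ (x * y * x⁻¹ * y⁻¹) = 1 := J828.rho_eq_one he _ fun ω hω => by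
      rw [hχ ω _ hu, hcon ω hω, one_smul]
    have h4 := hf _ (hQ.ZQ hu) h3
    apply hxy
    have h5 : x * y * x⁻¹ * y⁻¹ * (y * x) = y * x := by rw [h4, one_mul]
    rw [← h5]; group
  obtain ⟨ω, hω, hωu⟩ := hω
  obtain ⟨j, hjl, hfix, hvan⟩ := h1 p k G V Ω ρ e he L hL l hV ω hω
  have hcomm : ∀ g : G, g • ω = ω → ρ g * e ω = e ω * ρ g := by
    intro g hg
    have := he.equi g ω
    rwa [hg] at this
  have hcent : ∀ g : G, (∀ z ∈ Z, g * z = z * g) → g • ω = ω := by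
    intro g hg
    apply hinj
    intro z hz
    have h3 := hact g ω z hz
    have h4 : g * z * g⁻¹ = z := by rw [hg z hz]; group
    rwa [h4] at h3
  refine ⟨j, e ω, χ ω, ?_, y, hy, hωu⟩
  exact
    { Qn := hQ.Qn
      Zn := hQ.Zn
      ZQ := hQ.ZQ
      pg := hQ.pg
      cent := hQ.cent
      comm := hQ.comm
      pow := hQ.pow
      cmul := hmul ω
      cne := hne ω
      ne := hω
      commQ := fun g hg => hcomm g (hcent g fun z hz => (hQ.cent z hz g hg).symm)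
      sc := hχ ω
      idem := he.idem ω
      jl := hjl
      fix := fun g hg z hz => by
        have h3 := hact g ω z hz
        rwa [hfix g hg] at h3
      comm' := fun g hg => hcomm g (hfix g hg)
      cent' := fun g hg => hcomm g (hcent g hg)
      van := hvan }

end Pool.Agent.TH365.J829
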