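import Pool.Agent.TH62.PL.Stms
import Pool.Agent.TH62.PL.Stms2
import Pool.Agent.TH62.PL.Hall
import Pool.Agent.TH62.PL.Rep
import Pool.Agent.TH365.J829

set_option autoImplicit false

/-! Job 830: the case `p` odd. -/

namespace Pool.Agent.TH365.J830

open Pool.Agent.TH62.PL

/-- if `g` acts trivially on `e V` and `x` commutes with `e` then `[g, x]` acts trivially -/
lemma comm_triv {k G V : Type} [Field k] [Group G] [AddCommGroup V] [Module k V]
    {ρ : G →* Module.End k V} {e : Module.End k V} {g x : G} (hg : ρ g * e = e)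
    (hx : ρ x * e = e * ρ x) (hx' : ρ x⁻¹ * e = e * ρ x⁻¹) :
    ρ (g * x * g⁻¹ * x⁻¹) * e = e := by
  have hgi : ρ g⁻¹ * e = e := by
    have h1 : ρ g⁻¹ * (ρ g * e) = e := by
      rw [← mul_assoc, ← map_mul, inv_mul_cancel, map_one, one_mul]
    rwa [hg] at h1
  calc ρ (g * x * g⁻¹ * x⁻¹) * e = ρ g * (ρ x * (ρ g⁻¹ * (ρ x⁻¹ * e))) := by
        simp only [map_mul, mul_assoc]
    _ = ρ g * (ρ x * (ρ g⁻¹ * e * ρ x⁻¹)) := by rw [hx', mul_assoc (ρ g⁻¹)]
    _ = ρ g * (ρ x * e * ρ x⁻¹) := by rw [hgi, mul_assoc (ρ x)]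
    _ = ρ g * (e * (ρ x * ρ x⁻¹)) := by rw [hx, mul_assoc e]
    _ = e := by rw [← map_mul, mul_inv_cancel, map_one, mul_one, hg]

theorem oddStm (ab : AbStm) (wd : WDStm) (f1 : F3OddStm) (f2 : F3TwoStm) (o2 : Odd2Stm) :
    OddStm := by
  intro p q hp hq k G V _ _ _ _ _ _ _ ρ L Q Z l hp2 hpq hL hcop hV hQ hf g hg x hx
  by_contra hcon
  have huQ : g * x * g⁻¹ * x⁻¹ ∈ Q := Q.mul_mem (hQ.Qn.conj_mem x hx g) (Q.inv_mem hx)
  obtain ⟨j, e, c, hWD, y, hy, hyc⟩ := wd p q k G V ρ L Q Z l hpq hL hV hQ hf _ huQ hcon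
  have hnt : ¬ TrivOn Q c g := fun h => hyc (h x hx y hy)
  have habZ : ∀ x ∈ Z, ∀ y ∈ Z, x * y = y * x := fun a ha b hb => hQ.cent a ha b (hQ.ZQ hb)
  have hZp : IsPGroup q Z := hQ.pg.to_le hQ.ZQ
  have hcentZ : ∀ a ∈ DS L l, ∀ z ∈ Z, a * z = z * a :=
    ab p k G V ρ L hL l hV Z hQ.Zn habZ (J829.card_ne_zero (p := p) hpq hZp)
      (fun x hx => hf x (hQ.ZQ hx))
  rcases Nat.lt_or_ge j l with hjl | hjl
  · -- `j < l`
    obtain ⟨l', rfl⟩ : ∃ l', l = l' + 1 := ⟨l - 1, by omega⟩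
    have hl0 : l' + 1 ≠ 0 := Nat.succ_ne_zero l'
    have hquad : ∀ a ∈ DS L (l' + 1), (ρ a - 1) * (ρ a - 1) * e = 0 := fun a ha => by
      rw [quadratic_DS hl0 hV ha ha, zero_mul]
    have hpow : ∀ a ∈ DS L (l' + 1), ∀ x ∈ Q, a ^ p * x = x * a ^ p := fun a ha x hx =>
      centralises hQ.Qn hf (pow_DS (p := p) hl0 hV ha) hx
    have hce : ∀ a ∈ DS L (l' + 1), ρ a * e = e * ρ a := fun a ha => hWD.cent' a (hcentZ a ha)
    by_cases hq2 : q = 2
    · subst hq2
      have h2 : (2 : k) ≠ 0 := by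
        intro h0
        have h1 : ((2 : ℕ) : k) = 0 := by exact_mod_cast h0
        rw [CharP.cast_eq_zero_iff k p] at h1
        exact hp2 ((Nat.prime_dvd_prime_iff_eq hp.out Nat.prime_two).1 h1)
      apply hnt
      refine o2 k G Q Z c h2 hWD.toQC (DS L l') ?_ ?_ ?_ ?_ g hg
      · intro b hb
        exact Nat.coprime_two_right.1 (hcop b (DS.le L l' hb))
      · intro b hb z hz
        exact hWD.fix b (DS.anti L (by omega) hb) z hz
      · intro a ha a' ha' x hx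
        have h3 : ρ a * ρ a' = ρ a' * ρ a := commute_DS (L := L) (l := l' + 1) hl0 hV ha ha'
        have h4 : ρ ((a' * a)⁻¹ * (a * a')) = 1 := by
          rw [map_mul, map_mul ρ a a', h3, ← map_mul ρ a' a, ← map_mul, inv_mul_cancel, map_one]
        have h5 := centralises hQ.Qn hf h4 hx
        have h6 : a * a' = (a' * a) * ((a' * a)⁻¹ * (a * a')) := by group
        have h7 : (a * a') * x = (a' * a) * x * ((a' * a)⁻¹ * (a * a')) := by
          calc (a * a') * x = (a' * a) * (((a' * a)⁻¹ * (a * a')) * x) := by group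
            _ = (a' * a) * (x * ((a' * a)⁻¹ * (a * a'))) := by rw [h5]
            _ = _ := by group
        rw [h7]; group
      · intro a ha x hx hxc y hy
        exact f2 p k G V ρ Q Z e c hp2 hWD.toWC a (hcentZ a ha) (hce a ha) (hquad a ha)
          (hpow a ha) x hx hxc y hy
    · exact hnt (f1 p q k G V ρ Q Z e c hpq hp2 hq2 hWD.toWC g (hcentZ g hg) (hce g hg)
        (hquad g hg) (hpow g hg))
  · -- `j = l`
    have hjl' : j = l := le_antisymm hWD.jl hjl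
    subst hjl'
    have hvan := hWD.van
    rw [show j + 1 - j = 1 by omega] at hvan
    have h1 : cm ρ (LinearMap.range e) (DS L j) = ⊥ := hvan
    have hge : ρ g * e = e := by
      apply LinearMap.ext
      intro v
      have h2 : ρ g (e v) - e v ∈ cm ρ (LinearMap.range e) (DS L j) := mem_cm hg ⟨v, rfl⟩
      rw [h1, Submodule.mem_bot] at h2
      exact sub_eq_zero.1 h2
    have hu : ρ (g * x * g⁻¹ * x⁻¹) * e = e :=
      comm_triv hge (hWD.commQ x hx) (hWD.commQ _ (Q.inv_mem hx))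
    have huy : ρ (g * x * g⁻¹ * x⁻¹ * y * (g * x * g⁻¹ * x⁻¹)⁻¹ * y⁻¹) * e = e :=
      comm_triv hu (hWD.commQ y hy) (hWD.commQ _ (Q.inv_mem hy))
    rw [hWD.sc _ (hWD.comm _ huQ y hy)] at huy
    apply hyc
    have h3 : (c (g * x * g⁻¹ * x⁻¹ * y * (g * x * g⁻¹ * x⁻¹)⁻¹ * y⁻¹) - 1) • e = 0 := by
      rw [sub_smul, one_smul, huy, sub_self]
    rcases smul_eq_zero.1 h3 with h | h
    · exact sub_eq_zero.1 h
    · exact absurd h hWD.ne

end Pool.Agent.TH365.J830
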