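import Pool.Agent.TH365.NB.A4

/-!
# Job 886: dilated integral points near the real span of the generators
-/

set_option autoImplicit false

namespace Pool.Agent.TH365.J886

open Finset Pool.Agent.TH91.RF Pool.Agent.TH91.NB Pool.Agent.TH365.NB Filter Topology

variable {V : Type} [Fintype V] [DecidableEq V] {deg : V → ℕ}

/-- a limit of integers is an integer, eventually attained -/
theorem tendsto_int {z : ℕ → ℤ} {a : ℝ} (h : Tendsto (fun n => (z n : ℝ)) atTop (𝓝 a)) :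
    ∀ᶠ n in atTop, (z n : ℝ) = a := by
  have h1 : a ∈ Set.range (Int.cast : ℤ → ℝ) :=
    Int.isClosedEmbedding_coe_real.isClosed_range.mem_of_tendsto h
      (Eventually.of_forall fun n => ⟨z n, rfl⟩)
  obtain ⟨m, rfl⟩ := h1
  have h2 := (Metric.tendsto_atTop.1 h) 1 one_pos
  obtain ⟨n0, hn0⟩ := h2
  refine eventually_atTop.2 ⟨n0, fun n hn => ?_⟩
  have h3 := hn0 n hn
  rw [Real.dist_eq, ← Int.cast_sub, ← Int.cast_abs] at h3
  have h4 : |z n - m| < 1 := by exact_mod_cast h3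
  have h5 : z n = m := by
    rw [abs_lt] at h4
    omega
  rw [h5]

omit [Fintype V] [DecidableEq V] in
theorem tendsto_mat {f : ℕ → Matrix V V ℝ} {a : Matrix V V ℝ} :
    Tendsto f atTop (𝓝 a) ↔ ∀ v w, Tendsto (fun n => f n v w) atTop (𝓝 (a v w)) := by
  have h := (tendsto_pi_nhds (A := fun _ : V => V → ℝ) (f := f) (g := a) (u := atTop))
  exact h.trans (forall_congr' fun v => tendsto_pi_nhds)

theorem claimC {L : Submodule ℚ (Matrix V V ℚ)} (hL1 : L ≤ (gF ℚ deg).F 1)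
    (hbr : ∀ u ∈ L, ∀ v ∈ L, u * v - v * u ∈ L) (hcomp : ∀ x ∈ L, ∀ k, comp deg k x ∈ L) :
    ∃ ε : ℝ, 0 < ε ∧ ∀ x ∈ LR L, ∀ γ : Matrix V V ℝ, IntM γ →
      (∀ v w, |(IsNilpotent.exp x * γ) v w - (1 : Matrix V V ℝ) v w| < ε) →
      ∃ y ∈ LR L, γ = IsNilpotent.exp y := by
  obtain ⟨C, hC⟩ := claimB hL1 hbr hcomp
  by_contra hcon
  push Not at hcon
  have h : ∀ n : ℕ, ∃ x ∈ LR L, ∃ γ : Matrix V V ℝ, IntM γ ∧
      (∀ v w, |(IsNilpotent.exp x * γ) v w - (1 : Matrix V V ℝ) v w| < 1 / ((n : ℝ) + 1)) ∧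
      ∀ y ∈ LR L, γ ≠ IsNilpotent.exp y := fun n => hcon (1 / ((n : ℝ) + 1)) (by positivity)
  choose x hx γ hγ hε hne using h
  choose z hz x' hx' hi hi' he hb using fun n => hC (x n) (hx n)
  have hK : IsCompact {x : Matrix V V ℝ | x ∈ LR L ∧ ∀ v w, |x v w| ≤ C} := by
    have h1 : IsClosed ((LR L : Submodule ℝ (Matrix V V ℝ)) : Set (Matrix V V ℝ)) :=
      Submodule.closed_of_finiteDimensional _
    have h2 : IsCompact (Set.univ.pi fun _ : V => Set.univ.pi fun _ : V => Set.Icc (-C) C :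
        Set (V → V → ℝ)) :=
      isCompact_univ_pi fun _ => isCompact_univ_pi fun _ => isCompact_Icc
    have h3 : IsCompact {x : Matrix V V ℝ | ∀ v w, |x v w| ≤ C} := by
      have e : {x : Matrix V V ℝ | ∀ v w, |x v w| ≤ C} =
          (Set.univ.pi fun _ : V => Set.univ.pi fun _ : V => Set.Icc (-C) C :
            Set (V → V → ℝ)) := by
        ext x
        constructor
        · intro hx v _ w _
          exact abs_le.1 (hx v w)
        · intro hx v w
          exact abs_le.2 (hx v trivial w trivial)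
      rw [e]
      exact h2
    have h4 := h3.inter_left h1
    exact h4
  have hfc : FirstCountableTopology (Matrix V V ℝ) :=
    inferInstanceAs (FirstCountableTopology (V → V → ℝ))
  obtain ⟨a, ha, φ, hφ, hlim⟩ := hK.tendsto_subseq (x := x') (fun n => ⟨hx' n, hb n⟩)
  -- the exponential of the opposite, as a polynomial map
  set E : Matrix V V ℝ → Matrix V V ℝ := fun x =>
    ∑ i ∈ range (nN deg + 1), ((i.factorial : ℕ) : ℚ)⁻¹ • (-x) ^ i with hE
  have hEc : Continuous E := by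
    rw [hE]
    refine continuous_finsetSum _ fun i _ => ?_
    have h1 : Continuous fun x : Matrix V V ℝ => (-x) ^ i :=
      (continuous_neg (G := Matrix V V ℝ)).pow i
    exact h1.const_smul (((i.factorial : ℕ) : ℚ)⁻¹)
  have hEexp : ∀ y ∈ LR L, E y = IsNilpotent.exp (-y) := fun y hy =>
    ((gF ℝ deg).exp_eq (Submodule.neg_mem _ (LR_mem_F hL1 hy))).symm
  set γ' : ℕ → Matrix V V ℝ := fun n => IsNilpotent.exp (-z n) * γ n with hγ'
  set u : ℕ → Matrix V V ℝ := fun n => IsNilpotent.exp (x n) * γ n with hu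
  have hγ'u : ∀ n, γ' n = E (x' n) * u n := by
    intro n
    have hzn := (gF ℝ deg).nilp (LR_mem_F hL1 (hz n))
    have hxn := (gF ℝ deg).nilp (LR_mem_F hL1 (hx' n))
    have h1 : IsNilpotent.exp (x' n) * γ' n = u n := by
      rw [hγ', hu, ← he n]
      calc IsNilpotent.exp (x n) * IsNilpotent.exp (z n) * (IsNilpotent.exp (-z n) * γ n)
          = IsNilpotent.exp (x n) * (IsNilpotent.exp (z n) * IsNilpotent.exp (-z n)) * γ n := by
            noncomm_ring
        _ = _ := by rw [IsNilpotent.exp_mul_exp_neg_self hzn, mul_one]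
    rw [hEexp _ (hx' n), ← h1, ← mul_assoc, IsNilpotent.exp_neg_mul_exp_self hxn, one_mul]
  have hulim : Tendsto (fun n => u (φ n)) atTop (𝓝 1) := by
    have h1 : Tendsto u atTop (𝓝 1) := by
      rw [tendsto_mat]
      intro v w
      rw [Metric.tendsto_atTop]
      intro ε hε0
      obtain ⟨n0, hn0⟩ := exists_nat_one_div_lt hε0
      refine ⟨n0, fun n hn => ?_⟩
      rw [Real.dist_eq]
      refine (hε n v w).trans (lt_of_le_of_lt ?_ hn0)
      have h2 : (n0 : ℝ) ≤ n := by exact_mod_cast hn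
      gcongr
    exact h1.comp hφ.tendsto_atTop
  have hγlim : Tendsto (fun n => γ' (φ n)) atTop (𝓝 (E a)) := by
    have h1 : Tendsto (fun n => E (x' (φ n)) * u (φ n)) atTop (𝓝 (E a * 1)) :=
      ((hEc.tendsto a).comp hlim).mul hulim
    rw [mul_one] at h1
    refine h1.congr fun n => (hγ'u (φ n)).symm
  have hint : ∀ n, IntM (γ' n) := fun n => IntM_mul (hi' n) (hγ n)
  have hev : ∀ᶠ n in atTop, ∀ v w, γ' (φ n) v w = E a v w := by
    rw [eventually_all]
    intro v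
    rw [eventually_all]
    intro w
    have h1 : Tendsto (fun n => γ' (φ n) v w) atTop (𝓝 (E a v w)) :=
      tendsto_mat.1 hγlim v w
    choose m hm using fun n => hint (φ n) v w
    have h2 : (fun n => γ' (φ n) v w) = fun n => (m n : ℝ) := funext hm
    have h3 := h1
    rw [h2] at h3
    have h4 := tendsto_int h3
    filter_upwards [h4] with n hn
    rw [hm n, hn]
  obtain ⟨n, hn⟩ := hev.exists
  have h1 : γ' (φ n) = IsNilpotent.exp (-a) := by
    rw [← hEexp a ha.1]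
    ext v w
    exact hn v w
  have hzn := (gF ℝ deg).nilp (LR_mem_F hL1 (hz (φ n)))
  have h2 : γ (φ n) = IsNilpotent.exp (z (φ n)) * IsNilpotent.exp (-a) := by
    rw [← h1, hγ']
    rw [← mul_assoc, IsNilpotent.exp_mul_exp_neg_self hzn, one_mul]
  obtain ⟨y, hy, hye⟩ := LR_exp_mul hL1 hbr (hz (φ n)) ((LR L).neg_mem ha.1)
  exact hne (φ n) y hy (by rw [h2, hye])

theorem exists_dil {V : Type} [Fintype V] [DecidableEq V] (deg : V → ℕ) {r : ℕ}
    (ξ : Fin r → Matrix V V ℚ) (hξ : ∀ i, Hom1 deg (ξ i)) :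
    ∃ M : ℕ, 0 < M ∧ ∃ ε : ℝ, 0 < ε ∧ ∀ (t : Fin r → ℝ) (γ : Matrix V V ℝ), Uni deg γ → IntM γ →
      (∀ v w, |(IsNilpotent.exp (∑ i, t i • (ξ i).map (fun q : ℚ => (q : ℝ))) * γ) v w -
        (1 : Matrix V V ℝ) v w| < ε) →
      ∃ g : FreeGroup (Fin r), ∀ v w,
        (M : ℝ) ^ (deg v) * γ v w = ((expRep ξ hξ g v w : ℚ) : ℝ) * (M : ℝ) ^ (deg w) := by
  obtain ⟨L, hL, hbr⟩ := exists_L deg (expRep ξ hξ)
  have hL1 : L ≤ (gF ℚ deg).F 1 := fun x hx => ((hL x).1 hx).1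
  have hcomp : ∀ x ∈ L, ∀ k, comp deg k x ∈ L := fun x hx k => comp_mem_L ξ hξ hL hx k
  obtain ⟨M, hM, hA⟩ := claimA ξ hξ hL hbr
  obtain ⟨ε, hε, hC⟩ := claimC hL1 hbr hcomp
  refine ⟨M, hM, ε, hε, fun t γ _ hγ hclose => ?_⟩
  have hx : ∑ i, t i • (ξ i).map (fun q : ℚ => (q : ℝ)) ∈ LR L := by
    refine Submodule.sum_mem _ fun i _ => (LR L).smul_mem _ ?_
    have h1 : ξ i ∈ L := (hL _).2 (isoSet_mem (hom1_mem (hξ i)) (FreeGroup.of i) (expRep_of ξ hξ i))
    exact io_mem_LR h1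
  obtain ⟨y, hy, rfl⟩ := hC _ hx γ hγ hclose
  exact hA y hy hγ

end Pool.Agent.TH365.J886
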