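import Pool.Agent.TH968.UST.Defs2

/-!
# Measurability of the factor-of-iid construction

Module 9 of the proof for `MP_688e31_pr`.
-/

namespace Pool.Agent.TH365.J89
open MeasureTheory Pool.Agent.TH968.UST
open scoped ENNReal unitInterval
variable {V : Type*} [Countable V] {Ω : Type*} [MeasurableSpace Ω]

theorem meas_avg (G : Ω → SimpleGraph V) (hG : ∀ a b, MeasurableSet {ω | (G ω).Adj a b})
    (f : Ω → V → ℝ≥0∞) (hf : ∀ v, Measurable fun ω => f ω v) (v : V) :
    Measurable fun ω => avg (G ω) (f ω) v := by
  unfold avg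
  apply Measurable.div
  · exact Measurable.tsum fun w => Measurable.ite (hG v w) (hf w) measurable_const
  · exact Measurable.tsum fun w =>
      Measurable.ite (hG v w) measurable_const measurable_const

theorem meas_hit (G : Ω → SimpleGraph V) (hG : ∀ a b, MeasurableSet {ω | (G ω).Adj a b})
    (o : V) (n : ℕ) (v : V) : Measurable fun ω => hit (G ω) o n v := by
  induction n generalizing v with
  | zero =>
    simp only [hit]
    exact measurable_const
  | succ n ih =>
    simp only [hit]
    by_cases h : v = o
    · simp only [if_pos h]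
      exact measurable_const
    · simp only [if_neg h]
      exact meas_avg G hG (fun ω => hit (G ω) o n) ih v

theorem meas_mass (G : Ω → SimpleGraph V) (hG : ∀ a b, MeasurableSet {ω | (G ω).Adj a b})
    (R : Ω → Set V) (hR : ∀ v, MeasurableSet {ω | v ∈ R ω}) (n : ℕ) (v : V) :
    Measurable fun ω => mass (G ω) (R ω) n v := by
  induction n generalizing v with
  | zero =>
    simp only [mass]
    exact Measurable.ite (hR v) measurable_const measurable_const
  | succ n ih =>
    simp only [mass]
    exact Measurable.ite (hR v) measurable_const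
      (meas_avg G hG (fun ω => mass (G ω) (R ω) n) ih v)

theorem meas_nu (G : Ω → SimpleGraph V) (hG : ∀ a b, MeasurableSet {ω | (G ω).Adj a b})
    (R : Ω → Set V) (hR : ∀ v, MeasurableSet {ω | v ∈ R ω}) (n : ℕ) (v r : V) :
    Measurable fun ω => nu (G ω) (R ω) n v r := by
  induction n generalizing v with
  | zero =>
    simp only [nu]
    apply Measurable.ite _ measurable_const measurable_const
    by_cases h : v = r
    · simpa only [h, and_true] using hR r
    · simp [h]
  | succ n ih =>
    simp only [nu]
    exact Measurable.ite (hR v) measurable_const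
      (meas_avg G hG (fun ω w => nu (G ω) (R ω) n w r) ih v)

theorem meas_Kept (G : Ω → SimpleGraph V) (hG : ∀ a b, MeasurableSet {ω | (G ω).Adj a b})
    (R : Ω → Set V) (hR : ∀ v, MeasurableSet {ω | v ∈ R ω}) (N K : ℕ)
    (θ : Ω → ℕ → V → I) (hθ : ∀ k v, Measurable fun ω => θ ω k v) (a b : V) :
    MeasurableSet {ω | Kept (G ω) (R ω) N K (θ ω) a b} := by
  have h1 : ∀ (k : ℕ) (r c : V),
      Measurable fun ω => ENNReal.ofReal (θ ω k r) < nu (G ω) (R ω) N c r := by
    intro k r c
    apply measurableSet_setOfPred.1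
    apply measurableSet_lt
    · exact ENNReal.measurable_ofReal.comp (measurable_subtype_coe.comp (hθ k r))
    · exact meas_nu G hG R hR N c r
  apply measurableSet_setOfPred.2
  unfold Kept
  apply Measurable.and
  · exact Measurable.exists fun k => Measurable.and measurable_const
      (Measurable.exists fun r => h1 k r a)
  · exact Measurable.forall fun k => Measurable.imp measurable_const
      (Measurable.forall fun r => Measurable.iff (h1 k r a) (h1 k r b))

theorem meas_Aseq (G : Ω → SimpleGraph V) (hG : ∀ a b, MeasurableSet {ω | (G ω).Adj a b})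
    (ε : ℕ → ℝ) (N K : ℕ → ℕ) (α : Ω → ℕ → V → I) (hα : ∀ m v, Measurable fun ω => α ω m v)
    (θ : Ω → ℕ → ℕ → V → I) (hθ : ∀ m k v, Measurable fun ω => θ ω m k v) (n : ℕ)
    (e : Sym2 V) : MeasurableSet {ω | e ∈ Aseq (G ω) ε N K (α ω) (θ ω) n} := by
  cases n with
  | zero => simp [Aseq]
  | succ n =>
    apply measurableSet_setOfPred.2
    simp only [Aseq]
    refine Measurable.exists fun a => Measurable.exists fun b =>
      Measurable.and measurable_const (Measurable.and (measurableSet_setOfPred.1 (hG a b))
        (Measurable.or measurable_const (Measurable.forall fun m =>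
          Measurable.imp measurable_const ?_)))
    apply measurableSet_setOfPred.1
    apply meas_Kept G hG (fun ω => {v | (α ω m v : ℝ) < ε m})
    · intro v
      exact measurableSet_lt (measurable_subtype_coe.comp (hα m v)) measurable_const
    · exact fun k v => hθ m k v

/-- Vertices reachable from `a` in `n` steps. -/
def reach (A : Set (Sym2 V)) (a : V) : ℕ → V → Prop
  | 0, x => a = x
  | n + 1, x => ∃ y, reach A a n y ∧ (y = x ∨ s(y, x) ∈ A)

omit [Countable V] in
lemma mem_comp_iff (A : Set (Sym2 V)) (a x : V) : x ∈ comp A a ↔ ∃ n, reach A a n x := by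
  constructor
  · intro h
    have h' : Relation.EqvGen (fun a b => (⊥ : Setoid V) a b ∨ s(a, b) ∈ A) a x := h
    have h2 : Relation.ReflTransGen (fun a b => a = b ∨ s(a, b) ∈ A) a x := by
      clear h
      induction h' with
      | rel a b h => exact Relation.ReflTransGen.single h
      | refl a => exact Relation.ReflTransGen.refl
      | symm a b _ ih =>
        clear * - ih
        induction ih with
        | refl => exact Relation.ReflTransGen.refl
        | @tail y z _ hyz ih' =>
          refine Relation.ReflTransGen.head ?_ ih'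
          rcases hyz with h | h
          · exact Or.inl h.symm
          · right; rwa [Sym2.eq_swap]
      | trans a b c _ _ ih1 ih2 => exact ih1.trans ih2
    clear h h'
    induction h2 with
    | refl => exact ⟨0, rfl⟩
    | @tail y z _ hyz ih =>
      obtain ⟨n, hn⟩ := ih
      exact ⟨n + 1, y, hn, hyz⟩
  · rintro ⟨n, hn⟩
    induction n generalizing x with
    | zero =>
      have : a = x := hn
      subst this
      exact Relation.EqvGen.refl a
    | succ n ih =>
      obtain ⟨y, hy, hyx⟩ := hn
      exact Relation.EqvGen.trans _ _ _ (ih y hy) (Relation.EqvGen.rel _ _ hyx)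

theorem meas_comp (A : Ω → Set (Sym2 V)) (hA : ∀ e, MeasurableSet {ω | e ∈ A ω}) (a x : V) :
    MeasurableSet {ω | x ∈ comp (A ω) a} := by
  simp only [mem_comp_iff]
  apply measurableSet_setOfPred.2
  refine Measurable.exists fun n => ?_
  induction n generalizing x with
  | zero => exact measurable_const
  | succ n ih =>
    exact Measurable.exists fun y => Measurable.and (ih y)
      (Measurable.or measurable_const (measurableSet_setOfPred.1 (hA _)))

lemma meas_eq {α : Type*} [Countable α] (Z : Ω → Set α)
    (hZ : ∀ x, MeasurableSet {ω | x ∈ Z ω}) (S : Set α) : Measurable fun ω => Z ω = S := by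
  have : (fun ω => Z ω = S) = fun ω => ∀ x, x ∈ Z ω ↔ x ∈ S := by
    funext ω
    exact propext Set.ext_iff
  rw [this]
  exact Measurable.forall fun x => Measurable.iff (measurableSet_setOfPred.1 (hZ x)) measurable_const

/-- Cardinality of a random set is measurable. -/
theorem meas_ncard {α : Type*} [Countable α] (Z : Ω → Set α)
    (hZ : ∀ x, MeasurableSet {ω | x ∈ Z ω}) : Measurable fun ω => (Z ω).ncard := by
  have hsucc : ∀ k, Measurable fun ω => (Z ω).ncard = k + 1 := by
    intro k
    have : (fun ω => (Z ω).ncard = k + 1) =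
        fun ω => ∃ S : Finset α, S.card = k + 1 ∧ Z ω = (S : Set α) := by
      funext ω
      apply propext
      constructor
      · intro h
        have hfin : (Z ω).Finite := Set.finite_of_ncard_pos (by omega)
        refine ⟨hfin.toFinset, ?_, by simp⟩
        rw [← h, Set.ncard_eq_toFinset_card _ hfin]
      · rintro ⟨S, hS, h⟩
        rw [h, Set.ncard_coe_finset, hS]
    rw [this]
    exact Measurable.exists fun S => Measurable.and measurable_const (meas_eq Z hZ _)
  apply measurable_to_countable'
  intro k
  cases k with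
  | zero =>
    have : (fun ω => (Z ω).ncard) ⁻¹' {0} = {ω | ¬ ∃ k, (Z ω).ncard = k + 1} := by
      ext ω
      simp only [Set.mem_preimage, Set.mem_singleton_iff, Set.mem_ofPred_eq, not_exists]
      constructor
      · intro h k
        omega
      · intro h
        by_contra h0
        exact h ((Z ω).ncard - 1) (by omega)
    rw [this]
    exact measurableSet_setOfPred.2 (Measurable.not (Measurable.exists hsucc))
  | succ k => exact measurableSet_setOfPred.2 (hsucc k)

theorem meas_toFin {α : Type*} [Countable α] (Z : Ω → Set α)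
    (hZ : ∀ x, MeasurableSet {ω | x ∈ Z ω}) (S : Finset α) :
    MeasurableSet {ω | toFin (Z ω) = S} := by
  have h1 : ∀ Y : Set α, toFin Y = S ↔ (Y = (S : Set α) ∨ (S = ∅ ∧ ∀ S' : Finset α,
      Y ≠ (S' : Set α))) := by
    intro Y
    unfold toFin
    by_cases h : Y.Finite
    · rw [dif_pos h]
      constructor
      · intro h2
        left
        rw [← h2]
        simp
      · rintro (h2 | ⟨_, h2⟩)
        · subst h2
          simp
        · exact absurd (by simp) (h2 h.toFinset)
    · rw [dif_neg h]
      constructor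
      · intro h2
        right
        refine ⟨h2.symm, fun S' h3 => h ?_⟩
        rw [h3]
        exact S'.finite_toSet
      · rintro (h2 | ⟨h2, _⟩)
        · exfalso
          apply h
          rw [h2]
          exact S.finite_toSet
        · exact h2.symm
  simp only [h1]
  apply measurableSet_setOfPred.2
  exact Measurable.or (meas_eq Z hZ _) (Measurable.and measurable_const
    (Measurable.forall fun S' => Measurable.not (meas_eq Z hZ _)))

lemma meas_rk (s : Ω → V → I) (hs : ∀ v, Measurable fun ω => s ω v)
    (C : Ω → Set V) (hC : ∀ v, MeasurableSet {ω | v ∈ C ω}) (x : V) :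
    Measurable fun ω => rk (s ω) (C ω) x := by
  unfold rk
  apply meas_ncard (fun ω => {y | y ∈ C ω ∧ s ω y < s ω x})
  intro y
  exact (hC y).inter (measurableSet_lt (hs y) (hs x) :
    MeasurableSet {ω | s ω y < s ω x})

lemma meas_img (s : Ω → V → I) (hs : ∀ v, Measurable fun ω => s ω v)
    (C : Ω → Set V) (hC : ∀ v, MeasurableSet {ω | v ∈ C ω})
    (X : Ω → Set (Sym2 V)) (hX : ∀ e, MeasurableSet {ω | e ∈ X ω}) (P : Finset (Sym2 ℕ)) :
    MeasurableSet {ω | img (s ω) (C ω) (X ω) = P} := by
  unfold img
  apply meas_toFin (fun ω => {e | ∃ x y, x ∈ C ω ∧ y ∈ C ω ∧ s(x, y) ∈ X ω ∧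
    e = s(rk (s ω) (C ω) x, rk (s ω) (C ω) y)})
  intro e
  apply measurableSet_setOfPred.2
  simp only [Set.mem_ofPred_eq]
  refine Measurable.exists fun x => Measurable.exists fun y =>
    Measurable.and (measurableSet_setOfPred.1 (hC x)) (Measurable.and (measurableSet_setOfPred.1 (hC y))
      (Measurable.and (measurableSet_setOfPred.1 (hX _)) ?_))
  apply measurableSet_setOfPred.1
  have h1 : Measurable fun ω => (rk (s ω) (C ω) x, rk (s ω) (C ω) y) :=
    (meas_rk s hs C hC x).prodMk (meas_rk s hs C hC y)
  exact h1 (MeasurableSet.of_discrete : MeasurableSet {p : ℕ × ℕ | e = s(p.1, p.2)})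

lemma meas_step
    (Kc : Finset (Sym2 ℕ) → Finset (Sym2 ℕ) → Finset (Sym2 ℕ) → I → Finset (Sym2 ℕ))
    (hKc : ∀ E' E F T, MeasurableSet {w : I | Kc E' E F w = T})
    (s : Ω → V → I) (hs : ∀ v, Measurable fun ω => s ω v)
    (A : Ω → Set (Sym2 V)) (hA : ∀ e, MeasurableSet {ω | e ∈ A ω})
    (A' : Ω → Set (Sym2 V)) (hA' : ∀ e, MeasurableSet {ω | e ∈ A' ω})
    (T : Ω → Set (Sym2 V)) (hT : ∀ e, MeasurableSet {ω | e ∈ T ω})
    (W : Ω → V → I) (hW : ∀ v, Measurable fun ω => W ω v) (e : Sym2 V) :
    MeasurableSet {ω | e ∈ step Kc (s ω) (A ω) (A' ω) (T ω) (W ω)} := by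
  apply measurableSet_setOfPred.2
  have h1 : (fun ω => e ∈ step Kc (s ω) (A ω) (A' ω) (T ω) (W ω)) = fun ω =>
      ∃ a b, e = s(a, b) ∧ s(a, b) ∈ A' ω ∧ ∃ x, x ∈ comp (A' ω) a ∧
        rk (s ω) (comp (A' ω) a) x = 0 ∧
        ∃ (k l : ℕ) (P Q R U : Finset (Sym2 ℕ)), rk (s ω) (comp (A' ω) a) a = k ∧
          rk (s ω) (comp (A' ω) a) b = l ∧ img (s ω) (comp (A' ω) a) (A ω) = P ∧
          img (s ω) (comp (A' ω) a) (A' ω) = Q ∧ img (s ω) (comp (A' ω) a) (T ω) = R ∧
          s(k, l) ∈ U ∧ Kc P Q R (W ω x) = U := by
    funext ω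
    apply propext
    constructor
    · rintro ⟨a, b, h1, h2, x, h3, h4, h5⟩
      exact ⟨a, b, h1, h2, x, h3, h4, _, _, _, _, _, _, rfl, rfl, rfl, rfl, rfl, h5, rfl⟩
    · rintro ⟨a, b, h1, h2, x, h3, h4, _, _, _, _, _, _, rfl, rfl, rfl, rfl, rfl, h5, rfl⟩
      exact ⟨a, b, h1, h2, x, h3, h4, h5⟩
  rw [h1]
  refine Measurable.exists fun a => Measurable.exists fun b =>
    Measurable.and measurable_const (Measurable.and (measurableSet_setOfPred.1 (hA' _))
      (Measurable.exists fun x => ?_))
  have hC : ∀ v, MeasurableSet {ω | v ∈ comp (A' ω) a} := fun v => meas_comp A' hA' a v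
  have hrk : ∀ y (k : ℕ), Measurable fun ω => rk (s ω) (comp (A' ω) a) y = k := by
    intro y k
    apply measurableSet_setOfPred.1
    exact (meas_rk s hs _ hC y) (measurableSet_singleton k)
  refine Measurable.and (measurableSet_setOfPred.1 (hC x)) (Measurable.and (hrk x 0) ?_)
  refine Measurable.exists fun k => Measurable.exists fun l => Measurable.exists fun P =>
    Measurable.exists fun Q => Measurable.exists fun R => Measurable.exists fun U =>
    Measurable.and (hrk a k) (Measurable.and (hrk b l)
      (Measurable.and (measurableSet_setOfPred.1 (meas_img s hs _ hC A hA P))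
      (Measurable.and (measurableSet_setOfPred.1 (meas_img s hs _ hC A' hA' Q))
      (Measurable.and (measurableSet_setOfPred.1 (meas_img s hs _ hC T hT R))
      (Measurable.and measurable_const ?_)))))
  apply measurableSet_setOfPred.1
  exact (hW x) (hKc P Q R U)

theorem meas_Tseq
    (Kc : Finset (Sym2 ℕ) → Finset (Sym2 ℕ) → Finset (Sym2 ℕ) → I → Finset (Sym2 ℕ))
    (hKc : ∀ E' E F T, MeasurableSet {w : I | Kc E' E F w = T})
    (s : Ω → V → I) (hs : ∀ v, Measurable fun ω => s ω v)
    (A : Ω → ℕ → Set (Sym2 V)) (hA : ∀ n e, MeasurableSet {ω | e ∈ A ω n})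
    (W : Ω → ℕ → V → I) (hW : ∀ n v, Measurable fun ω => W ω n v) (n : ℕ) (e : Sym2 V) :
    MeasurableSet {ω | e ∈ Tseq Kc (s ω) (A ω) (W ω) n} := by
  induction n generalizing e with
  | zero => simp [Tseq]
  | succ n ih =>
    simp only [Tseq]
    exact meas_step Kc hKc s hs (fun ω => A ω n) (hA n) (fun ω => A ω (n + 1)) (hA (n + 1))
      (fun ω => Tseq Kc (s ω) (A ω) (W ω) n) ih (fun ω => W ω n) (hW n) e

end Pool.Agent.TH365.J89
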