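import Pool.Agent.TH365.TwoGenComb
import Mathlib.Analysis.Convex.KreinMilman
import Mathlib.Analysis.InnerProductSpace.PiL2
import Mathlib.Analysis.InnerProductSpace.Dual

set_option autoImplicit false

/-!
Unconditional convex bodies all of whose extreme points are in coordinate planes: at most `2 ^ d`
hyperplanes separate all faces from the centre.
-/

open scoped InnerProductSpace
open Finset

namespace Pool.Agent.TH365.TwoGen

variable {d : ℕ}

/-- The sign of a truth value. -/
def sg (b : Bool) : ℝ := if b then 1 else -1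

theorem sg_abs (b : Bool) : |sg b| = 1 := by cases b <;> simp [sg]

/-- The data: a compact convex body which is unconditional about `o` with respect to `v`. -/
structure Body (d : ℕ) where
  K : Set (EuclideanSpace ℝ (Fin d))
  comp : IsCompact K
  conv : Convex ℝ K
  o : EuclideanSpace ℝ (Fin d)
  ho : o ∈ interior K
  v : Module.Basis (Fin d) ℝ (EuclideanSpace ℝ (Fin d))
  flip : ∀ x ∈ K, ∀ i, x - (2 * v.repr (x - o) i) • v i ∈ K

namespace Body

variable (B : Body d)

/-- The coordinates with respect to `o` and `v`. -/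
noncomputable def c (i : Fin d) (x : EuclideanSpace ℝ (Fin d)) : ℝ := B.v.repr (x - B.o) i

theorem c_add_smul (x : EuclideanSpace ℝ (Fin d)) (s : ℝ) (i j : Fin d) :
    B.c j (x + s • B.v i) = B.c j x + (if i = j then s else 0) := by
  unfold c
  rw [add_sub_right_comm, map_add, map_smul, Module.Basis.repr_self]
  simp only [Finsupp.add_apply, Finsupp.smul_apply, smul_eq_mul, Finsupp.single_apply]
  split_ifs <;> simp

theorem c_o (j : Fin d) : B.c j B.o = 0 := by simp [c]

theorem c_comb (x : EuclideanSpace ℝ (Fin d)) (s : Finset (Fin d)) (f : Fin d → ℝ) (j : Fin d) :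
    B.c j (x + ∑ i ∈ s, f i • B.v i) = B.c j x + (if j ∈ s then f j else 0) := by
  classical
  induction s using Finset.induction_on with
  | empty => simp
  | insert a s ha ih =>
    rw [sum_insert ha, add_comm (f a • B.v a), ← add_assoc, c_add_smul, ih]
    by_cases h : a = j
    · subst h; simp [ha]
    · have h' : j ≠ a := fun e => h e.symm
      simp [h, h', mem_insert]

theorem eq_comb (x : EuclideanSpace ℝ (Fin d)) : x = B.o + ∑ i, B.c i x • B.v i := by
  have := B.v.sum_repr (x - B.o)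
  unfold c
  rw [this]; abel

theorem scale {x : EuclideanSpace ℝ (Fin d)} (hx : x ∈ B.K) (i : Fin d) {t : ℝ} (ht : |t| ≤ 1) :
    x + ((t - 1) * B.c i x) • B.v i ∈ B.K := by
  have h1 := B.flip x hx i
  have h2 := abs_le.1 ht
  have h3 := B.conv hx h1 (a := (1 + t) / 2) (b := (1 - t) / 2) (by linarith) (by linarith)
    (by ring)
  convert h3 using 1
  unfold c
  generalize B.v.repr (x - B.o) i = q
  module

theorem scales {x : EuclideanSpace ℝ (Fin d)} (hx : x ∈ B.K) {t : Fin d → ℝ}
    (ht : ∀ i, |t i| ≤ 1) (s : Finset (Fin d)) :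
    x + ∑ i ∈ s, ((t i - 1) * B.c i x) • B.v i ∈ B.K := by
  classical
  induction s using Finset.induction_on with
  | empty => simpa using hx
  | insert a s ha ih =>
    have h1 := B.scale ih a (ht a)
    rw [B.c_comb x s (fun i => (t i - 1) * B.c i x) a] at h1
    simp only [ha, if_false, add_zero] at h1
    rw [sum_insert ha, add_comm (((t a - 1) * B.c a x) • B.v a), ← add_assoc]
    exact h1

/-- The body is solid. -/
theorem solid {x y : EuclideanSpace ℝ (Fin d)} (hx : x ∈ B.K)
    (h : ∀ i, |B.c i y| ≤ |B.c i x|) : y ∈ B.K := by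
  have h1 := B.scales hx (t := fun i => B.c i y / B.c i x) (fun i => by
    rw [abs_div]
    exact div_le_one_of_le₀ (h i) (abs_nonneg _)) univ
  convert h1 using 1
  have e2 := B.eq_comb x
  have e3 : ∑ i, ((B.c i y / B.c i x - 1) * B.c i x) • B.v i
      = ∑ i, B.c i y • B.v i - ∑ i, B.c i x • B.v i := by
    rw [← sum_sub_distrib]
    apply sum_congr rfl
    intro i _
    rw [← sub_smul]
    congr 1
    by_cases hc : B.c i x = 0
    · have := h i
      rw [hc, abs_zero] at this
      have h0 : B.c i y = 0 := abs_nonpos_iff.1 this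
      simp [hc, h0]
    · field_simp
  rw [e3]
  nth_rewrite 1 [B.eq_comb y]
  nth_rewrite 1 [e2]
  abel

theorem c_cont (i : Fin d) : Continuous (B.c i) := by
  have h : Continuous (fun y : EuclideanSpace ℝ (Fin d) => B.v.coord i y) :=
    (B.v.coord i).continuous_of_finiteDimensional
  have : B.c i = fun x => B.v.coord i (x - B.o) := by
    funext x; simp [c, Module.Basis.coord_apply]
  rw [this]
  exact h.comp (continuous_id.sub continuous_const)

theorem exists_max (i : Fin d) : ∃ x ∈ B.K, ∀ y ∈ B.K, B.c i y ≤ B.c i x := by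
  obtain ⟨x, hx, h⟩ := B.comp.exists_isMaxOn ⟨B.o, interior_subset B.ho⟩
    (B.c_cont i).continuousOn
  exact ⟨x, hx, fun y hy => h hy⟩

/-- The half width of the body in the direction of the coordinate `i`. -/
noncomputable def r (i : Fin d) : ℝ := B.c i (B.exists_max i).choose

theorem c_le (i : Fin d) {x : EuclideanSpace ℝ (Fin d)} (hx : x ∈ B.K) : B.c i x ≤ B.r i :=
  (B.exists_max i).choose_spec.2 x hx

theorem abs_c_le (i : Fin d) {x : EuclideanSpace ℝ (Fin d)} (hx : x ∈ B.K) :
    |B.c i x| ≤ B.r i := by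
  rw [abs_le]
  refine ⟨?_, B.c_le i hx⟩
  have h1 := B.scale hx i (t := -1) (by simp)
  have h2 := B.c_le i h1
  rw [c_add_smul, if_pos rfl] at h2
  linarith

theorem r_pos (i : Fin d) : 0 < B.r i := by
  have h1 : Filter.Tendsto (fun t : ℝ => B.o + t • B.v i) (nhds 0) (nhds (B.o + (0 : ℝ) • B.v i)) :=
    (Continuous.tendsto (by fun_prop) 0)
  rw [zero_smul, add_zero] at h1
  have h2 := h1.eventually (mem_interior_iff_mem_nhds.1 B.ho)
  obtain ⟨ε, hε, h3⟩ := Metric.eventually_nhds_iff.1 h2
  have h4 := h3 (y := ε / 2) (by rw [Real.dist_eq, sub_zero, abs_of_pos (by linarith)]; linarith)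
  have h5 := B.c_le i h4
  rw [c_add_smul, if_pos rfl, c_o] at h5
  linarith

/-- `i` and `j` are adjacent if the rectangle with the half sides `r i` and `r j` is in the
body. -/
def adj (i j : Fin d) : Prop := i ≠ j ∧ B.o + B.r i • B.v i + B.r j • B.v j ∈ B.K

theorem adj_symm {i j : Fin d} (h : B.adj i j) : B.adj j i := by
  refine ⟨h.1.symm, ?_⟩
  have := h.2
  rwa [add_right_comm] at this

theorem c_two (i j k : Fin d) (s t : ℝ) : B.c k (B.o + s • B.v i + t • B.v j) =
    (if i = k then s else 0) + (if j = k then t else 0) := by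
  rw [c_add_smul, c_add_smul, c_o, zero_add]

theorem eventually_eta (i j : Fin d) (hij : i ≠ j) (hadj : ¬ B.adj i j) :
    ∀ᶠ η : ℝ in nhdsWithin 0 (Set.Ioi 0), ∀ x ∈ B.K, |B.c i x| = B.r i →
      |B.c j x| ≤ (1 - η) * B.r j := by
  have h0 : B.o + B.r i • B.v i + B.r j • B.v j ∉ B.K := fun h => hadj ⟨hij, h⟩
  have h1 : Filter.Tendsto (fun η : ℝ => B.o + B.r i • B.v i + ((1 - η) * B.r j) • B.v j)
      (nhds 0) (nhds (B.o + B.r i • B.v i + ((1 - 0) * B.r j) • B.v j)) :=
    (Continuous.tendsto (by fun_prop) 0)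
  rw [sub_zero, one_mul] at h1
  have h2 := h1.eventually (B.comp.isClosed.isOpen_compl.mem_nhds h0)
  have h3 : ∀ᶠ η : ℝ in nhds 0, η < 1 := gt_mem_nhds one_pos
  filter_upwards [nhdsWithin_le_nhds h2, nhdsWithin_le_nhds h3, self_mem_nhdsWithin]
    with η h4 h5 _ x hx hxi
  by_contra hcon
  push Not at hcon
  apply h4
  apply B.solid hx
  intro k
  rw [c_two]
  have hrj := B.r_pos j
  have hri := B.r_pos i
  by_cases hik : i = k
  · subst hik
    rw [if_pos rfl, if_neg hij.symm, add_zero, hxi, abs_of_pos hri]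
  · rw [if_neg hik, zero_add]
    by_cases hjk : j = k
    · subst hjk
      rw [if_pos rfl, abs_of_nonneg (by nlinarith)]
      exact hcon.le
    · rw [if_neg hjk, abs_zero]
      exact abs_nonneg _

theorem exists_eta : ∃ η : ℝ, 0 < η ∧ ∀ i j : Fin d, i ≠ j → ¬ B.adj i j → ∀ x ∈ B.K,
    |B.c i x| = B.r i → |B.c j x| ≤ (1 - η) * B.r j := by
  have h : ∀ᶠ η : ℝ in nhdsWithin 0 (Set.Ioi 0), ∀ i j : Fin d, i ≠ j → ¬ B.adj i j →
      ∀ x ∈ B.K, |B.c i x| = B.r i → |B.c j x| ≤ (1 - η) * B.r j := by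
    rw [Filter.eventually_all]
    intro i
    rw [Filter.eventually_all]
    intro j
    by_cases hij : i = j
    · exact Filter.Eventually.of_forall fun η h => absurd hij h
    by_cases hadj : B.adj i j
    · exact Filter.Eventually.of_forall fun η _ h => absurd hadj h
    filter_upwards [B.eventually_eta i j hij hadj] with η h _ _
    exact h
  obtain ⟨η, h1, h2⟩ := (h.and self_mem_nhdsWithin).exists
  exact ⟨η, h2, h1⟩

/-- The functional with coordinate weights `a i / r i`. -/
noncomputable def L (a : Fin d → ℝ) (x : EuclideanSpace ℝ (Fin d)) : ℝ :=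
  ∑ i, a i / B.r i * B.c i x

theorem L_eq (a : Fin d → ℝ) : ∃ w : EuclideanSpace ℝ (Fin d),
    ∀ x, B.L a x = ⟪w, x⟫_ℝ - ⟪w, B.o⟫_ℝ := by
  let f : EuclideanSpace ℝ (Fin d) →ₗ[ℝ] ℝ := ∑ i, (a i / B.r i) • B.v.coord i
  refine ⟨(InnerProductSpace.toDual ℝ _).symm (LinearMap.toContinuousLinearMap f), fun x => ?_⟩
  rw [← inner_sub_right, InnerProductSpace.toDual_symm_apply]
  simp [f, L, c, Module.Basis.coord_apply]

theorem L_two (a : Fin d → ℝ) (i j : Fin d) (s t : ℝ) :
    B.L a (B.o + s • B.v i + t • B.v j) = a i / B.r i * s + a j / B.r j * t := by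
  unfold L
  simp only [c_two, mul_add, mul_ite, mul_zero, sum_add_distrib, Finset.sum_ite_eq, mem_univ,
    if_true]

theorem L_one (a : Fin d → ℝ) (i : Fin d) (s : ℝ) :
    B.L a (B.o + s • B.v i) = a i / B.r i * s := by
  unfold L
  simp only [c_add_smul, c_o, zero_add, mul_ite, mul_zero, Finset.sum_ite_eq, mem_univ,
    if_true]

/-- The functional with coordinate weights `u i`. -/
noncomputable def U (u : Fin d → ℝ) (x : EuclideanSpace ℝ (Fin d)) : ℝ := ∑ i, u i * B.c i x

theorem U_two (u : Fin d → ℝ) (i j : Fin d) (s t : ℝ) :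
    B.U u (B.o + s • B.v i + t • B.v j) = u i * s + u j * t := by
  unfold U
  simp only [c_two, mul_add, mul_ite, mul_zero, sum_add_distrib, Finset.sum_ite_eq, mem_univ,
    if_true]

theorem U_one (u : Fin d → ℝ) (i : Fin d) (s : ℝ) :
    B.U u (B.o + s • B.v i) = u i * s := by
  unfold U
  simp only [c_add_smul, c_o, zero_add, mul_ite, mul_zero, Finset.sum_ite_eq, mem_univ,
    if_true]

theorem mem_one (i : Fin d) {s : ℝ} (hs : |s| ≤ B.r i) : B.o + s • B.v i ∈ B.K := by
  obtain ⟨hx, -⟩ := (B.exists_max i).choose_spec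
  apply B.solid hx
  intro k
  rw [c_add_smul, c_o, zero_add]
  by_cases hik : i = k
  · subst hik
    rw [if_pos rfl]
    exact hs.trans (le_abs_self _)
  · rw [if_neg hik, abs_zero]
    exact abs_nonneg _

theorem mem_two {i j : Fin d} (h : B.adj i j) {s t : ℝ} (hs : |s| ≤ B.r i) (ht : |t| ≤ B.r j) :
    B.o + s • B.v i + t • B.v j ∈ B.K := by
  apply B.solid h.2
  intro k
  rw [c_two, c_two]
  have hri := B.r_pos i
  have hrj := B.r_pos j
  by_cases hik : i = k
  · subst hik
    rw [if_pos rfl, if_pos rfl, if_neg h.1.symm, if_neg h.1.symm, add_zero, add_zero,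
      abs_of_pos hri]
    exact hs
  · rw [if_neg hik, if_neg hik, zero_add, zero_add]
    by_cases hjk : j = k
    · subst hjk
      rw [if_pos rfl, if_pos rfl, abs_of_pos hrj]
      exact ht
    · rw [if_neg hjk, if_neg hjk]

/-- Adjacency as a relation on the natural numbers. -/
def adjN (a b : ℕ) : Prop := ∃ (ha : a < d) (hb : b < d), B.adj ⟨a, ha⟩ ⟨b, hb⟩

/-- Extension of a sign vector. -/
def ext (σ : Fin d → Bool) (i : ℕ) : Bool := if h : i < d then σ ⟨i, h⟩ else true

/-- The selected set of a sign vector. -/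
noncomputable def H (σ : Fin d → Bool) : Finset ℕ := sel B.adjN (ext σ) d

theorem adjN_symm (a b : ℕ) (h : B.adjN a b) : B.adjN b a := by
  obtain ⟨ha, hb, h⟩ := h
  exact ⟨hb, ha, B.adj_symm h⟩

theorem adjN_irrefl (a : ℕ) : ¬ B.adjN a a := by
  rintro ⟨ha, hb, h⟩
  exact h.1 rfl

theorem H_indep (σ : Fin d → Bool) {i j : Fin d} (hi : (i : ℕ) ∈ B.H σ) (hj : (j : ℕ) ∈ B.H σ) :
    ¬ B.adj i j := fun h =>
  sel_indep B.adjN B.adjN_symm B.adjN_irrefl (ext σ) d i hi j hj ⟨i.2, j.2, h⟩

theorem starFin (A : Finset (Fin d)) (hA : ∀ a ∈ A, ∀ b ∈ A, ¬ B.adj a b) (ε : Fin d → Bool) :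
    ∃ σ : Fin d → Bool, (∀ i, (∀ a ∈ A, ¬ B.adj a i) → σ i = ε i) ∧
      ∀ a ∈ A, (a : ℕ) ∈ B.H σ := by
  obtain ⟨τ, h1, h2⟩ := star B.adjN B.adjN_symm B.adjN_irrefl d
    (A.map Fin.valEmbedding) (by
      intro a ha
      obtain ⟨b, -, rfl⟩ := mem_map.1 ha
      exact mem_range.2 b.2) (by
      intro a ha b hb hab
      obtain ⟨a', ha', rfl⟩ := mem_map.1 ha
      obtain ⟨b', hb', rfl⟩ := mem_map.1 hb
      obtain ⟨_, _, h⟩ := hab
      exact hA a' ha' b' hb' h) (ext ε)
  refine ⟨fun i => τ i, ?_, ?_⟩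
  · intro i hi
    have := h1 i (by
      intro a ha hai
      obtain ⟨a', ha', rfl⟩ := mem_map.1 ha
      obtain ⟨_, _, h⟩ := hai
      exact hi a' ha' h)
    change τ i = ε i
    rw [this]
    simp [ext]
  · intro a ha
    have h3 := h2 (mem_map.2 ⟨a, ha, rfl⟩)
    unfold H
    rw [sel_congr B.adjN (ext fun i => τ i) τ d (fun i hi => by simp [ext, hi])]
    exact h3

/-- The weights. -/
noncomputable def p (σ : Fin d → Bool) (i : Fin d) : ℝ :=
  open Classical in if (i : ℕ) ∈ B.H σ then 1 else 1 / 2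

theorem p_ge (σ : Fin d → Bool) (i : Fin d) : 1 / 2 ≤ B.p σ i := by
  unfold p; split_ifs <;> norm_num

theorem p_le (σ : Fin d → Bool) (i : Fin d) : B.p σ i ≤ 1 := by
  unfold p; split_ifs <;> norm_num

/-- The signed weights. -/
noncomputable def a (σ : Fin d → Bool) (i : Fin d) : ℝ := sg (σ i) * B.p σ i

theorem half {η : ℝ} (hη : ∀ i j : Fin d, i ≠ j → ¬ B.adj i j → ∀ x ∈ B.K,
      |B.c i x| = B.r i → |B.c j x| ≤ (1 - η) * B.r j)
    {u : Fin d → ℝ} {M : ℝ} (hM0 : 0 < M)
    (hur : ∀ i, |u i| * B.r i ≤ M) {σ : Fin d → Bool}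
    (hσ : ∀ i, u i ≠ 0 → σ i = decide (0 < u i))
    (hH : ∀ i, |u i| * B.r i = M → (i : ℕ) ∈ B.H σ)
    {i j : Fin d} (hij : i ≠ j) {s t : ℝ} (hx : B.o + s • B.v i + t • B.v j ∈ B.K)
    (hs : u i * s = M) :
    min (1 / 2) η ≤ B.a σ i / B.r i * s + B.a σ j / B.r j * t := by
  have hri := B.r_pos i
  have hrj := B.r_pos j
  have hsr : |s| ≤ B.r i := by
    have := B.abs_c_le i hx
    rwa [c_two, if_pos rfl, if_neg hij.symm, add_zero] at this
  have htr : |t| ≤ B.r j := by
    have := B.abs_c_le j hx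
    rwa [c_two, if_pos rfl, if_neg hij, zero_add] at this
  have hui : u i ≠ 0 := by
    intro h; rw [h, zero_mul] at hs; linarith
  have h1 : |u i| * |s| = M := by rw [← abs_mul, hs, abs_of_pos hM0]
  have h2 : 0 < |u i| := abs_pos.2 hui
  have h3 : |u i| * B.r i = M := by
    apply le_antisymm (hur i)
    rw [← h1]
    exact mul_le_mul_of_nonneg_left hsr h2.le
  have h4 : |s| = B.r i := by
    have : |u i| * |s| = |u i| * B.r i := by rw [h1, h3]
    exact mul_left_cancel₀ h2.ne' this
  have hiH := hH i h3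
  have hsg : sg (σ i) * s = |s| := by
    rw [hσ i hui]
    by_cases h0 : 0 < u i
    · simp only [h0, decide_true, sg, if_true, one_mul]
      have : 0 < s := by
        by_contra hc
        push Not at hc
        nlinarith
      rw [abs_of_pos this]
    · simp only [h0, decide_false, sg, Bool.false_eq_true, if_false]
      push Not at h0
      have : s < 0 := by
        by_contra hc
        push Not at hc
        nlinarith
      rw [abs_of_neg this]; ring
  have hpi : B.p σ i = 1 := by simp [p, hiH]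
  have e1 : B.a σ i / B.r i * s = 1 := by
    unfold a
    rw [hpi, mul_one, div_mul_eq_mul_div, hsg, h4, div_self hri.ne']
  rw [e1]
  have e2 : |B.a σ j / B.r j * t| = B.p σ j * (|t| / B.r j) := by
    unfold a
    rw [abs_mul, abs_div, abs_mul, sg_abs, one_mul, abs_of_pos hrj,
      abs_of_nonneg (by linarith [B.p_ge σ j])]
    ring
  have e3 := neg_abs_le (B.a σ j / B.r j * t)
  rw [e2] at e3
  by_cases hjH : (j : ℕ) ∈ B.H σ
  · have hna : ¬ B.adj i j := B.H_indep σ hiH hjH
    have h5 := hη i j hij hna _ hx (by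
      rw [c_two, if_pos rfl, if_neg hij.symm, add_zero, h4])
    rw [c_two, if_pos rfl, if_neg hij, zero_add] at h5
    have h6 : |t| / B.r j ≤ 1 - η := by rwa [div_le_iff₀ hrj]
    have h7 : B.p σ j = 1 := by simp [p, hjH]
    rw [h7, one_mul] at e3
    have := min_le_right (1 / 2) η
    linarith
  · have h7 : B.p σ j = 1 / 2 := by simp [p, hjH]
    rw [h7] at e3
    have h6 : |t| / B.r j ≤ 1 := by
      rw [div_le_one hrj]; exact htr
    have := min_le_left (1 / 2) η
    linarith

theorem main_ineq {η : ℝ} (hη : ∀ i j : Fin d, i ≠ j → ¬ B.adj i j → ∀ x ∈ B.K,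
      |B.c i x| = B.r i → |B.c j x| ≤ (1 - η) * B.r j)
    {u : Fin d → ℝ} {M : ℝ} (hM0 : 0 < M) (hM : ∀ x ∈ B.K, B.U u x ≤ M) :
    ∃ σ : Fin d → Bool, ∀ (i j : Fin d) (s t : ℝ), B.o + s • B.v i + t • B.v j ∈ B.K →
      B.U u (B.o + s • B.v i + t • B.v j) = M →
      min (1 / 2) η ≤ B.L (B.a σ) (B.o + s • B.v i + t • B.v j) := by
  have hur : ∀ i, |u i| * B.r i ≤ M := by
    intro i
    have hr := B.r_pos i
    have h1 := hM _ (B.mem_one i (s := B.r i) (by rw [abs_of_pos hr]))
    have h2 := hM _ (B.mem_one i (s := -B.r i) (by rw [abs_neg, abs_of_pos hr]))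
    rw [U_one] at h1 h2
    rcases abs_cases (u i) with ⟨h, -⟩ | ⟨h, -⟩ <;> rw [h] <;> linarith
  have hzero : ∀ i j, |u i| * B.r i = M → B.adj i j → u j = 0 := by
    intro i j hi hadj
    have hri := B.r_pos i
    have hrj := B.r_pos j
    have ai : |B.r i| ≤ B.r i := by rw [abs_of_pos hri]
    have ai' : |-B.r i| ≤ B.r i := by rw [abs_neg, abs_of_pos hri]
    have aj : |B.r j| ≤ B.r j := by rw [abs_of_pos hrj]
    have aj' : |-B.r j| ≤ B.r j := by rw [abs_neg, abs_of_pos hrj]
    have h1 := hM _ (B.mem_two hadj ai aj)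
    have h2 := hM _ (B.mem_two hadj ai aj')
    have h3 := hM _ (B.mem_two hadj ai' aj)
    have h4 := hM _ (B.mem_two hadj ai' aj')
    rw [U_two] at h1 h2 h3 h4
    have h5 : |u j| * B.r j ≤ 0 := by
      rcases abs_cases (u i) with ⟨h, -⟩ | ⟨h, -⟩ <;> rcases abs_cases (u j) with ⟨h', -⟩ | ⟨h', -⟩ <;>
        rw [h] at hi <;> rw [h'] <;> linarith
    have h6 : |u j| ≤ 0 := by
      by_contra hc
      push Not at hc
      nlinarith
    exact abs_nonpos_iff.1 h6
  classical
  obtain ⟨σ, hσ1, hσ2⟩ := B.starFin (univ.filter fun i => |u i| * B.r i = M) (by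
    intro a ha b hb hab
    have h1 := hzero a b (mem_filter.1 ha).2 hab
    have h2 := (mem_filter.1 hb).2
    rw [h1, abs_zero, zero_mul] at h2
    linarith) (fun i => decide (0 < u i))
  have hσ : ∀ i, u i ≠ 0 → σ i = decide (0 < u i) := by
    intro i hi
    apply hσ1
    intro a ha hai
    exact hi (hzero a i (mem_filter.1 ha).2 hai)
  have hH : ∀ i, |u i| * B.r i = M → (i : ℕ) ∈ B.H σ := fun i hi =>
    hσ2 i (mem_filter.2 ⟨mem_univ _, hi⟩)
  refine ⟨σ, ?_⟩
  have hsgn : ∀ i s, u i ≠ 0 → 0 ≤ u i * s → sg (σ i) * s = |s| := by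
    intro i s hui h
    rw [hσ i hui]
    by_cases h0 : 0 < u i
    · simp only [h0, decide_true, sg, if_true, one_mul]
      rw [abs_of_nonneg (nonneg_of_mul_nonneg_right h h0)]
    · simp only [h0, decide_false, sg, Bool.false_eq_true, if_false]
      have h1 : u i < 0 := lt_of_le_of_ne (not_lt.1 h0) hui
      have : s ≤ 0 := by
        by_contra hc
        push Not at hc
        nlinarith
      rw [abs_of_nonpos this]; ring
  intro i j s t hx hU
  by_cases hij : i = j
  · subst hij
    rw [add_assoc, ← add_smul] at hx hU ⊢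
    rw [U_one] at hU
    rw [L_one]
    have hri := B.r_pos i
    have hui : u i ≠ 0 := by
      intro h; rw [h, zero_mul] at hU; linarith
    have h1 := hsgn i (s + t) hui (by rw [hU]; exact hM0.le)
    have h2 : |u i| * |s + t| = M := by rw [← abs_mul, hU, abs_of_pos hM0]
    have h3 : 0 < |u i| := abs_pos.2 hui
    have h4 : B.r i ≤ |s + t| := by
      have : |u i| * B.r i ≤ |u i| * |s + t| := by rw [h2]; exact hur i
      exact le_of_mul_le_mul_left this h3
    have h5 : 1 ≤ |s + t| / B.r i := by rwa [le_div_iff₀ hri, one_mul]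
    have e : B.a σ i / B.r i * (s + t) = B.p σ i * (|s + t| / B.r i) := by
      unfold a
      rw [← h1]; ring
    rw [e]
    have h6 := B.p_ge σ i
    have h7 := min_le_left (1 / 2) η
    nlinarith
  · rw [L_two]
    rw [U_two] at hU
    have hri := B.r_pos i
    have hrj := B.r_pos j
    have hsr : |s| ≤ B.r i := by
      have := B.abs_c_le i hx
      rwa [c_two, if_pos rfl, if_neg (Ne.symm hij), add_zero] at this
    have htr : |t| ≤ B.r j := by
      have := B.abs_c_le j hx
      rwa [c_two, if_pos rfl, if_neg hij, zero_add] at this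
    by_cases huj : u j = 0
    · exact B.half hη hM0 hur hσ hH hij hx (by rw [huj, zero_mul, add_zero] at hU; exact hU)
    by_cases hui : u i = 0
    · have hx' := hx
      rw [add_right_comm] at hx'
      have := B.half hη hM0 hur hσ hH (Ne.symm hij) hx'
        (by rw [hui, zero_mul, zero_add] at hU; exact hU)
      linarith
    have hx1 : B.o + (-s) • B.v i + t • B.v j ∈ B.K := by
      apply B.solid hx
      intro k
      rw [c_two, c_two]
      by_cases hik : i = k
      · subst hik
        simp [Ne.symm hij]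
      · simp [hik]
    have hx2 : B.o + s • B.v i + (-t) • B.v j ∈ B.K := by
      apply B.solid hx
      intro k
      rw [c_two, c_two]
      by_cases hjk : j = k
      · subst hjk
        simp [hij]
      · simp [hjk]
    have h1 := hM _ hx1
    have h2 := hM _ hx2
    rw [U_two] at h1 h2
    have h3 : 0 ≤ u i * s := by linarith
    have h4 : 0 ≤ u j * t := by linarith
    have h5 := hsgn i s hui h3
    have h6 := hsgn j t huj h4
    have e1 : B.a σ i / B.r i * s = B.p σ i * (|s| / B.r i) := by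
      unfold a
      rw [← h5]; ring
    have e2 : B.a σ j / B.r j * t = B.p σ j * (|t| / B.r j) := by
      unfold a
      rw [← h6]; ring
    rw [e1, e2]
    have h7 : u i * s = |u i| * |s| := by rw [← abs_mul, abs_of_nonneg h3]
    have h8 : u j * t = |u j| * |t| := by rw [← abs_mul, abs_of_nonneg h4]
    have h9 : |u i| * |s| ≤ M * (|s| / B.r i) := by
      rw [mul_div_assoc', le_div_iff₀ hri]
      nlinarith [hur i, abs_nonneg s]
    have h10 : |u j| * |t| ≤ M * (|t| / B.r j) := by
      rw [mul_div_assoc', le_div_iff₀ hrj]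
      nlinarith [hur j, abs_nonneg t]
    have h11 : 1 ≤ |s| / B.r i + |t| / B.r j := by
      have : M * 1 ≤ M * (|s| / B.r i + |t| / B.r j) := by
        rw [mul_add]; linarith
      exact le_of_mul_le_mul_left this hM0
    have h12 := B.p_ge σ i
    have h13 := B.p_ge σ j
    have h14 : 0 ≤ |s| / B.r i := div_nonneg (abs_nonneg _) hri.le
    have h15 : 0 ≤ |t| / B.r j := div_nonneg (abs_nonneg _) hrj.le
    have h16 := min_le_left (1 / 2) η
    nlinarith

end Body

end Pool.Agent.TH365.TwoGen
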