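import Mathlib.Data.Finset.Max
import Mathlib.Data.Finset.Range
import Mathlib.Tactic

set_option autoImplicit false

/-!
A combinatorial selection lemma: for every graph on the natural numbers and every number `k` of
vertices, sign vectors `σ` select independent sets `sel σ k` such that for every independent set
`A` of vertices and every choice of signs outside the neighbourhood of `A` some sign vector with
these signs selects a set which contains `A`.
-/

namespace Pool.Agent.TH365.TwoGen

open Finset

open Classical in
/-- The selected independent set of vertices below `k`. The vertex `k` is added if it has no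
neighbour in the selected set; otherwise it replaces its neighbours if it has the same sign as the
smallest of them. -/
noncomputable def sel (adj : ℕ → ℕ → Prop) (σ : ℕ → Bool) : ℕ → Finset ℕ
  | 0 => ∅
  | k + 1 =>
    if h : ((sel adj σ k).filter (fun j => adj j k)).Nonempty then
      (if σ k = σ (((sel adj σ k).filter (fun j => adj j k)).min' h) then
        insert k (sel adj σ k \ (sel adj σ k).filter (fun j => adj j k)) else sel adj σ k)
    else insert k (sel adj σ k)

theorem sel_sub (adj : ℕ → ℕ → Prop) (σ : ℕ → Bool) (k : ℕ) : sel adj σ k ⊆ range k := by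
  induction k with
  | zero => simp [sel]
  | succ k ih =>
    intro i hi
    rw [sel] at hi
    rw [mem_range]
    split_ifs at hi with h1 h2
    · rcases mem_insert.1 hi with rfl | hi
      · omega
      · have := mem_range.1 (ih (mem_sdiff.1 hi).1)
        omega
    · have := mem_range.1 (ih hi)
      omega
    · rcases mem_insert.1 hi with rfl | hi
      · omega
      · have := mem_range.1 (ih hi)
        omega

theorem sel_congr (adj : ℕ → ℕ → Prop) (σ τ : ℕ → Bool) (k : ℕ) (h : ∀ i < k, σ i = τ i) :
    sel adj σ k = sel adj τ k := by
  classical
  induction k with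
  | zero => rfl
  | succ k ih =>
    have e := ih (fun i hi => h i (by omega))
    have hb : ∀ hn : ((sel adj τ k).filter (fun j => adj j k)).Nonempty,
        σ (((sel adj τ k).filter (fun j => adj j k)).min' hn) =
          τ (((sel adj τ k).filter (fun j => adj j k)).min' hn) := by
      intro hn
      apply h
      have h1 := (mem_filter.1 (min'_mem _ hn)).1
      have := mem_range.1 (sel_sub adj τ k h1)
      omega
    rw [sel, sel]
    simp only [e, h k (by omega)]
    split_ifs with h1 h2 h3 h3
    · rfl
    · exact absurd (h2.trans (hb h1)) h3
    · exact absurd (h3.trans (hb h1).symm) h2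
    · rfl
    · rfl

theorem sel_indep (adj : ℕ → ℕ → Prop) (hs : ∀ a b, adj a b → adj b a) (hi : ∀ a, ¬ adj a a)
    (σ : ℕ → Bool) (k : ℕ) : ∀ a ∈ sel adj σ k, ∀ b ∈ sel adj σ k, ¬ adj a b := by
  classical
  induction k with
  | zero => simp [sel]
  | succ k ih =>
    intro a ha b hb hab
    rw [sel] at ha hb
    split_ifs at ha hb with h1 h2
    · rcases mem_insert.1 ha with rfl | ha
      · rcases mem_insert.1 hb with rfl | hb
        · exact hi _ hab
        · rw [mem_sdiff, mem_filter, not_and] at hb
          exact hb.2 hb.1 (hs _ _ hab)
      · rcases mem_insert.1 hb with rfl | hb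
        · rw [mem_sdiff, mem_filter, not_and] at ha
          exact ha.2 ha.1 hab
        · exact ih a (mem_sdiff.1 ha).1 b (mem_sdiff.1 hb).1 hab
    · exact ih a ha b hb hab
    · rw [not_nonempty_iff_eq_empty, filter_eq_empty_iff] at h1
      rcases mem_insert.1 ha with rfl | ha
      · rcases mem_insert.1 hb with rfl | hb
        · exact hi _ hab
        · exact h1 hb (hs _ _ hab)
      · rcases mem_insert.1 hb with rfl | hb
        · exact h1 ha hab
        · exact ih a ha b hb hab

/-- The selection lemma. -/
theorem star (adj : ℕ → ℕ → Prop) (hs : ∀ a b, adj a b → adj b a) (hi : ∀ a, ¬ adj a a)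
    (k : ℕ) : ∀ (A : Finset ℕ), A ⊆ range k → (∀ a ∈ A, ∀ b ∈ A, ¬ adj a b) →
      ∀ ε : ℕ → Bool, ∃ σ : ℕ → Bool, (∀ i, (∀ a ∈ A, ¬ adj a i) → σ i = ε i) ∧
        A ⊆ sel adj σ k := by
  classical
  induction k with
  | zero =>
    intro A hA _ ε
    refine ⟨ε, fun _ _ => rfl, ?_⟩
    intro a ha
    have := mem_range.1 (hA ha)
    omega
  | succ k ih =>
    intro A hA hind ε
    by_cases hk : k ∈ A
    · -- `k` belongs to `A`
      have hA' : A.erase k ⊆ range k := by
        intro a ha
        have h1 := mem_range.1 (hA (mem_of_mem_erase ha))
        have h2 := ne_of_mem_erase ha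
        rw [mem_range]; omega
      obtain ⟨σ, hσ1, hσ2⟩ := ih (A.erase k) hA'
        (fun a ha b hb => hind a (mem_of_mem_erase ha) b (mem_of_mem_erase hb))
        (fun i => if adj i k then ε k else ε i)
      have hkk : ∀ a ∈ A.erase k, ¬ adj a k := fun a ha => hind a (mem_of_mem_erase ha) k hk
      have hσk : σ k = ε k := by
        have := hσ1 k hkk
        simpa [hi k] using this
      refine ⟨σ, ?_, ?_⟩
      · intro i hia
        have h1 := hσ1 i (fun a ha => hia a (mem_of_mem_erase ha))
        rw [h1]
        have : ¬ adj i k := fun h => hia k hk (hs _ _ h)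
        simp [this]
      · rw [sel]
        split_ifs with h1 h2
        · intro a ha
          by_cases hak : a = k
          · rw [hak]; exact mem_insert_self _ _
          · apply mem_insert_of_mem
            have ha' : a ∈ A.erase k := mem_erase.2 ⟨hak, ha⟩
            rw [mem_sdiff, mem_filter, not_and]
            exact ⟨hσ2 ha', fun _ => hkk a ha'⟩
        · exfalso
          apply h2
          have h3 := mem_filter.1 (min'_mem _ h1)
          set u := ((sel adj σ k).filter (fun j => adj j k)).min' h1 with hu
          have h4 := hσ1 u (fun a ha hau =>
            sel_indep adj hs hi σ k a (hσ2 ha) u h3.1 hau)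
          rw [h4, hσk]
          simp [h3.2]
        · intro a ha
          by_cases hak : a = k
          · rw [hak]; exact mem_insert_self _ _
          · exact mem_insert_of_mem (hσ2 (mem_erase.2 ⟨hak, ha⟩))
    · have hA' : A ⊆ range k := by
        intro a ha
        have h1 := mem_range.1 (hA ha)
        have h2 : a ≠ k := fun h => hk (h ▸ ha)
        rw [mem_range]; omega
      obtain ⟨σ, hσ1, hσ2⟩ := ih A hA' hind ε
      by_cases hN : ∀ a ∈ A, ¬ adj a k
      · refine ⟨σ, hσ1, ?_⟩
        rw [sel]
        split_ifs with h1 h2
        · intro a ha
          apply mem_insert_of_mem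
          rw [mem_sdiff, mem_filter, not_and]
          exact ⟨hσ2 ha, fun _ => hN a ha⟩
        · exact hσ2
        · exact fun a ha => mem_insert_of_mem (hσ2 ha)
      · push Not at hN
        obtain ⟨a0, ha0, hadj⟩ := hN
        have hne : ((sel adj σ k).filter (fun j => adj j k)).Nonempty :=
          ⟨a0, mem_filter.2 ⟨hσ2 ha0, hadj⟩⟩
        set u := ((sel adj σ k).filter (fun j => adj j k)).min' hne with hu
        set τ : ℕ → Bool := fun i => if i = k then ! (σ u) else σ i with hτ
        have huk : u < k := by
          have h3 := mem_filter.1 (min'_mem _ hne)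
          exact mem_range.1 (sel_sub adj σ k h3.1)
        have hcong : sel adj τ k = sel adj σ k := by
          apply sel_congr
          intro i hik
          have : i ≠ k := by omega
          simp [hτ, this]
        refine ⟨τ, ?_, ?_⟩
        · intro i hia
          have hik : i ≠ k := fun h => hia a0 ha0 (h ▸ hadj)
          simp only [hτ, hik, if_false]
          exact hσ1 i hia
        · rw [sel]
          simp only [hcong]
          have huk' : u ≠ k := by omega
          split_ifs with h2
          · exfalso
            rw [← hu] at h2
            simp only [hτ, if_true, huk', if_false] at h2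
            revert h2
            cases σ u <;> simp
          · exact hσ2

end Pool.Agent.TH365.TwoGen
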