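import Pool.Agent.TH365.TwoGen

set_option autoImplicit false

/-!
Separation of all faces by at most `2 ^ d` hyperplanes.
-/

open scoped InnerProductSpace
open Finset

namespace Pool.Agent.TH365.TwoGen

variable {d : ℕ}

namespace Body

variable (B : Body d)

/-- The face of the body in the direction `w`. -/
def face (w : EuclideanSpace ℝ (Fin d)) : Set (EuclideanSpace ℝ (Fin d)) :=
  {x ∈ B.K | ∀ y ∈ B.K, ⟪w, y⟫_ℝ ≤ ⟪w, x⟫_ℝ}

theorem face_exposed (w : EuclideanSpace ℝ (Fin d)) : IsExposed ℝ B.K (B.face w) := by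
  intro _
  refine ⟨innerSL ℝ w, ?_⟩
  ext x
  simp [face]

/-- A bound for a continuous linear functional on the extreme points of a face holds on the
face. -/
theorem face_bound (w z : EuclideanSpace ℝ (Fin d)) (β : ℝ)
    (h : ∀ x ∈ B.K.extremePoints ℝ, x ∈ B.face w → β ≤ ⟪z, x⟫_ℝ) :
    ∀ x ∈ B.face w, β ≤ ⟪z, x⟫_ℝ := by
  have hex := B.face_exposed w
  have hcomp : IsCompact (B.face w) := hex.isCompact B.comp
  have hconv : Convex ℝ (B.face w) := hex.convex B.conv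
  have hKM := closure_convexHull_extremePoints hcomp hconv
  have hsub : (B.face w).extremePoints ℝ ⊆ {x | β ≤ ⟪z, x⟫_ℝ} := by
    intro x hx
    exact h x (hex.isExtreme.extremePoints_subset_extremePoints hx) (extremePoints_subset hx)
  have hc1 : Convex ℝ {x : EuclideanSpace ℝ (Fin d) | β ≤ ⟪z, x⟫_ℝ} :=
    convex_halfSpace_ge (f := fun x => ⟪z, x⟫_ℝ) (innerₛₗ ℝ z).isLinear β
  have hc2 : IsClosed {x : EuclideanSpace ℝ (Fin d) | β ≤ ⟪z, x⟫_ℝ} :=
    isClosed_le continuous_const (continuous_const.inner continuous_id)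
  have := closure_minimal (convexHull_min hsub hc1) hc2
  rw [hKM] at this
  exact this

theorem U_inner (w x : EuclideanSpace ℝ (Fin d)) :
    B.U (fun i => ⟪w, B.v i⟫_ℝ) x = ⟪w, x⟫_ℝ - ⟪w, B.o⟫_ℝ := by
  nth_rewrite 2 [B.eq_comb x]
  rw [inner_add_right, inner_sum]
  unfold U
  simp only [inner_smul_right]
  rw [add_sub_cancel_left]
  exact sum_congr rfl fun i _ => by ring

/-- The main separation theorem. -/
theorem separation (hext : ∀ x ∈ B.K.extremePoints ℝ, ∃ (i j : Fin d) (s t : ℝ),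
      x = B.o + s • B.v i + t • B.v j) :
    ∃ S : Finset (EuclideanSpace ℝ (Fin d) × ℝ), S.card ≤ 2 ^ d ∧
      (∀ h ∈ S, ⟪h.1, B.o⟫_ℝ < h.2) ∧
      ∀ w x₀ : EuclideanSpace ℝ (Fin d), w ≠ 0 → x₀ ∈ B.K → (∀ y ∈ B.K, ⟪w, y⟫_ℝ ≤ ⟪w, x₀⟫_ℝ) →
        ∃ h ∈ S, ∀ x ∈ B.K, ⟪w, x⟫_ℝ = ⟪w, x₀⟫_ℝ → h.2 < ⟪h.1, x⟫_ℝ := by
  classical
  obtain ⟨η, hη0, hη⟩ := B.exists_eta
  choose W hW using fun a : Fin d → ℝ => B.L_eq a
  obtain ⟨m, hm⟩ : ∃ m : ℝ, m = min (1 / 2) η := ⟨_, rfl⟩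
  have hm0 : 0 < m := by rw [hm]; exact lt_min (by norm_num) hη0
  refine ⟨univ.image (fun σ : Fin d → Bool => (W (B.a σ), ⟪W (B.a σ), B.o⟫_ℝ + m / 2)), ?_, ?_, ?_⟩
  · refine card_image_le.trans ?_
    simp
  · intro h hh
    obtain ⟨σ, -, rfl⟩ := mem_image.1 hh
    dsimp only
    linarith
  · intro w x₀ hw hx₀ hmax
    obtain ⟨M, hM⟩ : ∃ M : ℝ, M = ⟪w, x₀⟫_ℝ - ⟪w, B.o⟫_ℝ := ⟨_, rfl⟩
    have hM0 : 0 < M := by
      have h1 : Filter.Tendsto (fun t : ℝ => B.o + t • w) (nhds 0)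
          (nhds (B.o + (0 : ℝ) • w)) := (Continuous.tendsto (by fun_prop) 0)
      rw [zero_smul, add_zero] at h1
      have h2 := h1.eventually (mem_interior_iff_mem_nhds.1 B.ho)
      obtain ⟨ε, hε, h3⟩ := Metric.eventually_nhds_iff.1 h2
      have h4 := h3 (y := ε / 2) (by
        rw [Real.dist_eq, sub_zero, abs_of_pos (by linarith)]; linarith)
      have h5 := hmax _ h4
      rw [inner_add_right, inner_smul_right, real_inner_self_eq_norm_sq] at h5
      have h6 : 0 < ‖w‖ ^ 2 := by positivity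
      rw [hM]
      nlinarith
    obtain ⟨σ, hσ⟩ := B.main_ineq hη (u := fun i => ⟪w, B.v i⟫_ℝ) hM0 (by
      intro x hx
      rw [U_inner, hM]
      linarith [hmax x hx])
    refine ⟨(W (B.a σ), ⟪W (B.a σ), B.o⟫_ℝ + m / 2), mem_image.2 ⟨σ, mem_univ _, rfl⟩, ?_⟩
    intro x hx hxe
    dsimp only
    have hxf : x ∈ B.face w := ⟨hx, fun y hy => by rw [hxe]; exact hmax y hy⟩
    have := B.face_bound w (W (B.a σ)) (⟪W (B.a σ), B.o⟫_ℝ + m) (by
      intro y hy hyf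
      obtain ⟨i, j, s, t, hyst⟩ := hext y hy
      have hyK : y ∈ B.K := hyf.1
      have hyM : B.U (fun i => ⟪w, B.v i⟫_ℝ) y = M := by
        rw [U_inner, hM]
        have h1 := hyf.2 x₀ hx₀
        have h2 := hmax y hyK
        linarith
      rw [hyst] at hyK hyM
      have h3 := hσ i j s t hyK hyM
      rw [← hyst, hW, ← hm] at h3
      linarith) x hxf
    linarith

end Body

end Pool.Agent.TH365.TwoGen
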